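import Pool.Agent.TorDeg.Targets

set_option autoImplicit false

/-!
# CALM: the final charge of calm vertices
-/

namespace Pool.Agent.TorDeg

namespace HCALM

variable {V : Type} [Fintype V] {G : SimpleGraph V} {nx : V → V → V} {k : V → V → ℕ}

lemma wt_cases {a : ℕ} (h3 : 3 ≤ a) (h5 : a ≠ 5) :
    (a = 3 ∧ wt a = -10) ∨ (a = 4 ∧ wt a = 0) ∨ (6 ≤ a ∧ wt a = 10) := by
  unfold wt
  rcases Nat.lt_or_ge a 4 with h | h
  · left
    have : a = 3 := by omega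
    subst this
    simp
  · rcases Nat.lt_or_ge a 5 with h' | h'
    · right; left
      have : a = 4 := by omega
      subst this
      simp
    · right; right
      refine ⟨by omega, ?_⟩
      rw [if_neg (by omega), if_neg (by omega), if_neg h5]

/-- the contribution of the corner `(v, m)` -/
noncomputable def val (G : SimpleGraph V) (nx : V → V → V) (k : V → V → ℕ) (v m : V) : ℤ :=
  wt (k v m) - snt G nx k v m + rcv G nx k v m

/-- the corners which are not in a 5-face -/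
lemma val_cases {v m : V} (h3 : 3 ≤ k v m) (h5 : k v m ≠ 5) :
    (k v m = 3 ∧ (val G nx k v m = -10 ∨
      (val G nx k v m = -15 ∧ 5 ≤ deg G v ∧ k (nx m v) m = 5))) ∨
    (k v m = 4 ∧ val G nx k v m = 0) ∨ (6 ≤ k v m ∧ val G nx k v m = 10) := by
  have hr : rcv G nx k v m = 0 := by
    unfold rcv
    rw [if_neg]
    rintro ⟨h, -⟩
    exact h5 h
  unfold val
  rw [hr]
  rcases wt_cases h3 h5 with ⟨h, w⟩ | ⟨h, w⟩ | ⟨h, w⟩
  · left
    refine ⟨h, ?_⟩
    rw [w]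
    by_cases hs : 5 ≤ deg G v ∧ k v m = 3 ∧ k (nx m v) m = 5
    · right
      unfold snt
      rw [if_pos hs]
      exact ⟨by norm_num, hs.1, hs.2.2⟩
    · left
      unfold snt
      rw [if_neg hs]
      norm_num
  · right; left
    refine ⟨h, ?_⟩
    have hs : snt G nx k v m = 0 := by
      unfold snt
      rw [if_neg]
      omega
    rw [w, hs]
    norm_num
  · right; right
    refine ⟨h, ?_⟩
    have hs : snt G nx k v m = 0 := by
      unfold snt
      rw [if_neg]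
      omega
    rw [w, hs]
    norm_num

lemma card_nb (v : V) : (nb G v).card = deg G v := rfl

lemma mem_nb {v m : V} : m ∈ nb G v ↔ G.Adj v m := by
  unfold nb
  simp

/-- averages over triples of consecutive corners -/
lemma avg (hA : T_AV) (hM : TMap G nx k) (v : V) (F T : V → ℤ)
    (h : ∀ m, G.Adj v m → T m ≤ F m + F (nx v m) + F (nx v (nx v m))) :
    ∑ m ∈ nb G v, T m ≤ 3 * ∑ m ∈ nb G v, F m := by
  have h1 := hA V G nx k hM v F
  have h2 := hA V G nx k hM v (fun x => F (nx v x))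
  have h3 : ∑ m ∈ nb G v, T m ≤ ∑ m ∈ nb G v, (F m + F (nx v m) + F (nx v (nx v m))) :=
    Finset.sum_le_sum fun m hm => h m (mem_nb.1 hm)
  rw [Finset.sum_add_distrib, Finset.sum_add_distrib] at h3
  linarith

/-- three consecutive corners of a calm vertex -/
lemma triple (hM : TMap G nx k) (hU : U5 G) (hd : ∀ v, 4 ≤ deg G v) (hS : T_NS2) {v : V}
    (hc : Calm G nx k v) {m : V} (hm : G.Adj v m) :
    -20 ≤ val G nx k v m + val G nx k v (nx v m) + val G nx k v (nx v (nx v m)) := by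
  have ha := hM.adj _ _ hm
  have hb := hM.adj _ _ ha
  have c1 := hc.ttt m hm
  have c2 := hc.tq m hm
  have c3 := hc.qt m hm
  have c4 := hc.tq _ ha
  have c5 := hc.qt _ ha
  have s1 := hS V G nx k hM hU hd v m _ hm rfl
  have s2 := hS V G nx k hM hU hd v _ _ ha rfl
  rcases val_cases (G := G) (nx := nx) (hM.three _ _ hm) (hc.five _ hm) with ⟨p, q | ⟨q, -, r⟩⟩ | ⟨p, q⟩ | ⟨p, q⟩ <;>
  rcases val_cases (G := G) (nx := nx) (hM.three _ _ ha) (hc.five _ ha) with ⟨p', q' | ⟨q', -, r'⟩⟩ | ⟨p', q'⟩ | ⟨p', q'⟩ <;>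
  rcases val_cases (G := G) (nx := nx) (hM.three _ _ hb) (hc.five _ hb) with ⟨p'', q'' | ⟨q'', -, r''⟩⟩ | ⟨p'', q''⟩ | ⟨p'', q''⟩ <;>
  rw [q, q', q''] <;> omega

/-- possible values -/
lemma vals {v m : V} (h3 : 3 ≤ k v m) (h5 : k v m ≠ 5) :
    (val G nx k v m = -15 ∨ val G nx k v m = -10 ∨ val G nx k v m = 0 ∨ val G nx k v m = 10) ∧
    (val G nx k v m ≤ -10 ↔ k v m = 3) ∧ (val G nx k v m = 0 ↔ k v m = 4) ∧
    (val G nx k v m = 10 ↔ 6 ≤ k v m) ∧
    (val G nx k v m = -15 → 5 ≤ deg G v ∧ k (nx m v) m = 5) := by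
  rcases val_cases (G := G) (nx := nx) h3 h5 with ⟨p, q | ⟨q, r, r'⟩⟩ | ⟨p, q⟩ | ⟨p, q⟩ <;>
  rw [q] <;> refine ⟨?_, ?_, ?_, ?_, ?_⟩ <;> omega

/-- two consecutive corners of a calm vertex -/
lemma pair (hM : TMap G nx k) (hU : U5 G) (hd : ∀ v, 4 ≤ deg G v) (hS : T_NS2) {v : V}
    (hc : Calm G nx k v) {m : V} (hm : G.Adj v m) :
    ¬ (val G nx k v m ≤ -10 ∧ val G nx k v (nx v m) = 0) ∧
    ¬ (val G nx k v m = 0 ∧ val G nx k v (nx v m) ≤ -10) ∧
    -25 ≤ val G nx k v m + val G nx k v (nx v m) := by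
  have ha := hM.adj _ _ hm
  have c2 := hc.tq m hm
  have c3 := hc.qt m hm
  have s1 := hS V G nx k hM hU hd v m _ hm rfl
  rcases val_cases (G := G) (nx := nx) (hM.three _ _ hm) (hc.five _ hm) with
    ⟨p, q | ⟨q, -, r⟩⟩ | ⟨p, q⟩ | ⟨p, q⟩ <;>
  rcases val_cases (G := G) (nx := nx) (hM.three _ _ ha) (hc.five _ ha) with
    ⟨p', q' | ⟨q', -, r'⟩⟩ | ⟨p', q'⟩ | ⟨p', q'⟩ <;>
  rw [q, q'] <;> refine ⟨?_, ?_, ?_⟩ <;> omega

/-- no three consecutive triangles -/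
lemma trip (hM : TMap G nx k) {v : V} (hc : Calm G nx k v) {m : V} (hm : G.Adj v m) :
    ¬ (val G nx k v m ≤ -10 ∧ val G nx k v (nx v m) ≤ -10 ∧
      val G nx k v (nx v (nx v m)) ≤ -10) := by
  have ha := hM.adj _ _ hm
  have hb := hM.adj _ _ ha
  rw [(vals (hM.three _ _ hm) (hc.five _ hm)).2.1, (vals (hM.three _ _ ha) (hc.five _ ha)).2.1,
    (vals (hM.three _ _ hb) (hc.five _ hb)).2.1]
  exact hc.ttt m hm

lemma arith5 {a b c d e : ℤ} (ha : a = -15 ∨ a = -10 ∨ a = 0 ∨ a = 10)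
    (hb : b = -15 ∨ b = -10 ∨ b = 0 ∨ b = 10) (hc : c = -15 ∨ c = -10 ∨ c = 0 ∨ c = 10)
    (hd : d = -15 ∨ d = -10 ∨ d = 0 ∨ d = 10) (he : e = -15 ∨ e = -10 ∨ e = 0 ∨ e = 10)
    (p1 : ¬ (a ≤ -10 ∧ b = 0) ∧ ¬ (a = 0 ∧ b ≤ -10) ∧ -25 ≤ a + b)
    (p2 : ¬ (b ≤ -10 ∧ c = 0) ∧ ¬ (b = 0 ∧ c ≤ -10) ∧ -25 ≤ b + c)
    (p3 : ¬ (c ≤ -10 ∧ d = 0) ∧ ¬ (c = 0 ∧ d ≤ -10) ∧ -25 ≤ c + d)
    (p4 : ¬ (d ≤ -10 ∧ e = 0) ∧ ¬ (d = 0 ∧ e ≤ -10) ∧ -25 ≤ d + e)
    (p5 : ¬ (e ≤ -10 ∧ a = 0) ∧ ¬ (e = 0 ∧ a ≤ -10) ∧ -25 ≤ e + a)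
    (q1 : ¬ (a ≤ -10 ∧ b ≤ -10 ∧ c ≤ -10)) (q2 : ¬ (b ≤ -10 ∧ c ≤ -10 ∧ d ≤ -10))
    (q3 : ¬ (c ≤ -10 ∧ d ≤ -10 ∧ e ≤ -10)) (q4 : ¬ (d ≤ -10 ∧ e ≤ -10 ∧ a ≤ -10))
    (q5 : ¬ (e ≤ -10 ∧ a ≤ -10 ∧ b ≤ -10)) : -20 ≤ a + b + c + d + e := by
  rcases ha with rfl | rfl | rfl | rfl <;> rcases hb with rfl | rfl | rfl | rfl <;>
    (try exact absurd p1 (by decide)) <;> clear p1 <;>
    rcases hc with rfl | rfl | rfl | rfl <;> (try exact absurd p2 (by decide)) <;>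
    (try exact absurd q1 (by decide)) <;> clear p2 q1 <;>
    rcases hd with rfl | rfl | rfl | rfl <;> (try exact absurd p3 (by decide)) <;>
    (try exact absurd q2 (by decide)) <;> clear p3 q2 <;>
    rcases he with rfl | rfl | rfl | rfl <;> (try exact absurd p4 (by decide)) <;>
    (try exact absurd q3 (by decide)) <;> (try exact absurd p5 (by decide)) <;>
    (try exact absurd q4 (by decide)) <;> (try exact absurd q5 (by decide)) <;> decide

lemma arith4 {a b c d : ℤ} (ha : a = -10 ∨ a = 0 ∨ a = 10)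
    (hb : b = -10 ∨ b = 0 ∨ b = 10) (hc : c = -10 ∨ c = 0 ∨ c = 10)
    (hd : d = -10 ∨ d = 0 ∨ d = 10)
    (p1 : ¬ (a ≤ -10 ∧ b = 0) ∧ ¬ (a = 0 ∧ b ≤ -10) ∧ -25 ≤ a + b)
    (p2 : ¬ (b ≤ -10 ∧ c = 0) ∧ ¬ (b = 0 ∧ c ≤ -10) ∧ -25 ≤ b + c)
    (p3 : ¬ (c ≤ -10 ∧ d = 0) ∧ ¬ (c = 0 ∧ d ≤ -10) ∧ -25 ≤ c + d)
    (p4 : ¬ (d ≤ -10 ∧ a = 0) ∧ ¬ (d = 0 ∧ a ≤ -10) ∧ -25 ≤ d + a)
    (q1 : ¬ (a ≤ -10 ∧ b ≤ -10 ∧ c ≤ -10)) (q2 : ¬ (b ≤ -10 ∧ c ≤ -10 ∧ d ≤ -10))
    (q3 : ¬ (c ≤ -10 ∧ d ≤ -10 ∧ a ≤ -10)) (q4 : ¬ (d ≤ -10 ∧ a ≤ -10 ∧ b ≤ -10)) :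
    0 ≤ a + b + c + d ∧ (a = 0 → b = 10 ∨ c = 10 ∨ d = 10 → 10 ≤ a + b + c + d) := by
  rcases ha with rfl | rfl | rfl <;> rcases hb with rfl | rfl | rfl <;>
    (try exact absurd p1 (by decide)) <;> clear p1 <;>
    rcases hc with rfl | rfl | rfl <;> (try exact absurd p2 (by decide)) <;>
    (try exact absurd q1 (by decide)) <;> clear p2 q1 <;>
    rcases hd with rfl | rfl | rfl <;> (try exact absurd p3 (by decide)) <;>
    (try exact absurd q2 (by decide)) <;> (try exact absurd q3 (by decide)) <;>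
    (try exact absurd p4 (by decide)) <;> (try exact absurd q4 (by decide)) <;> decide

end HCALM

open HCALM

theorem tCALM (_hN : T_NX) (h4 : T_S4) (h5 : T_S5) (hA : T_AV) (hS : T_NS2) : T_CALM := by
  intro V _ G nx k hM hU hd v hc
  have hfc : fc G nx k v = 30 * ((deg G v : ℤ) - 4) + ∑ m ∈ nb G v, val G nx k v m := rfl
  have hge5 : 5 ≤ deg G v → 10 ≤ fc G nx k v := by
    intro hv5
    rcases Nat.lt_or_ge 5 (deg G v) with hv6 | hv6
    · -- degree at least 6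
      have h := avg hA hM v (fun m => val G nx k v m) (fun _ => -20)
        fun m hm => triple hM hU hd hS hc hm
      rw [Finset.sum_const, card_nb] at h
      simp only [nsmul_eq_mul] at h
      have h6 : (6 : ℤ) ≤ deg G v := by exact_mod_cast hv6
      linarith
    · -- degree 5
      have hv5' : deg G v = 5 := le_antisymm hv6 hv5
      have hne : (nb G v).Nonempty := by
        rw [← Finset.card_pos, card_nb]
        omega
      obtain ⟨m, hm⟩ := hne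
      rw [mem_nb] at hm
      obtain ⟨e, hs⟩ := h5 V G nx k hM v m hm hv5'
      have ha := hM.adj _ _ hm
      have hb := hM.adj _ _ ha
      have hcc := hM.adj _ _ hb
      have hdd := hM.adj _ _ hcc
      rw [hfc, hs, hv5']
      have p4 := pair hM hU hd hS hc hdd
      have t3 := trip hM hc hcc
      have t4 := trip hM hc hdd
      rw [e] at p4 t3 t4
      have h := arith5 (vals (hM.three _ _ hm) (hc.five _ hm)).1
        (vals (hM.three _ _ ha) (hc.five _ ha)).1 (vals (hM.three _ _ hb) (hc.five _ hb)).1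
        (vals (hM.three _ _ hcc) (hc.five _ hcc)).1 (vals (hM.three _ _ hdd) (hc.five _ hdd)).1
        (pair hM hU hd hS hc hm) (pair hM hU hd hS hc ha) (pair hM hU hd hS hc hb)
        (pair hM hU hd hS hc hcc) p4 (trip hM hc hm) (trip hM hc ha) (trip hM hc hb) t3 t4
      push_cast
      linarith
  -- degree 4
  have hd4 : deg G v = 4 → ∀ m, G.Adj v m → 0 ≤ fc G nx k v ∧
      (k v m = 4 → (∃ m', G.Adj v m' ∧ 6 ≤ k v m') → 10 ≤ fc G nx k v) := by
    intro hv4 m hm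
    obtain ⟨e, hs⟩ := h4 V G nx k hM v m hm hv4
    have ha := hM.adj _ _ hm
    have hb := hM.adj _ _ ha
    have hcc := hM.adj _ _ hb
    have hv : ∀ x, G.Adj v x → val G nx k v x = -10 ∨ val G nx k v x = 0 ∨
        val G nx k v x = 10 := by
      intro x hx
      obtain ⟨h1, -, -, -, h2⟩ := vals (G := G) (nx := nx) (hM.three _ _ hx) (hc.five _ hx)
      rcases h1 with h1 | h1 | h1 | h1
      · have := (h2 h1).1
        omega
      · exact Or.inl h1
      · exact Or.inr (Or.inl h1)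
      · exact Or.inr (Or.inr h1)
    have p3 := pair hM hU hd hS hc hcc
    have t2 := trip hM hc hb
    have t3 := trip hM hc hcc
    rw [e] at p3 t2 t3
    have h := arith4 (hv _ hm) (hv _ ha) (hv _ hb) (hv _ hcc) (pair hM hU hd hS hc hm)
      (pair hM hU hd hS hc ha) (pair hM hU hd hS hc hb) p3 (trip hM hc hm) (trip hM hc ha) t2 t3
    rw [hfc, hs, hv4]
    refine ⟨by push_cast; linarith [h.1], ?_⟩
    rintro hk ⟨m', hm', hk'⟩
    obtain ⟨i, hi, him⟩ := hM.trans v m m' hm hm'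
    have h0 : val G nx k v m = 0 := (vals (hM.three _ _ hm) (hc.five _ hm)).2.2.1.2 hk
    have h10 : val G nx k v m' = 10 := (vals (hM.three _ _ hm') (hc.five _ hm')).2.2.2.1.2 hk'
    have h' := h.2 h0
    have h'' : 10 ≤ val G nx k v m + val G nx k v (nx v m) + val G nx k v (nx v (nx v m)) +
        val G nx k v (nx v (nx v (nx v m))) := by
      apply h'
      rw [hv4] at hi
      have : i = 0 ∨ i = 1 ∨ i = 2 ∨ i = 3 := by omega
      rcases this with rfl | rfl | rfl | rfl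
      · simp only [Function.iterate_zero, id_eq] at him
        rw [← him] at h10
        omega
      · left
        rw [← h10, ← him]
        rfl
      · right; left
        rw [← h10, ← him]
        rfl
      · right; right
        rw [← h10, ← him]
        rfl
    push_cast
    linarith
  refine ⟨?_, hge5, ?_⟩
  · rcases Nat.lt_or_ge 4 (deg G v) with h | h
    · linarith [hge5 h]
    · have hv4 := le_antisymm h (hd v)
      have hne : (nb G v).Nonempty := by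
        rw [← Finset.card_pos, card_nb]
        omega
      obtain ⟨m, hm⟩ := hne
      rw [mem_nb] at hm
      exact (hd4 hv4 m hm).1
  · rintro ⟨m, hm, hk⟩ h6
    rcases Nat.lt_or_ge 4 (deg G v) with h | h
    · exact hge5 h
    · exact (hd4 (le_antisymm h (hd v)) m hm).2 hk h6

end Pool.Agent.TorDeg
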