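import Pool.Agent.TorDeg.Targets

set_option autoImplicit false

/-!
# TOR-BR: the reducible configuration with a vertex of degree three
-/

namespace Pool.Agent.TorDeg

namespace BR

variable {V C : Type}

theorem res_of_not (H : SimpleGraph (V × C)) (g : V × C → ℕ) (x y : V × C) (h : ¬ H.Adj x y) :
    res H g x y = g y := by
  classical
  unfold res
  rw [if_neg h]

theorem res_of_adj (H : SimpleGraph (V × C)) (g : V × C → ℕ) (x y : V × C) (h : H.Adj x y) :
    res H g x y = g y - 1 := by
  classical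
  unfold res
  rw [if_pos h]

theorem res_ge (H : SimpleGraph (V × C)) (g : V × C → ℕ) (x y : V × C) :
    g y ≤ res H g x y + 1 := by
  classical
  unfold res
  split_ifs <;> omega

theorem sm_not_adj [Fintype C] (G : SimpleGraph V) (H : SimpleGraph (V × C)) (hc : Cov G H)
    (g : V × C → ℕ) (v w : V) (i : C) (h : ¬ G.Adj v w) :
    sm (res H g (v, i)) w = sm g w := by
  unfold sm
  refine Finset.sum_congr rfl (fun j _ => ?_)
  exact res_of_not H g _ _ (fun hj => h (hc.adj _ _ _ _ hj))

theorem sm_no_mate [Fintype C] (H : SimpleGraph (V × C))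
    (g : V × C → ℕ) (v w : V) (i : C) (h : ∀ j, H.Adj (v, i) (w, j) → g (w, j) = 0) :
    sm (res H g (v, i)) w = sm g w := by
  classical
  unfold sm
  refine Finset.sum_congr rfl (fun j _ => ?_)
  by_cases hj : H.Adj (v, i) (w, j)
  · rw [res_of_adj H g _ _ hj, h j hj]
  · exact res_of_not H g _ _ hj

theorem sm_mate [Fintype C] (G : SimpleGraph V) (H : SimpleGraph (V × C)) (hc : Cov G H)
    (g : V × C → ℕ) (v w : V) (i j : C) (hj : H.Adj (v, i) (w, j)) :
    sm (res H g (v, i)) w + g (w, j) = sm g w + (g (w, j) - 1) := by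
  classical
  unfold sm
  rw [← Finset.add_sum_erase Finset.univ (fun x => g (w, x)) (Finset.mem_univ j),
    ← Finset.add_sum_erase Finset.univ (fun x => res H g (v, i) (w, x)) (Finset.mem_univ j)]
  have h1 : ∑ x ∈ Finset.univ.erase j, g (w, x)
      = ∑ x ∈ Finset.univ.erase j, res H g (v, i) (w, x) := by
    refine Finset.sum_congr rfl (fun x hx => ?_)
    refine (res_of_not H g _ _ (fun hx' => ?_)).symm
    exact (Finset.mem_erase.mp hx).1 (hc.mat _ _ _ _ _ hx' hj)
  rw [h1, res_of_adj H g _ _ hj]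
  omega

theorem sm_adj [Fintype C] (G : SimpleGraph V) (H : SimpleGraph (V × C)) (hc : Cov G H)
    (g : V × C → ℕ) (v w : V) (i : C) : sm g w ≤ sm (res H g (v, i)) w + 1 := by
  classical
  by_cases h : ∃ j, H.Adj (v, i) (w, j)
  · obtain ⟨j, hj⟩ := h
    have := sm_mate G H hc g v w i j hj
    omega
  · have h1 := sm_no_mate H g v w i (fun j hj => absurd ⟨j, hj⟩ h)
    omega

theorem dg_erase [DecidableEq V] (G : SimpleGraph V) (A : Finset V) (v w : V) (hv : v ∈ A)
    (h : G.Adj w v) : dg G A w = dg G (A.erase v) w + 1 := by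
  classical
  unfold dg
  have h1 : (A.filter fun u => G.Adj w u) = insert v ((A.erase v).filter fun u => G.Adj w u) := by
    ext u
    simp only [Finset.mem_filter, Finset.mem_insert, Finset.mem_erase]
    constructor
    · rintro ⟨h1, h2⟩
      by_cases huv : u = v
      · exact Or.inl huv
      · exact Or.inr ⟨⟨huv, h1⟩, h2⟩
    · rintro (rfl | ⟨⟨_, h1⟩, h2⟩)
      · exact ⟨hv, h⟩
      · exact ⟨h1, h2⟩
  rw [h1, Finset.card_insert_of_notMem]
  simp

theorem dg_erase' [DecidableEq V] (G : SimpleGraph V) (A : Finset V) (v w : V) :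
    dg G (A.erase v) w ≤ dg G A w := by
  classical
  unfold dg
  exact Finset.card_le_card (Finset.filter_subset_filter _ (Finset.erase_subset _ _))

/-- no deficit after a move -/
theorem step_ok [DecidableEq V] [Fintype C] (G : SimpleGraph V) (H : SimpleGraph (V × C))
    (hc : Cov G H) (A : Finset V) (g : V × C → ℕ) (h : ∀ v ∈ A, dg G A v ≤ sm g v) (u : V)
    (hu : u ∈ A) (i : C) : ∀ v ∈ A.erase u, dg G (A.erase u) v ≤ sm (res H g (u, i)) v := by
  intro v hv
  have hvA := h v (Finset.mem_of_mem_erase hv)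
  by_cases ha : G.Adj v u
  · have h1 := dg_erase G A u v hu ha
    have h2 := sm_adj G H hc g u v i
    omega
  · have h1 := dg_erase' G A u v
    have h2 := sm_not_adj G H hc g u v i (fun hh => ha hh.symm)
    omega

end BR

open BR

theorem tBR (hG : T_GREEDY) : T_BR := by
  intro V C _ _ G H hc K g z a b hg2 hsm hz ha hb hza hzb hab hnab hd3 hcz hcab
  have haz : a ∈ K.erase z := Finset.mem_erase.mpr ⟨hza.ne', ha⟩
  have hbz : b ∈ K.erase z := Finset.mem_erase.mpr ⟨hzb.ne', hb⟩
  have hconK : Cn G K := by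
    have h1 := Cn.insert (K.erase z) a z hcz haz hza
    rwa [Finset.insert_erase hz] at h1
  by_cases hsur : ∃ v ∈ K, dg G K v < sm g v
  · exact hG V C G H hc K g hconK hsm hsur
  push Not at hsur
  have hsz : sm g z = 3 := le_antisymm (hd3 ▸ hsur z hz) (hd3 ▸ hsm z hz)
  obtain ⟨c, hc1⟩ : ∃ c, g (z, c) = 1 := by
    by_contra hne
    push Not at hne
    have h1 : Even (sm g z) := by
      unfold sm
      refine Finset.even_sum _ (fun c _ => ?_)
      have h2 := hg2 (z, c)
      have h3 := hne c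
      have h4 : g (z, c) = 0 ∨ g (z, c) = 2 := by omega
      rcases h4 with h4 | h4 <;> rw [h4] <;> decide
    rw [hsz] at h1
    exact absurd h1 (by decide)
  -- a neighbour of z without positive mate has a surplus
  have sur : ∀ u ∈ K, G.Adj z u → (∀ j, H.Adj (z, c) (u, j) → g (u, j) = 0) → Win H K g := by
    intro u hu hzu hno
    refine Win.step K g z c hz (by omega) (hG V C G H hc (K.erase z) _ hcz
      (step_ok G H hc K g hsm z hz c) ⟨u, Finset.mem_erase.mpr ⟨hzu.ne', hu⟩, ?_⟩)
    rw [sm_no_mate H g z u c hno]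
    have h1 := dg_erase G K z u hz hzu.symm
    have h2 := hsm u hu
    omega
  by_cases hA : ∀ i, H.Adj (z, c) (a, i) → g (a, i) = 0
  · exact sur a ha hza hA
  by_cases hB : ∀ i, H.Adj (z, c) (b, i) → g (b, i) = 0
  · exact sur b hb hzb hB
  push Not at hA hB
  obtain ⟨i, hi, hi0⟩ := hA
  obtain ⟨j, hj, hj0⟩ := hB
  have hba : b ∈ K.erase a := Finset.mem_erase.mpr ⟨hab.symm, hb⟩
  refine Win.step K g a i ha (Nat.pos_of_ne_zero hi0) ?_
  have hbval : res H g (a, i) (b, j) = g (b, j) :=
    res_of_not H g _ _ (fun h => hnab (hc.adj _ _ _ _ h))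
  refine Win.step _ _ b j hba (by rw [hbval]; exact Nat.pos_of_ne_zero hj0) ?_
  have hok := step_ok G H hc (K.erase a) _ (step_ok G H hc K g hsm a ha i) b hba j
  have hzab : z ∈ (K.erase a).erase b :=
    Finset.mem_erase.mpr ⟨hzb.ne, Finset.mem_erase.mpr ⟨hza.ne, hz⟩⟩
  refine hG V C G H hc _ _ hcab hok ⟨z, hzab, ?_⟩
  have h1 := dg_erase G K a z ha hza
  have h2 := dg_erase G (K.erase a) b z hba hzb
  have h3 := sm_mate G H hc g a z i c hi.symm
  have hz0 : res H g (a, i) (z, c) = 0 := by
    rw [res_of_adj H g _ _ hi.symm, hc1]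
  have h4 := sm_mate G H hc (res H g (a, i)) b z j c hj.symm
  rw [hz0] at h4
  omega

end Pool.Agent.TorDeg
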