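import Pool.Agent.TorDeg.Targets

set_option autoImplicit false

/-!
# The number of orbits of a permutation
-/

namespace Pool.Agent.TorDeg

theorem tCNT : T_CNT := by
  classical
  intro D _ φ
  set S := Equiv.Perm.SameCycle.setoid φ with hS
  have hmk : ∀ d d' : D, (Quotient.mk S d = Quotient.mk S d') ↔ φ.SameCycle d d' :=
    fun d d' => Quotient.eq (r := S)
  have hcard : ∀ d : D, ((Finset.univ.filter fun x : D => Quotient.mk S x = Quotient.mk S d).card : ℕ)
      = Function.minimalPeriod φ d := by
    intro d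
    have h1 := MulAction.minimalPeriod_eq_card (a := φ) (b := d)
    have h2 : Function.minimalPeriod (fun x => φ • x) d = Function.minimalPeriod φ d := rfl
    rw [h2] at h1
    rw [h1, Fintype.card_of_subtype]
    intro x
    rw [Finset.mem_filter, hmk]
    constructor
    · rintro ⟨-, h⟩
      obtain ⟨k, hk⟩ := h.symm
      exact ⟨⟨φ ^ k, k, rfl⟩, hk⟩
    · rintro ⟨⟨_, k, rfl⟩, hk⟩
      exact ⟨Finset.mem_univ _, Equiv.Perm.SameCycle.symm ⟨k, hk⟩⟩
  have hpos : ∀ d : D, 0 < Function.minimalPeriod φ d := fun d => by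
    rw [← hcard d]
    exact Finset.card_pos.mpr ⟨d, by simp⟩
  rw [← Finset.sum_fiberwise (s := Finset.univ) (g := fun d : D => Quotient.mk S d)]
  have hone : ∀ q : Quotient S, ∑ d ∈ Finset.univ.filter (fun x : D => Quotient.mk S x = q),
      (1 : ℚ) / (Function.minimalPeriod φ d : ℚ) = 1 := by
    intro q
    obtain ⟨d, rfl⟩ := Quotient.exists_rep q
    have h1 : ∀ x ∈ Finset.univ.filter (fun x : D => Quotient.mk S x = Quotient.mk S d),
        (1 : ℚ) / (Function.minimalPeriod φ x : ℚ) = 1 / (Function.minimalPeriod φ d : ℚ) := by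
      intro x hx
      have hx' : Quotient.mk S x = Quotient.mk S d := (Finset.mem_filter.mp hx).2
      rw [← hcard x, hx', hcard d]
    rw [Finset.sum_congr rfl h1, Finset.sum_const, hcard d, nsmul_eq_mul, mul_one_div,
      div_self (by exact_mod_cast (hpos d).ne')]
  rw [Finset.sum_congr rfl fun q _ => hone q, Finset.sum_const, Finset.card_univ, nsmul_eq_mul,
    mul_one, Nat.card_eq_fintype_card]

end Pool.Agent.TorDeg
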