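import Pool.Agent.TorDeg.Targets

set_option autoImplicit false
set_option linter.unusedSectionVars false
set_option linter.unusedVariables false

/-!
# Contraction of a vertex with two neighbours
-/

namespace Pool.Agent.TorDeg

namespace CON

variable {V C : Type}

open Classical in
theorem sm_res [Fintype C] {G : SimpleGraph V} {H : SimpleGraph (V × C)} (hc : Cov G H)
    (g : V × C → ℕ) (y : V) (i : C) (v : V) :
    sm g v ≤ sm (res H g (y, i)) v + (if G.Adj v y then 1 else 0) := by
  have h1 : ∀ j, g (v, j) ≤ res H g (y, i) (v, j) + (if H.Adj (y, i) (v, j) then 1 else 0) := by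
    intro j
    unfold res
    split_ifs <;> omega
  have h2 : sm g v ≤ sm (res H g (y, i)) v + ∑ j, (if H.Adj (y, i) (v, j) then 1 else 0) := by
    unfold sm
    rw [← Finset.sum_add_distrib]
    exact Finset.sum_le_sum fun j _ => h1 j
  refine h2.trans (Nat.add_le_add_left ?_ _)
  rw [← Finset.card_filter]
  split_ifs with hadj
  · rw [Finset.card_le_one]
    intro a ha b hb
    exact hc.mat _ _ _ _ _ (Finset.mem_filter.mp ha).2 (Finset.mem_filter.mp hb).2
  · rw [Nat.le_zero, Finset.card_eq_zero, Finset.filter_eq_empty_iff]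
    intro j _ hj
    exact hadj (hc.adj _ _ _ _ hj).symm

open Classical in
theorem dg_erase [DecidableEq V] (G : SimpleGraph V) (A : Finset V) (y v : V) (hy : y ∈ A) :
    dg G A v = dg G (A.erase y) v + (if G.Adj v y then 1 else 0) := by
  unfold dg
  have h : A.filter (fun u => G.Adj v u) =
      if G.Adj v y then insert y ((A.erase y).filter fun u => G.Adj v u)
      else (A.erase y).filter fun u => G.Adj v u := by
    split_ifs with hadj
    · ext u
      simp only [Finset.mem_filter, Finset.mem_insert, Finset.mem_erase]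
      constructor
      · rintro ⟨h1, h2⟩
        by_cases hu : u = y
        · left; exact hu
        · right; exact ⟨⟨hu, h1⟩, h2⟩
      · rintro (rfl | ⟨⟨h1, h2⟩, h3⟩)
        · exact ⟨hy, hadj⟩
        · exact ⟨h2, h3⟩
    · ext u
      simp only [Finset.mem_filter, Finset.mem_erase]
      constructor
      · rintro ⟨h1, h2⟩
        exact ⟨⟨fun hu => hadj (hu ▸ h2), h1⟩, h2⟩
      · rintro ⟨⟨h1, h2⟩, h3⟩
        exact ⟨h2, h3⟩
  rw [h]
  split_ifs with hadj
  · rw [Finset.card_insert_of_notMem]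
    simp
  · rfl

theorem pos_of_sum [Fintype C] (f : C → ℕ) (h : 0 < ∑ i, f i) : ∃ i, 0 < f i := by
  by_contra hcon
  push Not at hcon
  have : ∑ i, f i = 0 := Finset.sum_eq_zero fun i _ => Nat.le_zero.mp (hcon i)
  omega

theorem res_le (H : SimpleGraph (V × C)) (g : V × C → ℕ) (x y : V × C) :
    res H g x y ≤ g y := by
  unfold res
  split_ifs <;> omega

theorem res_of_not {H : SimpleGraph (V × C)} {g : V × C → ℕ} {x y : V × C}
    (h : ¬ H.Adj x y) : res H g x y = g y := by
  unfold res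
  rw [if_neg h]

theorem res_mono {H H' : SimpleGraph (V × C)} {g : V × C → ℕ} {x y : V × C}
    (h : H.Adj x y → H'.Adj x y) : res H' g x y ≤ res H g x y := by
  unfold res
  split_ifs with h1 h2 h2
  · exact le_rfl
  · omega
  · exact absurd (h h2) h1
  · exact le_rfl

/-- a vertex with a surplus can be played last -/
theorem postpone [DecidableEq V] [Fintype C] {G : SimpleGraph V} {H : SimpleGraph (V × C)}
    (hc : Cov G H) (u : V) (B : Finset V) (g : V × C → ℕ) (h : Win H B g) :
    u ∉ B → dg G B u < sm g u → Win H (insert u B) g := by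
  induction h with
  | nil g =>
    intro hu hs
    obtain ⟨i, hi⟩ := pos_of_sum (fun i => g (u, i)) (lt_of_le_of_lt (Nat.zero_le _) hs)
    refine Win.step _ g u i (Finset.mem_insert_self _ _) hi ?_
    rw [Finset.erase_insert hu]
    exact Win.nil _
  | step B g v i hv hg h ih =>
    intro hu hs
    have hvu : v ≠ u := fun hcc => hu (hcc ▸ hv)
    refine Win.step _ g v i (Finset.mem_insert_of_mem hv) hg ?_
    rw [Finset.erase_insert_of_ne hvu.symm]
    refine ih (fun hcc => hu (Finset.mem_of_mem_erase hcc)) ?_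
    have h1 := dg_erase G B v u hv
    have h2 := sm_res hc g v i u
    omega

section contraction

variable [DecidableEq V] [DecidableEq C] [Fintype C]
variable {G : SimpleGraph V} {H H' : SimpleGraph (V × C)} {u p s : V} {x₁ x₂ : C}

/-- colours linked through `u` -/
def L (H : SimpleGraph (V × C)) (u : V) (x₁ x₂ : C) (a b : V × C) : Prop :=
  (H.Adj a (u, x₁) ∧ H.Adj b (u, x₂)) ∨ (H.Adj a (u, x₂) ∧ H.Adj b (u, x₁))

/-- the adjacency of the contracted cover -/
def K (H : SimpleGraph (V × C)) (u p s : V) (x₁ x₂ : C) (a b : V × C) : Prop :=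
  (a.1 ≠ u ∧ b.1 ≠ u ∧ H.Adj a b) ∨
    (((a.1 = p ∧ b.1 = s) ∨ (a.1 = s ∧ b.1 = p)) ∧ L H u x₁ x₂ a b)

theorem L_symm {a b : V × C} (h : L H u x₁ x₂ a b) : L H u x₁ x₂ b a := by
  rcases h with ⟨h1, h2⟩ | ⟨h1, h2⟩
  · exact Or.inr ⟨h2, h1⟩
  · exact Or.inl ⟨h2, h1⟩

theorem K_symm {a b : V × C} (h : K H u p s x₁ x₂ a b) : K H u p s x₁ x₂ b a := by
  rcases h with ⟨h1, h2, h3⟩ | ⟨h1 | h1, h2⟩
  · exact Or.inl ⟨h2, h1, h3.symm⟩
  · exact Or.inr ⟨Or.inr ⟨h1.2, h1.1⟩, L_symm h2⟩
  · exact Or.inr ⟨Or.inl ⟨h1.2, h1.1⟩, L_symm h2⟩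

theorem K_swap {a b : V × C} : K H u p s x₁ x₂ a b ↔ K H u s p x₁ x₂ a b := by
  unfold K
  rw [or_comm (a := a.1 = p ∧ b.1 = s)]

/-- two units of colours available at `u` -/
def Avail (g : V × C → ℕ) (u : V) (x₁ x₂ : C) : Prop :=
  ∀ x, (if x = x₁ then 1 else 0) + (if x = x₂ then 1 else 0) ≤ g (u, x)

theorem avail_exists (g : V × C → ℕ) (u : V) (h : 2 ≤ sm g u) :
    ∃ x₁ x₂, Avail g u x₁ x₂ := by
  obtain ⟨x₁, h1⟩ := pos_of_sum (fun i => g (u, i)) (lt_of_lt_of_le (by norm_num) h)
  have h3 : 0 < ∑ x, (g (u, x) - if x = x₁ then 1 else 0) := by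
    have h4 : sm g u ≤ ∑ x, (g (u, x) - if x = x₁ then 1 else 0)
        + ∑ x, (if x = x₁ then 1 else 0) := by
      unfold sm
      rw [← Finset.sum_add_distrib]
      exact Finset.sum_le_sum fun x _ => by split_ifs <;> omega
    have h5 : ∑ x, (if x = x₁ then 1 else 0) = 1 := by simp
    omega
  obtain ⟨x₂, h2⟩ := pos_of_sum _ h3
  refine ⟨x₁, x₂, fun x => ?_⟩
  by_cases e1 : x = x₁
  · by_cases e2 : x = x₂
    · subst e1; subst e2
      simp only [if_true] at h2 ⊢
      omega
    · subst e1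
      simp only [if_true, e2, if_false]
      omega
  · by_cases e2 : x = x₂
    · subst e2
      simp only [e1, if_true, if_false] at h2 ⊢
      omega
    · simp [e1, e2]

theorem avail_sm {g : V × C → ℕ} {u : V} {x₁ x₂ : C} (h : Avail g u x₁ x₂) :
    2 ≤ sm g u := by
  have : ∑ x, ((if x = x₁ then 1 else 0) + (if x = x₂ then 1 else 0)) ≤ sm g u :=
    Finset.sum_le_sum fun x _ => h x
  rw [Finset.sum_add_distrib] at this
  simpa using this

/-- off the fibre of `u` the contracted cover contains `H` -/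
theorem claim0 (hM : T_MONO) (hK : ∀ a b, H'.Adj a b ↔ K H u p s x₁ x₂ a b)
    (B : Finset V) (g : V × C → ℕ) (h : Win H' B g) : u ∉ B → Win H B g := by
  induction h with
  | nil g => intro _; exact Win.nil g
  | step B g v i hv hg h ih =>
    intro hu
    have hvu : v ≠ u := fun hcc => hu (hcc ▸ hv)
    refine Win.step B g v i hv hg ?_
    refine hM V C H _ _ _ ?_ (ih (fun hcc => hu (Finset.mem_of_mem_erase hcc)))
    intro w hw j
    have hwu : w ≠ u := fun hcc => hu (hcc ▸ Finset.mem_of_mem_erase hw)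
    exact res_mono fun hh => (hK _ _).mpr (Or.inl ⟨hvu, hwu, hh⟩)

/-- `p` is played first, then `u` -/
theorem play_p (hM : T_MONO) (hc : Cov G H) (hK : ∀ a b, H'.Adj a b ↔ K H u p s x₁ x₂ a b)
    (hps : p ≠ s) (hnps : ¬ G.Adj p s) (hup : G.Adj u p)
    (B : Finset V) (g : V × C → ℕ) (hu : u ∉ B) (hp : p ∈ B) (hs : s ∈ B)
    (hnb : ∀ v ∈ B, G.Adj u v → v = p ∨ v = s) (hav : Avail g u x₁ x₂) (i : C)
    (hi : 0 < g (p, i)) (h : Win H' (B.erase p) (res H' g (p, i))) :
    Win H (insert u B) g := by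
  classical
  have hpu : p ≠ u := fun hcc => hu (hcc ▸ hp)
  have hsu : s ≠ u := fun hcc => hu (hcc ▸ hs)
  have huB : u ∉ B.erase p := fun hcc => hu (Finset.mem_of_mem_erase hcc)
  have h0 : Win H (B.erase p) (res H' g (p, i)) := claim0 hM hK _ _ h huB
  refine Win.step _ g p i (Finset.mem_insert_of_mem hp) hi ?_
  rw [Finset.erase_insert_of_ne hpu.symm]
  -- the two mates
  have key : ∀ xa xb : C, (∀ x, (if x = xa then 1 else 0) + (if x = xb then 1 else 0) ≤ g (u, x)) →
      H.Adj (p, i) (u, xa) → (∀ j, H.Adj (u, xb) (s, j) → H'.Adj (p, i) (s, j)) →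
      Win H (insert u (B.erase p)) (res H g (p, i)) := by
    intro xa xb hab hadj hs'
    refine Win.step _ _ u xb (Finset.mem_insert_self _ _) ?_ ?_
    · have := hab xb
      by_cases hx : xb = xa
      · subst hx
        unfold res
        rw [if_pos hadj]
        simp only [if_true] at this
        omega
      · rw [res_of_not]
        · simp only [if_true, hx, if_false] at this
          omega
        · intro hcc
          exact hx (hc.mat _ _ _ _ _ hcc hadj)
    · rw [Finset.erase_insert huB]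
      refine hM V C H _ _ _ ?_ h0
      intro w hw j
      have hwu : w ≠ u := fun hcc => huB (hcc ▸ hw)
      have hwp : w ≠ p := Finset.ne_of_mem_erase hw
      have hwB := Finset.mem_of_mem_erase hw
      by_cases hws : w = s
      · subst hws
        have hno : ¬ H.Adj (p, i) (w, j) := fun hcc => hnps (hc.adj _ _ _ _ hcc)
        by_cases h2 : H.Adj (u, xb) (w, j)
        · have h3 := hs' j h2
          have e1 : res H' g (p, i) (w, j) = g (w, j) - 1 := by
            unfold res; rw [if_pos h3]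
          have e2 : res H (res H g (p, i)) (u, xb) (w, j) = g (w, j) - 1 := by
            have : res H (res H g (p, i)) (u, xb) (w, j) = res H g (p, i) (w, j) - 1 := by
              conv_lhs => unfold res
              rw [if_pos h2]
              rfl
            rw [this, res_of_not hno]
          rw [e1, e2]
        · rw [res_of_not (g := res H g (p, i)) h2, res_of_not hno]
          exact res_le _ _ _ _
      · have h2 : ¬ H.Adj (u, xb) (w, j) := by
          intro hcc
          rcases hnb w hwB (hc.adj _ _ _ _ hcc) with h3 | h3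
          · exact hwp h3
          · exact hws h3
        rw [res_of_not (g := res H g (p, i)) h2]
        exact res_mono fun hh => (hK _ _).mpr (Or.inl ⟨hpu, hwu, hh⟩)
  by_cases c1 : H.Adj (p, i) (u, x₁)
  · refine key x₁ x₂ hav c1 fun j hj => (hK _ _).mpr (Or.inr ⟨Or.inl ⟨rfl, rfl⟩, ?_⟩)
    exact Or.inl ⟨c1, hj.symm⟩
  by_cases c2 : H.Adj (p, i) (u, x₂)
  · refine key x₂ x₁ (fun x => by rw [add_comm]; exact hav x) c2 fun j hj =>
      (hK _ _).mpr (Or.inr ⟨Or.inl ⟨rfl, rfl⟩, ?_⟩)
    exact Or.inr ⟨c2, hj.symm⟩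
  -- no mate
  have hav' : Avail (res H g (p, i)) u x₁ x₂ := by
    intro x
    by_cases hx1 : x = x₁
    · subst hx1
      rw [res_of_not c1]
      exact hav x
    · by_cases hx2 : x = x₂
      · subst hx2
        rw [res_of_not c2]
        exact hav x
      · simp [hx1, hx2]
  refine postpone hc u _ _ ?_ huB ?_
  · refine hM V C H _ _ _ ?_ h0
    intro w hw j
    have hwu : w ≠ u := fun hcc => huB (hcc ▸ hw)
    exact res_mono fun hh => (hK _ _).mpr (Or.inl ⟨hpu, hwu, hh⟩)
  · refine lt_of_lt_of_le ?_ (avail_sm hav')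
    have : dg G (B.erase p) u ≤ 1 := by
      unfold dg
      rw [Finset.card_le_one]
      intro a ha b hb
      rw [Finset.mem_filter] at ha hb
      have ha' : a = s := by
        rcases hnb a (Finset.mem_of_mem_erase ha.1) ha.2 with h3 | h3
        · exact absurd h3 (Finset.ne_of_mem_erase ha.1)
        · exact h3
      have hb' : b = s := by
        rcases hnb b (Finset.mem_of_mem_erase hb.1) hb.2 with h3 | h3
        · exact absurd h3 (Finset.ne_of_mem_erase hb.1)
        · exact h3
      rw [ha', hb']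
    omega

theorem claim1 (hM : T_MONO) (hc : Cov G H) (hK : ∀ a b, H'.Adj a b ↔ K H u p s x₁ x₂ a b)
    (hps : p ≠ s) (hnps : ¬ G.Adj p s) (hup : G.Adj u p) (hus : G.Adj u s)
    (B : Finset V) (g : V × C → ℕ) (h : Win H' B g) : u ∉ B → p ∈ B → s ∈ B →
    (∀ v ∈ B, G.Adj u v → v = p ∨ v = s) → Avail g u x₁ x₂ → Win H (insert u B) g := by
  induction h with
  | nil g => intro _ hp; simp at hp
  | step B g v i hv hg h ih =>
    intro hu hp hs hnb hav
    by_cases hvp : v = p
    · subst hvp
      exact play_p hM hc hK hps hnps hup B g hu hp hs hnb hav i hg h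
    by_cases hvs : v = s
    · subst hvs
      exact play_p hM hc (fun a b => (hK a b).trans K_swap) hps.symm
        (fun hcc => hnps hcc.symm) hus B g hu hs hp
        (fun w hw hadj => (hnb w hw hadj).symm) hav i hg h
    have hvu : v ≠ u := fun hcc => hu (hcc ▸ hv)
    have hup' : p ≠ u := hup.ne'
    have hus' : s ≠ u := hus.ne'
    have hnu : ∀ x, ¬ H'.Adj (v, i) (u, x) := by
      intro x hcc
      rcases (hK _ _).mp hcc with ⟨-, h2, -⟩ | ⟨⟨h1, -⟩ | ⟨h1, -⟩, -⟩
      · exact h2 rfl
      · exact hvp h1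
      · exact hvs h1
    have hnu' : ∀ x, ¬ H.Adj (v, i) (u, x) := by
      intro x hcc
      rcases hnb v hv (hc.adj _ _ _ _ hcc).symm with h1 | h1
      · exact hvp h1
      · exact hvs h1
    refine Win.step _ g v i (Finset.mem_insert_of_mem hv) hg ?_
    rw [Finset.erase_insert_of_ne hvu.symm]
    refine hM V C H _ _ _ ?_ (ih (fun hcc => hu (Finset.mem_of_mem_erase hcc))
      (Finset.mem_erase.mpr ⟨Ne.symm hvp, hp⟩) (Finset.mem_erase.mpr ⟨Ne.symm hvs, hs⟩)
      (fun w hw => hnb w (Finset.mem_of_mem_erase hw)) ?_)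
    · intro w hw j
      rcases Finset.mem_insert.mp hw with rfl | hw
      · rw [res_of_not (hnu j), res_of_not (hnu' j)]
      · have hwu : w ≠ u := fun hcc => hu (hcc ▸ Finset.mem_of_mem_erase hw)
        exact res_mono fun hh => (hK _ _).mpr (Or.inl ⟨hvu, hwu, hh⟩)
    · intro x
      rw [res_of_not (hnu x)]
      exact hav x

end contraction

end CON

open CON in
theorem tCON (hM : T_MONO) : T_CON := by
  classical
  intro V C _ _ G H hc A g u p s hu hp hs hps hup hus hnps hnb h2 _
  obtain ⟨x₁, x₂, hav⟩ := avail_exists g u h2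
  have hpu : p ≠ u := hup.ne'
  have hsu : s ≠ u := hus.ne'
  refine ⟨{ Adj := fun v w => (v ≠ u ∧ w ≠ u ∧ G.Adj v w) ∨ (v = p ∧ w = s) ∨ (v = s ∧ w = p)
            symm := ?_
            loopless := ?_ },
          { Adj := K H u p s x₁ x₂
            symm := ?_
            loopless := ?_ }, ?_, ?_, ?_⟩
  · constructor
    rintro v w (⟨h1, h2, h3⟩ | ⟨h1, h2⟩ | ⟨h1, h2⟩)
    · exact Or.inl ⟨h2, h1, h3.symm⟩
    · exact Or.inr (Or.inr ⟨h2, h1⟩)
    · exact Or.inr (Or.inl ⟨h2, h1⟩)
  · constructor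
    rintro v (⟨-, -, h3⟩ | ⟨h1, h2⟩ | ⟨h1, h2⟩)
    · exact h3.ne rfl
    · exact hps (h1.symm.trans h2)
    · exact hps (h2.symm.trans h1)
  · exact ⟨fun a b h => K_symm h⟩
  · constructor
    rintro a (⟨-, -, h3⟩ | ⟨⟨h1, h2⟩ | ⟨h1, h2⟩, -⟩)
    · exact h3.ne rfl
    · exact hps (h1.symm.trans h2)
    · exact hps (h2.symm.trans h1)
  · constructor
    · rintro v w i j (⟨h1, h2, h3⟩ | ⟨⟨h1, h2⟩ | ⟨h1, h2⟩, -⟩)
      · exact Or.inl ⟨h1, h2, hc.adj _ _ _ _ h3⟩
      · exact Or.inr (Or.inl ⟨h1, h2⟩)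
      · exact Or.inr (Or.inr ⟨h1, h2⟩)
    · rintro v w i j j' h h'
      have hno : ∀ k l, ¬ H.Adj (p, k) (s, l) := fun k l hcc => hnps (hc.adj _ _ _ _ hcc)
      have hL : ∀ (a : V) (k l : C), L H u x₁ x₂ (v, i) (a, k) → L H u x₁ x₂ (v, i) (a, l) →
          k = l := by
        rintro a k l (⟨a1, a2⟩ | ⟨a1, a2⟩) (⟨b1, b2⟩ | ⟨b1, b2⟩)
        · exact hc.mat _ _ _ _ _ a2.symm b2.symm
        · have := hc.mat _ _ _ _ _ a1 b1
          subst this
          exact hc.mat _ _ _ _ _ a2.symm b2.symm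
        · have := hc.mat _ _ _ _ _ a1 b1
          subst this
          exact hc.mat _ _ _ _ _ a2.symm b2.symm
        · exact hc.mat _ _ _ _ _ a2.symm b2.symm
      rcases h with ⟨-, -, a3⟩ | ⟨a4, a3⟩
      · rcases h' with ⟨-, -, b3⟩ | ⟨b4, b3⟩
        · exact hc.mat _ _ _ _ _ a3 b3
        · rcases b4 with ⟨h1, h2⟩ | ⟨h1, h2⟩
          · simp only at h1 h2
            subst h1; subst h2
            exact absurd a3 (hno _ _)
          · simp only at h1 h2
            subst h1; subst h2
            exact absurd a3.symm (hno _ _)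
      · rcases h' with ⟨-, -, b3⟩ | ⟨b4, b3⟩
        · rcases a4 with ⟨h1, h2⟩ | ⟨h1, h2⟩
          · simp only at h1 h2
            subst h1; subst h2
            exact absurd b3 (hno _ _)
          · simp only at h1 h2
            subst h1; subst h2
            exact absurd b3.symm (hno _ _)
        · exact hL w j j' a3 b3
  · intro v w
    exact Iff.rfl
  · intro hW
    have := claim1 (H' := { Adj := K H u p s x₁ x₂, symm := _, loopless := _ }) hM hc
      (fun a b => Iff.rfl) hps hnps hup hus (A.erase u) g hW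
      (Finset.notMem_erase u A) (Finset.mem_erase.mpr ⟨hpu, hp⟩)
      (Finset.mem_erase.mpr ⟨hsu, hs⟩)
      (fun v hv => hnb v (Finset.mem_of_mem_erase hv)) hav
    rwa [Finset.insert_erase hu] at this

end Pool.Agent.TorDeg
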