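import Pool.Agent.TorDeg.Targets

set_option autoImplicit false

/-!
# DEG: a won game gives a strictly degenerate transversal
-/

namespace Pool.Agent.TorDeg

namespace DegAux

open Classical in
/-- the choices of a won game, as a function on the vertices -/
theorem key {V C : Type} [DecidableEq V] [Nonempty C] (H : SimpleGraph (V × C)) (A : Finset V)
    (g : V × C → ℕ) (h : Win H A g) :
    ∃ R : V → C, ∀ S : Finset V, S.Nonempty → S ⊆ A →
      ∃ v ∈ S, (S.filter fun u => H.Adj (v, R v) (u, R u)).card < g (v, R v) := by
  induction h with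
  | nil g =>
    refine ⟨fun _ => Classical.arbitrary C, fun S hS hA => ?_⟩
    rw [Finset.subset_empty] at hA
    exact absurd hA hS.ne_empty
  | step A g v i hv hg h ih =>
    obtain ⟨R', hR'⟩ := ih
    refine ⟨Function.update R' v i, fun S hS hA => ?_⟩
    have hne : ∀ u, u ≠ v → Function.update R' v i u = R' u := fun u hu =>
      Function.update_of_ne hu _ _
    have heq : Function.update R' v i v = i := Function.update_self _ _ _
    by_cases hvS : v ∈ S
    · by_cases hE : (S.erase v).Nonempty
      · obtain ⟨u, hu, hc⟩ := hR' (S.erase v) hE (Finset.erase_subset_erase v hA)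
        have huv : u ≠ v := Finset.ne_of_mem_erase hu
        refine ⟨u, Finset.mem_of_mem_erase hu, ?_⟩
        rw [hne u huv]
        by_cases hadj : H.Adj (v, i) (u, R' u)
        · have h1 : res H g (v, i) (u, R' u) = g (u, R' u) - 1 := by
            unfold res; rw [if_pos hadj]
          have h2 : (S.filter fun w => H.Adj (u, R' u) (w, Function.update R' v i w)) ⊆
              insert v ((S.erase v).filter fun w => H.Adj (u, R' u) (w, R' w)) := by
            intro w hw
            rw [Finset.mem_filter] at hw
            rw [Finset.mem_insert, Finset.mem_filter, Finset.mem_erase]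
            by_cases hwv : w = v
            · exact Or.inl hwv
            · refine Or.inr ⟨⟨hwv, hw.1⟩, ?_⟩
              rw [← hne w hwv]
              exact hw.2
          have h3 := (Finset.card_le_card h2).trans (Finset.card_insert_le _ _)
          rw [h1] at hc
          omega
        · have h1 : res H g (v, i) (u, R' u) = g (u, R' u) := by
            unfold res; rw [if_neg hadj]
          rw [h1] at hc
          refine lt_of_le_of_lt (Finset.card_le_card ?_) hc
          intro w hw
          rw [Finset.mem_filter] at hw ⊢
          have hwv : w ≠ v := by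
            rintro rfl
            apply hadj
            have h2 := hw.2
            rw [heq] at h2
            exact h2.symm
          refine ⟨Finset.mem_erase.2 ⟨hwv, hw.1⟩, ?_⟩
          rw [← hne w hwv]
          exact hw.2
      · refine ⟨v, hvS, ?_⟩
        rw [heq]
        have h0 : (S.filter fun u => H.Adj (v, i) (u, Function.update R' v i u)) = ∅ := by
          rw [Finset.filter_eq_empty_iff]
          intro w hw hadj
          have hwv : w = v := by
            by_contra hwv
            exact hE ⟨w, Finset.mem_erase.2 ⟨hwv, hw⟩⟩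
          rw [hwv, heq] at hadj
          exact H.loopless.irrefl _ hadj
        rw [h0, Finset.card_empty]
        exact hg
    · have hSA : S ⊆ A.erase v := fun w hw =>
        Finset.mem_erase.2 ⟨fun e => hvS (e ▸ hw), hA hw⟩
      obtain ⟨u, hu, hc⟩ := hR' S hS hSA
      have huv : u ≠ v := fun e => hvS (e ▸ hu)
      refine ⟨u, hu, ?_⟩
      rw [hne u huv]
      have h1 : res H g (v, i) (u, R' u) ≤ g (u, R' u) := by
        unfold res
        split_ifs
        · exact Nat.sub_le _ _
        · exact le_rfl
      refine lt_of_le_of_lt (Finset.card_le_card ?_) (lt_of_lt_of_le hc h1)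
      intro w hw
      rw [Finset.mem_filter] at hw ⊢
      have hwv : w ≠ v := fun e => hvS (e ▸ hw.1)
      refine ⟨hw.1, ?_⟩
      rw [← hne w hwv]
      exact hw.2

end DegAux

theorem tDEG : T_DEG := by
  classical
  intro V C _ _ H f hW
  rcases isEmpty_or_nonempty V with hV | hV
  · refine ⟨fun v => isEmptyElim v, fun Γ hΓ _ => ?_⟩
    obtain ⟨x, _⟩ := hΓ
    exact isEmptyElim x.1
  · have hC : Nonempty C := by
      generalize hA : (Finset.univ : Finset V) = A at hW
      cases hW with
      | nil => exact absurd hA Finset.univ_nonempty.ne_empty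
      | step _ _ v i hv hg h => exact ⟨i⟩
    obtain ⟨R, hR⟩ := DegAux.key H Finset.univ f hW
    refine ⟨R, fun Γ hΓ hsub => ?_⟩
    obtain ⟨x, hx⟩ := hΓ
    obtain ⟨v, rfl⟩ := hsub hx
    obtain ⟨w, hw, hc⟩ := hR (Finset.univ.filter fun u => (u, R u) ∈ Γ.verts)
      ⟨v, Finset.mem_filter.2 ⟨Finset.mem_univ v, hx⟩⟩ (Finset.subset_univ _)
    rw [Finset.mem_filter] at hw
    refine ⟨(w, R w), hw.2, lt_of_le_of_lt ?_ hc⟩
    have hss : Γ.neighborSet (w, R w) ⊆ (fun u => (u, R u)) ''
        (((Finset.univ.filter fun u => (u, R u) ∈ Γ.verts).filter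
          fun u => H.Adj (w, R w) (u, R u) : Finset V) : Set V) := by
      intro y hy
      have hadj : Γ.Adj (w, R w) y := hy
      obtain ⟨u, rfl⟩ := hsub (Γ.edge_vert hadj.symm)
      refine ⟨u, ?_, rfl⟩
      rw [Finset.mem_coe, Finset.mem_filter, Finset.mem_filter]
      exact ⟨⟨Finset.mem_univ u, Γ.edge_vert hadj.symm⟩, Γ.adj_sub hadj⟩
    calc (Γ.neighborSet (w, R w)).ncard
        ≤ ((fun u => (u, R u)) '' (((Finset.univ.filter fun u => (u, R u) ∈ Γ.verts).filter
          fun u => H.Adj (w, R w) (u, R u) : Finset V) : Set V)).ncard :=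
          Set.ncard_le_ncard hss (Set.toFinite _)
      _ ≤ (((Finset.univ.filter fun u => (u, R u) ∈ Γ.verts).filter
          fun u => H.Adj (w, R w) (u, R u) : Finset V) : Set V).ncard :=
          Set.ncard_image_le (Set.toFinite _)
      _ = _ := Set.ncard_coe_finset _

end Pool.Agent.TorDeg
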