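import Pool.Agent.TorDeg.Targets

set_option autoImplicit false
set_option linter.unusedSectionVars false

/-!
# TOR-DIS: all degrees are 4
-/

namespace Pool.Agent.TorDeg

section dis

variable {V : Type}

lemma five_rot {G : SimpleGraph V} {a b c d e : V} (h : Five G a b c d e) : Five G b c d e a := by
  obtain ⟨h1, h2, h3, h4, h5, h6, h7, h8, h9, h10⟩ := h
  exact ⟨h2, h3, h4, h5, h1, h8, h9, h10, h6.symm, h7.symm⟩

variable [Fintype V] [DecidableEq V]

lemma set_rot (a b c d e : V) : ({b, c, d, e, a} : Finset V) = {a, b, c, d, e} := by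
  ext v
  simp only [Finset.mem_insert, Finset.mem_singleton]
  tauto

open Classical in
/-- the class of a vertex: its 5-cycle, or itself -/
noncomputable def cls (G : SimpleGraph V) (v : V) : Finset V :=
  if h : ∃ B : Finset V, ∃ b c d e, Five G v b c d e ∧ B = {v, b, c, d, e} then h.choose else {v}

lemma cls_five {G : SimpleGraph V} (hu : U5 G) {v b c d e : V} (h : Five G v b c d e) :
    cls G v = {v, b, c, d, e} := by
  have hex : ∃ B : Finset V, ∃ b c d e, Five G v b c d e ∧ B = {v, b, c, d, e} :=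
    ⟨_, b, c, d, e, h, rfl⟩
  unfold cls
  rw [dif_pos hex]
  obtain ⟨b', c', d', e', h', hB⟩ := hex.choose_spec
  rw [hB]
  rcases hu _ _ _ _ _ _ _ _ _ h h' with ⟨h1, h2, h3, h4⟩ | ⟨h1, h2, h3, h4⟩
  · rw [h1, h2, h3, h4]
  · rw [h1, h2, h3, h4]
    ext x
    simp only [Finset.mem_insert, Finset.mem_singleton]
    tauto

lemma cls_none {G : SimpleGraph V} {v : V} (h : ¬ ∃ b c d e, Five G v b c d e) :
    cls G v = {v} := by
  unfold cls
  rw [dif_neg]
  rintro ⟨B, b, c, d, e, h1, -⟩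
  exact h ⟨b, c, d, e, h1⟩

lemma cls_mem_five {G : SimpleGraph V} (hu : U5 G) {v b c d e u : V} (h : Five G v b c d e)
    (hm : u ∈ ({v, b, c, d, e} : Finset V)) : cls G u = {v, b, c, d, e} := by
  simp only [Finset.mem_insert, Finset.mem_singleton] at hm
  rcases hm with rfl | rfl | rfl | rfl | rfl
  · exact cls_five hu h
  · rw [cls_five hu (five_rot h), set_rot]
  · rw [cls_five hu (five_rot (five_rot h)), set_rot, set_rot]
  · rw [cls_five hu (five_rot (five_rot (five_rot h))), set_rot, set_rot, set_rot]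
  · rw [cls_five hu (five_rot (five_rot (five_rot (five_rot h)))), set_rot, set_rot, set_rot,
      set_rot]

lemma mem_cls {G : SimpleGraph V} (hu : U5 G) (v : V) : v ∈ cls G v := by
  by_cases h : ∃ b c d e, Five G v b c d e
  · obtain ⟨b, c, d, e, h⟩ := h
    rw [cls_five hu h]
    simp
  · rw [cls_none h]
    simp

lemma cls_eq {G : SimpleGraph V} (hu : U5 G) {u v : V} (h : u ∈ cls G v) : cls G u = cls G v := by
  by_cases h1 : ∃ b c d e, Five G v b c d e
  · obtain ⟨b, c, d, e, h1⟩ := h1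
    rw [cls_five hu h1] at h ⊢
    exact cls_mem_five hu h1 h
  · rw [cls_none h1, Finset.mem_singleton] at h
    rw [h]

/-- the sum over the class is good -/
def GoodSum (G : SimpleGraph V) (nx : V → V → V) (k : V → V → ℕ) (B : Finset V) : Prop :=
  0 ≤ ∑ x ∈ B, fc G nx k x ∧ ((∃ x ∈ B, 5 ≤ deg G x) → 0 < ∑ x ∈ B, fc G nx k x)

lemma goodSum_five {G : SimpleGraph V} {nx : V → V → V} {k : V → V → ℕ} {a b c d e : V}
    (h : Five G a b c d e)
    (h0 : 0 ≤ fc G nx k a + fc G nx k b + fc G nx k c + fc G nx k d + fc G nx k e)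
    (h1 : 5 ≤ deg G a ∨ 5 ≤ deg G b ∨ 5 ≤ deg G c ∨ 5 ≤ deg G d ∨ 5 ≤ deg G e →
      0 < fc G nx k a + fc G nx k b + fc G nx k c + fc G nx k d + fc G nx k e) :
    GoodSum G nx k {a, b, c, d, e} := by
  obtain ⟨e1, e2, e3, e4, e5, n1, n2, n3, n4, n5⟩ := h
  have hs : ∑ x ∈ ({a, b, c, d, e} : Finset V), fc G nx k x =
      fc G nx k a + fc G nx k b + fc G nx k c + fc G nx k d + fc G nx k e := by
    rw [Finset.sum_insert, Finset.sum_insert, Finset.sum_insert, Finset.sum_insert,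
      Finset.sum_singleton]
    · ring
    · simp only [Finset.mem_singleton]
      exact e4.ne
    · simp only [Finset.mem_insert, Finset.mem_singleton, not_or]
      exact ⟨e3.ne, n5⟩
    · simp only [Finset.mem_insert, Finset.mem_singleton, not_or]
      exact ⟨e2.ne, n3, n4⟩
    · simp only [Finset.mem_insert, Finset.mem_singleton, not_or]
      exact ⟨e1.ne, n1, n2, e5.ne.symm⟩
  refine ⟨by rw [hs]; exact h0, ?_⟩
  rintro ⟨x, hx, hd⟩
  rw [hs]
  apply h1
  simp only [Finset.mem_insert, Finset.mem_singleton] at hx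
  rcases hx with rfl | rfl | rfl | rfl | rfl
  · exact Or.inl hd
  · exact Or.inr (Or.inl hd)
  · exact Or.inr (Or.inr (Or.inl hd))
  · exact Or.inr (Or.inr (Or.inr (Or.inl hd)))
  · exact Or.inr (Or.inr (Or.inr (Or.inr hd)))

lemma noncalm {G : SimpleGraph V} {nx : V → V → V} {k : V → V → ℕ} (hLF : T_LF) (hLQ : T_LQ)
    (hLP : T_LP) (hN : T_NX) (h3 : T_F3) (h4 : T_F4) (h5 : T_F5) (hc : Ctx G nx k) {u : V}
    (hu : ¬ Calm G nx k u) : ∃ a b c d e, Five G a b c d e ∧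
      u ∈ ({a, b, c, d, e} : Finset V) ∧ GoodSum G nx k {a, b, c, d, e} := by
  have hM := hc.map
  have hd4 := hc.irr.deg4
  by_contra hno
  apply hu
  constructor
  · intro m hm hk
    obtain ⟨f1, f2, f3, f4, f5, f6, f7⟩ := h5 V G nx k hM hd4 u m _ _ _ hm hk rfl rfl rfl
    obtain ⟨g1, g2⟩ := hLP V G nx k hc _ _ _ _ _
      (⟨f1, f3, rfl, rfl, rfl, f2, hk, f4, f5, f6, f7⟩ :
        PFace G nx k u m (nx m u) (nx (nx m u) m) (nx (nx (nx m u) m) (nx m u)))
    exact hno ⟨_, _, _, _, _, f1, by simp, goodSum_five f1 g1 g2⟩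
  · rintro m hm ⟨k1, k2, k3⟩
    obtain ⟨-, -, -, p, hp, hpm⟩ := hN V G nx k hM hd4 u m hm
    obtain ⟨f1, f2⟩ := hLF V G nx k hc u p m (nx u m) (nx u (nx u m)) hp hpm.symm rfl rfl k1 k2 k3
    exact hno ⟨_, _, _, _, _, f1, by simp, goodSum_five f1 f2.le fun _ => f2⟩
  · rintro m hm ⟨k1, k2⟩
    obtain ⟨-, -, -, p, hp, hpm⟩ := hN V G nx k hM hd4 u m hm
    obtain ⟨f1, f2, f3⟩ := hLQ V G nx k hM hc.u5 hd4 u p m (nx u m) _ hp hpm.symm rfl rfl k1 k2
    exact hno ⟨_, _, _, _, _, f1, by simp, goodSum_five f1 f2 f3⟩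
  · rintro m hm ⟨k1, k2⟩
    have ha := hM.adj u m hm
    obtain ⟨e1, e2, e3, e4, e5, e6⟩ := h3 V G nx k hM hd4 u (nx u m) _ ha k2 rfl
    have hpm : nx (nx u m) u = m := hM.inj u _ _ e2.symm hm e4
    rw [hpm] at e1 e2 e3 e4 e5 e6
    obtain ⟨g1, g2, g3, g4, g5, g6, g7, g8, g9, g10⟩ :=
      h4 V G nx k hM hd4 u m _ _ hm k1 rfl rfl
    obtain ⟨f1, f2, f3⟩ := hLQ V G nx k hM hc.u5 hd4 m (nx u m) u (nx m u) _ e1.symm e3.symm
      rfl rfl e6 g8
    exact hno ⟨_, _, _, _, _, f1, by simp, goodSum_five f1 f2 f3⟩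

lemma goodSum_cls {G : SimpleGraph V} {nx : V → V → V} {k : V → V → ℕ} (hC : T_CALM)
    (hLF : T_LF) (hLQ : T_LQ) (hLP : T_LP) (hN : T_NX) (h3 : T_F3) (h4 : T_F4) (h5 : T_F5)
    (hc : Ctx G nx k) (v : V) : GoodSum G nx k (cls G v) := by
  by_cases hall : ∀ u ∈ cls G v, Calm G nx k u
  · have hcalm := fun u hu => hC V G nx k hc.map hc.u5 hc.irr.deg4 u (hall u hu)
    refine ⟨Finset.sum_nonneg fun u hu => (hcalm u hu).1, ?_⟩
    rintro ⟨x, hx, hd⟩
    refine Finset.sum_pos' (fun u hu => (hcalm u hu).1) ⟨x, hx, ?_⟩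
    have := (hcalm x hx).2.1 hd
    omega
  · push Not at hall
    obtain ⟨u, hu, hnc⟩ := hall
    obtain ⟨a, b, c, d, e, h1, h2, h6⟩ := noncalm hLF hLQ hLP hN h3 h4 h5 hc hnc
    rw [← cls_eq hc.u5 hu, cls_mem_five hc.u5 h1 h2]
    exact h6

end dis

theorem tDIS (hF : T_FCS) (hC : T_CALM) (hLF : T_LF) (hLQ : T_LQ) (hLP : T_LP) (hN : T_NX)
    (h3 : T_F3) (h4 : T_F4) (h5 : T_F5) : T_DIS := by
  classical
  intro V _ _ G nx k hc v
  by_contra hne
  have hd4 := hc.irr.deg4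
  have hd : 5 ≤ deg G v := by
    have := hd4 v
    omega
  have hgs := fun v => goodSum_cls hC hLF hLQ hLP hN h3 h4 h5 hc v
  have htot := hF V G nx k hc.map hd4
  have hfib : ∀ B ∈ Finset.univ.image (cls G), Finset.univ.filter (fun u => cls G u = B) = B := by
    intro B hB
    obtain ⟨x, -, rfl⟩ := Finset.mem_image.1 hB
    ext u
    rw [Finset.mem_filter]
    constructor
    · rintro ⟨-, h⟩
      rw [← h]
      exact mem_cls hc.u5 u
    · intro h
      exact ⟨Finset.mem_univ _, cls_eq hc.u5 h⟩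
  have hsum : ∑ u, fc G nx k u = ∑ B ∈ Finset.univ.image (cls G), ∑ u ∈ B, fc G nx k u := by
    rw [← Finset.sum_fiberwise_of_maps_to (s := Finset.univ) (t := Finset.univ.image (cls G))
      (g := cls G) (fun x _ => Finset.mem_image_of_mem _ (Finset.mem_univ x))]
    refine Finset.sum_congr rfl fun B hB => ?_
    rw [hfib B hB]
  have hpos : 0 < ∑ B ∈ Finset.univ.image (cls G), ∑ u ∈ B, fc G nx k u := by
    refine Finset.sum_pos' ?_ ⟨cls G v, Finset.mem_image_of_mem _ (Finset.mem_univ v), ?_⟩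
    · intro B hB
      obtain ⟨x, -, rfl⟩ := Finset.mem_image.1 hB
      exact (hgs x).1
    · exact (hgs v).2 ⟨v, mem_cls hc.u5 v, hd⟩
  omega

end Pool.Agent.TorDeg
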