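import Mathlib

set_option autoImplicit false

/-!
# Strictly f-degenerate transversals and toroidal graphs: all definitions of the main statement
-/

namespace Pool.Agent.TorDeg

/-! ## Toroidal graphs -/

/-- the reversal of darts as a permutation -/
def rev {V : Type} (G : SimpleGraph V) : Equiv.Perm G.Dart :=
  SimpleGraph.Dart.symm_involutive.toPerm

/-- A rotation system of `G`: a permutation of the darts (oriented edges) whose cycles are the sets
of darts with a common starting vertex. -/
structure IsRotation {V : Type} (G : SimpleGraph V) (σ : Equiv.Perm G.Dart) : Prop where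
  fst : ∀ d, (σ d).fst = d.fst
  cyc : ∀ d e : G.Dart, d.fst = e.fst → σ.SameCycle d e

/-- the face permutation `d ↦ σ d.symm`; its cycles are the facial walks -/
def facePerm {V : Type} (G : SimpleGraph V) (σ : Equiv.Perm G.Dart) : Equiv.Perm G.Dart :=
  σ * rev G

/-- the number of faces -/
noncomputable def faceCount {V : Type} (G : SimpleGraph V) (σ : Equiv.Perm G.Dart) : ℕ :=
  Nat.card (Quotient (Equiv.Perm.SameCycle.setoid (facePerm G σ)))

/-- `G` is (isomorphic to) a subgraph of a finite connected graph `G'` with a rotation system of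
Euler characteristic `V - E + F ≥ 0`, that is, with a cellular embedding in the sphere or in the
torus. -/
def IsToroidal {V : Type} (G : SimpleGraph V) : Prop :=
  ∃ (n : ℕ) (G' : SimpleGraph (Fin n)) (σ : Equiv.Perm G'.Dart), G'.Connected ∧
    IsRotation G' σ ∧ Nat.card G'.edgeSet ≤ n + faceCount G' σ ∧
    ∃ φ : G →g G', Function.Injective φ

/-- any two 5-cycles of `G` which share a vertex are equal (as subgraphs) -/
def NoIntersectingFiveCycles {V : Type} (G : SimpleGraph V) : Prop :=
  ∀ (u v : V) (p : G.Walk u u) (q : G.Walk v v), p.IsCycle → q.IsCycle →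
    p.length = 5 → q.length = 5 → (∃ x, x ∈ p.support ∧ x ∈ q.support) →
    p.toSubgraph = q.toSubgraph

/-! ## Covers and strictly f-degenerate transversals -/

/-- `H` is a cover of `G` with fibres `X_v = {v} × Fin κ`: all edges of `H` lie over edges of `G`,
and the edges between two fibres form a matching. -/
structure IsCover {V : Type} {κ : ℕ} (G : SimpleGraph V) (H : SimpleGraph (V × Fin κ)) : Prop where
  adj : ∀ u v i j, H.Adj (u, i) (v, j) → G.Adj u v
  matching : ∀ u v i j j', H.Adj (u, i) (v, j) → H.Adj (u, i) (v, j') → j = j'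

/-- The subgraph of `H` induced by `S` is strictly `f`-degenerate: each of its nonempty subgraphs
`Γ` has a vertex `x` of degree less than `f x` in `Γ`. -/
def StrictlyDegenerate {W : Type} (H : SimpleGraph W) (f : W → ℕ) (S : Set W) : Prop :=
  ∀ Γ : H.Subgraph, Γ.verts.Nonempty → Γ.verts ⊆ S →
    ∃ x ∈ Γ.verts, (Γ.neighborSet x).ncard < f x

/-- the main statement -/
def MainStatement : Prop :=
  ∀ (V : Type) [Finite V] (G : SimpleGraph V), IsToroidal G → NoIntersectingFiveCycles G →
    ∀ (κ : ℕ) (H : SimpleGraph (V × Fin κ)), IsCover G H →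
      ∀ f : V × Fin κ → ℕ, (∀ x, f x ≤ 2) → (∀ v, 4 ≤ ∑ q, f (v, q)) →
        ∃ R : V → Fin κ, StrictlyDegenerate H f (Set.range fun v => (v, R v))

end Pool.Agent.TorDeg
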