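import Pool.Agent.TorDeg.Targets

set_option autoImplicit false

/-!
# TOR-EUL: the Euler inequality for connected toroidal graphs
-/

namespace Pool.Agent.TorDeg

theorem tEUL (hS : T_SUBR) (h1 : T_HOM1) (h2 : T_HOM2) : T_EUL := by
  classical
  intro V hV G hG hT
  obtain ⟨n, G', σ', hG', hrot', hE', φ, hφ⟩ := hT
  obtain ⟨σ, hfirst, hrot⟩ := hS V (Fin n) G G' φ σ' hφ hrot'
  refine ⟨σ, hrot, ?_⟩
  have : Fintype V := Fintype.ofFinite V
  by_cases hD : Nonempty G.Dart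
  · obtain ⟨d⟩ := hD
    have hD' : Nonempty G'.Dart := ⟨φ.mapDart d⟩
    obtain ⟨_, e1, e2⟩ := h1 V G σ hG ⟨d⟩ hrot
    obtain ⟨_, e3, e4⟩ := h1 (Fin n) G' σ' hG' hD' hrot'
    have e5 := h2 V (Fin n) G G' φ σ σ' hφ hrot hrot' hfirst
    rw [Fintype.card_fin] at e4
    rw [Nat.card_eq_fintype_card (α := V)]
    omega
  · have hE : IsEmpty G.edgeSet := by
      refine ⟨fun e => hD ?_⟩
      obtain ⟨e, he⟩ := e
      induction e using Sym2.ind with
      | _ a b => exact ⟨⟨(a, b), he⟩⟩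
    have h0 : Nat.card G.edgeSet = 0 := Nat.card_of_isEmpty
    omega

end Pool.Agent.TorDeg
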