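import Pool.Agent.TorDeg.Targets

set_option autoImplicit false

/-!
# Induced 5-cycles with two triangles
-/

namespace Pool.Agent.TorDeg

namespace EXT

variable {V : Type} {G : SimpleGraph V}

theorem two (h : U5 G) {a b c d e b' c' d' e' : V} (F : Five G a b c d e)
    (F' : Five G a b' c' d' e') : (b' = b ∨ b' = e) ∧ (e' = e ∨ e' = b) := by
  rcases h a b c d e b' c' d' e' F F' with ⟨h1, -, -, h4⟩ | ⟨h1, -, -, h4⟩
  · exact ⟨Or.inl h1.symm, Or.inl h4.symm⟩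
  · exact ⟨Or.inr h4.symm, Or.inr h1.symm⟩

theorem rot {a b c d e : V} (F : Five G a b c d e) : Five G b c d e a := by
  obtain ⟨h1, h2, h3, h4, h5, n1, n2, n3, n4, n5⟩ := F
  exact ⟨h2, h3, h4, h5, h1, n3, n4, n5, n1.symm, n2.symm⟩

/-- what one triangle on the side `v₁ v₂` excludes -/
theorem side (h : U5 G) {v₁ v₂ v₃ v₄ v₅ w : V} (F : Five G v₁ v₂ v₃ v₄ v₅)
    (a1 : G.Adj w v₁) (a2 : G.Adj w v₂) (n3 : w ≠ v₃) (n4 : w ≠ v₄) (n5 : w ≠ v₅) :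
    ¬ G.Adj w v₃ ∧ ¬ G.Adj w v₄ ∧ ¬ G.Adj w v₅ ∧ ¬ G.Adj v₁ v₄ ∧ ¬ G.Adj v₂ v₄ ∧
      ¬ G.Adj v₃ v₅ := by
  obtain ⟨h12, h23, h34, h45, h51, d13, d14, d24, d25, d35⟩ := F
  have F : Five G v₁ v₂ v₃ v₄ v₅ := ⟨h12, h23, h34, h45, h51, d13, d14, d24, d25, d35⟩
  have w1 := a1.ne
  have w2 := a2.ne
  refine ⟨fun hh => ?_, fun hh => ?_, fun hh => ?_, fun hh => ?_, fun hh => ?_, fun hh => ?_⟩
  · rcases (two h F (b' := w) (c' := v₃) (d' := v₄) (e' := v₅)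
      ⟨a1.symm, hh, h34, h45, h51, d13, d14, n4, n5, d35⟩).1 with hc | hc
    · exact w2 hc
    · exact n5 hc
  · rcases (two h F (b' := v₂) (c' := v₃) (d' := v₄) (e' := w)
      ⟨h12, h23, h34, hh.symm, a1, d13, d14, d24, w2.symm, n3.symm⟩).2 with hc | hc
    · exact n5 hc
    · exact w2 hc
  · rcases (two h (rot F) (b' := w) (c' := v₅) (d' := v₄) (e' := v₃)
      ⟨a2.symm, hh, h45.symm, h34.symm, h23.symm, d25, d24, n4, n3, d35.symm⟩).1 with hc | hc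
    · exact n3 hc
    · exact w1 hc
  · rcases (two h F (b' := v₄) (c' := v₃) (d' := v₂) (e' := w)
      ⟨hh, h34.symm, h23.symm, a2.symm, a1, d13, h12.ne, d24.symm, n4.symm, n3.symm⟩).2
      with hc | hc
    · exact n5 hc
    · exact w2 hc
  · rcases (two h F (b' := v₅) (c' := v₄) (d' := v₂) (e' := w)
      ⟨h51.symm, h45.symm, hh.symm, a2.symm, a1, d14, h12.ne, d25.symm, n5.symm, n4.symm⟩).2
      with hc | hc
    · exact n5 hc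
    · exact w2 hc
  · rcases (two h F (b' := v₅) (c' := v₃) (d' := v₂) (e' := w)
      ⟨h51.symm, hh.symm, h23.symm, a2.symm, a1, d13, h12.ne, d25.symm, n5.symm, n3.symm⟩).2
      with hc | hc
    · exact n5 hc
    · exact w2 hc

end EXT

open EXT in
theorem tEXT12 : T_EXT12 := by
  intro V G h v₁ v₂ v₃ v₄ v₅ w₁ w₄ F a1 a2 n3 n4 n5 b4 b5 m1 m2 m3
  obtain ⟨s1, s2, s3, s4, s5, s6⟩ := side h F a1 a2 n3 n4 n5
  have F2 : Five G v₄ v₅ v₁ v₂ v₃ := rot (rot (rot F))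
  obtain ⟨t1, t2, t3, t4, t5, t6⟩ := side h F2 b4 b5 m1 m2 m3
  obtain ⟨h12, h23, h34, h45, h51, d13, d14, d24, d25, d35⟩ := F
  have F : Five G v₁ v₂ v₃ v₄ v₅ := ⟨h12, h23, h34, h45, h51, d13, d14, d24, d25, d35⟩
  refine ⟨⟨F, t6, s4, s5, fun hc => t5 hc.symm, s6⟩, ⟨a1, a2, s1, s2, s3, n3, n4, n5⟩,
    ⟨b4, b5, t1, t2, t3, m1, m2, m3⟩, ?_, ?_⟩
  · rintro rfl
    exact s2 b4
  · intro hh
    rcases (two h F (b' := w₁) (c' := w₄) (d' := v₄) (e' := v₅)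
      ⟨a1.symm, hh, b4, h45, h51, m1.symm, d14, n4, n5, b5.ne⟩).1 with hc | hc
    · exact a2.ne hc
    · exact n5 hc

open EXT in
theorem tEXT21 : T_EXT21 := by
  intro V G h v₁ v₂ v₃ v₄ v₅ w₁ w₃ F a1 a2 n3 n4 n5 b3 b4 m1 m2 m5
  obtain ⟨s1, s2, s3, s4, s5, s6⟩ := side h F a1 a2 n3 n4 n5
  have F2 : Five G v₃ v₄ v₅ v₁ v₂ := rot (rot F)
  obtain ⟨t1, t2, t3, t4, t5, t6⟩ := side h F2 b3 b4 m5 m1 m2
  obtain ⟨h12, h23, h34, h45, h51, d13, d14, d24, d25, d35⟩ := F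
  have F : Five G v₁ v₂ v₃ v₄ v₅ := ⟨h12, h23, h34, h45, h51, d13, d14, d24, d25, d35⟩
  refine ⟨⟨F, fun hc => t4 hc.symm, s4, s5, fun hc => t6 hc.symm, s6⟩,
    ⟨a1, a2, s1, s2, s3, n3, n4, n5⟩, ⟨b3, b4, t1, t2, t3, m5, m1, m2⟩, ?_, ?_⟩
  · rintro rfl
    exact s1 b3
  · intro hh
    rcases (two h (rot F) (b' := w₁) (c' := w₃) (d' := v₄) (e' := v₃)
      ⟨a2.symm, hh, b4, h34.symm, h23.symm, m2.symm, d24, n4, n3, b3.ne⟩).1 with hc | hc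
    · exact n3 hc
    · exact a1.ne hc

end Pool.Agent.TorDeg
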