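import Pool.Agent.TorDeg.Targets

set_option autoImplicit false

/-!
# F345: faces of length 3, 4, 5
-/

namespace Pool.Agent.TorDeg

theorem tF3 (_hN : T_NX) : T_F3 := by
  intro V _ G nx k M _ v u p hvu hk hp
  subst hp
  have hup : G.Adj u (nx u v) := M.adj u v hvu.symm
  obtain ⟨h1, h2⟩ := M.f3 v u hvu hk
  have hpv : G.Adj (nx u v) v := by
    have := M.adj (nx u v) u hup.symm
    rwa [h1] at this
  have k1 : k u (nx u v) = 3 := by rw [M.face v u hvu, hk]
  have k2 : k (nx u v) v = 3 := by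
    have := M.face u (nx u v) hup
    rw [h1] at this
    rw [this, k1]
  exact ⟨hup, hpv, h1, h2, k1, k2⟩

theorem tF4 (hN : T_NX) : T_F4 := by
  intro V _ G nx k M hd v u y m hvu hk hy hm
  have huy : G.Adj u y := by rw [hy]; exact M.adj u v hvu.symm
  have hym : G.Adj y m := by rw [hm]; exact M.adj y u huy.symm
  obtain ⟨h1, h2⟩ := M.f4 v u hvu hk
  rw [← hy, ← hm] at h1 h2
  have hmv : G.Adj m v := by
    have := M.adj m y hym.symm
    rwa [h1] at this
  have k1 : k u y = 4 := by rw [hy, M.face v u hvu, hk]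
  have k2 : k y m = 4 := by rw [hm, M.face u y huy, k1]
  have k3 : k m v = 4 := by
    have := M.face y m hym
    rw [h1] at this
    rw [this, k2]
  have n1 := (hN V G nx k M hd u v hvu.symm).1
  have n2 := (hN V G nx k M hd y u huy.symm).1
  rw [← hy] at n1
  rw [← hm] at n2
  exact ⟨huy, hym, hmv, n1.symm, n2.symm, h1, h2, k1, k2, k3⟩

theorem tF5 (hN : T_NX) : T_F5 := by
  intro V _ G nx k M hd v u y z m hvu hk hy hz hm
  have huy : G.Adj u y := by rw [hy]; exact M.adj u v hvu.symm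
  have hyz : G.Adj y z := by rw [hz]; exact M.adj y u huy.symm
  have hzm : G.Adj z m := by rw [hm]; exact M.adj z y hyz.symm
  obtain ⟨h1, h2⟩ := M.f5 v u hvu hk
  rw [← hy, ← hz, ← hm] at h1 h2
  have hmv : G.Adj m v := by
    have := M.adj m z hzm.symm
    rwa [h1] at this
  have k1 : k u y = 5 := by rw [hy, M.face v u hvu, hk]
  have k2 : k y z = 5 := by rw [hz, M.face u y huy, k1]
  have k3 : k z m = 5 := by rw [hm, M.face y z hyz, k2]
  have k4 : k m v = 5 := by
    have := M.face z m hzm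
    rw [h1] at this
    rw [this, k3]
  have n1 := (hN V G nx k M hd u v hvu.symm).1
  have n2 := (hN V G nx k M hd y u huy.symm).1
  have n3 := (hN V G nx k M hd z y hyz.symm).1
  have n4 := (hN V G nx k M hd m z hzm.symm).1
  have n5 := (hN V G nx k M hd v m hmv.symm).1
  rw [← hy] at n1
  rw [← hz] at n2
  rw [← hm] at n3
  rw [h1] at n4
  rw [h2] at n5
  exact ⟨⟨hvu, huy, hyz, hzm, hmv, n1.symm, n4, n2.symm, n5, n3.symm⟩, h1, h2, k1, k2, k3, k4⟩

end Pool.Agent.TorDeg
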