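import Pool.Agent.TorDeg.Targets

set_option autoImplicit false

/-!
# FCALM: the rim vertices of a fan of three triangles are calm
-/

namespace Pool.Agent.TorDeg

namespace FcalmAux

variable {V : Type}

theorem five_rot {G : SimpleGraph V} {a b c d e : V} (h : Five G a b c d e) :
    Five G b c d e a := by
  obtain ⟨h1, h2, h3, h4, h5, n1, n2, n3, n4, n5⟩ := h
  exact ⟨h2, h3, h4, h5, h1, n3, n4, n5, n1.symm, n2.symm⟩

theorem nbs {G : SimpleGraph V} (hU : U5 G) {v x q r y : V} (h : Five G v x q r y) :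
    ∀ p q' r' s, Five G v p q' r' s → (p = x ∧ s = y) ∨ (p = y ∧ s = x) := by
  intro p q' r' s h'
  rcases hU _ _ _ _ _ _ _ _ _ h h' with ⟨h1, _, _, h4⟩ | ⟨h1, _, _, h4⟩
  · exact Or.inl ⟨h1.symm, h4.symm⟩
  · exact Or.inr ⟨h4.symm, h1.symm⟩

variable [Fintype V]

theorem calmA (hN : T_NX) (h5 : T_F5) (hT : T_TTT) (hTQ : T_TQ) (hQT : T_QT)
    {G : SimpleGraph V} {nx : V → V → V} {k : V → V → ℕ} (M : TMap G nx k)
    (hd : ∀ v, 4 ≤ deg G v) {v x a y : V} (hx : G.Adj v x) (hxa : nx v x = a) (hay : nx v a = y)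
    (kx : 6 ≤ k v x) (ka : k v a = 3) (ky : k v y = 3)
    (hF : ∀ p q r s, Five G v p q r s → (p = x ∧ s = y) ∨ (p = y ∧ s = x)) :
    Calm G nx k v := by
  have hva : G.Adj v a := by rw [← hxa]; exact M.adj v x hx
  have hvy : G.Adj v y := by rw [← hay]; exact M.adj v a hva
  refine ⟨fun m hm hk => ?_, fun m hm ⟨k1, k2, k3⟩ => ?_, fun m hm ⟨k1, k2⟩ => ?_,
    fun m hm ⟨k1, k2⟩ => ?_⟩
  · obtain ⟨hf, _, h2, _⟩ := h5 V G nx k M hd v m _ _ _ hm hk rfl rfl rfl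
    rcases hF _ _ _ _ hf with ⟨e1, e2⟩ | ⟨e1, e2⟩
    · rw [e1] at hk; omega
    · rw [e1] at hk; omega
  · obtain ⟨_, _, _, p, hp, hpm⟩ := hN V G nx k M hd v m hm
    have hf := hT V G nx k M hd v p m (nx v m) (nx v (nx v m)) hp hpm.symm rfl rfl k1 k2 k3
    rcases hF _ _ _ _ hf with ⟨e1, e2⟩ | ⟨e1, e2⟩
    · rw [e1, hxa] at hpm
      rw [← hpm, hay] at e2
      exact (hN V G nx k M hd v y hvy).1 e2
    · rw [e2] at k3; omega
  · obtain ⟨_, _, _, p, hp, hpm⟩ := hN V G nx k M hd v m hm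
    have hf := hTQ V G nx k M hd v p m (nx v m) hp hpm.symm rfl k1 k2
    rcases hF _ _ _ _ hf with ⟨e1, e2⟩ | ⟨e1, e2⟩
    · rw [e2] at k2; omega
    · rw [e2] at k2; omega
  · obtain ⟨_, _, _, p, hp, hpm⟩ := hN V G nx k M hd v m hm
    have hf := hQT V G nx k M hd v p m (nx v m) hp hpm.symm rfl k1 k2
    rcases hF _ _ _ _ hf with ⟨e1, e2⟩ | ⟨e1, e2⟩
    · rw [e1, hxa] at hpm
      rw [← hpm] at k1
      omega
    · rw [e2] at k2; omega

theorem calmB (hN : T_NX) (h5 : T_F5) (hT : T_TTT) (hTQ : T_TQ) (hQT : T_QT)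
    {G : SimpleGraph V} {nx : V → V → V} {k : V → V → ℕ} (M : TMap G nx k)
    (hd : ∀ v, 4 ≤ deg G v) {v x y : V} (hx : G.Adj v x) (hxy : nx v x = y)
    (kx : 6 ≤ k v x) (ky : k v y = 3) (kz : 6 ≤ k v (nx v y))
    (hF : ∀ p q r s, Five G v p q r s → (p = x ∧ s = y) ∨ (p = y ∧ s = x)) :
    Calm G nx k v := by
  have hvy : G.Adj v y := by rw [← hxy]; exact M.adj v x hx
  refine ⟨fun m hm hk => ?_, fun m hm ⟨k1, k2, k3⟩ => ?_, fun m hm ⟨k1, k2⟩ => ?_,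
    fun m hm ⟨k1, k2⟩ => ?_⟩
  · obtain ⟨hf, _, h2, _⟩ := h5 V G nx k M hd v m _ _ _ hm hk rfl rfl rfl
    rcases hF _ _ _ _ hf with ⟨e1, e2⟩ | ⟨e1, e2⟩
    · rw [e1] at hk; omega
    · rw [e1] at hk; omega
  · obtain ⟨_, _, _, p, hp, hpm⟩ := hN V G nx k M hd v m hm
    have hf := hT V G nx k M hd v p m (nx v m) (nx v (nx v m)) hp hpm.symm rfl rfl k1 k2 k3
    rcases hF _ _ _ _ hf with ⟨e1, e2⟩ | ⟨e1, e2⟩
    · rw [e1, hxy] at hpm
      rw [← hpm] at e2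
      exact (hN V G nx k M hd v y hvy).2.1 e2
    · rw [e1] at hpm
      rw [← hpm] at k1
      omega
  · obtain ⟨_, _, _, p, hp, hpm⟩ := hN V G nx k M hd v m hm
    have hf := hTQ V G nx k M hd v p m (nx v m) hp hpm.symm rfl k1 k2
    rcases hF _ _ _ _ hf with ⟨e1, e2⟩ | ⟨e1, e2⟩
    · rw [e2] at k2; omega
    · rw [e1] at hpm
      rw [← hpm] at k1
      omega
  · obtain ⟨_, _, _, p, hp, hpm⟩ := hN V G nx k M hd v m hm
    have hf := hQT V G nx k M hd v p m (nx v m) hp hpm.symm rfl k1 k2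
    rcases hF _ _ _ _ hf with ⟨e1, e2⟩ | ⟨e1, e2⟩
    · rw [e1, hxy] at hpm
      rw [← hpm] at k1
      omega
    · rw [e1] at hpm
      rw [← hpm] at k1
      omega

end FcalmAux

open FcalmAux in
theorem tFCALM (hFO : T_FOUT) (hN : T_NX) (h3 : T_F3) (_h4 : T_F4) (h5 : T_F5) (hT : T_TTT)
    (hTQ : T_TQ) (hQT : T_QT) : T_FCALM := by
  intro V _ G nx k M hU hd a b c d e hab hc hdd he kc kd ke
  obtain ⟨hf, _, k1, k2, k3, k4, k5⟩ := hFO V G nx k M hU hd a b c d e hab hc hdd he kc kd ke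
  have hac : G.Adj a c := by rw [hc]; exact M.adj a b hab
  have had : G.Adj a d := by rw [hdd]; exact M.adj a c hac
  have hae : G.Adj a e := by rw [he]; exact M.adj a d had
  obtain ⟨c1, c2, c3, c4, c5, c6⟩ := h3 V G nx k M hd a c _ hac kc rfl
  obtain ⟨d1, d2, d3, d4, d5, d6⟩ := h3 V G nx k M hd a d _ had kd rfl
  obtain ⟨e1, e2, e3, e4, e5, e6⟩ := h3 V G nx k M hd a e _ hae ke rfl
  have eb : nx c a = b := M.inj a _ _ c2.symm hab (c4.trans hc)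
  have ec : nx d a = c := M.inj a _ _ d2.symm hac (d4.trans hdd)
  have ed : nx e a = d := M.inj a _ _ e2.symm had (e4.trans he)
  rw [eb] at c1 c2 c3 c4 c5 c6
  rw [ec] at d1 d2 d3 d4 d5 d6
  rw [ed] at e1 e2 e3 e4 e5 e6
  have hcyc := five_rot hf
  refine ⟨?_, ?_, ?_, ?_⟩
  · refine calmB hN h5 hT hTQ hQT M hd (v := b) (x := c) (y := a) c1.symm c3 k2 c6 ?_
      (nbs hU (five_rot hf))
    rw [M.face a b hab]
    exact k1
  · exact calmA hN h5 hT hTQ hQT M hd (v := c) (x := d) (a := a) (y := b) d1.symm d3 eb k3 d6 c5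
      (nbs hU (five_rot (five_rot hf)))
  · exact calmA hN h5 hT hTQ hQT M hd (v := d) (x := e) (a := a) (y := c) e1.symm e3 ec k4 e6 d5
      (nbs hU (five_rot (five_rot (five_rot hf))))
  · refine calmB hN h5 hT hTQ hQT M hd (v := e) (x := a) (y := d) hae.symm ed k5 e5 ?_
      (nbs hU (five_rot (five_rot (five_rot (five_rot hf)))))
    rw [M.face d e e1.symm]
    exact k4

end Pool.Agent.TorDeg
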