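import Pool.Agent.TorDeg.Targets

set_option autoImplicit false

/-!
# TOR-FCS: the total final charge, and two consecutive triangles
-/

namespace Pool.Agent.TorDeg

namespace FCS

theorem mem_nb {V : Type} [Fintype V] (G : SimpleGraph V) (v u : V) :
    u ∈ nb G v ↔ G.Adj v u := by
  classical
  unfold nb
  simp

end FCS

open FCS

theorem tFCS (h3 : T_F3) : T_FCS := by
  classical
  intro V _ G nx k h h4
  have key : ∑ v, ∑ m ∈ nb G v, snt G nx k v m = ∑ v, ∑ m ∈ nb G v, rcv G nx k v m := by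
    have e1 : ∑ v, ∑ m ∈ nb G v, snt G nx k v m
        = ∑ x ∈ (Finset.univ : Finset V).sigma (fun v => nb G v), snt G nx k x.1 x.2 := by
      rw [Finset.sum_sigma]
    have e2 : ∑ v, ∑ m ∈ nb G v, rcv G nx k v m
        = ∑ x ∈ (Finset.univ : Finset V).sigma (fun v => nb G v), rcv G nx k x.1 x.2 := by
      rw [Finset.sum_sigma]
    rw [e1, e2]
    have s1 : ∀ v m, snt G nx k v m ≠ 0 →
        5 ≤ deg G v ∧ k v m = 3 ∧ k (nx m v) m = 5 := by
      intro v m hne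
      by_contra hc
      exact hne (by unfold snt; rw [if_neg hc])
    have s2 : ∀ v m, 5 ≤ deg G v ∧ k v m = 3 ∧ k (nx m v) m = 5 → snt G nx k v m = 5 := by
      intro v m hc
      unfold snt
      rw [if_pos hc]
    have r1 : ∀ v m, rcv G nx k v m ≠ 0 →
        k v m = 5 ∧ k m v = 3 ∧ 5 ≤ deg G (nx v m) := by
      intro v m hne
      by_contra hc
      exact hne (by unfold rcv; rw [if_neg hc])
    have r2 : ∀ v m, k v m = 5 ∧ k m v = 3 ∧ 5 ≤ deg G (nx v m) → rcv G nx k v m = 5 := by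
      intro v m hc
      unfold rcv
      rw [if_pos hc]
    refine Finset.sum_bij_ne_zero (fun x _ _ => (⟨nx x.2 x.1, x.2⟩ : Σ _ : V, V)) ?_ ?_ ?_ ?_
    · rintro ⟨v, m⟩ hx hne
      have hadj : G.Adj v m := (mem_nb G v m).mp (Finset.mem_sigma.mp hx).2
      obtain ⟨_, hk, _⟩ := s1 v m hne
      obtain ⟨f1, _, _, _, _, _⟩ := h3 V G nx k h h4 v m (nx m v) hadj hk rfl
      exact Finset.mem_sigma.mpr ⟨Finset.mem_univ _, (mem_nb G _ _).mpr f1.symm⟩
    · rintro ⟨v, m⟩ hx hne ⟨v', m'⟩ hx' hne' heq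
      have hadj : G.Adj v m := (mem_nb G v m).mp (Finset.mem_sigma.mp hx).2
      have hadj' : G.Adj v' m' := (mem_nb G v' m').mp (Finset.mem_sigma.mp hx').2
      have hm : m = m' := congrArg (fun x : Σ _ : V, V => x.2) heq
      have hv : nx m v = nx m' v' := congrArg (fun x : Σ _ : V, V => x.1) heq
      subst hm
      have hvv : v = v' := h.inj m v v' hadj.symm hadj'.symm hv
      subst hvv
      rfl
    · rintro ⟨a, b⟩ hx hne
      have hadj : G.Adj a b := (mem_nb G a b).mp (Finset.mem_sigma.mp hx).2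
      obtain ⟨hk5, hk3, hd⟩ := r1 a b hne
      obtain ⟨f1, f2, f3, f4, f5, f6⟩ := h3 V G nx k h h4 b a (nx a b) hadj.symm hk3 rfl
      have hs : snt G nx k (nx a b) b = 5 := s2 _ _ ⟨hd, f6, by rw [f4]; exact hk5⟩
      refine ⟨⟨nx a b, b⟩, Finset.mem_sigma.mpr ⟨Finset.mem_univ _, (mem_nb G _ _).mpr f2⟩,
        ?_, ?_⟩
      · show snt G nx k (nx a b) b ≠ 0
        rw [hs]
        decide
      · show (⟨nx b (nx a b), b⟩ : Σ _ : V, V) = ⟨a, b⟩
        rw [f4]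
    · rintro ⟨v, m⟩ hx hne
      have hadj : G.Adj v m := (mem_nb G v m).mp (Finset.mem_sigma.mp hx).2
      obtain ⟨hd, hk, hk5⟩ := s1 v m hne
      obtain ⟨f1, f2, f3, f4, f5, f6⟩ := h3 V G nx k h h4 v m (nx m v) hadj hk rfl
      show snt G nx k v m = rcv G nx k (nx m v) m
      rw [s2 v m ⟨hd, hk, hk5⟩, r2 (nx m v) m ⟨hk5, f5, by rw [f3]; exact hd⟩]
  have htot := h.total
  have e : ∑ v, fc G nx k v = ∑ v, (30 * ((deg G v : ℤ) - 4) + ∑ u ∈ nb G v, wt (k v u))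
      - ∑ v, ∑ m ∈ nb G v, snt G nx k v m + ∑ v, ∑ m ∈ nb G v, rcv G nx k v m := by
    rw [← Finset.sum_sub_distrib, ← Finset.sum_add_distrib]
    refine Finset.sum_congr rfl (fun v _ => ?_)
    unfold fc
    rw [Finset.sum_add_distrib, Finset.sum_sub_distrib]
    ring
  rw [e, key]
  linarith

theorem tNS2 (hN : T_NX) (h3 : T_F3) (h5 : T_F5) : T_NS2 := by
  intro V _ G nx k h hU h4 v m a hm ha k1 k2
  rintro ⟨k3, k4⟩
  have hav : G.Adj v a := by
    rw [ha]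
    exact h.adj v m hm
  obtain ⟨f1, f2, f3, f4, f5, f6⟩ := h3 V G nx k h h4 v m (nx m v) hm k1 rfl
  obtain ⟨g1, g2, g3, g4, g5, g6⟩ := h3 V G nx k h h4 v a (nx a v) hav k2 rfl
  have hq : nx a v = m := h.inj v _ _ g2.symm hm (by rw [g4, ha])
  rw [hq] at g1 g2 g3 g4 g5 g6 k4
  -- the two 5-faces
  obtain ⟨F1, -, -, -, -, -, -⟩ := h5 V G nx k h h4 (nx m v) m _ _ _ f1.symm k3 rfl rfl rfl
  obtain ⟨F2, -, e2, -, -, -, -⟩ := h5 V G nx k h h4 m a _ _ _ g1.symm k4 rfl rfl rfl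
  obtain ⟨a1, a2, a3, a4, a5, n1, n2, n3, n4, n5⟩ := F1
  have F1' : Five G m _ _ _ (nx m v) := ⟨a2, a3, a4, a5, a1, n3, n4, n5, n1.symm, n2.symm⟩
  obtain ⟨N1, N2, N3, -⟩ := hN V G nx k h h4 m a g1.symm
  rcases hU _ _ _ _ _ _ _ _ _ F1' F2 with ⟨c1, -, -, -⟩ | ⟨-, -, -, c4⟩
  · -- nx m (nx m v) = a
    rw [g3, c1] at N3
    exact N3 rfl
  · rw [g3, c4] at N2
    exact N2 rfl

end Pool.Agent.TorDeg
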