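import Pool.Agent.TorDeg.Targets

set_option autoImplicit false

/-!
# FHUB: the charge of the hub of a fan of three triangles
-/

namespace Pool.Agent.TorDeg

section kit

variable {V : Type} [Fintype V] {G : SimpleGraph V} {nx : V → V → V} {k : V → V → ℕ}

lemma fhub_wt_ge (n : ℕ) : -10 ≤ wt n := by
  unfold wt
  split_ifs <;> norm_num

lemma fhub_wt_four {n : ℕ} (h : 4 ≤ n) : 0 ≤ wt n := by
  unfold wt
  rw [if_neg (by omega)]
  split_ifs <;> norm_num

lemma fhub_wt_six {n : ℕ} (h : 6 ≤ n) : wt n = 10 := by
  unfold wt
  rw [if_neg (by omega), if_neg (by omega), if_neg (by omega)]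

lemma fhub_snt_le (v m : V) : snt G nx k v m ≤ 5 := by
  unfold snt
  split_ifs <;> norm_num

lemma fhub_snt_zero {v m : V} (h : k v m ≠ 3) : snt G nx k v m = 0 := by
  unfold snt
  exact if_neg fun h' => h h'.2.1

lemma fhub_snt_deg {v m : V} (h : deg G v = 4) : snt G nx k v m = 0 := by
  unfold snt
  exact if_neg fun h' => by have := h'.1; omega

lemma fhub_rcv_nonneg (v m : V) : 0 ≤ rcv G nx k v m := by
  unfold rcv
  split_ifs <;> norm_num

end kit

theorem tFHUB (hFOUT : T_FOUT) (_hNX : T_NX) (hS4 : T_S4) (hS5 : T_S5) (hAV : T_AV)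
    (_hNS2 : T_NS2) (_hF3 : T_F3) (_hF4 : T_F4) (hF5 : T_F5) (hTTT : T_TTT) (hTQ : T_TQ)
    (hQT : T_QT) : T_FHUB := by
  classical
  intro V _ G nx k hT hU h4 a b c d e hab hc hd he kc kd ke
  obtain ⟨hfive, -, kab, kbc, kcd, kde, kea⟩ :=
    hFOUT V G nx k hT hU h4 a b c d e hab hc hd he kc kd ke
  obtain ⟨-, -, -, hde, hea, hac, had, hbd, hbe, hce⟩ := id hfive
  have hadc : G.Adj a c := by rw [hc]; exact hT.adj _ _ hab
  have hadd : G.Adj a d := by rw [hd]; exact hT.adj _ _ hadc
  have hade : G.Adj a e := hea.symm
  have knx : 6 ≤ k a (nx a e) := by rw [hT.face e a hea]; exact kea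
  set F : V → ℤ := fun m => wt (k a m) - snt G nx k a m + rcv G nx k a m with hF
  have hF0 : ∀ m, -15 ≤ F m := fun m => by
    have h1 := fhub_wt_ge (k a m)
    have h2 := fhub_snt_le (G := G) (nx := nx) (k := k) a m
    have h3 := fhub_rcv_nonneg (G := G) (nx := nx) (k := k) a m
    simp only [hF]
    linarith
  have hF4' : ∀ m, 4 ≤ k a m → 0 ≤ F m := fun m hm => by
    have h1 := fhub_wt_four hm
    have h2 := fhub_snt_zero (G := G) (nx := nx) (k := k) (v := a) (m := m) (by omega)
    have h3 := fhub_rcv_nonneg (G := G) (nx := nx) (k := k) a m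
    simp only [hF]
    linarith
  have hF6 : ∀ m, 6 ≤ k a m → 10 ≤ F m := fun m hm => by
    have h1 := fhub_wt_six hm
    have h2 := fhub_snt_zero (G := G) (nx := nx) (k := k) (v := a) (m := m) (by omega)
    have h3 := fhub_rcv_nonneg (G := G) (nx := nx) (k := k) a m
    simp only [hF]
    linarith
  have hfc : fc G nx k a = 30 * ((deg G a : ℤ) - 4) + ∑ m ∈ nb G a, F m := rfl
  constructor
  · intro hdeg
    have hF1 : ∀ m, -10 ≤ F m := fun m => by
      have h1 := fhub_wt_ge (k a m)
      have h2 := fhub_snt_deg (G := G) (nx := nx) (k := k) (v := a) (m := m) hdeg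
      have h3 := fhub_rcv_nonneg (G := G) (nx := nx) (k := k) a m
      simp only [hF]
      linarith
    obtain ⟨-, hsum⟩ := hS4 V G nx k hT a b hab hdeg
    rw [hfc, hsum F, ← hc, ← hd, ← he, hdeg]
    have h1 := hF6 b kab
    have h2 := hF1 c
    have h3 := hF1 d
    have h4 := hF1 e
    push_cast
    linarith
  · intro hdeg
    rcases Nat.lt_or_ge (deg G a) 6 with hdeg5 | hdeg6
    · have hdeg' : deg G a = 5 := by omega
      obtain ⟨-, hsum⟩ := hS5 V G nx k hT a b hab hdeg'
      rw [hfc, hsum F, ← hc, ← hd, ← he, hdeg']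
      have h1 := hF6 b kab
      have h2 := hF0 c
      have h3 := hF0 d
      have h4 := hF0 e
      have h5 := hF6 (nx a e) knx
      push_cast
      linarith
    · -- no corner of a 5-face
      have no5 : ∀ m, G.Adj a m → k a m ≠ 5 := by
        intro m ham hk
        obtain ⟨h5, -, -, -⟩ := hF5 V G nx k hT h4 a m _ _ _ ham hk rfl rfl rfl
        rcases hU _ _ _ _ _ _ _ _ _ hfive h5 with ⟨h, -, -, -⟩ | ⟨-, -, -, h⟩
        · rw [← h] at hk; omega
        · rw [← h] at hk; omega
      -- no triangle next to a 4-face
      have notq : ∀ p, G.Adj a p → k a (nx a p) = 3 → k a (nx a (nx a p)) = 4 → False := by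
        intro p hap h3 h4'
        have h5 := hTQ V G nx k hT h4 a p _ _ hap rfl rfl h3 h4'
        rcases hU _ _ _ _ _ _ _ _ _ hfive h5 with ⟨h, -, -, -⟩ | ⟨-, -, -, h⟩
        · rw [← h, ← hc, ← hd] at h4'; omega
        · rw [← h] at h3; omega
      have noqt : ∀ p, G.Adj a p → k a (nx a p) = 4 → k a (nx a (nx a p)) = 3 → False := by
        intro p hap h4' h3
        have h5 := hQT V G nx k hT h4 a p _ _ hap rfl rfl h4' h3
        rcases hU _ _ _ _ _ _ _ _ _ hfive h5 with ⟨h, -, -, -⟩ | ⟨-, -, -, h⟩
        · rw [← h, ← hc] at h4'; omega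
        · rw [← h] at h4'; omega
      have nottt : ∀ p, G.Adj a p → nx a p ≠ c → k a (nx a p) = 3 →
          k a (nx a (nx a p)) = 3 → k a (nx a (nx a (nx a p))) = 3 → False := by
        intro p hap hpc h1 h2 h3
        have h5 := hTTT V G nx k hT h4 a p _ _ _ hap rfl rfl rfl h1 h2 h3
        rcases hU _ _ _ _ _ _ _ _ _ hfive h5 with ⟨-, h, -, -⟩ | ⟨-, -, -, h⟩
        · exact hpc h.symm
        · rw [← h] at h1; omega
      -- triples
      have htrip : ∀ p, G.Adj a p → nx a p ≠ c →
          -20 ≤ F (nx a p) + F (nx a (nx a p)) + F (nx a (nx a (nx a p))) := by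
        intro p hap hpc
        have a1 := hT.adj _ _ hap
        have a2 := hT.adj _ _ a1
        have a3 := hT.adj _ _ a2
        have t1 := hT.three _ _ a1
        have t2 := hT.three _ _ a2
        have t3 := hT.three _ _ a3
        have n1 := no5 _ a1
        have n2 := no5 _ a2
        have n3 := no5 _ a3
        have q1 := notq p hap
        have q2 := notq _ a1
        have q3 := noqt p hap
        have q4 := noqt _ a1
        have q5 := nottt p hap hpc
        have l1 := hF0 (nx a p)
        have l2 := hF0 (nx a (nx a p))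
        have l3 := hF0 (nx a (nx a (nx a p)))
        by_cases g1 : 6 ≤ k a (nx a p)
        · have := hF6 _ g1
          linarith
        by_cases g2 : 6 ≤ k a (nx a (nx a p))
        · have := hF6 _ g2
          linarith
        by_cases g3 : 6 ≤ k a (nx a (nx a (nx a p)))
        · have := hF6 _ g3
          linarith
        by_cases e1 : k a (nx a p) = 3
        · have e2 : k a (nx a (nx a p)) = 3 := by
            by_contra h
            exact q1 e1 (by omega)
          have e3 : k a (nx a (nx a (nx a p))) = 3 := by
            by_contra h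
            exact q2 e2 (by omega)
          exact (q5 e1 e2 e3).elim
        · have e1' : k a (nx a p) = 4 := by omega
          have e2 : k a (nx a (nx a p)) = 4 := by
            by_contra h
            exact q3 e1' (by omega)
          have e3 : k a (nx a (nx a (nx a p))) = 4 := by
            by_contra h
            exact q4 e2 (by omega)
          have := hF4' _ e1'.ge
          have := hF4' _ e2.ge
          have := hF4' _ e3.ge
          linarith
      -- the sum
      have hsum : ∑ p ∈ nb G a, (F (nx a p) + F (nx a (nx a p)) + F (nx a (nx a (nx a p)))) =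
          3 * ∑ m ∈ nb G a, F m := by
        rw [Finset.sum_add_distrib, Finset.sum_add_distrib]
        have s1 := hAV V G nx k hT a F
        have s2 := hAV V G nx k hT a (fun x => F (nx a x))
        have s3 := hAV V G nx k hT a (fun x => F (nx a (nx a x)))
        rw [s3, s2, s1]
        ring
      have hlow : ∑ p ∈ nb G a, ((-20 : ℤ) + (if p = b then -25 else 0)) ≤
          ∑ p ∈ nb G a, (F (nx a p) + F (nx a (nx a p)) + F (nx a (nx a (nx a p)))) := by
        refine Finset.sum_le_sum fun p hp => ?_
        have hap : G.Adj a p := by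
          unfold nb at hp
          exact (Finset.mem_filter.mp hp).2
        by_cases hpb : p = b
        · rw [if_pos hpb]
          have l1 := hF0 (nx a p)
          have l2 := hF0 (nx a (nx a p))
          have l3 := hF0 (nx a (nx a (nx a p)))
          linarith
        · rw [if_neg hpb]
          have hne : nx a p ≠ c := by
            intro h
            rw [hc] at h
            exact hpb (hT.inj _ _ _ hap hab h)
          have := htrip p hap hne
          linarith
      have hcard : ∑ p ∈ nb G a, ((-20 : ℤ) + (if p = b then -25 else 0)) =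
          -20 * (deg G a : ℤ) - 25 := by
        rw [Finset.sum_add_distrib, Finset.sum_const, Finset.sum_ite_eq' (nb G a) b]
        have hb : b ∈ nb G a := by
          unfold nb
          exact Finset.mem_filter.mpr ⟨Finset.mem_univ _, hab⟩
        rw [if_pos hb]
        have : (nb G a).card = deg G a := rfl
        rw [this]
        simp only [nsmul_eq_mul]
        ring
      rw [hcard, hsum] at hlow
      rw [hfc]
      have h6 : (6 : ℤ) ≤ (deg G a : ℤ) := by exact_mod_cast hdeg6
      linarith

end Pool.Agent.TorDeg
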