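import Pool.Agent.TorDeg.Targets

set_option autoImplicit false

/-!
# The faces around a fan of three triangles
-/

namespace Pool.Agent.TorDeg

theorem FOUT_rot {V : Type} {G : SimpleGraph V} {a b c d e : V} (h : Five G a b c d e) :
    Five G b c d e a := by
  obtain ⟨h1, h2, h3, h4, h5, h6, h7, h8, h9, h10⟩ := h
  exact ⟨h2, h3, h4, h5, h1, h8, h9, h10, h6.symm, h7.symm⟩

theorem FOUT_six {n : ℕ} (h : 3 ≤ n) (h3 : n ≠ 3) (h4 : n ≠ 4) (h5 : n ≠ 5) : 6 ≤ n := by omega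

theorem tFOUT (hN : T_NX) (h3 : T_F3) (_h4 : T_F4) (h5 : T_F5) (hTTT : T_TTT) (hTQ : T_TQ)
    (hQT : T_QT) (hF : T_FANX) : T_FOUT := by
  intro V _ G nx k hM hU hd a b c d e hab hc hdd he kc kd ke
  have hac : G.Adj a c := hc ▸ hM.adj a b hab
  have had : G.Adj a d := hdd ▸ hM.adj a c hac
  have hae : G.Adj a e := he ▸ hM.adj a d had
  have M : Five G a b c d e := hTTT V G nx k hM hd a b c d e hab hc hdd he kc kd ke
  have Mb : Five G b c d e a := FOUT_rot M
  have Mc : Five G c d e a b := FOUT_rot Mb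
  have Md : Five G d e a b c := FOUT_rot Mc
  have Me : Five G e a b c d := FOUT_rot Md
  have M' := M
  obtain ⟨-, hbc, hcd, hde, -, nac, nad, nbd, nbe, nce⟩ := M'
  -- triangles
  obtain ⟨c1, c2, c3, c4, c5, c6⟩ := h3 V G nx k hM hd a c _ hac kc rfl
  obtain ⟨d1, d2, d3, d4, d5, d6⟩ := h3 V G nx k hM hd a d _ had kd rfl
  obtain ⟨e1, e2, e3, e4, e5, e6⟩ := h3 V G nx k hM hd a e _ hae ke rfl
  have ec : nx c a = b := hM.inj a _ _ c2.symm hab (c4.trans hc)
  have ed : nx d a = c := hM.inj a _ _ d2.symm hac (d4.trans hdd)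
  have ee : nx e a = d := hM.inj a _ _ e2.symm had (e4.trans he)
  rw [ec] at c3 c5 c6
  rw [ed] at d3 d5 d6
  rw [ee] at e3 e5 e6
  -- rotations: at c: d, a, b; at d: e, a, c; at b: c, a; at e: a, d
  have rca : k c a = 3 := d6
  have rcb : k c b = 3 := c5
  have rda : k d a = 3 := e6
  have rdc : k d c = 3 := d5
  have Nc := hN V G nx k hM hd c d hcd
  have Nd := hN V G nx k hM hd d e hde
  have Nb := hN V G nx k hM hd b a hab.symm
  refine ⟨M, hF V G hU a b c d e M hac had, ?_, ?_, ?_, ?_, ?_⟩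
  · -- the face of (a, b)
    obtain ⟨-, -, -, q, hq, hqb⟩ := hN V G nx k hM hd a b hab
    refine FOUT_six (hM.three a b hab) ?_ ?_ ?_
    · intro hk
      have F := hTTT V G nx k hM hd a q b c d hq hqb.symm hc hdd hk kc kd
      rcases hU _ _ _ _ _ _ _ _ _ M F with ⟨x1, x2, x3, x4⟩ | ⟨x1, x2, x3, x4⟩
      · exact hbc.ne x2.symm
      · exact nbd x1
    · intro hk
      have F := hQT V G nx k hM hd a q b c hq hqb.symm hc hk kc
      rcases hU _ _ _ _ _ _ _ _ _ M F with ⟨x1, x2, x3, x4⟩ | ⟨x1, x2, x3, x4⟩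
      · exact nbd x3.symm
      · exact hbc.ne x1
    · intro hk
      obtain ⟨F, f1, f2, -⟩ := h5 V G nx k hM hd a b _ _ _ hab hk rfl rfl rfl
      rcases hU _ _ _ _ _ _ _ _ _ M F with ⟨x1, x2, x3, x4⟩ | ⟨x1, x2, x3, x4⟩
      · apply Nb.2.1
        rw [← x2]
        exact c3
      · exact F.2.2.2.2.2.2.2.2.1 x1
  · -- the face of (b, c)
    refine FOUT_six (hM.three b c hbc) ?_ ?_ ?_
    · intro hk
      have hk' : k c (nx c b) = 3 := (hM.face b c hbc).trans hk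
      have F := hTTT V G nx k hM hd c d a b (nx c b) hcd d3.symm ec.symm rfl rca rcb hk'
      rcases hU _ _ _ _ _ _ _ _ _ Mc F with ⟨x1, x2, x3, x4⟩ | ⟨x1, x2, x3, x4⟩
      · exact hae.ne x2.symm
      · exact nbe x2.symm
    · intro hk
      have hk' : k c (nx c b) = 4 := (hM.face b c hbc).trans hk
      have F := hTQ V G nx k hM hd c a b (nx c b) hac.symm ec.symm rfl rcb hk'
      rcases hU _ _ _ _ _ _ _ _ _ Mc F with ⟨x1, x2, x3, x4⟩ | ⟨x1, x2, x3, x4⟩
      · exact nad x1.symm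
      · exact hab.ne x3
    · intro hk
      obtain ⟨F, f1, f2, -⟩ := h5 V G nx k hM hd b c _ _ _ hbc hk rfl rfl rfl
      rcases hU _ _ _ _ _ _ _ _ _ Mb F with ⟨x1, x2, x3, x4⟩ | ⟨x1, x2, x3, x4⟩
      · apply Nc.2.2.1
        rw [d3, ec]
        exact x2.symm
      · exact F.2.2.2.2.2.2.2.2.1 x1
  · -- the face of (c, d)
    refine FOUT_six (hM.three c d hcd) ?_ ?_ ?_
    · intro hk
      have hk' : k d (nx d c) = 3 := (hM.face c d hcd).trans hk
      have F := hTTT V G nx k hM hd d e a c (nx d c) hde e3.symm ed.symm rfl rda rdc hk'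
      rcases hU _ _ _ _ _ _ _ _ _ Md F with ⟨x1, x2, x3, x4⟩ | ⟨x1, x2, x3, x4⟩
      · exact hbc.ne x3
      · exact nac x2
    · intro hk
      have hk' : k d (nx d c) = 4 := (hM.face c d hcd).trans hk
      have F := hTQ V G nx k hM hd d a c (nx d c) had.symm ed.symm rfl rdc hk'
      rcases hU _ _ _ _ _ _ _ _ _ Md F with ⟨x1, x2, x3, x4⟩ | ⟨x1, x2, x3, x4⟩
      · exact hae.ne x1.symm
      · exact hbc.ne x3
    · intro hk
      obtain ⟨F, f1, f2, -⟩ := h5 V G nx k hM hd c d _ _ _ hcd hk rfl rfl rfl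
      rcases hU _ _ _ _ _ _ _ _ _ Mc F with ⟨x1, x2, x3, x4⟩ | ⟨x1, x2, x3, x4⟩
      · apply Nd.2.2.1
        rw [e3, ed]
        exact x2.symm
      · exact F.2.2.2.2.2.2.2.2.1 x1
  · -- the face of (d, e)
    obtain ⟨-, -, -, q, hq, hqe⟩ := Nd
    refine FOUT_six (hM.three d e hde) ?_ ?_ ?_
    · intro hk
      have F := hTTT V G nx k hM hd d q e a c hq hqe.symm e3.symm ed.symm hk rda rdc
      rcases hU _ _ _ _ _ _ _ _ _ Md F with ⟨x1, x2, x3, x4⟩ | ⟨x1, x2, x3, x4⟩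
      · exact hae.ne x2
      · exact nce x1.symm
    · intro hk
      have F := hQT V G nx k hM hd d q e a hq hqe.symm e3.symm hk rda
      rcases hU _ _ _ _ _ _ _ _ _ Md F with ⟨x1, x2, x3, x4⟩ | ⟨x1, x2, x3, x4⟩
      · exact nbe x3
      · exact hae.ne x1.symm
    · intro hk
      obtain ⟨F, f1, f2, -⟩ := h5 V G nx k hM hd d e _ _ _ hde hk rfl rfl rfl
      rcases hU _ _ _ _ _ _ _ _ _ Md F with ⟨x1, x2, x3, x4⟩ | ⟨x1, x2, x3, x4⟩
      · rw [← x4] at f2
        have := (hN V G nx k hM hd d e hde).2.2.1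
        apply this
        rw [e3, ed]
        exact f2
      · exact F.2.2.2.2.2.2.2.2.1 x1
  · -- the face of (e, a)
    refine FOUT_six (hM.three e a hae.symm) ?_ ?_ ?_
    · intro hk
      have hk' : k a (nx a e) = 3 := (hM.face e a hae.symm).trans hk
      have F := hTTT V G nx k hM hd a c d e (nx a e) hac hdd he rfl kd ke hk'
      rcases hU _ _ _ _ _ _ _ _ _ M F with ⟨x1, x2, x3, x4⟩ | ⟨x1, x2, x3, x4⟩
      · exact hbc.ne x1
      · exact nce x2
    · intro hk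
      have hk' : k a (nx a e) = 4 := (hM.face e a hae.symm).trans hk
      have F := hTQ V G nx k hM hd a d e (nx a e) had he rfl ke hk'
      rcases hU _ _ _ _ _ _ _ _ _ M F with ⟨x1, x2, x3, x4⟩ | ⟨x1, x2, x3, x4⟩
      · exact nbd x1
      · exact hde.ne x3
    · intro hk
      obtain ⟨F, f1, f2, -⟩ := h5 V G nx k hM hd e a _ _ _ hae.symm hk rfl rfl rfl
      rcases hU _ _ _ _ _ _ _ _ _ Me F with ⟨x1, x2, x3, x4⟩ | ⟨x1, x2, x3, x4⟩
      · apply Nb.2.1
        rw [← x2] at x3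
        rw [← x3]
        exact c3
      · exact F.2.2.2.2.2.2.2.2.1 x1

end Pool.Agent.TorDeg
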