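import Pool.Agent.TorDeg.Targets

set_option autoImplicit false

/-!
# Fans of three triangles: the rim vertices
-/

namespace Pool.Agent.TorDeg

section frim

variable {V : Type} [Fintype V] {G : SimpleGraph V} {nx : V → V → V} {k : V → V → ℕ}

/-- the value of a corner -/
noncomputable def fr_vlc (G : SimpleGraph V) (nx : V → V → V) (k : V → V → ℕ) (v m : V) : ℤ :=
  wt (k v m) - snt G nx k v m + rcv G nx k v m

theorem fr_vlc_fc (v : V) : fc G nx k v = 30 * ((deg G v : ℤ) - 4) + ∑ m ∈ nb G v, fr_vlc G nx k v m :=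
  rfl

theorem fr_wt_ge (n : ℕ) : -10 ≤ wt n := by
  unfold wt
  split_ifs <;> norm_num

theorem fr_snt_le (v m : V) : snt G nx k v m ≤ 5 := by
  unfold snt
  split_ifs <;> norm_num

theorem fr_rcv_nonneg (v m : V) : 0 ≤ rcv G nx k v m := by
  unfold rcv
  split_ifs <;> norm_num

theorem fr_vlc_ge15 (v m : V) : -15 ≤ fr_vlc G nx k v m := by
  have h1 := fr_wt_ge (k v m)
  have h2 := fr_snt_le (G := G) (nx := nx) (k := k) v m
  have h3 := fr_rcv_nonneg (G := G) (nx := nx) (k := k) v m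
  unfold fr_vlc
  linarith

theorem fr_snt_zero (v m : V) (h : ¬ (k v m = 3 ∧ k (nx m v) m = 5)) : snt G nx k v m = 0 := by
  unfold snt
  rw [if_neg]
  rintro ⟨-, h1, h2⟩
  exact h ⟨h1, h2⟩

theorem fr_vlc_ge10 (v m : V) (h : k (nx m v) m ≠ 5) : -10 ≤ fr_vlc G nx k v m := by
  have h1 := fr_wt_ge (k v m)
  have h2 := fr_snt_zero (G := G) (nx := nx) (k := k) v m (fun h' => h h'.2)
  have h3 := fr_rcv_nonneg (G := G) (nx := nx) (k := k) v m
  unfold fr_vlc
  linarith

theorem fr_vlc_nonneg (v m : V) (h : k v m ≠ 3) (h' : 3 ≤ k v m) : 0 ≤ fr_vlc G nx k v m := by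
  have h1 : 0 ≤ wt (k v m) := by
    unfold wt
    rw [if_neg (by omega)]
    split_ifs <;> norm_num
  have h2 := fr_snt_zero (G := G) (nx := nx) (k := k) v m (fun h' => h h'.1)
  have h3 := fr_rcv_nonneg (G := G) (nx := nx) (k := k) v m
  unfold fr_vlc
  linarith

theorem fr_vlc_six (v m : V) (h : 6 ≤ k v m) : 10 ≤ fr_vlc G nx k v m := by
  have h1 : wt (k v m) = 10 := by
    unfold wt
    rw [if_neg (by omega), if_neg (by omega), if_neg (by omega)]
  have h2 := fr_snt_zero (G := G) (nx := nx) (k := k) v m (fun h' => by omega)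
  have h3 := fr_rcv_nonneg (G := G) (nx := nx) (k := k) v m
  unfold fr_vlc
  linarith

theorem fr_vlc_pair (hNS : T_NS2) (hM : TMap G nx k) (hU : U5 G) (hd : ∀ v, 4 ≤ deg G v) (v m : V)
    (hm : G.Adj v m) : -25 ≤ fr_vlc G nx k v m + fr_vlc G nx k v (nx v m) := by
  have a1 := fr_vlc_ge15 (G := G) (nx := nx) (k := k) v m
  have a2 := fr_vlc_ge15 (G := G) (nx := nx) (k := k) v (nx v m)
  by_cases h1 : k v m = 3
  · by_cases h2 : k v (nx v m) = 3
    · have h := hNS V G nx k hM hU hd v m _ hm rfl h1 h2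
      by_cases h3 : k (nx m v) m = 5
      · have h4 : k (nx (nx v m) v) (nx v m) ≠ 5 := fun h4 => h ⟨h3, h4⟩
        have := fr_vlc_ge10 (G := G) (nx := nx) (k := k) v (nx v m) h4
        linarith
      · have := fr_vlc_ge10 (G := G) (nx := nx) (k := k) v m h3
        linarith
    · have := fr_vlc_nonneg (G := G) (nx := nx) (k := k) v (nx v m) h2
        (hM.three v _ (hM.adj v m hm))
      linarith
  · have := fr_vlc_nonneg (G := G) (nx := nx) (k := k) v m h1 (hM.three v _ hm)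
    linarith

theorem fr_vlc_triple (hNS : T_NS2) (hM : TMap G nx k) (hU : U5 G) (hd : ∀ v, 4 ≤ deg G v) (v m : V)
    (hc : Calm G nx k v) (hm : G.Adj v m) :
    -20 ≤ fr_vlc G nx k v m + fr_vlc G nx k v (nx v m) + fr_vlc G nx k v (nx v (nx v m)) := by
  have hm' := hM.adj v m hm
  have hm'' := hM.adj v _ hm'
  have a1 := fr_vlc_ge15 (G := G) (nx := nx) (k := k) v m
  have a2 := fr_vlc_ge15 (G := G) (nx := nx) (k := k) v (nx v m)
  have a3 := fr_vlc_ge15 (G := G) (nx := nx) (k := k) v (nx v (nx v m))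
  have b1 := hM.three v m hm
  have b2 := hM.three v _ hm'
  have b3 := hM.three v _ hm''
  have p1 := fr_vlc_pair hNS hM hU hd v m hm
  have p2 := fr_vlc_pair hNS hM hU hd v _ hm'
  have c1 := hc.five m hm
  have c2 := hc.five _ hm'
  have c3 := hc.five _ hm''
  have t1 := hc.ttt m hm
  have q1 := hc.tq m hm
  have q2 := hc.tq _ hm'
  have r1 := hc.qt m hm
  have r2 := hc.qt _ hm'
  by_cases h2 : k v (nx v m) = 3
  · by_cases h1 : k v m = 3
    · have h3 : 6 ≤ k v (nx v (nx v m)) := by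
        have : k v (nx v (nx v m)) ≠ 3 := fun h3 => t1 ⟨h1, h2, h3⟩
        have : k v (nx v (nx v m)) ≠ 4 := fun h3 => q2 ⟨h2, h3⟩
        omega
      have := fr_vlc_six (G := G) (nx := nx) (k := k) v _ h3
      linarith
    · have h1' : 6 ≤ k v m := by
        have : k v m ≠ 4 := fun h3 => r1 ⟨h3, h2⟩
        omega
      have := fr_vlc_six (G := G) (nx := nx) (k := k) v _ h1'
      linarith
  · have hn2 := fr_vlc_nonneg (G := G) (nx := nx) (k := k) v _ h2 b2
    by_cases h1 : k v m = 3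
    · have h2' : 6 ≤ k v (nx v m) := by
        have : k v (nx v m) ≠ 4 := fun h3 => q1 ⟨h1, h3⟩
        omega
      have := fr_vlc_six (G := G) (nx := nx) (k := k) v _ h2'
      linarith
    · have hn1 := fr_vlc_nonneg (G := G) (nx := nx) (k := k) v _ h1 b1
      linarith

theorem fr_sum_triple (hAV : T_AV) (hM : TMap G nx k) (v : V) :
    ∑ m ∈ nb G v, (fr_vlc G nx k v m + fr_vlc G nx k v (nx v m) + fr_vlc G nx k v (nx v (nx v m)) + 20) =
      3 * ∑ m ∈ nb G v, fr_vlc G nx k v m + 20 * (deg G v : ℤ) := by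
  have h1 := hAV V G nx k hM v (fun m => fr_vlc G nx k v m)
  have h2 := hAV V G nx k hM v (fun m => fr_vlc G nx k v (nx v m))
  have h3 : ∑ m ∈ nb G v, (20 : ℤ) = 20 * (deg G v : ℤ) := by
    rw [Finset.sum_const, nsmul_eq_mul, mul_comm]
    rfl
  rw [Finset.sum_add_distrib, Finset.sum_add_distrib, Finset.sum_add_distrib, h3]
  rw [h2, h1]
  ring

theorem fr_mem_nb {v m : V} : m ∈ nb G v ↔ G.Adj v m := by
  classical
  simp [nb]

theorem fr_rimB (hS : T_S5) (hAV : T_AV) (hNS : T_NS2) (hM : TMap G nx k) (hU : U5 G)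
    (hd : ∀ v, 4 ≤ deg G v) (v x : V) (hc : Calm G nx k v) (hx : G.Adj v x) (h1 : 6 ≤ k v x)
    (h3 : k (nx (nx v x) v) (nx v x) ≠ 5) (h4 : 6 ≤ k v (nx v (nx v x))) (h5 : 5 ≤ deg G v) :
    15 ≤ fc G nx k v := by
  rw [fr_vlc_fc]
  rcases h5.eq_or_lt with h5 | h5
  · obtain ⟨-, hs⟩ := hS V G nx k hM v x hx h5.symm
    rw [hs (fun m => fr_vlc G nx k v m)]
    have e1 := fr_vlc_six (G := G) (nx := nx) (k := k) v _ h1
    have e2 := fr_vlc_ge10 (G := G) (nx := nx) (k := k) v _ h3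
    have e3 := fr_vlc_six (G := G) (nx := nx) (k := k) v _ h4
    have e4 := fr_vlc_pair hNS hM hU hd v (nx v (nx v (nx v x)))
      (hM.adj v _ (hM.adj v _ (hM.adj v _ hx)))
    have e5 : (deg G v : ℤ) = 5 := by exact_mod_cast h5.symm
    rw [e5]
    linarith
  · have hs := fr_sum_triple hAV hM v
    have hp : 0 ≤ ∑ m ∈ nb G v, (fr_vlc G nx k v m + fr_vlc G nx k v (nx v m) +
        fr_vlc G nx k v (nx v (nx v m)) + 20) := by
      apply Finset.sum_nonneg
      intro m hm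
      have := fr_vlc_triple hNS hM hU hd v m hc (fr_mem_nb.1 hm)
      linarith
    rw [hs] at hp
    have e5 : (6 : ℤ) ≤ (deg G v : ℤ) := by exact_mod_cast h5
    linarith

theorem fr_rimC (hS : T_S5) (hAV : T_AV) (hNS : T_NS2) (hM : TMap G nx k) (hU : U5 G)
    (hd : ∀ v, 4 ≤ deg G v) (v x : V) (hc : Calm G nx k v) (hx : G.Adj v x) (h1 : 6 ≤ k v x)
    (h2 : k (nx (nx v x) v) (nx v x) ≠ 5)
    (h3 : k (nx (nx v (nx v x)) v) (nx v (nx v x)) ≠ 5)
    (hne : nx v x ≠ x)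
    (h4 : 6 ≤ k v (nx v (nx v (nx v x)))) :
    (5 ≤ deg G v → 15 ≤ fc G nx k v) ∧ (6 ≤ deg G v → 25 ≤ fc G nx k v) := by
  have e1 := fr_vlc_six (G := G) (nx := nx) (k := k) v _ h1
  have e2 := fr_vlc_ge10 (G := G) (nx := nx) (k := k) v _ h2
  have e3 := fr_vlc_ge10 (G := G) (nx := nx) (k := k) v _ h3
  have e4 := fr_vlc_six (G := G) (nx := nx) (k := k) v _ h4
  have h6 : 6 ≤ deg G v → 25 ≤ fc G nx k v := by
    intro h5
    rw [fr_vlc_fc]
    classical
    have hs := fr_sum_triple hAV hM v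
    have hp : ∑ m ∈ ({x, nx v x} : Finset V), (fr_vlc G nx k v m + fr_vlc G nx k v (nx v m) +
        fr_vlc G nx k v (nx v (nx v m)) + 20) ≤ ∑ m ∈ nb G v, (fr_vlc G nx k v m +
        fr_vlc G nx k v (nx v m) + fr_vlc G nx k v (nx v (nx v m)) + 20) := by
      apply Finset.sum_le_sum_of_subset_of_nonneg
      · intro m hm
        rw [Finset.mem_insert, Finset.mem_singleton] at hm
        rcases hm with rfl | rfl
        · exact fr_mem_nb.2 hx
        · exact fr_mem_nb.2 (hM.adj v x hx)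
      · intro m hm _
        have := fr_vlc_triple hNS hM hU hd v m hc (fr_mem_nb.1 hm)
        linarith
    rw [hs, Finset.sum_pair hne.symm] at hp
    have e5 : (6 : ℤ) ≤ (deg G v : ℤ) := by exact_mod_cast h5
    linarith
  refine ⟨fun h5 => ?_, h6⟩
  rcases h5.eq_or_lt with h5 | h5
  · rw [fr_vlc_fc]
    obtain ⟨-, hs⟩ := hS V G nx k hM v x hx h5.symm
    rw [hs (fun m => fr_vlc G nx k v m)]
    have e6 := fr_vlc_ge15 (G := G) (nx := nx) (k := k) v (nx v (nx v (nx v (nx v x))))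
    have e5 : (deg G v : ℤ) = 5 := by exact_mod_cast h5.symm
    rw [e5]
    linarith
  · have := h6 h5
    linarith

end frim

theorem tFRIM (hO : T_FOUT) (hC : T_FCALM) (_hN : T_NX) (hS : T_S5) (hAV : T_AV) (hNS : T_NS2)
    (h3 : T_F3) : T_FRIM := by
  intro V _ G nx k hM hU hd a b c d e hab hc hdd he kc kd ke
  obtain ⟨-, -, oab, obc, ocd, ode, oea⟩ := hO V G nx k hM hU hd a b c d e hab hc hdd he kc kd ke
  obtain ⟨cb, cc, cd, ce⟩ := hC V G nx k hM hU hd a b c d e hab hc hdd he kc kd ke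
  have hac : G.Adj a c := hc ▸ hM.adj a b hab
  have had : G.Adj a d := hdd ▸ hM.adj a c hac
  have hae : G.Adj a e := he ▸ hM.adj a d had
  obtain ⟨a1, a2, a3, a4, a5, a6⟩ := h3 V G nx k hM hd a c _ hac kc rfl
  obtain ⟨b1, b2, b3, b4, b5, b6⟩ := h3 V G nx k hM hd a d _ had kd rfl
  obtain ⟨c1, c2, c3, c4, c5, c6⟩ := h3 V G nx k hM hd a e _ hae ke rfl
  have ea : nx c a = b := hM.inj a _ _ a2.symm hab (a4.trans hc)
  have eb : nx d a = c := hM.inj a _ _ b2.symm hac (b4.trans hdd)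
  have ec : nx e a = d := hM.inj a _ _ c2.symm had (c4.trans he)
  rw [ea] at a1 a2 a3 a5 a6
  rw [eb] at b1 b2 b3 b5 b6
  rw [ec] at c1 c2 c3 c5 c6
  -- at `b`: `c`, `a`
  have Hb : 5 ≤ deg G b → 15 ≤ fc G nx k b := by
    intro h5
    apply fr_rimB hS hAV hNS hM hU hd b c cb a1.symm obc _ _ h5
    · rw [a3, ← hc, b6]
      decide
    · rw [a3, hM.face a b hab]
      exact oab
  have He : 5 ≤ deg G e → 15 ≤ fc G nx k e := by
    intro h5
    apply fr_rimB hS hAV hNS hM hU hd e a ce hae.symm oea _ _ h5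
    · rw [ec, c3, kd]
      decide
    · rw [ec, hM.face d e c1.symm]
      exact ode
  have Hc := fr_rimC hS hAV hNS hM hU hd c d cc b1.symm ocd (by rw [b3, ← hdd, c6]; decide)
    (by rw [b3, ea, a3]; omega) (by rw [b3]; exact had.ne)
    (by rw [b3, ea, hM.face b c a1.symm]; exact obc)
  have Hd := fr_rimC hS hAV hNS hM hU hd d e cd c1.symm ode (by rw [c3, ← he]; omega)
    (by rw [c3, eb, b3, kc]; decide) (by rw [c3]; exact hae.ne)
    (by rw [c3, eb, hM.face c d b1.symm]; exact ocd)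
  exact ⟨Hb, Hc.1, Hd.1, He, Hc.2, Hd.2⟩

end Pool.Agent.TorDeg
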