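import Pool.Agent.TorDeg.Targets

set_option autoImplicit false

/-!
# The greedy strategy with one surplus
-/

namespace Pool.Agent.TorDeg

namespace GREEDY

variable {V C : Type}

/-- rank functions of connected sets -/
theorem rank [DecidableEq V] (G : SimpleGraph V) (A : Finset V) (h : Cn G A) :
    ∀ x ∈ A, ∃ ρ : V → ℕ, ∀ v ∈ A, v ≠ x → ∃ u ∈ A, G.Adj v u ∧ ρ u < ρ v := by
  induction h with
  | single v =>
    intro x hx
    refine ⟨fun _ => 0, fun w hw hne => ?_⟩
    rw [Finset.mem_singleton] at hx hw
    exact absurd (hw.trans hx.symm) hne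
  | insert A u v h hu hv ih =>
    intro x hx
    by_cases hvA : v ∈ A
    · rw [Finset.insert_eq_of_mem hvA] at hx ⊢
      exact ih x hx
    · rcases Finset.mem_insert.mp hx with rfl | hxA
      · obtain ⟨ρ, hρ⟩ := ih u hu
        refine ⟨fun w => if w = x then 0 else ρ w + 1, fun w hw hne => ?_⟩
        rcases Finset.mem_insert.mp hw with rfl | hwA
        · exact absurd rfl hne
        · by_cases hwu : w = u
          · subst hwu
            refine ⟨x, Finset.mem_insert_self _ _, hv.symm, ?_⟩
            simp [hne]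
          · obtain ⟨u', h1, h2, h3⟩ := hρ w hwA hwu
            have hu'x : u' ≠ x := fun hc => hvA (hc ▸ h1)
            refine ⟨u', Finset.mem_insert_of_mem h1, h2, ?_⟩
            simp only [hu'x, hne, if_false]
            omega
      · obtain ⟨ρ, hρ⟩ := ih x hxA
        refine ⟨fun w => if w = v then ρ u + 1 else ρ w, fun w hw hne => ?_⟩
        have huv : u ≠ v := fun hc => hvA (hc ▸ hu)
        rcases Finset.mem_insert.mp hw with rfl | hwA
        · refine ⟨u, Finset.mem_insert_of_mem hu, hv, ?_⟩
          simp [huv]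
        · have hwv : w ≠ v := fun hc => hvA (hc ▸ hwA)
          obtain ⟨u', h1, h2, h3⟩ := hρ w hwA hne
          have hu'v : u' ≠ v := fun hc => hvA (hc ▸ h1)
          refine ⟨u', Finset.mem_insert_of_mem h1, h2, ?_⟩
          simp only [hu'v, hwv, if_false]
          exact h3

open Classical in
theorem sm_res [Fintype C] {G : SimpleGraph V} {H : SimpleGraph (V × C)} (hc : Cov G H)
    (g : V × C → ℕ) (y : V) (i : C) (v : V) :
    sm g v ≤ sm (res H g (y, i)) v + (if G.Adj v y then 1 else 0) := by
  have h1 : ∀ j, g (v, j) ≤ res H g (y, i) (v, j) + (if H.Adj (y, i) (v, j) then 1 else 0) := by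
    intro j
    unfold res
    split_ifs <;> omega
  have h2 : sm g v ≤ sm (res H g (y, i)) v + ∑ j, (if H.Adj (y, i) (v, j) then 1 else 0) := by
    unfold sm
    rw [← Finset.sum_add_distrib]
    exact Finset.sum_le_sum fun j _ => h1 j
  refine h2.trans (Nat.add_le_add_left ?_ _)
  rw [← Finset.card_filter]
  split_ifs with hadj
  · rw [Finset.card_le_one]
    intro a ha b hb
    exact hc.mat _ _ _ _ _ (Finset.mem_filter.mp ha).2 (Finset.mem_filter.mp hb).2
  · rw [Nat.le_zero, Finset.card_eq_zero, Finset.filter_eq_empty_iff]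
    intro j _ hj
    exact hadj (hc.adj _ _ _ _ hj).symm

open Classical in
theorem dg_erase [DecidableEq V] (G : SimpleGraph V) (A : Finset V) (y v : V) (hy : y ∈ A) :
    dg G A v = dg G (A.erase y) v + (if G.Adj v y then 1 else 0) := by
  unfold dg
  have h : A.filter (fun u => G.Adj v u) =
      if G.Adj v y then insert y ((A.erase y).filter fun u => G.Adj v u)
      else (A.erase y).filter fun u => G.Adj v u := by
    split_ifs with hadj
    · ext u
      simp only [Finset.mem_filter, Finset.mem_insert, Finset.mem_erase]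
      constructor
      · rintro ⟨h1, h2⟩
        by_cases hu : u = y
        · left; exact hu
        · right; exact ⟨⟨hu, h1⟩, h2⟩
      · rintro (rfl | ⟨⟨h1, h2⟩, h3⟩)
        · exact ⟨hy, hadj⟩
        · exact ⟨h2, h3⟩
    · ext u
      simp only [Finset.mem_filter, Finset.mem_erase]
      constructor
      · rintro ⟨h1, h2⟩
        exact ⟨⟨fun hu => hadj (hu ▸ h2), h1⟩, h2⟩
      · rintro ⟨⟨h1, h2⟩, h3⟩
        exact ⟨h2, h3⟩
  rw [h]
  split_ifs with hadj
  · rw [Finset.card_insert_of_notMem]
    simp
  · rfl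

theorem pos_of_sm [Fintype C] (g : V × C → ℕ) (v : V) (h : 0 < sm g v) :
    ∃ i, 0 < g (v, i) := by
  by_contra hcon
  push Not at hcon
  have : sm g v = 0 := by
    unfold sm
    exact Finset.sum_eq_zero fun i _ => Nat.le_zero.mp (hcon i)
  omega

open Classical in
theorem main [DecidableEq V] [Fintype C] {G : SimpleGraph V} {H : SimpleGraph (V × C)}
    (hc : Cov G H) (ρ : V → ℕ) (x : V) (n : ℕ) :
    ∀ (A : Finset V) (g : V × C → ℕ), A.card = n → x ∈ A →
      (∀ v ∈ A, v ≠ x → ∃ u ∈ A, G.Adj v u ∧ ρ u < ρ v) →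
      (∀ v ∈ A, dg G A v ≤ sm g v) → dg G A x < sm g x → Win H A g := by
  induction n with
  | zero =>
    intro A g hA hx
    rw [Finset.card_eq_zero] at hA
    subst hA
    simp at hx
  | succ n ih =>
    intro A g hA hx hρ hd hs
    by_cases hem : (A.erase x).Nonempty
    · obtain ⟨y, hy, hmax⟩ := Finset.exists_max_image (A.erase x) ρ hem
      have hyA := Finset.mem_of_mem_erase hy
      have hyx := Finset.ne_of_mem_erase hy
      have hdg := dg_erase G A y
      -- a colour of positive value
      obtain ⟨u, hu1, hu2, hu3⟩ := hρ y hyA hyx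
      have hdy : 0 < dg G A y := by
        unfold dg
        rw [Finset.card_pos]
        exact ⟨u, by rw [Finset.mem_filter]; exact ⟨hu1, hu2⟩⟩
      obtain ⟨i, hi⟩ := pos_of_sm g y (lt_of_lt_of_le hdy (hd y hyA))
      refine Win.step A g y i hyA hi ?_
      refine ih (A.erase y) _ ?_ (Finset.mem_erase.mpr ⟨hyx.symm, hx⟩) ?_ ?_ ?_
      · rw [Finset.card_erase_of_mem hyA, hA]; rfl
      · intro v hv hvx
        obtain ⟨u', h1, h2, h3⟩ := hρ v (Finset.mem_of_mem_erase hv) hvx
        refine ⟨u', Finset.mem_erase.mpr ⟨?_, h1⟩, h2, h3⟩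
        rintro rfl
        have := hmax v (Finset.mem_erase.mpr ⟨hvx, Finset.mem_of_mem_erase hv⟩)
        omega
      · intro v hv
        have h1 := hd v (Finset.mem_of_mem_erase hv)
        have h2 := dg_erase G A y v hyA
        have h3 := sm_res hc g y i v
        omega
      · have h2 := dg_erase G A y x hyA
        have h3 := sm_res hc g y i x
        omega
    · obtain ⟨i, hi⟩ := pos_of_sm g x (by omega)
      refine Win.step A g x i hx hi ?_
      rw [Finset.not_nonempty_iff_eq_empty.mp hem]
      exact Win.nil _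

end GREEDY

theorem tGREEDY : T_GREEDY := by
  intro V C _ _ G H hc A g hA hd hs
  obtain ⟨x, hx, hxs⟩ := hs
  obtain ⟨ρ, hρ⟩ := GREEDY.rank G A hA x hx
  exact GREEDY.main hc ρ x A.card A g rfl hx hρ hd hxs

end Pool.Agent.TorDeg
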