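import Pool.Agent.TorDeg.Targets

set_option autoImplicit false
set_option linter.unusedSectionVars false

/-!
# HOM2: homology of a subgraph
-/

namespace Pool.Agent.TorDeg

namespace Hom2Aux

theorem add_self2 (a : ZMod 2) : a + a = 0 := by revert a; decide

theorem eq_of_add_eq_zero2 {a b : ZMod 2} (h : a + b = 0) : a = b := by
  revert a b; decide

section

variable {V V' : Type} [Fintype V] [DecidableEq V] [Fintype V'] [DecidableEq V']
  (G : SimpleGraph V) (G' : SimpleGraph V') [DecidableRel G.Adj] [DecidableRel G'.Adj]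

theorem bd_le_cyc (h0 : T_HOM0) (σ : Equiv.Perm G.Dart) (hσ : IsRotation G σ) :
    bdSp G σ ≤ cycSp G := by
  intro z hz
  obtain ⟨g, hg, hgz⟩ := (h0 V G σ z).2.1 hz
  refine (h0 V G σ z).1.2 ⟨fun d => ?_, fun v => ?_⟩
  · rw [← hgz, ← hgz, SimpleGraph.Dart.symm_symm, add_comm]
  · have h1 : ∑ d : G.Dart with d.fst = v, g d.symm = ∑ d : G.Dart with d.fst = v, g d := by
      have h2 : ∀ d : G.Dart, g d.symm = g (σ d) := by
        intro d
        have := hg d.symm
        rw [SimpleGraph.Dart.symm_symm] at this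
        exact this.symm
      rw [Finset.sum_congr rfl fun d _ => h2 d]
      refine Finset.sum_equiv σ (fun d => ?_) (fun d _ => rfl)
      rw [Finset.mem_filter, Finset.mem_filter, hσ.fst]
      simp
    rw [← Finset.sum_congr rfl fun d _ => hgz d, Finset.sum_add_distrib, h1]
    exact add_self2 _

variable {G G'}

theorem mapDart_inj (φ : G →g G') (hφ : Function.Injective φ) :
    Function.Injective φ.mapDart := by
  intro d e h
  have h1 : φ d.fst = φ e.fst := congrArg (fun x : G'.Dart => x.fst) h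
  have h2 : φ d.snd = φ e.snd := congrArg (fun x : G'.Dart => x.snd) h
  apply SimpleGraph.Dart.ext
  exact Prod.ext (hφ h1) (hφ h2)

theorem mapDart_symm (φ : G →g G') (d : G.Dart) : φ.mapDart d.symm = (φ.mapDart d).symm := rfl

/-- extension by zero -/
noncomputable def ex (φ : G →g G') : (G.Dart → ZMod 2) →ₗ[ZMod 2] (G'.Dart → ZMod 2) :=
  Function.ExtendByZero.linearMap (ZMod 2) φ.mapDart

theorem ex_map (φ : G →g G') (hφ : Function.Injective φ) (z : G.Dart → ZMod 2) (d : G.Dart) :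
    ex φ z (φ.mapDart d) = z d :=
  (mapDart_inj φ hφ).extend_apply _ _ _

theorem ex_not (φ : G →g G') (z : G.Dart → ZMod 2) (d' : G'.Dart)
    (h : d' ∉ Set.range φ.mapDart) : ex φ z d' = 0 := by
  have h' : ¬ ∃ d, φ.mapDart d = d' := h
  exact Function.extend_apply' _ _ _ h'

theorem ex_inj (φ : G →g G') (hφ : Function.Injective φ) : Function.Injective (ex φ) := by
  intro z w h
  funext d
  rw [← ex_map φ hφ z d, ← ex_map φ hφ w d, h]

theorem range_symm (φ : G →g G') (d' : G'.Dart) (h : d' ∉ Set.range φ.mapDart) :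
    d'.symm ∉ Set.range φ.mapDart := by
  rintro ⟨d, hd⟩
  exact h ⟨d.symm, by rw [mapDart_symm, hd, SimpleGraph.Dart.symm_symm]⟩

theorem ex_cyc (h0 : T_HOM0) (σ : Equiv.Perm G.Dart) (σ' : Equiv.Perm G'.Dart) (φ : G →g G')
    (hφ : Function.Injective φ) (z : G.Dart → ZMod 2) (hz : z ∈ cycSp G) :
    ex φ z ∈ cycSp G' := by
  obtain ⟨h1, h2⟩ := (h0 V G σ z).1.1 hz
  refine (h0 V' G' σ' _).1.2 ⟨fun d' => ?_, fun v' => ?_⟩
  · by_cases h : d' ∈ Set.range φ.mapDart
    · obtain ⟨d, rfl⟩ := h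
      rw [← mapDart_symm, ex_map φ hφ, ex_map φ hφ, h1]
    · rw [ex_not φ z d' h, ex_not φ z _ (range_symm φ d' h)]
  · by_cases hv : ∃ v, φ v = v'
    · obtain ⟨v, rfl⟩ := hv
      rw [← h2 v]
      symm
      refine Finset.sum_of_injOn φ.mapDart (mapDart_inj φ hφ).injOn ?_ ?_ ?_
      · intro d hd
        rw [Finset.mem_coe, Finset.mem_filter] at hd ⊢
        refine ⟨Finset.mem_univ _, ?_⟩
        show φ d.fst = φ v
        rw [hd.2]
      · intro d' hd' hn
        rw [Finset.mem_filter] at hd'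
        apply ex_not
        rintro ⟨d, rfl⟩
        apply hn
        refine ⟨d, ?_, rfl⟩
        rw [Finset.mem_coe, Finset.mem_filter]
        exact ⟨Finset.mem_univ _, hφ hd'.2⟩
      · intro d _
        rw [ex_map φ hφ]
    · refine Finset.sum_eq_zero fun d' hd' => ?_
      rw [Finset.mem_filter] at hd'
      apply ex_not
      rintro ⟨d, rfl⟩
      exact hv ⟨d.fst, hd'.2⟩

theorem bd_of_ex (h0 : T_HOM0) (σ : Equiv.Perm G.Dart) (σ' : Equiv.Perm G'.Dart) (φ : G →g G')
    (hφ : Function.Injective φ) (hf : FirstRet φ σ σ') (z : G.Dart → ZMod 2)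
    (hz : ex φ z ∈ bdSp G' σ') : z ∈ bdSp G σ := by
  obtain ⟨g', hg', hgz⟩ := (h0 V' G' σ' _).2.1 hz
  refine (h0 V G σ z).2.2 ⟨fun d => g' (φ.mapDart d), fun d => ?_, fun d => ?_⟩
  · obtain ⟨n, hn, he, hr⟩ := hf d.symm
    have key : ∀ j : ℕ, 0 < j → j ≤ n → g' ((σ' ^ j) (φ.mapDart d.symm)) = g' (φ.mapDart d) := by
      intro j
      induction j with
      | zero => intro h; exact absurd h (lt_irrefl 0)
      | succ j ih =>
        intro _ hj
        rcases Nat.eq_zero_or_pos j with rfl | hj0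
        · rw [zero_add, pow_one, mapDart_symm]
          exact hg' _
        · have hx := hr j hj0 (by omega)
          have h1 := ih hj0 (by omega)
          rw [pow_succ', Equiv.Perm.mul_apply, ← h1]
          generalize (σ' ^ j) (φ.mapDart d.symm) = x at hx
          have h2 := hgz x
          rw [ex_not φ z x hx] at h2
          have h3 := hg' x.symm
          rw [SimpleGraph.Dart.symm_symm] at h3
          rw [h3, eq_of_add_eq_zero2 h2]
    show g' (φ.mapDart (σ d.symm)) = g' (φ.mapDart d)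
    rw [he]
    exact key n hn le_rfl
  · show g' (φ.mapDart d) + g' (φ.mapDart d.symm) = z d
    rw [mapDart_symm, hgz, ex_map φ hφ]

end

end Hom2Aux

theorem tHOM2 (h0 : T_HOM0) : T_HOM2 := by
  intro V V' _ _ _ _ G G' _ _ φ σ σ' hφ hσ hσ' hf
  have h1 : Submodule.map (Hom2Aux.ex φ) (cycSp G) ⊔ bdSp G' σ' ≤ cycSp G' := by
    refine sup_le ?_ (Hom2Aux.bd_le_cyc G' h0 σ' hσ')
    rintro _ ⟨z, hz, rfl⟩
    exact Hom2Aux.ex_cyc h0 σ σ' φ hφ z hz
  have h2 : Submodule.map (Hom2Aux.ex φ) (cycSp G) ⊓ bdSp G' σ' ≤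
      Submodule.map (Hom2Aux.ex φ) (bdSp G σ) := by
    rintro _ ⟨⟨z, _, rfl⟩, hz⟩
    exact ⟨z, Hom2Aux.bd_of_ex h0 σ σ' φ hφ hf z hz, rfl⟩
  have h3 := Submodule.finrank_sup_add_finrank_inf_eq
    (Submodule.map (Hom2Aux.ex φ) (cycSp G)) (bdSp G' σ')
  have h4 := Submodule.finrank_mono h1
  have h5 := Submodule.finrank_mono h2
  have h6 := LinearEquiv.finrank_eq
    (Submodule.equivMapOfInjective (Hom2Aux.ex φ) (Hom2Aux.ex_inj φ hφ) (cycSp G))
  have h7 := LinearEquiv.finrank_eq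
    (Submodule.equivMapOfInjective (Hom2Aux.ex φ) (Hom2Aux.ex_inj φ hφ) (bdSp G σ))
  omega

end Pool.Agent.TorDeg
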