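import Pool.Agent.TorDeg.Targets

set_option autoImplicit false

/-!
# TOR-IRR: a minimal set of vertices on which the game is lost
-/

namespace Pool.Agent.TorDeg

namespace IRR

variable {V C W : Type}

theorem dg_map (G : SimpleGraph V) (G' : SimpleGraph W) (φ : W ↪ V)
    (hφ : ∀ u v, G'.Adj u v ↔ G.Adj (φ u) (φ v)) (K : Finset W) (v : W) :
    dg G (K.map φ) (φ v) = dg G' K v := by
  classical
  unfold dg
  have h1 : ((K.map φ).filter fun u => G.Adj (φ v) u)
      = (K.filter fun u => G'.Adj v u).map φ := by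
    ext u
    simp only [Finset.mem_filter, Finset.mem_map]
    constructor
    · rintro ⟨⟨w, hw, rfl⟩, h⟩
      exact ⟨w, ⟨hw, (hφ v w).mpr h⟩, rfl⟩
    · rintro ⟨w, ⟨hw, h⟩, rfl⟩
      exact ⟨⟨w, hw, rfl⟩, (hφ v w).mp h⟩
  rw [h1, Finset.card_map]

theorem cn_map [DecidableEq V] [DecidableEq W] (G : SimpleGraph V) (G' : SimpleGraph W)
    (φ : W ↪ V) (hφ : ∀ u v, G'.Adj u v ↔ G.Adj (φ u) (φ v)) (K : Finset W) (h : Cn G' K) :
    Cn G (K.map φ) := by
  induction h with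
  | single v =>
    rw [Finset.map_singleton]
    exact Cn.single _
  | insert A u v h hu hv ih =>
    rw [Finset.map_insert]
    exact Cn.insert _ (φ u) (φ v) ih (Finset.mem_map_of_mem φ hu) ((hφ v u).mp hv)

theorem dg_union [DecidableEq V] (G : SimpleGraph V) (A K : Finset V) (hK : K ⊆ A) (v : V) :
    dg G A v = dg G (A \ K) v + dg G K v := by
  classical
  unfold dg
  rw [← Finset.card_union_of_disjoint, ← Finset.filter_union, Finset.sdiff_union_of_subset hK]
  exact Finset.disjoint_filter_filter Finset.sdiff_disjoint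

theorem dg_ge (G : SimpleGraph V) (K S : Finset V) (v : V) (h : ∀ u ∈ S, u ∈ K ∧ G.Adj v u) :
    S.card ≤ dg G K v := by
  classical
  unfold dg
  refine Finset.card_le_card (fun u hu => ?_)
  exact Finset.mem_filter.mpr (h u hu)

theorem dg2 (G : SimpleGraph V) (K : Finset V) (v x y : V) (hx : x ∈ K) (hy : y ∈ K)
    (ax : G.Adj v x) (ay : G.Adj v y) (h1 : x ≠ y) : 2 ≤ dg G K v := by
  classical
  have h := dg_ge G K {x, y} v (by
    intro u hu
    simp only [Finset.mem_insert, Finset.mem_singleton] at hu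
    rcases hu with rfl | rfl
    · exact ⟨hx, ax⟩
    · exact ⟨hy, ay⟩)
  rwa [Finset.card_pair h1] at h

theorem dg3 (G : SimpleGraph V) (K : Finset V) (v x y z : V) (hx : x ∈ K) (hy : y ∈ K)
    (hz : z ∈ K) (ax : G.Adj v x) (ay : G.Adj v y) (az : G.Adj v z) (h1 : x ≠ y) (h2 : x ≠ z)
    (h3 : y ≠ z) : 3 ≤ dg G K v := by
  classical
  have h := dg_ge G K {x, y, z} v (by
    intro u hu
    simp only [Finset.mem_insert, Finset.mem_singleton] at hu
    rcases hu with rfl | rfl | rfl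
    · exact ⟨hx, ax⟩
    · exact ⟨hy, ay⟩
    · exact ⟨hz, az⟩)
  rwa [Finset.card_insert_of_notMem (by simp [h1, h2]), Finset.card_pair h3] at h

theorem dg4 (G : SimpleGraph V) (K : Finset V) (v x y z w : V) (hx : x ∈ K) (hy : y ∈ K)
    (hz : z ∈ K) (hw : w ∈ K) (ax : G.Adj v x) (ay : G.Adj v y) (az : G.Adj v z)
    (aw : G.Adj v w) (h1 : x ≠ y) (h2 : x ≠ z) (h3 : y ≠ z) (h4 : x ≠ w) (h5 : y ≠ w)
    (h6 : z ≠ w) : 4 ≤ dg G K v := by
  classical
  have h := dg_ge G K {x, y, z, w} v (by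
    intro u hu
    simp only [Finset.mem_insert, Finset.mem_singleton] at hu
    rcases hu with rfl | rfl | rfl | rfl
    · exact ⟨hx, ax⟩
    · exact ⟨hy, ay⟩
    · exact ⟨hz, az⟩
    · exact ⟨hw, aw⟩)
  rwa [Finset.card_insert_of_notMem (by simp [h1, h2, h4]),
    Finset.card_insert_of_notMem (by simp [h3, h5]), Finset.card_pair h6] at h

/-- the key lemma -/
theorem key (hR : T_RES) [DecidableEq V] [Fintype C] (G : SimpleGraph V)
    (H : SimpleGraph (V × C)) (hc : Cov G H) (f : V × C → ℕ) (hf : ∀ v, 4 ≤ sm f v)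
    (A : Finset V) (hA : ¬ Win H A f) (hmin : ∀ B : Finset V, B ⊂ A → Win H B f)
    (K : Finset V) (hK : K ⊆ A) (hne : K.Nonempty) :
    ∃ g' : V × C → ℕ, (∀ x, g' x ≤ f x) ∧ ¬ Win H K g' ∧
      ∀ v ∈ K, 4 + dg G K v ≤ sm g' v + dg G A v := by
  obtain ⟨w, hw⟩ := hne
  have hss : A \ K ⊂ A := by
    refine Finset.ssubset_iff_subset_ne.mpr ⟨Finset.sdiff_subset, fun h => ?_⟩
    have h1 : w ∈ A \ K := by
      rw [h]
      exact hK hw
    exact (Finset.mem_sdiff.mp h1).2 hw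
  obtain ⟨g', h1, h2, h3⟩ := hR V C G H hc (A \ K) K f Finset.sdiff_disjoint (hmin _ hss)
  refine ⟨g', h1, fun h => hA ?_, fun v hv => ?_⟩
  · have h4 := h3 h
    rwa [Finset.sdiff_union_of_subset hK] at h4
  · have h4 := h2 v hv
    have h5 := hf v
    have h6 := dg_union G A K hK v
    omega

end IRR

open IRR

theorem tIRR (hM : T_MONO) (hR : T_RES) (hB : T_BR) (h10 : T_TH10) (h12 : T_TH12)
    (h21 : T_TH21) : T_IRR := by
  intro V C _ _ _ G H hc f hf2 hf4 hlost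
  obtain ⟨A, hA, hmin'⟩ := (Finset.isWellFounded_ssubset (α := V)).wf.has_min
    {A : Finset V | ¬ Win H A f} ⟨Finset.univ, hlost⟩
  have hmin : ∀ B : Finset V, B ⊂ A → Win H B f := by
    intro B hBA
    by_contra h
    exact hmin' B h hBA
  have hA' : ¬ Win H A f := hA
  have hne : A.Nonempty := by
    rw [Finset.nonempty_iff_ne_empty]
    rintro rfl
    exact hA' (Win.nil f)
  have hkey := fun K hK hn => key hR G H hc f hf4 A hA' hmin K hK hn
  -- the embedding
  let φ : ↥(A : Set V) ↪ V := ⟨Subtype.val, Subtype.val_injective⟩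
  have hφ : ∀ u v : ↥(A : Set V), (G.induce (A : Set V)).Adj u v ↔ G.Adj (φ u) (φ v) :=
    fun u v => Iff.rfl
  have hφA : ∀ u : ↥(A : Set V), φ u ∈ A := fun u => u.2
  have huniv : (Finset.univ : Finset ↥(A : Set V)).map φ = A := by
    ext x
    simp only [Finset.mem_map, Finset.mem_univ, true_and]
    constructor
    · rintro ⟨y, rfl⟩
      exact y.2
    · intro hx
      exact ⟨⟨x, hx⟩, rfl⟩
  have hdeg : ∀ v : ↥(A : Set V), deg (G.induce (A : Set V)) v = dg G A (φ v) := by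
    intro v
    unfold deg
    rw [← dg_map G (G.induce (A : Set V)) φ hφ, huniv]
  refine ⟨A, ?_, ?_⟩
  · -- connectedness
    obtain ⟨v₀, hv₀⟩ := hne
    rw [SimpleGraph.connected_iff_exists_forall_reachable]
    refine ⟨⟨v₀, hv₀⟩, ?_⟩
    classical
    let K' : Finset ↥(A : Set V) :=
      Finset.univ.filter fun w => (G.induce (A : Set V)).Reachable ⟨v₀, hv₀⟩ w
    have hKmem : ∀ w : ↥(A : Set V), φ w ∈ K'.map φ ↔
        (G.induce (A : Set V)).Reachable ⟨v₀, hv₀⟩ w := by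
      intro w
      rw [Finset.mem_map' φ]
      simp [K']
    have hKA : K'.map φ ⊆ A := by
      intro x hx
      obtain ⟨y, _, rfl⟩ := Finset.mem_map.mp hx
      exact hφA y
    by_contra hcon
    push Not at hcon
    obtain ⟨w, hw⟩ := hcon
    have hKss : K'.map φ ⊂ A := by
      refine Finset.ssubset_iff_subset_ne.mpr ⟨hKA, fun h => ?_⟩
      apply hw
      rw [← hKmem, h]
      exact hφA w
    have hBss : A \ K'.map φ ⊂ A := by
      refine Finset.ssubset_iff_subset_ne.mpr ⟨Finset.sdiff_subset, fun h => ?_⟩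
      have h1 : v₀ ∈ A \ K'.map φ := by
        rw [h]
        exact hv₀
      refine (Finset.mem_sdiff.mp h1).2 ?_
      have h2 := (hKmem ⟨v₀, hv₀⟩).mpr (SimpleGraph.Reachable.refl _)
      exact h2
    obtain ⟨g', h1, h2, h3⟩ := hR V C G H hc (A \ K'.map φ) (K'.map φ) f
      Finset.sdiff_disjoint (hmin _ hBss)
    have hdg : ∀ v ∈ K'.map φ, dg G (A \ K'.map φ) v = 0 := by
      intro v hv
      unfold dg
      rw [Finset.card_eq_zero, Finset.filter_eq_empty_iff]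
      intro u hu hadj
      obtain ⟨huA, huK⟩ := Finset.mem_sdiff.mp hu
      have hvA := hKA hv
      have hv' : (G.induce (A : Set V)).Reachable ⟨v₀, hv₀⟩ ⟨v, hvA⟩ :=
        (hKmem ⟨v, hvA⟩).mp hv
      have hadj' : (G.induce (A : Set V)).Adj ⟨v, hvA⟩ ⟨u, huA⟩ := hadj
      exact huK ((hKmem ⟨u, huA⟩).mpr (hv'.trans hadj'.reachable))
    have hge : ∀ v ∈ K'.map φ, ∀ i, f (v, i) ≤ g' (v, i) := by
      intro v hv i
      have h4 := h2 v hv
      rw [hdg v hv, Nat.add_zero] at h4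
      by_contra hlt
      push Not at hlt
      have h5 : sm g' v < sm f v :=
        Finset.sum_lt_sum (fun j _ => h1 (v, j)) ⟨i, Finset.mem_univ i, hlt⟩
      omega
    have h5 : Win H (K'.map φ) g' := hM V C H _ f g' hge (hmin _ hKss)
    have h6 := h3 h5
    rw [Finset.sdiff_union_of_subset hKA] at h6
    exact hA' h6
  · refine ⟨?_, ?_, ?_, ?_, ?_⟩
    · -- degrees
      intro v
      rw [hdeg]
      obtain ⟨g', h1, h2, h3⟩ := hkey {φ v} (Finset.singleton_subset_iff.mpr (hφA v))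
        (Finset.singleton_nonempty _)
      have h4 := h3 (φ v) (Finset.mem_singleton_self _)
      have h5 : sm g' (φ v) = 0 := by
        unfold sm
        refine Finset.sum_eq_zero (fun i _ => ?_)
        by_contra hi
        refine h2 (Win.step _ g' (φ v) i (Finset.mem_singleton_self _) (Nat.pos_of_ne_zero hi) ?_)
        rw [Finset.erase_singleton]
        exact Win.nil _
      omega
    · -- Good
      intro K z a b hg
      have hKA : K.map φ ⊆ A := by
        intro x hx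
        obtain ⟨y, _, rfl⟩ := Finset.mem_map.mp hx
        exact hφA y
      obtain ⟨g', h1, h2, h3⟩ := hkey (K.map φ) hKA ⟨φ z, Finset.mem_map_of_mem φ hg.hz⟩
      refine h2 (hB V C G H hc (K.map φ) g' (φ z) (φ a) (φ b)
        (fun x => (h1 x).trans (hf2 x)) ?_ (Finset.mem_map_of_mem φ hg.hz)
        (Finset.mem_map_of_mem φ hg.ha) (Finset.mem_map_of_mem φ hg.hb)
        ((hφ _ _).mp hg.za) ((hφ _ _).mp hg.zb) (fun h => hg.ne (φ.injective h))
        (fun h => hg.ab ((hφ _ _).mpr h)) ?_ ?_ ?_)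
      · intro v hv
        have h4 := h3 v hv
        obtain ⟨w, hw, rfl⟩ := Finset.mem_map.mp hv
        have h5 := hg.deg4 w hw
        rw [hdeg] at h5
        omega
      · rw [dg_map G (G.induce (A : Set V)) φ hφ]
        exact hg.three
      · rw [← Finset.map_erase]
        exact cn_map G _ φ hφ _ hg.conz
      · rw [← Finset.map_erase, ← Finset.map_erase]
        exact cn_map G _ φ hφ _ hg.conab
    · -- th10
      intro a b c d e hF da db dc dd de
      rw [hdeg] at da db dc dd de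
      obtain ⟨ab, ac, ad, ae, bc, cd, de', nbd, nbe, nce, bd, be, ce⟩ := hF
      rw [hφ] at ab ac ad ae bc cd de' nbd nbe nce
      have bd' : φ b ≠ φ d := fun h => bd (φ.injective h)
      have be' : φ b ≠ φ e := fun h => be (φ.injective h)
      have ce' : φ c ≠ φ e := fun h => ce (φ.injective h)
      obtain ⟨g', h1, h2, h3⟩ := hkey {φ a, φ b, φ c, φ d, φ e} (by
        intro x hx
        simp only [Finset.mem_insert, Finset.mem_singleton] at hx
        rcases hx with rfl | rfl | rfl | rfl | rfl <;> exact hφA _) ⟨φ a, by simp⟩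
      have ma : φ a ∈ ({φ a, φ b, φ c, φ d, φ e} : Finset V) := by simp
      have mb : φ b ∈ ({φ a, φ b, φ c, φ d, φ e} : Finset V) := by simp
      have mc : φ c ∈ ({φ a, φ b, φ c, φ d, φ e} : Finset V) := by simp
      have md : φ d ∈ ({φ a, φ b, φ c, φ d, φ e} : Finset V) := by simp
      have me : φ e ∈ ({φ a, φ b, φ c, φ d, φ e} : Finset V) := by simp
      refine h2 (h10 V C G H hc g' (φ a) (φ b) (φ c) (φ d) (φ e)
        (fun x => (h1 x).trans (hf2 x))
        ⟨ab, ac, ad, ae, bc, cd, de', nbd, nbe, nce, bd', be', ce'⟩ ?_ ?_ ?_ ?_ ?_)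
      · have h4 := h3 _ ma
        have h5 := dg4 G _ (φ a) _ _ _ _ mb mc md me ab ac ad ae bc.ne bd' cd.ne be' ce' de'.ne
        omega
      · have h4 := h3 _ mb
        have h5 := dg2 G _ (φ b) _ _ ma mc ab.symm bc ac.ne
        omega
      · have h4 := h3 _ mc
        have h5 := dg3 G _ (φ c) _ _ _ ma mb md ac.symm bc.symm cd ab.ne ad.ne bd'
        omega
      · have h4 := h3 _ md
        have h5 := dg3 G _ (φ d) _ _ _ ma mc me ad.symm cd.symm de' ac.ne ae.ne ce'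
        omega
      · have h4 := h3 _ me
        have h5 := dg2 G _ (φ e) _ _ ma md ae.symm de'.symm ad.ne
        omega
    · -- th12
      intro v₁ v₂ v₃ v₄ v₅ w₁ w₄ hF d1 d2 d3 d4 d5 e1 e4
      rw [hdeg] at d1 d2 d3 d4 d5 e1 e4
      obtain ⟨⟨⟨a12, a23, a34, a45, a51, n13, n14, n24, n25, n35⟩, c13, c14, c24, c25, c35⟩,
        ⟨p1, p2, p3, p4, p5, q3, q4, q5⟩, ⟨r4, r5, r1, r2, r3, s1, s2, s3⟩, hw, hww⟩ := hF
      rw [hφ] at a12 a23 a34 a45 a51 c13 c14 c24 c25 c35 p1 p2 p3 p4 p5 r4 r5 r1 r2 r3 hww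
      have inj : ∀ x y : ↥(A : Set V), x ≠ y → φ x ≠ φ y := fun x y h h' => h (φ.injective h')
      replace n13 := inj _ _ n13
      replace n14 := inj _ _ n14
      replace n24 := inj _ _ n24
      replace n25 := inj _ _ n25
      replace n35 := inj _ _ n35
      replace q3 := inj _ _ q3
      replace q4 := inj _ _ q4
      replace q5 := inj _ _ q5
      replace s1 := inj _ _ s1
      replace s2 := inj _ _ s2
      replace s3 := inj _ _ s3
      replace hw := inj _ _ hw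
      obtain ⟨g', h1, h2, h3⟩ := hkey {φ v₁, φ v₂, φ v₃, φ v₄, φ v₅, φ w₁, φ w₄} (by
        intro x hx
        simp only [Finset.mem_insert, Finset.mem_singleton] at hx
        rcases hx with rfl | rfl | rfl | rfl | rfl | rfl | rfl <;> exact hφA _)
        ⟨φ v₁, by simp⟩
      have m1 : φ v₁ ∈ ({φ v₁, φ v₂, φ v₃, φ v₄, φ v₅, φ w₁, φ w₄} : Finset V) := by simp
      have m2 : φ v₂ ∈ ({φ v₁, φ v₂, φ v₃, φ v₄, φ v₅, φ w₁, φ w₄} : Finset V) := by simp
      have m3 : φ v₃ ∈ ({φ v₁, φ v₂, φ v₃, φ v₄, φ v₅, φ w₁, φ w₄} : Finset V) := by simp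
      have m4 : φ v₄ ∈ ({φ v₁, φ v₂, φ v₃, φ v₄, φ v₅, φ w₁, φ w₄} : Finset V) := by simp
      have m5 : φ v₅ ∈ ({φ v₁, φ v₂, φ v₃, φ v₄, φ v₅, φ w₁, φ w₄} : Finset V) := by simp
      have m6 : φ w₁ ∈ ({φ v₁, φ v₂, φ v₃, φ v₄, φ v₅, φ w₁, φ w₄} : Finset V) := by simp
      have m7 : φ w₄ ∈ ({φ v₁, φ v₂, φ v₃, φ v₄, φ v₅, φ w₁, φ w₄} : Finset V) := by simp
      refine h2 (h12 V C G H hc g' (φ v₁) (φ v₂) (φ v₃) (φ v₄) (φ v₅) (φ w₁) (φ w₄)
        (fun x => (h1 x).trans (hf2 x))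
        ⟨⟨⟨a12, a23, a34, a45, a51, n13, n14, n24, n25, n35⟩, c13, c14, c24, c25, c35⟩,
        ⟨p1, p2, p3, p4, p5, q3, q4, q5⟩, ⟨r4, r5, r1, r2, r3, s1, s2, s3⟩, hw, hww⟩
        ?_ ?_ ?_ ?_ ?_ ?_ ?_)
      · have h4 := h3 _ m1
        have h5 := dg3 G _ (φ v₁) _ _ _ m2 m5 m6 a12 a51.symm p1.symm n25 p2.ne' q5.symm
        omega
      · have h4 := h3 _ m2
        have h5 := dg3 G _ (φ v₂) _ _ _ m1 m3 m6 a12.symm a23 p2.symm n13 p1.ne' q3.symm
        omega
      · have h4 := h3 _ m3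
        have h5 := dg2 G _ (φ v₃) _ _ m2 m4 a23.symm a34 n24
        omega
      · have h4 := h3 _ m4
        have h5 := dg3 G _ (φ v₄) _ _ _ m3 m5 m7 a34.symm a45 r4.symm n35 s3.symm r5.ne'
        omega
      · have h4 := h3 _ m5
        have h5 := dg3 G _ (φ v₅) _ _ _ m4 m1 m7 a45.symm a51 r5.symm n14.symm r4.ne' s1.symm
        omega
      · have h4 := h3 _ m6
        have h5 := dg2 G _ (φ w₁) _ _ m1 m2 p1 p2 a12.ne
        omega
      · have h4 := h3 _ m7
        have h5 := dg2 G _ (φ w₄) _ _ m4 m5 r4 r5 a45.ne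
        omega
    · -- th21
      intro v₁ v₂ v₃ v₄ v₅ w₁ w₃ hF d1 d2 d3 d4 d5 e1 e3
      rw [hdeg] at d1 d2 d3 d4 d5 e1 e3
      obtain ⟨⟨⟨a12, a23, a34, a45, a51, n13, n14, n24, n25, n35⟩, c13, c14, c24, c25, c35⟩,
        ⟨p1, p2, p3, p4, p5, q3, q4, q5⟩, ⟨r3, r4, r5, r1, r2, s5, s1, s2⟩, hw, hww⟩ := hF
      rw [hφ] at a12 a23 a34 a45 a51 c13 c14 c24 c25 c35 p1 p2 p3 p4 p5 r4 r5 r1 r2 r3 hww
      have inj : ∀ x y : ↥(A : Set V), x ≠ y → φ x ≠ φ y := fun x y h h' => h (φ.injective h')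
      replace n13 := inj _ _ n13
      replace n14 := inj _ _ n14
      replace n24 := inj _ _ n24
      replace n25 := inj _ _ n25
      replace n35 := inj _ _ n35
      replace q3 := inj _ _ q3
      replace q4 := inj _ _ q4
      replace q5 := inj _ _ q5
      replace s1 := inj _ _ s1
      replace s2 := inj _ _ s2
      replace s5 := inj _ _ s5
      replace hw := inj _ _ hw
      obtain ⟨g', h1, h2, h3⟩ := hkey {φ v₁, φ v₂, φ v₃, φ v₄, φ v₅, φ w₁, φ w₃} (by
        intro x hx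
        simp only [Finset.mem_insert, Finset.mem_singleton] at hx
        rcases hx with rfl | rfl | rfl | rfl | rfl | rfl | rfl <;> exact hφA _)
        ⟨φ v₁, by simp⟩
      have m1 : φ v₁ ∈ ({φ v₁, φ v₂, φ v₃, φ v₄, φ v₅, φ w₁, φ w₃} : Finset V) := by simp
      have m2 : φ v₂ ∈ ({φ v₁, φ v₂, φ v₃, φ v₄, φ v₅, φ w₁, φ w₃} : Finset V) := by simp
      have m3 : φ v₃ ∈ ({φ v₁, φ v₂, φ v₃, φ v₄, φ v₅, φ w₁, φ w₃} : Finset V) := by simp
      have m4 : φ v₄ ∈ ({φ v₁, φ v₂, φ v₃, φ v₄, φ v₅, φ w₁, φ w₃} : Finset V) := by simp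
      have m5 : φ v₅ ∈ ({φ v₁, φ v₂, φ v₃, φ v₄, φ v₅, φ w₁, φ w₃} : Finset V) := by simp
      have m6 : φ w₁ ∈ ({φ v₁, φ v₂, φ v₃, φ v₄, φ v₅, φ w₁, φ w₃} : Finset V) := by simp
      have m7 : φ w₃ ∈ ({φ v₁, φ v₂, φ v₃, φ v₄, φ v₅, φ w₁, φ w₃} : Finset V) := by simp
      refine h2 (h21 V C G H hc g' (φ v₁) (φ v₂) (φ v₃) (φ v₄) (φ v₅) (φ w₁) (φ w₃)
        (fun x => (h1 x).trans (hf2 x))
        ⟨⟨⟨a12, a23, a34, a45, a51, n13, n14, n24, n25, n35⟩, c13, c14, c24, c25, c35⟩,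
        ⟨p1, p2, p3, p4, p5, q3, q4, q5⟩, ⟨r3, r4, r5, r1, r2, s5, s1, s2⟩, hw, hww⟩
        ?_ ?_ ?_ ?_ ?_ ?_ ?_)
      · have h4 := h3 _ m1
        have h5 := dg3 G _ (φ v₁) _ _ _ m2 m5 m6 a12 a51.symm p1.symm n25 p2.ne' q5.symm
        omega
      · have h4 := h3 _ m2
        have h5 := dg3 G _ (φ v₂) _ _ _ m1 m3 m6 a12.symm a23 p2.symm n13 p1.ne' q3.symm
        omega
      · have h4 := h3 _ m3
        have h5 := dg3 G _ (φ v₃) _ _ _ m2 m4 m7 a23.symm a34 r3.symm n24 s2.symm r4.ne'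
        omega
      · have h4 := h3 _ m4
        have h5 := dg3 G _ (φ v₄) _ _ _ m3 m5 m7 a34.symm a45 r4.symm n35 r3.ne' s5.symm
        omega
      · have h4 := h3 _ m5
        have h5 := dg2 G _ (φ v₅) _ _ m4 m1 a45.symm a51 n14.symm
        omega
      · have h4 := h3 _ m6
        have h5 := dg2 G _ (φ w₁) _ _ m1 m2 p1 p2 a12.ne
        omega
      · have h4 := h3 _ m7
        have h5 := dg2 G _ (φ w₃) _ _ m3 m4 r3 r4 a34.ne
        omega

end Pool.Agent.TorDeg
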