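import Pool.Agent.TorDeg.Targets

set_option autoImplicit false

/-!
# LF: fans of three triangles have positive charge
-/

namespace Pool.Agent.TorDeg

theorem tLF (hCALM : T_CALM) (hFOUT : T_FOUT) (hFCALM : T_FCALM) (hFHUB : T_FHUB)
    (hFRIM : T_FRIM) (hF0 : T_F0) (_hNX : T_NX) (_hF3 : T_F3) : T_LF := by
  intro V _ _ G nx k hC a b c d e hab hc hd he k1 k2 k3
  have hM := hC.map
  have hU := hC.u5
  have hI := hC.irr
  obtain ⟨hFive, hFan, -⟩ := hFOUT V G nx k hM hU hI.deg4 a b c d e hab hc hd he k1 k2 k3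
  refine ⟨hFive, ?_⟩
  obtain ⟨cb, cc, cd, ce⟩ := hFCALM V G nx k hM hU hI.deg4 a b c d e hab hc hd he k1 k2 k3
  obtain ⟨a4, a5⟩ := hFHUB V G nx k hM hU hI.deg4 a b c d e hab hc hd he k1 k2 k3
  obtain ⟨b5, c5, d5, e5, c6, d6⟩ :=
    hFRIM V G nx k hM hU hI.deg4 a b c d e hab hc hd he k1 k2 k3
  have nb := (hCALM V G nx k hM hU hI.deg4 b cb).1
  have nc := (hCALM V G nx k hM hU hI.deg4 c cc).1
  have nd := (hCALM V G nx k hM hU hI.deg4 d cd).1
  have ne := (hCALM V G nx k hM hU hI.deg4 e ce).1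
  have da := hI.deg4 a
  have db := hI.deg4 b
  have dc := hI.deg4 c
  have dd := hI.deg4 d
  have de := hI.deg4 e
  obtain ⟨Aab, Aac, Aad, Aae, Abc, Acd, Ade, nbd, nbe, nce, ebd, ebe, ece⟩ := hFan
  rcases Nat.lt_or_ge 4 (deg G a) with ha | ha
  · have := a5 ha
    linarith
  have ha4 : deg G a = 4 := le_antisymm ha da
  have fa := a4 ha4
  rcases Nat.lt_or_ge 4 (deg G b) with hb | hb
  · have fb := b5 hb
    rcases Nat.lt_or_ge 4 (deg G c) with hc' | hc'
    · have := c5 hc'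
      linarith
    rcases Nat.lt_or_ge 4 (deg G d) with hd' | hd'
    · have := d5 hd'
      linarith
    rcases Nat.lt_or_ge 4 (deg G e) with he' | he'
    · have := e5 he'
      linarith
    exact (hF0 V G hI.good a c d e Aac Aad Aae Acd Ade nce ece ha4 (le_antisymm hc' dc)
      (le_antisymm hd' dd) (le_antisymm he' de)).elim
  have hb4 : deg G b = 4 := le_antisymm hb db
  rcases Nat.lt_or_ge 4 (deg G c) with hc' | hc'
  · have fc' := c5 hc'
    rcases Nat.lt_or_ge 4 (deg G d) with hd' | hd'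
    · have := d5 hd'
      linarith
    rcases Nat.lt_or_ge 4 (deg G e) with he' | he'
    · have := e5 he'
      linarith
    rcases Nat.lt_or_ge 5 (deg G c) with hc6 | hc6
    · have := c6 hc6
      linarith
    · exact (hI.th10 a b c d e ⟨Aab, Aac, Aad, Aae, Abc, Acd, Ade, nbd, nbe, nce, ebd, ebe, ece⟩
        ha4 hb4 (le_antisymm hc6 hc') (le_antisymm hd' dd) (le_antisymm he' de)).elim
  have hc4 : deg G c = 4 := le_antisymm hc' dc
  rcases Nat.lt_or_ge 4 (deg G d) with hd' | hd'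
  · have fd := d5 hd'
    rcases Nat.lt_or_ge 4 (deg G e) with he' | he'
    · have := e5 he'
      linarith
    rcases Nat.lt_or_ge 5 (deg G d) with hd6 | hd6
    · have := d6 hd6
      linarith
    · exact (hI.th10 a e d c b ⟨Aae, Aad, Aac, Aab, Ade.symm, Acd.symm, Abc.symm,
        fun h => nce h.symm, fun h => nbe h.symm, fun h => nbd h.symm, ece.symm, ebe.symm,
        ebd.symm⟩ ha4 (le_antisymm he' de) (le_antisymm hd6 hd') hc4 hb4).elim
  have hd4 : deg G d = 4 := le_antisymm hd' dd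
  exact (hF0 V G hI.good a b c d Aab Aac Aad Abc Acd nbd ebd ha4 hb4 hc4 hd4).elim

end Pool.Agent.TorDeg
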