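import Pool.Agent.TorDeg.Targets

set_option autoImplicit false

/-!
# TOR-LP: the charge of the vertices of a 5-face
-/

namespace Pool.Agent.TorDeg

namespace LPK

theorem rcv_nn {V : Type} [Fintype V] (G : SimpleGraph V) (nx : V → V → V)
    (k : V → V → ℕ) (v m : V) : 0 ≤ rcv G nx k v m := by
  unfold rcv
  split_ifs <;> norm_num

theorem five_rot {V : Type} {G : SimpleGraph V} {v₁ v₂ v₃ v₄ v₅ : V}
    (h : Five G v₁ v₂ v₃ v₄ v₅) : Five G v₂ v₃ v₄ v₅ v₁ := by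
  unfold Five at h ⊢
  simp only [ne_eq] at h ⊢
  tauto

theorem pface_rot {V : Type} [Fintype V] {G : SimpleGraph V} {nx : V → V → V}
    {k : V → V → ℕ} {v₁ v₂ v₃ v₄ v₅ : V} (h : PFace G nx k v₁ v₂ v₃ v₄ v₅) :
    PFace G nx k v₂ v₃ v₄ v₅ v₁ :=
  ⟨five_rot h.five, h.n₂, h.n₃, h.n₄, h.n₅, h.n₁, h.k₂, h.k₃, h.k₄, h.k₅, h.k₁⟩

theorem bound {V : Type} [Fintype V] [DecidableEq V] (hP4 : T_P4) (hP5 : T_P5)
    {G : SimpleGraph V} {nx : V → V → V} {k : V → V → ℕ} (hc : Ctx G nx k) {v₁ v₂ v₃ v₄ v₅ : V}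
    (h : PFace G nx k v₁ v₂ v₃ v₄ v₅) :
    (deg G v₁ = 4 ∧ -4 ≤ fc G nx k v₁) ∨ (5 ≤ deg G v₁ ∧ 11 ≤ fc G nx k v₁) := by
  have hadj : G.Adj v₁ v₅ := by
    have h1 := h.five
    unfold Five at h1
    exact h1.2.2.2.2.1.symm
  have hr := rcv_nn G nx k v₁ v₂
  rcases Nat.eq_or_lt_of_le (hc.irr.deg4 v₁) with h4 | h5
  · left
    have h1 := (hP4 V G nx k hc.map hc.u5 hc.irr.deg4 v₁ v₅ v₂ hadj h.n₁.symm h.k₁ h4.symm).1
    exact ⟨h4.symm, by linarith⟩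
  · right
    have h1 := (hP5 V G nx k hc.map hc.u5 hc.irr.deg4 v₁ v₅ v₂ hadj h.n₁.symm h.k₁ h5).1
    exact ⟨h5, by linarith⟩

end LPK

theorem tLP (hLP0 : T_LP0) (hLP1 : T_LP1) (hP4 : T_P4) (hP5 : T_P5) : T_LP := by
  intro V _ _ G nx k hc v₁ v₂ v₃ v₄ v₅ h
  have h2 := LPK.pface_rot h
  have h3 := LPK.pface_rot h2
  have h4 := LPK.pface_rot h3
  have h5 := LPK.pface_rot h4
  rcases LPK.bound hP4 hP5 hc h with ⟨a1, b1⟩ | ⟨a1, b1⟩ <;>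
  rcases LPK.bound hP4 hP5 hc h2 with ⟨a2, b2⟩ | ⟨a2, b2⟩ <;>
  rcases LPK.bound hP4 hP5 hc h3 with ⟨a3, b3⟩ | ⟨a3, b3⟩ <;>
  rcases LPK.bound hP4 hP5 hc h4 with ⟨a4, b4⟩ | ⟨a4, b4⟩ <;>
  rcases LPK.bound hP4 hP5 hc h5 with ⟨a5, b5⟩ | ⟨a5, b5⟩
  · refine ⟨hLP0 V G nx k hc v₁ v₂ v₃ v₄ v₅ h a1 a2 a3 a4 a5, fun hd => ?_⟩
    exfalso
    omega
  · have := hLP1 V G nx k hc v₅ v₁ v₂ v₃ v₄ h5 a5 a1 a2 a3 a4
    exact ⟨by linarith, fun _ => by linarith⟩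
  · have := hLP1 V G nx k hc v₄ v₅ v₁ v₂ v₃ h4 a4 a5 a1 a2 a3
    exact ⟨by linarith, fun _ => by linarith⟩
  · exact ⟨by linarith, fun _ => by linarith⟩
  · have := hLP1 V G nx k hc v₃ v₄ v₅ v₁ v₂ h3 a3 a4 a5 a1 a2
    exact ⟨by linarith, fun _ => by linarith⟩
  · exact ⟨by linarith, fun _ => by linarith⟩
  · exact ⟨by linarith, fun _ => by linarith⟩
  · exact ⟨by linarith, fun _ => by linarith⟩
  · have := hLP1 V G nx k hc v₂ v₃ v₄ v₅ v₁ h2 a2 a3 a4 a5 a1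
    exact ⟨by linarith, fun _ => by linarith⟩
  · exact ⟨by linarith, fun _ => by linarith⟩
  · exact ⟨by linarith, fun _ => by linarith⟩
  · exact ⟨by linarith, fun _ => by linarith⟩
  · exact ⟨by linarith, fun _ => by linarith⟩
  · exact ⟨by linarith, fun _ => by linarith⟩
  · exact ⟨by linarith, fun _ => by linarith⟩
  · exact ⟨by linarith, fun _ => by linarith⟩
  · have := hLP1 V G nx k hc v₁ v₂ v₃ v₄ v₅ h a1 a2 a3 a4 a5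
    exact ⟨by linarith, fun _ => by linarith⟩
  all_goals exact ⟨by linarith, fun _ => by linarith⟩

end Pool.Agent.TorDeg
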