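import Pool.Agent.TorDeg.Targets

set_option autoImplicit false

/-!
# LP0: a 5-face, all degrees are 4
-/

namespace Pool.Agent.TorDeg

namespace HLP0

/-- lower bounds for the charge of a vertex of a 5-face: `a` next side, `a'` previous side,
`m` middle corner -/
def lb (a a' m : Bool) : ℤ :=
  match a, a', m with
  | true, true, _ => 1
  | true, false, true => 1
  | true, false, false => 11
  | false, true, true => -4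
  | false, true, false => 6
  | false, false, _ => 6

/-- the finite check, as a Boolean -/
def chk (a₁ a₂ a₃ a₄ a₅ m₁ m₂ m₃ m₄ m₅ : Bool) : Bool :=
  (a₁ && m₁ && m₂) || (a₂ && m₂ && m₃) || (a₃ && m₃ && m₄) || (a₄ && m₄ && m₅) ||
    (a₅ && m₅ && m₁) ||
    decide (0 ≤ lb a₁ a₅ m₁ + lb a₂ a₁ m₂ + lb a₃ a₂ m₃ + lb a₄ a₃ m₄ + lb a₅ a₄ m₅)

lemma chk_true : ∀ a₁ a₂ a₃ a₄ a₅ m₁ m₂ m₃ m₄ m₅ : Bool,
    chk a₁ a₂ a₃ a₄ a₅ m₁ m₂ m₃ m₄ m₅ = true := by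
  decide +kernel

lemma fin_check (a₁ a₂ a₃ a₄ a₅ m₁ m₂ m₃ m₄ m₅ : Bool)
    (h1 : ¬ (a₁ = true ∧ m₁ = true ∧ m₂ = true)) (h2 : ¬ (a₂ = true ∧ m₂ = true ∧ m₃ = true))
    (h3 : ¬ (a₃ = true ∧ m₃ = true ∧ m₄ = true)) (h4 : ¬ (a₄ = true ∧ m₄ = true ∧ m₅ = true))
    (h5 : ¬ (a₅ = true ∧ m₅ = true ∧ m₁ = true)) :
    0 ≤ lb a₁ a₅ m₁ + lb a₂ a₁ m₂ + lb a₃ a₂ m₃ + lb a₄ a₃ m₄ + lb a₅ a₄ m₅ := by
  have h := chk_true a₁ a₂ a₃ a₄ a₅ m₁ m₂ m₃ m₄ m₅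
  simp only [chk, Bool.or_eq_true, Bool.and_eq_true, decide_eq_true_iff] at h
  rcases h with ((((h | h) | h) | h) | h) | h
  · exact (h1 ⟨h.1.1, h.1.2, h.2⟩).elim
  · exact (h2 ⟨h.1.1, h.1.2, h.2⟩).elim
  · exact (h3 ⟨h.1.1, h.1.2, h.2⟩).elim
  · exact (h4 ⟨h.1.1, h.1.2, h.2⟩).elim
  · exact (h5 ⟨h.1.1, h.1.2, h.2⟩).elim
  · exact h

variable {V : Type} [Fintype V] {G : SimpleGraph V} {nx : V → V → V} {k : V → V → ℕ}

omit [Fintype V] in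
lemma five_rot {v₁ v₂ v₃ v₄ v₅ : V} (h : Five G v₁ v₂ v₃ v₄ v₅) : Five G v₂ v₃ v₄ v₅ v₁ := by
  obtain ⟨h1, h2, h3, h4, h5, h6, h7, h8, h9, h10⟩ := h
  exact ⟨h2, h3, h4, h5, h1, h8, h9, h10, h6.symm, h7.symm⟩

lemma rot {v₁ v₂ v₃ v₄ v₅ : V} (h : PFace G nx k v₁ v₂ v₃ v₄ v₅) :
    PFace G nx k v₂ v₃ v₄ v₅ v₁ :=
  ⟨five_rot h.five, h.n₂, h.n₃, h.n₄, h.n₅, h.n₁, h.k₂, h.k₃, h.k₄, h.k₅, h.k₁⟩

lemma per4 (hNX : T_NX) (hM : TMap G nx k) (hd : ∀ v, 4 ≤ deg G v) {v m : V} (hvm : G.Adj v m)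
    (h4 : deg G v = 4) : nx v (nx v (nx v (nx v m))) = m := by
  obtain ⟨n1, n2, n3, p, hp, hpm⟩ := hNX V G nx k hM hd v m hvm
  obtain ⟨i, hi, he⟩ := hM.trans v m p hvm hp
  rw [h4] at hi
  have hh : nx v ((nx v)^[i] m) = m := by rw [he, hpm]
  interval_cases i
  · exact (n1 hh).elim
  · exact (n2 hh).elim
  · exact (n3 hh).elim
  · exact hh

lemma apex_deg [DecidableEq V] (hR3 : T_R3) (hNX : T_NX) (hF3 : T_F3) (hC : Ctx G nx k)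
    {v₁ v₂ v₃ v₄ v₅ : V} (hP : PFace G nx k v₁ v₂ v₃ v₄ v₅) (d1 : deg G v₁ = 4)
    (d2 : deg G v₂ = 4) (d3 : deg G v₃ = 4) (d4 : deg G v₄ = 4) (d5 : deg G v₅ = 4)
    (ha : k v₂ v₁ = 3) : 5 ≤ deg G (nx v₁ v₂) := by
  by_contra hcon
  have h4 := hC.irr.deg4 (nx v₁ v₂)
  have hw4 : deg G (nx v₁ v₂) = 4 := by omega
  obtain ⟨f1, f2, f3, f4, f5, f6, f7, f8, f9, f10⟩ := hP.five
  obtain ⟨g1, g2, -, g4, -, -⟩ := hF3 V G nx k hC.map hC.irr.deg4 v₂ v₁ (nx v₁ v₂) f1.symm ha rfl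
  refine hR3 V G hC.u5 hC.irr.good v₁ v₂ v₃ v₄ v₅ (nx v₁ v₂) hP.five g1.symm g2 ?_ ?_ d1 d2 d3 d4
    d5 hw4
  · intro he
    rw [he] at g4
    have := (hNX V G nx k hC.map hC.irr.deg4 v₂ v₁ f1.symm).2.1
    rw [hP.n₂] at this
    exact this g4
  · intro he
    have := (hNX V G nx k hC.map hC.irr.deg4 v₁ v₅ f5.symm).2.1
    rw [hP.n₁] at this
    exact this he

lemma vb [DecidableEq V] (hP4 : T_P4) (hR3 : T_R3) (hNX : T_NX) (hF3 : T_F3) (hC : Ctx G nx k)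
    {v₁ v₂ v₃ v₄ v₅ : V} (hP : PFace G nx k v₁ v₂ v₃ v₄ v₅) (d1 : deg G v₁ = 4)
    (d2 : deg G v₂ = 4) (d3 : deg G v₃ = 4) (d4 : deg G v₄ = 4) (d5 : deg G v₅ = 4) :
    lb (decide (k v₂ v₁ = 3)) (decide (k v₁ v₅ = 3))
      (decide (k v₁ (nx v₁ (nx v₁ v₂)) = 3)) ≤ fc G nx k v₁ := by
  obtain ⟨p1, p2⟩ := hP4 V G nx k hC.map hC.u5 hC.irr.deg4 v₁ v₅ v₂ hP.five.2.2.2.2.1.symm
    hP.n₁.symm hP.k₁ d1
  have hr : rcv G nx k v₁ v₂ = if k v₂ v₁ = 3 then 5 else 0 := by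
    unfold rcv
    by_cases ha : k v₂ v₁ = 3
    · rw [if_pos ha, if_pos ⟨hP.k₁, ha, apex_deg hR3 hNX hF3 hC hP d1 d2 d3 d4 d5 ha⟩]
    · rw [if_neg ha, if_neg (fun h => ha h.2.1)]
  rw [hr] at p1 p2
  by_cases ha : k v₂ v₁ = 3
  · rw [if_pos ha] at p1 p2
    by_cases hb : k v₁ v₅ = 3
    · simp only [ha, hb, decide_true, lb]
      linarith
    · by_cases hm : k v₁ (nx v₁ (nx v₁ v₂)) = 3
      · simp only [ha, hb, hm, decide_true, decide_false, lb]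
        linarith
      · simp only [ha, hb, hm, decide_true, decide_false, lb]
        by_contra hlt
        rcases p2 (by linarith) with h | h | h
        · exact hb h.2
        · exact hm h.2.2
        · exact h.1 ha
  · rw [if_neg ha] at p1 p2
    by_cases hb : k v₁ v₅ = 3
    · by_cases hm : k v₁ (nx v₁ (nx v₁ v₂)) = 3
      · simp only [ha, hb, hm, decide_true, decide_false, lb]
        linarith
      · simp only [ha, hb, hm, decide_true, decide_false, lb]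
        by_contra hlt
        rcases p2 (by linarith) with h | h | h
        · exact ha h.1
        · exact ha h.1
        · exact hm h.2.2
    · have : lb (decide (k v₂ v₁ = 3)) (decide (k v₁ v₅ = 3))
          (decide (k v₁ (nx v₁ (nx v₁ v₂)) = 3)) = 6 := by
        simp only [ha, hb, decide_false, lb]
      rw [this]
      by_contra hlt
      rcases p2 (by linarith) with h | h | h
      · exact ha h.1
      · exact ha h.1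
      · exact hb h.2.1

lemma pnm [DecidableEq V] (hPNM : T_PNM) (hNX : T_NX) (hF3 : T_F3) (hC : Ctx G nx k)
    {v₁ v₂ v₃ v₄ v₅ : V} (hP : PFace G nx k v₁ v₂ v₃ v₄ v₅) (d2 : deg G v₂ = 4) :
    ¬ (decide (k v₂ v₁ = 3) = true ∧ decide (k v₁ (nx v₁ (nx v₁ v₂)) = 3) = true ∧
      decide (k v₂ (nx v₂ (nx v₂ v₃)) = 3) = true) := by
  rintro ⟨ha, hm, hn⟩
  rw [decide_eq_true_iff] at ha hm hn
  have f1 := hP.five.1
  obtain ⟨g1, g2, -, g4, -, -⟩ := hF3 V G nx k hC.map hC.irr.deg4 v₂ v₁ (nx v₁ v₂) f1.symm ha rfl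
  have h4 := per4 hNX hC.map hC.irr.deg4 f1.symm d2
  rw [hP.n₂] at h4
  have f2 := hP.five.2.1
  have e : nx v₂ (nx v₂ v₃) = nx v₁ v₂ := by
    apply hC.map.inj v₂ _ _ (hC.map.adj v₂ _ (hC.map.adj v₂ _ f2)) g2.symm
    rw [h4, g4]
  rw [e] at hn
  exact hPNM V G nx k hC.map hC.u5 hC.irr.deg4 v₁ v₂ (nx v₁ v₂) f1 hP.k₁ ha rfl ⟨hm, hn⟩

end HLP0

open HLP0

theorem tLP0 (hP4 : T_P4) (hPNM : T_PNM) (hR3 : T_R3) (hNX : T_NX) (hF3 : T_F3) : T_LP0 := by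
  intro V _ _ G nx k hC v₁ v₂ v₃ v₄ v₅ hP d1 d2 d3 d4 d5
  have hP2 := rot hP
  have hP3 := rot hP2
  have hP4' := rot hP3
  have hP5 := rot hP4'
  have b1 := vb hP4 hR3 hNX hF3 hC hP d1 d2 d3 d4 d5
  have b2 := vb hP4 hR3 hNX hF3 hC hP2 d2 d3 d4 d5 d1
  have b3 := vb hP4 hR3 hNX hF3 hC hP3 d3 d4 d5 d1 d2
  have b4 := vb hP4 hR3 hNX hF3 hC hP4' d4 d5 d1 d2 d3
  have b5 := vb hP4 hR3 hNX hF3 hC hP5 d5 d1 d2 d3 d4
  have q1 := pnm hPNM hNX hF3 hC hP d2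
  have q2 := pnm hPNM hNX hF3 hC hP2 d3
  have q3 := pnm hPNM hNX hF3 hC hP3 d4
  have q4 := pnm hPNM hNX hF3 hC hP4' d5
  have q5 := pnm hPNM hNX hF3 hC hP5 d1
  have := fin_check _ _ _ _ _ _ _ _ _ _ q1 q2 q3 q4 q5
  linarith

end Pool.Agent.TorDeg
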