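import Pool.Agent.TorDeg.Targets

set_option autoImplicit false

/-!
# LP1: a 5-face with one vertex of degree at least 5
-/

namespace Pool.Agent.TorDeg

namespace LP1Aux

variable {V : Type} [Fintype V] {G : SimpleGraph V} {nx : V → V → V} {k : V → V → ℕ}

lemma five_rot {a b c d e : V} (h : Five G a b c d e) : Five G b c d e a := by
  obtain ⟨h1, h2, h3, h4, h5, h6, h7, h8, h9, h10⟩ := h
  exact ⟨h2, h3, h4, h5, h1, h8, h9, h10, h6.symm, h7.symm⟩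

lemma five_ref {a b c d e : V} (h : Five G a b c d e) : Five G a e d c b := by
  obtain ⟨h1, h2, h3, h4, h5, h6, h7, h8, h9, h10⟩ := h
  exact ⟨h5.symm, h4.symm, h3.symm, h2.symm, h1.symm, h7, h6, h10.symm, h9.symm, h8.symm⟩

lemma pface_rot {a b c d e : V} (h : PFace G nx k a b c d e) : PFace G nx k b c d e a where
  five := five_rot h.five
  n₁ := h.n₂
  n₂ := h.n₃
  n₃ := h.n₄
  n₄ := h.n₅
  n₅ := h.n₁
  k₁ := h.k₂
  k₂ := h.k₃
  k₃ := h.k₄
  k₄ := h.k₅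
  k₅ := h.k₁

/-- the apex of a triangle on the side `a b` -/
lemma apex_adj (hF3 : T_F3) (hM : TMap G nx k) (hd4 : ∀ v, 4 ≤ deg G v) {a b : V}
    (hab : G.Adj a b) (ht : k b a = 3) :
    G.Adj (nx a b) a ∧ G.Adj (nx a b) b ∧ nx (nx a b) a = b ∧ nx b (nx a b) = a := by
  obtain ⟨h1, h2, h3, h4, -⟩ := hF3 V G nx k hM hd4 b a (nx a b) hab.symm ht rfl
  exact ⟨h1.symm, h2, h3, h4⟩

/-- the apex is not a neighbour of the side on the 5-face -/
lemma apex_ne (hF3 : T_F3) (hNX : T_NX) (hM : TMap G nx k) (hd4 : ∀ v, 4 ≤ deg G v)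
    {a b c d e : V} (hf : PFace G nx k a b c d e) (ht : k b a = 3) :
    nx a b ≠ c ∧ nx a b ≠ e := by
  obtain ⟨h1, h2, h3, h4⟩ := apex_adj hF3 hM hd4 hf.five.1 ht
  constructor
  · intro h
    -- nx b a = c, nx b c = a
    have e1 := (hNX V G nx k hM hd4 b a hf.five.1.symm).2.1
    apply e1
    rw [hf.n₂, ← h]
    exact h4
  · intro h
    -- nx a e = b, nx a b = e
    have e1 := (hNX V G nx k hM hd4 a e hf.five.2.2.2.2.1.symm).2.1
    apply e1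
    rw [hf.n₁]
    exact h

/-- the rotation of a vertex of degree 4 has period 4 -/
lemma per4 (hNX : T_NX) (hM : TMap G nx k) (hd4 : ∀ v, 4 ≤ deg G v) {v x : V}
    (hdeg : deg G v = 4) (hx : G.Adj v x) : nx v (nx v (nx v (nx v x))) = x := by
  obtain ⟨j, hj, hjx⟩ := hM.trans v (nx v x) x (hM.adj v x hx) hx
  rw [hdeg] at hj
  have e := hNX V G nx k hM hd4 v x hx
  interval_cases j
  · exact absurd hjx e.1
  · exact absurd hjx e.2.1
  · exact absurd hjx e.2.2.1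
  · exact hjx

/-- in a vertex of degree 4: the rotation is `x, nx x, y, nx y` -/
lemma rot_deg4 (hNX : T_NX) (hM : TMap G nx k) (hd4 : ∀ v, 4 ≤ deg G v) {v x y : V}
    (hdeg : deg G v = 4) (hx : G.Adj v x) (hy : G.Adj v y) (h1 : y ≠ x) (h2 : y ≠ nx v x)
    (h3 : nx v y ≠ x) : nx v (nx v y) = x ∧ nx v (nx v x) = y := by
  obtain ⟨i, hi, hiy⟩ := hM.trans v x y hx hy
  rw [hdeg] at hi
  have hn := hM.adj v x hx
  have hn2 := hM.adj v _ hn
  have hn3 := hM.adj v _ hn2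
  -- the rotation has period 4
  have per : nx v (nx v (nx v (nx v x))) = x := per4 hNX hM hd4 hdeg hx
  interval_cases i
  · exact absurd hiy.symm h1
  · exact absurd hiy.symm h2
  · have hy2 : nx v (nx v x) = y := hiy
    refine ⟨?_, hy2⟩
    rw [← hy2]
    exact per
  · have hy3 : nx v (nx v (nx v x)) = y := hiy
    exfalso
    apply h3
    rw [← hy3]
    exact per

/-- the apex is not the opposite vertex of the 5-face if this has degree 4 and is on another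
triangle side -/
lemma apex_opp (hF3 : T_F3) (hNX : T_NX) (hM : TMap G nx k) (hd4 : ∀ v, 4 ≤ deg G v)
    {a b c d e : V} (hf : PFace G nx k a b c d e) (ht : k b a = 3) (hdeg : deg G d = 4)
    (hbad : k e d = 3 ∨ k d c = 3) : nx a b ≠ d := by
  intro hw
  obtain ⟨h1, h2, h3, h4⟩ := apex_adj hF3 hM hd4 hf.five.1 ht
  rw [hw] at h1 h2 h3 h4
  obtain ⟨fab, fbc, fcd, fde, fea, nac, nad, nbd, nbe, nce⟩ := hf.five
  -- at d: c → e, a → b
  obtain ⟨r1, r2⟩ := rot_deg4 hNX hM hd4 hdeg (x := c) (y := a) fcd.symm h1 nac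
    (by rw [hf.n₄]; exact fea.ne') (by rw [h3]; exact fbc.ne)
  rw [h3] at r1
  rw [hf.n₄] at r2
  -- nx d b = c, nx d e = a
  rcases hbad with hb | hb
  · -- triangle on the side d e, with apex nx d e = a
    obtain ⟨g1, g2, g3, g4⟩ := apex_adj hF3 hM hd4 fde hb
    rw [r2] at g3 g4
    -- nx e a = d, nx e d = a
    have e1 := (hNX V G nx k hM hd4 e d fde.symm).2.1
    apply e1
    rw [hf.n₅]
    exact g4
  · -- triangle on the side c d, with apex p = nx c d; nx d p = c, so p = b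
    obtain ⟨g1, g2, g3, g4⟩ := apex_adj hF3 hM hd4 fcd hb
    have hpb : nx c d = b := hM.inj d (nx c d) b g2.symm h2 (g4.trans r1.symm)
    have e1 := (hNX V G nx k hM hd4 c b fbc.symm).2.1
    apply e1
    rw [hf.n₃]
    exact hpb

lemma rcv_nonneg (v m : V) : 0 ≤ rcv G nx k v m := by
  unfold rcv
  split_ifs <;> norm_num

lemma rcv_five {v m : V} (h1 : k v m = 5) (h2 : k m v = 3) (h3 : 5 ≤ deg G (nx v m)) :
    rcv G nx k v m = 5 := by
  unfold rcv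
  rw [if_pos ⟨h1, h2, h3⟩]

/-- if nothing is received then the apex has degree 4 -/
lemma deg_apex (hd4 : ∀ v, 4 ≤ deg G v) {v m : V} (h1 : k v m = 5) (h2 : k m v = 3)
    (h : rcv G nx k v m ≠ 5) : deg G (nx v m) = 4 := by
  by_contra hne
  exact h (rcv_five h1 h2 (by have := hd4 (nx v m); omega))

end LP1Aux

open LP1Aux in
theorem tLP1 (h4 : T_P4) (h5 : T_P5) (hP : T_PNM) (hE12 : T_EXT12) (hE21 : T_EXT21)
    (hNX : T_NX) (hF3 : T_F3) : T_LP1 := by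
  intro V _ _ G nx k hC v₁ v₂ v₃ v₄ v₅ hf d1 d2 d3 d4 d5
  have hM := hC.map
  have hU := hC.u5
  have hd4 := hC.irr.deg4
  have hf2 := pface_rot hf
  have hf3 := pface_rot hf2
  have hf4 := pface_rot hf3
  have hf5 := pface_rot hf4
  obtain ⟨a12, a23, a34, a45, a51, n13, n14, n24, n25, n35⟩ := hf.five
  -- local bounds
  obtain ⟨p1, p1'⟩ := h5 V G nx k hM hU hd4 v₁ v₅ v₂ a51.symm hf.n₁.symm hf.k₁ d1
  obtain ⟨p2, p2'⟩ := h4 V G nx k hM hU hd4 v₂ v₁ v₃ a12.symm hf.n₂.symm hf.k₂ d2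
  obtain ⟨p3, p3'⟩ := h4 V G nx k hM hU hd4 v₃ v₂ v₄ a23.symm hf.n₃.symm hf.k₃ d3
  obtain ⟨p4, p4'⟩ := h4 V G nx k hM hU hd4 v₄ v₃ v₅ a34.symm hf.n₄.symm hf.k₄ d4
  obtain ⟨p5, p5'⟩ := h4 V G nx k hM hU hd4 v₅ v₄ v₁ a45.symm hf.n₅.symm hf.k₅ d5
  have r1 := rcv_nonneg (G := G) (nx := nx) (k := k) v₁ v₂
  have r2 := rcv_nonneg (G := G) (nx := nx) (k := k) v₂ v₃
  have r3 := rcv_nonneg (G := G) (nx := nx) (k := k) v₃ v₄
  have r4 := rcv_nonneg (G := G) (nx := nx) (k := k) v₄ v₅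
  have r5 := rcv_nonneg (G := G) (nx := nx) (k := k) v₅ v₁
  -- v₁
  by_cases c1 : k v₂ v₁ ≠ 3 ∨ k v₁ v₅ ≠ 3 ∨ 6 ≤ deg G v₁
  · have := p1' c1
    linarith
  push Not at c1
  obtain ⟨t1, t5, d1'⟩ := c1
  have d1e : deg G v₁ = 5 := by omega
  by_cases c2 : fc G nx k v₂ < 6 + rcv G nx k v₂ v₃
  swap
  · linarith
  by_cases c3 : fc G nx k v₃ < 6 + rcv G nx k v₃ v₄
  swap
  · linarith
  by_cases c4 : fc G nx k v₄ < 6 + rcv G nx k v₄ v₅
  swap
  · linarith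
  by_cases c5 : fc G nx k v₅ < 6 + rcv G nx k v₅ v₁
  swap
  · linarith
  have b3 := p3' c3
  have b4 := p4' c4
  have q3 : k v₄ v₃ = 3 ∨ k v₃ v₂ = 3 := by
    rcases b3 with h | h | h
    exacts [Or.inl h.1, Or.inl h.1, Or.inr h.2.1]
  have q4 : k v₅ v₄ = 3 ∨ k v₄ v₃ = 3 := by
    rcases b4 with h | h | h
    exacts [Or.inl h.1, Or.inl h.1, Or.inr h.2.1]
  clear c2 c3 c4 c5 p2' p3' p4' p5' p1'
  -- it is enough that two sides give 5
  have two : ∀ x y : ℤ, x = 5 → y = 5 → x + y ≤ rcv G nx k v₁ v₂ + rcv G nx k v₂ v₃ +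
      rcv G nx k v₃ v₄ + rcv G nx k v₄ v₅ + rcv G nx k v₅ v₁ →
      0 < fc G nx k v₁ + fc G nx k v₂ + fc G nx k v₃ + fc G nx k v₄ + fc G nx k v₅ := by
    intro x y hx hy hxy
    linarith
  -- apexes
  have A1 := apex_adj hF3 hM hd4 a12 t1
  have A5 := apex_adj hF3 hM hd4 a51 t5
  have N1 := apex_ne hF3 hNX hM hd4 hf t1
  have N5 := apex_ne hF3 hNX hM hd4 hf5 t5
  have O1 := apex_opp hF3 hNX hM hd4 hf t1 d4 q4
  have O5 := apex_opp hF3 hNX hM hd4 hf5 t5 d3 q3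
  -- the reducible configurations
  have C14 : k v₅ v₄ = 3 → rcv G nx k v₁ v₂ ≠ 5 → rcv G nx k v₄ v₅ = 5 := by
    intro t4 e1
    by_contra e4
    have A4 := apex_adj hF3 hM hd4 a45 t4
    have N4 := apex_ne hF3 hNX hM hd4 hf4 t4
    have O4 := apex_opp hF3 hNX hM hd4 hf4 t4 d2 (Or.inr t1)
    have D1 := deg_apex hd4 hf.k₁ t1 e1
    have D4 := deg_apex hd4 hf.k₄ t4 e4
    have R := hE12 V G hU v₁ v₂ v₃ v₄ v₅ (nx v₁ v₂) (nx v₄ v₅) hf.five A1.1 A1.2.1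
      N1.1 O1 N1.2 A4.1 A4.2.1 N4.1 O4 N4.2
    exact hC.irr.th12 _ _ _ _ _ _ _ R d1e d2 d3 d4 d5 D1 D4
  have C13 : k v₄ v₃ = 3 → rcv G nx k v₁ v₂ ≠ 5 → rcv G nx k v₃ v₄ = 5 := by
    intro t3 e1
    by_contra e3
    have A3 := apex_adj hF3 hM hd4 a34 t3
    have N3 := apex_ne hF3 hNX hM hd4 hf3 t3
    have D1 := deg_apex hd4 hf.k₁ t1 e1
    have D3 := deg_apex hd4 hf.k₃ t3 e3
    have O3 : nx v₃ v₄ ≠ v₁ := fun h => by rw [h] at D3; omega
    have R := hE21 V G hU v₁ v₂ v₃ v₄ v₅ (nx v₁ v₂) (nx v₃ v₄) hf.five A1.1 A1.2.1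
      N1.1 O1 N1.2 A3.1 A3.2.1 O3 N3.2 N3.1
    exact hC.irr.th21 _ _ _ _ _ _ _ R d1e d2 d3 d4 d5 D1 D3
  have C52 : k v₃ v₂ = 3 → rcv G nx k v₅ v₁ ≠ 5 → rcv G nx k v₂ v₃ = 5 := by
    intro t2 e5
    by_contra e2
    have A2 := apex_adj hF3 hM hd4 a23 t2
    have N2 := apex_ne hF3 hNX hM hd4 hf2 t2
    have O2 := apex_opp hF3 hNX hM hd4 hf2 t2 d5 (Or.inl t5)
    have D5 := deg_apex hd4 hf.k₅ t5 e5
    have D2 := deg_apex hd4 hf.k₂ t2 e2
    have R := hE12 V G hU v₁ v₅ v₄ v₃ v₂ (nx v₅ v₁) (nx v₂ v₃) (five_ref hf.five) A5.2.1 A5.1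
      N5.2 O5 N5.1 A2.2.1 A2.1 N2.2 O2 N2.1
    exact hC.irr.th12 _ _ _ _ _ _ _ R d1e d5 d4 d3 d2 D5 D2
  have C53 : k v₄ v₃ = 3 → rcv G nx k v₅ v₁ ≠ 5 → rcv G nx k v₃ v₄ = 5 := by
    intro t3 e5
    by_contra e3
    have A3 := apex_adj hF3 hM hd4 a34 t3
    have N3 := apex_ne hF3 hNX hM hd4 hf3 t3
    have D5 := deg_apex hd4 hf.k₅ t5 e5
    have D3 := deg_apex hd4 hf.k₃ t3 e3
    have O3 : nx v₃ v₄ ≠ v₁ := fun h => by rw [h] at D3; omega
    have R := hE21 V G hU v₁ v₅ v₄ v₃ v₂ (nx v₅ v₁) (nx v₃ v₄) (five_ref hf.five) A5.2.1 A5.1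
      N5.2 O5 N5.1 A3.2.1 A3.1 O3 N3.1 N3.2
    exact hC.irr.th21 _ _ _ _ _ _ _ R d1e d5 d4 d3 d2 D5 D3
  by_cases e1 : rcv G nx k v₁ v₂ = 5
  · by_cases e5 : rcv G nx k v₅ v₁ = 5
    · exact two _ _ e1 e5 (by linarith)
    · by_cases t3 : k v₄ v₃ = 3
      · exact two _ _ e1 (C53 t3 e5) (by linarith)
      · have t2 : k v₃ v₂ = 3 := q3.resolve_left t3
        exact two _ _ e1 (C52 t2 e5) (by linarith)
  · by_cases e5 : rcv G nx k v₅ v₁ = 5
    · by_cases t3 : k v₄ v₃ = 3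
      · exact two _ _ e5 (C13 t3 e1) (by linarith)
      · have t4 : k v₅ v₄ = 3 := q4.resolve_right t3
        exact two _ _ e5 (C14 t4 e1) (by linarith)
    · by_cases t3 : k v₄ v₃ = 3
      · by_cases t4 : k v₅ v₄ = 3
        · exact two _ _ (C13 t3 e1) (C14 t4 e1) (by linarith)
        · by_cases t2 : k v₃ v₂ = 3
          · exact two _ _ (C13 t3 e1) (C52 t2 e5) (by linarith)
          · -- sides 1, 3, 5 only
            exfalso
            have m3 : k v₃ (nx v₃ (nx v₃ v₄)) = 3 := by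
              rcases b3 with h | h | h
              exacts [absurd h.2 t2, h.2.2, absurd t3 h.1]
            have m4 : k v₄ (nx v₄ (nx v₄ v₅)) = 3 := by
              rcases b4 with h | h | h
              exacts [absurd h.1 t4, absurd h.1 t4, h.2.2]
            have A3 := apex_adj hF3 hM hd4 a34 t3
            -- the neighbour nx v₄ (nx v₄ v₅) is the apex
            have hrot : nx v₄ (nx v₄ (nx v₄ v₅)) = v₃ := by
              have := per4 hNX hM hd4 d4 a34.symm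
              rwa [hf.n₄] at this
            have hap : nx v₄ (nx v₄ v₅) = nx v₃ v₄ :=
              hM.inj v₄ _ _ (hM.adj _ _ (hM.adj _ _ a45)) A3.2.1.symm
                (hrot.trans A3.2.2.2.symm)
            rw [hap] at m4
            exact hP V G nx k hM hU hd4 v₃ v₄ (nx v₃ v₄) a34 hf.k₃ t3 rfl ⟨m3, m4⟩
      · have t2 : k v₃ v₂ = 3 := q3.resolve_left t3
        have t4 : k v₅ v₄ = 3 := q4.resolve_right t3
        exact two _ _ (C52 t2 e5) (C14 t4 e1) (by linarith)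

end Pool.Agent.TorDeg
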