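import Pool.Agent.TorDeg.Targets

set_option autoImplicit false

/-!
# TOR-LQ: a triangle next to a 4-face
-/

namespace Pool.Agent.TorDeg

namespace LQ

variable {V : Type} [Fintype V]

theorem mem_nb (G : SimpleGraph V) (v u : V) : u ∈ nb G v ↔ G.Adj v u := by
  classical
  unfold nb
  simp

/-- the value of a corner -/
noncomputable def val (G : SimpleGraph V) (nx : V → V → V) (k : V → V → ℕ) (v m : V) : ℤ :=
  wt (k v m) - snt G nx k v m + rcv G nx k v m

theorem rcv_nonneg (G : SimpleGraph V) (nx : V → V → V) (k : V → V → ℕ) (v m : V) :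
    0 ≤ rcv G nx k v m := by
  classical
  unfold rcv
  split_ifs <;> norm_num

theorem snt_le (G : SimpleGraph V) (nx : V → V → V) (k : V → V → ℕ) (v m : V) :
    snt G nx k v m ≤ 5 := by
  classical
  unfold snt
  split_ifs <;> norm_num

theorem snt_zero (G : SimpleGraph V) (nx : V → V → V) (k : V → V → ℕ) (v m : V)
    (h : k v m ≠ 3) : snt G nx k v m = 0 := by
  classical
  unfold snt
  rw [if_neg (fun hc => h hc.2.1)]

theorem val_three (G : SimpleGraph V) (nx : V → V → V) (k : V → V → ℕ) (v m : V)
    (h : k v m = 3) : -15 ≤ val G nx k v m := by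
  have h1 := rcv_nonneg G nx k v m
  have h2 := snt_le G nx k v m
  unfold val
  rw [h]
  have h3 : wt 3 = -10 := rfl
  rw [h3]
  linarith

theorem val_ne (G : SimpleGraph V) (nx : V → V → V) (k : V → V → ℕ) (v m : V)
    (h : k v m ≠ 3) (h0 : 3 ≤ k v m) : 0 ≤ val G nx k v m := by
  have h1 := rcv_nonneg G nx k v m
  have h2 := snt_zero G nx k v m h
  unfold val
  rw [h2]
  have h3 : 0 ≤ wt (k v m) := by
    unfold wt
    split_ifs <;> first | omega | norm_num
  linarith

theorem val_six (G : SimpleGraph V) (nx : V → V → V) (k : V → V → ℕ) (v m : V)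
    (h : 6 ≤ k v m) : 10 ≤ val G nx k v m := by
  have h1 := rcv_nonneg G nx k v m
  have h2 := snt_zero G nx k v m (by omega)
  unfold val
  rw [h2]
  have h3 : wt (k v m) = 10 := by
    unfold wt
    rw [if_neg (by omega), if_neg (by omega), if_neg (by omega)]
  linarith

/-- a calm vertex of degree at least 5 with a 4-corner -/
theorem calm_big (hS5 : T_S5) (hAV : T_AV) (G : SimpleGraph V) (nx : V → V → V)
    (k : V → V → ℕ) (h : TMap G nx k) (v : V) (hc : Calm G nx k v) (hd : 5 ≤ deg G v)
    (m : V) (hm : G.Adj v m) (hk : k v m = 4) : 20 ≤ fc G nx k v := by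
  have hfc : fc G nx k v = 30 * ((deg G v : ℤ) - 4) + ∑ x ∈ nb G v, val G nx k v x := rfl
  rw [hfc]
  have a3 := fun x => val_three G nx k v x
  have an := fun x (hx : G.Adj v x) (hne : k v x ≠ 3) => val_ne G nx k v x hne (h.three v x hx)
  have a6 := fun x => val_six G nx k v x
  rcases Nat.lt_or_ge (deg G v) 6 with h6 | h6
  · have hd5 : deg G v = 5 := by omega
    obtain ⟨e1, e2⟩ := hS5 V G nx k h v m hm hd5
    rw [e2 (fun x => val G nx k v x), hd5]
    have h1 := h.adj v m hm
    have h2 := h.adj v _ h1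
    have h3 := h.adj v _ h2
    have h4 := h.adj v _ h3
    generalize hn1 : nx v m = n1 at *
    generalize hn2 : nx v n1 = n2 at *
    generalize hn3 : nx v n2 = n3 at *
    generalize hn4 : nx v n3 = n4 at *
    have q0 := hc.qt m hm
    rw [hn1] at q0
    have q1 := hc.qt n1 h1
    rw [hn2] at q1
    have t3 := hc.tq n3 h3
    rw [hn4] at t3
    have t4 := hc.tq n4 h4
    rw [e1] at t4
    have f1 := hc.five n1 h1
    have f4 := hc.five n4 h4
    have b0 := an m hm (by omega)
    have c1 := h.three v n1 h1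
    have c4 := h.three v n4 h4
    have p1 : -5 ≤ val G nx k v n1 + val G nx k v n2 := by
      have x1 := an n1 h1 (fun e => q0 ⟨hk, e⟩)
      by_cases z : k v n2 = 3
      · have y1 : k v n1 ≠ 4 := fun e => q1 ⟨e, z⟩
        have y2 : k v n1 ≠ 3 := fun e => q0 ⟨hk, e⟩
        have y3 := a6 n1 (by omega)
        have y4 := a3 n2 z
        linarith
      · have y4 := an n2 h2 z
        linarith
    have p2 : -5 ≤ val G nx k v n3 + val G nx k v n4 := by
      have x1 := an n4 h4 (fun e => t4 ⟨e, hk⟩)
      by_cases z : k v n3 = 3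
      · have y1 : k v n4 ≠ 4 := fun e => t3 ⟨z, e⟩
        have y2 : k v n4 ≠ 3 := fun e => t4 ⟨e, hk⟩
        have y3 := a6 n4 (by omega)
        have y4 := a3 n3 z
        linarith
      · have y4 := an n3 h3 z
        linarith
    push_cast
    linarith
  · have s1 := hAV V G nx k h v (fun x => val G nx k v x)
    have s2 := hAV V G nx k h v (fun x => val G nx k v (nx v x))
    have key : ∑ x ∈ nb G v, (-20 : ℤ)
        ≤ ∑ x ∈ nb G v, (val G nx k v x + val G nx k v (nx v x)
          + val G nx k v (nx v (nx v x))) := by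
      refine Finset.sum_le_sum (fun x hx => ?_)
      have h0 := (mem_nb G v x).mp hx
      have h1 := h.adj v x h0
      have h2 := h.adj v _ h1
      have ttt := hc.ttt x h0
      have q0 := hc.qt x h0
      have t0 := hc.tq x h0
      have q1 := hc.qt _ h1
      have t1 := hc.tq _ h1
      have f0 := hc.five x h0
      have f1 := hc.five _ h1
      have f2 := hc.five _ h2
      have c0 := h.three v x h0
      have c1 := h.three v _ h1
      have c2 := h.three v _ h2
      have A0 := a3 x
      have A1 := a3 (nx v x)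
      have A2 := a3 (nx v (nx v x))
      have B0 := an x h0
      have B1 := an _ h1
      have B2 := an _ h2
      have C0 := a6 x
      have C1 := a6 (nx v x)
      have C2 := a6 (nx v (nx v x))
      generalize nx v (nx v x) = o at *
      generalize nx v x = n at *
      generalize val G nx k v x = X at *
      generalize val G nx k v n = Y at *
      generalize val G nx k v o = Z at *
      generalize k v x = a at *
      generalize k v n = b at *
      generalize k v o = c at *
      by_cases za : a = 3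
      · have := A0 za
        by_cases zb : b = 3
        · have := A1 zb
          have := C2 (by omega)
          linarith
        · have := C1 (by omega)
          by_cases zc : c = 3
          · have := A2 zc
            linarith
          · have := B2 zc
            linarith
      · have := B0 za
        by_cases zb : b = 3
        · have := A1 zb
          have := C0 (by omega)
          by_cases zc : c = 3
          · have := A2 zc
            linarith
          · have := B2 zc
            linarith
        · have := B1 zb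
          by_cases zc : c = 3
          · have := A2 zc
            linarith
          · have := B2 zc
            linarith
    rw [Finset.sum_add_distrib, Finset.sum_add_distrib, s2, s1, Finset.sum_const] at key
    have hcard : (nb G v).card = deg G v := rfl
    rw [hcard, nsmul_eq_mul] at key
    have h6' : (6 : ℤ) ≤ (deg G v : ℤ) := by exact_mod_cast h6
    linarith

end LQ

open LQ

theorem tLQ (hC : T_CALM) (hQO : T_QOUT) (hQC : T_QCALM) (hQP : T_QP) (hQQ : T_QQ)
    (hN : T_NX) (h3 : T_F3) (h4 : T_F4) (hS5 : T_S5) (hAV : T_AV) : T_LQ := by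
  intro V _ G nx k h hU hd p t q s r hpt hq hs hr kpq kps
  obtain ⟨F, hpq, o1, o2, o3, o4, o5⟩ := hQO V G nx k h hU hd p t q s r hpt hq hs hr kpq kps
  obtain ⟨ct, cr, cs⟩ := hQC V G nx k h hU hd p t q s r hpt hq hs hr kpq kps
  obtain ⟨P4, P5⟩ := hQP V G nx k h hU hd p t q s r hpt hq hs hr kpq kps
  obtain ⟨Q4, Q5⟩ := hQQ V G nx k h hU hd p t q s r hpt hq hs hr kpq kps
  obtain ⟨T0, T5, -⟩ := hC V G nx k h hU hd t ct
  obtain ⟨R0, -, R6⟩ := hC V G nx k h hU hd r cr
  obtain ⟨S0, -, S6⟩ := hC V G nx k h hU hd s cs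
  have hps : G.Adj p s := by
    rw [hs]
    exact h.adj p q hpq
  -- the triangle
  obtain ⟨a1, a2, a3, a4, a5, a6⟩ := h3 V G nx k h hd p q _ hpq kpq rfl
  have ht : nx q p = t := h.inj p _ _ a2.symm hpt (by rw [a4, hq])
  rw [ht] at a1 a2 a3 a4 a5 a6
  -- the 4-face
  obtain ⟨b1, b2, b3, b4, b5, b6, b7, b8, b9, b10⟩ :=
    h4 V G nx k h hd p s r _ hps kps hr rfl
  have hm : nx r s = q := h.inj p _ _ b3.symm hpq (by rw [b7, hs])
  rw [hm] at b2 b3 b5 b6 b7 b9 b10
  have hA : ¬ (k p t = 3 ∧ k t q = 3) := by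
    rintro ⟨z1, z2⟩
    obtain ⟨c1, c2, c3, c4, c5, c6⟩ := h3 V G nx k h hd p t _ hpt z1 rfl
    exact ct.ttt q a1.symm ⟨z2, by rw [a3]; exact a6, by rw [a3]; exact c5⟩
  have hB : k p t = 3 → 6 ≤ k s p → 10 ≤ fc G nx k s := fun _ z =>
    S6 ⟨r, b1, b8⟩ ⟨p, hps.symm, z⟩
  have hCr : 6 ≤ k q r → 10 ≤ fc G nx k r := fun z =>
    R6 ⟨q, b2, b9⟩ ⟨nx r q, h.adj r q b2, by rw [h.face q r b2.symm]; exact z⟩
  have dp := hd p
  have dq := hd q
  -- p and s together, q and r together
  have HP : (0 ≤ fc G nx k p) ∨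
      (deg G p = 4 ∧ k p t = 3 ∧ -10 ≤ fc G nx k p ∧ 10 ≤ fc G nx k s) := by
    rcases Nat.lt_or_ge (deg G p) 5 with z | z
    · have z4 : deg G p = 4 := by omega
      obtain ⟨w1, w2, w3⟩ := P4 z4
      by_cases zz : k p t = 3
      · exact Or.inr ⟨z4, zz, w1, hB zz (w3 zz)⟩
      · exact Or.inl (w2 zz)
    · exact Or.inl (by linarith [P5 z])
  have HQ : (0 ≤ fc G nx k q) ∨
      (deg G q = 4 ∧ k t q = 3 ∧ -10 ≤ fc G nx k q ∧ 10 ≤ fc G nx k r) := by
    rcases Nat.lt_or_ge (deg G q) 5 with z | z
    · have z4 : deg G q = 4 := by omega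
      obtain ⟨w1, w2, w3⟩ := Q4 z4
      by_cases zz : k t q = 3
      · exact Or.inr ⟨z4, zz, w1, hCr (w3 zz)⟩
      · exact Or.inl (w2 zz)
    · exact Or.inl (by linarith [Q5 z])
  have HPS : 0 ≤ fc G nx k p + fc G nx k s := by
    rcases HP with z | ⟨-, -, z1, z2⟩ <;> linarith
  have HQR : 0 ≤ fc G nx k q + fc G nx k r := by
    rcases HQ with z | ⟨-, -, z1, z2⟩ <;> linarith
  refine ⟨F, by linarith, ?_⟩
  rintro (z | z | z | z | z)
  · have := P5 z
    linarith
  · have := T5 z
    linarith
  · have := Q5 z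
    linarith
  · have y := calm_big hS5 hAV G nx k h r cr z q b2 b9
    have w : -10 ≤ fc G nx k q := by
      rcases HQ with u | ⟨-, -, u, -⟩ <;> linarith
    linarith
  · have y := calm_big hS5 hAV G nx k h s cs z r b1 b8
    have w : -10 ≤ fc G nx k p := by
      rcases HP with u | ⟨-, -, u, -⟩ <;> linarith
    linarith

end Pool.Agent.TorDeg
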