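import Pool.Agent.TorDeg.Targets

set_option autoImplicit false

/-!
# The main statement from the targets
-/

namespace Pool.Agent.TorDeg

lemma isToroidal_induce {V : Type} (G : SimpleGraph V) (h : IsToroidal G) (S : Set V) :
    IsToroidal (G.induce S) := by
  obtain ⟨n, G', σ, h1, h2, h3, φ, hφ⟩ := h
  refine ⟨n, G', σ, h1, h2, h3, φ.comp (SimpleGraph.Embedding.induce S).toHom, ?_⟩
  intro x y hxy
  exact Subtype.ext (hφ hxy)

lemma five_induce {V : Type} (G : SimpleGraph V) (S : Set V) {a b c d e : S}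
    (h : Five (G.induce S) a b c d e) : Five G a.1 b.1 c.1 d.1 e.1 := by
  obtain ⟨h1, h2, h3, h4, h5, h6, h7, h8, h9, h10⟩ := h
  exact ⟨h1, h2, h3, h4, h5, fun h => h6 (Subtype.ext h), fun h => h7 (Subtype.ext h),
    fun h => h8 (Subtype.ext h), fun h => h9 (Subtype.ext h), fun h => h10 (Subtype.ext h)⟩

lemma u5_induce {V : Type} (G : SimpleGraph V) (h : U5 G) (S : Set V) : U5 (G.induce S) := by
  intro a b c d e b' c' d' e' h1 h2
  rcases h _ _ _ _ _ _ _ _ _ (five_induce G S h1) (five_induce G S h2) with h3 | h3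
  · exact Or.inl ⟨Subtype.ext h3.1, Subtype.ext h3.2.1, Subtype.ext h3.2.2.1,
      Subtype.ext h3.2.2.2⟩
  · exact Or.inr ⟨Subtype.ext h3.1, Subtype.ext h3.2.1, Subtype.ext h3.2.2.1,
      Subtype.ext h3.2.2.2⟩

theorem main_of_targets (hirr : T_IRR) (hdeg : T_DEG) (hu5 : T_U5) (heul : T_EUL)
    (htmap : T_TMAP) (hdis : T_DIS) (h34 : T_T34) (hreg : T_REG) (h3 : T_F3) (h4 : T_F4) :
    MainStatement := by
  classical
  intro V _ G hT h5 κ H hH f hf2 hf4
  have : Fintype V := Fintype.ofFinite V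
  by_contra hno
  have hcov : Cov G H := ⟨hH.adj, hH.matching⟩
  have hnw : ¬ Win H Finset.univ f := fun hw => hno (hdeg V (Fin κ) H f hw)
  obtain ⟨A, hconn, hir⟩ := hirr V (Fin κ) G H hcov f hf2 hf4 hnw
  have hT' := isToroidal_induce G hT (A : Set V)
  have hu := u5_induce G (hu5 V G h5) (A : Set V)
  obtain ⟨σ, hrot, heu⟩ := heul (A : Set V) (G.induce (A : Set V)) hconn hT'
  obtain ⟨nx, k, hmap⟩ := htmap (A : Set V) (G.induce (A : Set V)) σ hir.deg4 hrot heu
  have hctx : Ctx (G.induce (A : Set V)) nx k := ⟨hmap, hu, hir⟩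
  have hall := hdis _ _ nx k hctx
  have hcyc := h34 _ _ nx k hctx hall
  obtain ⟨K, z, a, b, hgood⟩ := hreg _ _ hu hconn hall (by
    intro v
    obtain ⟨m, hm, hk⟩ := hcyc v
    have h3' := hmap.three v m hm
    have hk' : k v m = 3 ∨ k v m = 4 := by omega
    rcases hk' with hk' | hk'
    · obtain ⟨e1, e2, -⟩ := h3 _ _ nx k hmap hir.deg4 v m _ hm hk' rfl
      exact Or.inl ⟨m, nx m v, hm, e2.symm, e1⟩
    · obtain ⟨e1, e2, e3, e4, e5, -⟩ := h4 _ _ nx k hmap hir.deg4 v m _ _ hm hk' rfl rfl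
      exact Or.inr ⟨m, nx m v, nx (nx m v) m, hm, e1, e2, e3, e4, e5⟩)
  exact hir.good K z a b hgood

end Pool.Agent.TorDeg
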