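import Pool.Agent.TorDeg.Targets

set_option autoImplicit false

/-!
# Monotonicity of the game
-/

namespace Pool.Agent.TorDeg

theorem res_mono_of_le {V C : Type} (H : SimpleGraph (V × C)) (g g' : V × C → ℕ) (x y : V × C)
    (h : g y ≤ g' y) : res H g x y ≤ res H g' x y := by
  classical
  unfold res
  by_cases hxy : H.Adj x y
  · simp only [hxy, if_true]
    omega
  · simp only [hxy, if_false]
    exact h

theorem win_mono {V C : Type} [DecidableEq V] (H : SimpleGraph (V × C)) (A : Finset V)
    (g : V × C → ℕ) (hw : Win H A g) :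
    ∀ g' : V × C → ℕ, (∀ v ∈ A, ∀ i, g (v, i) ≤ g' (v, i)) → Win H A g' := by
  induction hw with
  | nil g => intro g' _; exact Win.nil g'
  | step A g v i hv hg _ ih =>
    intro g' hle
    refine Win.step A g' v i hv (lt_of_lt_of_le hg (hle v hv i)) (ih _ ?_)
    intro w hw j
    exact res_mono_of_le H g g' (v, i) (w, j) (hle w (Finset.mem_of_mem_erase hw) j)

theorem tMONO : T_MONO := by
  intro V C _ H A g g' hle hw
  exact win_mono H A g hw g' hle

end Pool.Agent.TorDeg
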