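import Pool.Agent.TorDeg.Targets

set_option autoImplicit false

/-!
# TOR-NX: the rotation at a vertex
-/

namespace Pool.Agent.TorDeg

namespace NX

variable {V : Type} [Fintype V]

theorem mem_nb (G : SimpleGraph V) (v u : V) : u ∈ nb G v ↔ G.Adj v u := by
  classical
  unfold nb
  simp

theorem card_nb (G : SimpleGraph V) (v : V) : (nb G v).card = deg G v := rfl

theorem iter_adj (G : SimpleGraph V) (nx : V → V → V) (k : V → V → ℕ) (h : TMap G nx k)
    (v m : V) (hm : G.Adj v m) (i : ℕ) : G.Adj v ((nx v)^[i] m) := by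
  induction i with
  | zero => exact hm
  | succ i ih =>
    rw [Function.iterate_succ_apply']
    exact h.adj v _ ih

theorem iter_inj (G : SimpleGraph V) (nx : V → V → V) (k : V → V → ℕ) (h : TMap G nx k)
    (v m : V) (hm : G.Adj v m) (i : ℕ) (hi : i < deg G v) (j : ℕ) (hj : j < deg G v)
    (hij : (nx v)^[i] m = (nx v)^[j] m) : i = j := by
  classical
  have h1 : Set.InjOn (fun i => (nx v)^[i] m) (Finset.range (deg G v) : Set ℕ) := by
    refine Finset.injOn_of_surjOn_of_card_le (t := nb G v) _ ?_ ?_ ?_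
    · intro i _
      exact (mem_nb G v _).mpr (iter_adj G nx k h v m hm i)
    · intro u hu
      obtain ⟨i, hi, hiu⟩ := h.trans v m u hm ((mem_nb G v u).mp hu)
      exact ⟨i, Finset.mem_coe.mpr (Finset.mem_range.mpr hi), hiu⟩
    · rw [Finset.card_range, card_nb]
  exact h1 (Finset.mem_coe.mpr (Finset.mem_range.mpr hi))
    (Finset.mem_coe.mpr (Finset.mem_range.mpr hj)) hij

theorem iter_cancel (G : SimpleGraph V) (nx : V → V → V) (k : V → V → ℕ) (h : TMap G nx k)
    (v : V) (j : ℕ) (a b : V) (ha : G.Adj v a) (hb : G.Adj v b)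
    (hab : (nx v)^[j] a = (nx v)^[j] b) : a = b := by
  induction j with
  | zero => exact hab
  | succ j ih =>
    rw [Function.iterate_succ_apply', Function.iterate_succ_apply'] at hab
    exact ih (h.inj v _ _ (iter_adj G nx k h v a ha j) (iter_adj G nx k h v b hb j) hab)

theorem iter_deg (G : SimpleGraph V) (nx : V → V → V) (k : V → V → ℕ) (h : TMap G nx k)
    (v m : V) (hm : G.Adj v m) : (nx v)^[deg G v] m = m := by
  obtain ⟨j, hj, hj'⟩ := h.trans v m _ hm (iter_adj G nx k h v m hm (deg G v))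
  have h1 : (nx v)^[j] ((nx v)^[deg G v - j] m) = (nx v)^[j] m := by
    rw [← Function.iterate_add_apply, Nat.add_sub_cancel' hj.le, hj']
  have h2 := iter_cancel G nx k h v j _ _ (iter_adj G nx k h v m hm _) hm h1
  rcases Nat.eq_zero_or_pos j with h0 | h0
  · rw [h0, Nat.sub_zero] at h2
    exact h2
  · have h3 := iter_inj G nx k h v m hm (deg G v - j) (by omega) 0 (by omega) h2
    omega

theorem nb_eq (G : SimpleGraph V) (nx : V → V → V) (k : V → V → ℕ) (h : TMap G nx k)
    (v m : V) (hm : G.Adj v m) (F : V → ℤ) :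
    ∑ x ∈ nb G v, F x = ∑ i ∈ Finset.range (deg G v), F ((nx v)^[i] m) := by
  classical
  symm
  refine Finset.sum_bij (fun i _ => (nx v)^[i] m) ?_ ?_ ?_ ?_
  · intro i _
    exact (mem_nb G v _).mpr (iter_adj G nx k h v m hm i)
  · intro i hi j hj hij
    exact iter_inj G nx k h v m hm i (Finset.mem_range.mp hi) j (Finset.mem_range.mp hj) hij
  · intro u hu
    obtain ⟨i, hi, hiu⟩ := h.trans v m u hm ((mem_nb G v u).mp hu)
    exact ⟨i, Finset.mem_range.mpr hi, hiu⟩
  · intro i _
    rfl

end NX

open NX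

theorem tNX : T_NX := by
  intro V _ G nx k h h4 v m hm
  have hd := h4 v
  refine ⟨fun e => ?_, fun e => ?_, fun e => ?_, ?_⟩
  · have := iter_inj G nx k h v m hm 1 (by omega) 0 (by omega) e
    omega
  · have := iter_inj G nx k h v m hm 2 (by omega) 0 (by omega) e
    omega
  · have := iter_inj G nx k h v m hm 3 (by omega) 0 (by omega) e
    omega
  · refine ⟨(nx v)^[deg G v - 1] m, iter_adj G nx k h v m hm _, ?_⟩
    rw [← Function.iterate_succ_apply' (nx v)]
    have e : (deg G v - 1).succ = deg G v := by omega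
    rw [e]
    exact iter_deg G nx k h v m hm

theorem tS4 : T_S4 := by
  intro V _ G nx k h v m hm hd
  refine ⟨?_, fun F => ?_⟩
  · have h1 := iter_deg G nx k h v m hm
    rw [hd] at h1
    exact h1
  · rw [nb_eq G nx k h v m hm F, hd]
    simp only [Finset.sum_range_succ, Finset.sum_range_zero, zero_add]
    rfl

theorem tS5 : T_S5 := by
  intro V _ G nx k h v m hm hd
  refine ⟨?_, fun F => ?_⟩
  · have h1 := iter_deg G nx k h v m hm
    rw [hd] at h1
    exact h1
  · rw [nb_eq G nx k h v m hm F, hd]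
    simp only [Finset.sum_range_succ, Finset.sum_range_zero, zero_add]
    rfl

theorem tAV : T_AV := by
  classical
  intro V _ G nx k h v F
  have hmaps : Set.MapsTo (nx v) (nb G v : Set V) (nb G v : Set V) := by
    intro u hu
    exact (mem_nb G v _).mpr (h.adj v u ((mem_nb G v u).mp hu))
  have hinj : Set.InjOn (nx v) (nb G v : Set V) := by
    intro a ha b hb hab
    exact h.inj v a b ((mem_nb G v a).mp ha) ((mem_nb G v b).mp hb) hab
  have hsurj : Set.SurjOn (nx v) (nb G v : Set V) (nb G v : Set V) :=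
    Finset.surjOn_of_injOn_of_card_le _ hmaps hinj le_rfl
  exact Finset.sum_nbij (nx v) hmaps hinj hsurj (fun _ _ => rfl)

end Pool.Agent.TorDeg
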