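import Pool.Agent.TorDeg.Targets

set_option autoImplicit false

/-!
# P4: vertices of degree 4 on a 5-face
-/

namespace Pool.Agent.TorDeg

namespace HP4

lemma wt_cases {a : ℕ} (h3 : 3 ≤ a) (h5 : a ≠ 5) :
    (a = 3 ∧ wt a = -10) ∨ (a = 4 ∧ wt a = 0) ∨ (6 ≤ a ∧ wt a = 10) := by
  unfold wt
  rcases Nat.lt_or_ge a 4 with h | h
  · left
    have : a = 3 := by omega
    subst this
    simp
  · rcases Nat.lt_or_ge a 5 with h' | h'
    · right; left
      have : a = 4 := by omega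
      subst this
      simp
    · right; right
      refine ⟨by omega, ?_⟩
      rw [if_neg (by omega), if_neg (by omega), if_neg h5]

end HP4

open HP4

theorem tP4 (hPLOC : T_PLOC) (hS4 : T_S4) (hNX : T_NX) : T_P4 := by
  intro V _ G nx k hM hU hd v m u hvm hu hk h4
  have hvu : G.Adj v u := by rw [hu]; exact hM.adj _ _ hvm
  obtain ⟨l1, l2, l3, l4⟩ := hPLOC V G nx k hM hU hd v u hvu hk
  obtain ⟨s1, s2⟩ := hS4 V G nx k hM v u hvu h4
  have hx := hM.adj _ _ hvu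
  have hy := hM.adj _ _ hx
  have hm : nx v (nx v (nx v u)) = m := by
    apply hM.inj v _ _ (hM.adj _ _ hy) hvm
    rw [s1, hu]
  have ex : k v (nx v u) = k u v := hM.face u v hvu.symm
  have hsnt : ∀ x, snt G nx k v x = 0 := by
    intro x
    unfold snt
    rw [if_neg]
    intro h
    omega
  have hrcv : ∀ x, G.Adj v x → x ≠ u → rcv G nx k v x = 0 := by
    intro x hx hxu
    unfold rcv
    rw [if_neg]
    intro h
    exact hxu (l1 x hx h.1)
  have n1 := (hNX V G nx k hM hd v u hvu).1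
  have n2 := (hNX V G nx k hM hd v u hvu).2.1
  have n3 := (hNX V G nx k hM hd v u hvu).2.2.1
  have hfc : fc G nx k v = 6 + rcv G nx k v u + wt (k v (nx v u)) + wt (k v (nx v (nx v u)))
      + wt (k v m) := by
    unfold fc
    rw [s2 (fun x => wt (k v x) - snt G nx k v x + rcv G nx k v x)]
    simp only [hsnt]
    rw [hrcv _ hx n1, hrcv _ hy n2, hrcv _ (hM.adj _ _ hy) n3, h4, hk, hm]
    have : wt 5 = 6 := by simp [wt]
    rw [this]
    push_cast
    ring
  have x3 := hM.three _ _ hx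
  have y3 := hM.three _ _ hy
  have m3 := hM.three _ _ hvm
  have x5 : k v (nx v u) ≠ 5 := fun h => n1 (l1 _ hx h)
  have y5 : k v (nx v (nx v u)) ≠ 5 := fun h => n2 (l1 _ hy h)
  have m5 : k v m ≠ 5 := by
    intro h
    rw [hm] at n3
    exact n3 (l1 _ hvm h)
  have t1 := l2 (nx v u) hx
  rw [hm] at t1
  have t2 := l3 (nx v u) hx
  have t3 := l3 (nx v (nx v u)) hy
  rw [hm] at t3
  have t4 := l4 (nx v u) hx
  have t5 := l4 (nx v (nx v u)) hy
  rw [hm] at t5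
  rw [hfc, ← ex]
  rcases wt_cases x3 x5 with ⟨p1, p2⟩ | ⟨p1, p2⟩ | ⟨p1, p2⟩ <;>
  rcases wt_cases y3 y5 with ⟨q1, q2⟩ | ⟨q1, q2⟩ | ⟨q1, q2⟩ <;>
  rcases wt_cases m3 m5 with ⟨r1, r2⟩ | ⟨r1, r2⟩ | ⟨r1, r2⟩ <;>
  rw [p2, q2, r2] <;> omega

end Pool.Agent.TorDeg
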