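import Pool.Agent.TorDeg.Targets

set_option autoImplicit false

/-!
# Vertices of degree at least 5 on a 5-face
-/

namespace Pool.Agent.TorDeg

open Classical in
/-- values of a corner -/
theorem P5_val {V : Type} [Fintype V] (G : SimpleGraph V) (nx : V → V → V) (k : V → V → ℕ)
    (v y : V) (h3 : 3 ≤ k v y) :
    (k v y = 3 ∧ wt (k v y) - snt G nx k v y = -10 - snt G nx k v y ∧
      (snt G nx k v y = 0 ∨ (snt G nx k v y = 5 ∧ k (nx y v) y = 5))) ∨
    (k v y = 4 ∧ wt (k v y) - snt G nx k v y = 0) ∨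
    (k v y = 5 ∧ wt (k v y) - snt G nx k v y = 6) ∨
    (6 ≤ k v y ∧ wt (k v y) - snt G nx k v y = 10) := by
  have hs : k v y ≠ 3 → snt G nx k v y = 0 := by
    intro h
    unfold snt
    rw [if_neg]
    rintro ⟨-, h', -⟩
    exact h h'
  by_cases h1 : k v y = 3
  · left
    refine ⟨h1, ?_, ?_⟩
    · rw [h1]
      norm_num [wt]
    · unfold snt
      split_ifs with h
      · right
        exact ⟨rfl, h.2.2⟩
      · left
        rfl
  · right
    rw [hs h1, sub_zero]
    by_cases h2 : k v y = 4
    · left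
      rw [h2]
      norm_num [wt]
    · right
      by_cases h3' : k v y = 5
      · left
        rw [h3']
        norm_num [wt]
      · right
        refine ⟨by omega, ?_⟩
        unfold wt
        rw [if_neg (by omega), if_neg h2, if_neg h3']

open Classical in
theorem P5_rcv {V : Type} [Fintype V] (G : SimpleGraph V) (nx : V → V → V) (k : V → V → ℕ)
    (v y : V) (h : k v y ≠ 5) : rcv G nx k v y = 0 := by
  unfold rcv
  rw [if_neg]
  rintro ⟨h', -⟩
  exact h h'

theorem P5_nb {V : Type} [Fintype V] (G : SimpleGraph V) (v x : V) : x ∈ nb G v ↔ G.Adj v x := by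
  unfold nb
  simp

theorem tP5 (hP : T_PLOC) (hS5 : T_S5) (hAV : T_AV) (hNS : T_NS2) (hN : T_NX) (h3 : T_F3)
    (h5 : T_F5) : T_P5 := by
  intro V _ G nx k hM hU hd v m u hvm hu ku hdeg
  have hvu : G.Adj v u := hu ▸ hM.adj v m hvm
  obtain ⟨pu, pT, pTQ, pQT⟩ := hP V G nx k hM hU hd v u hvu ku
  obtain ⟨n1, n2, n3, -⟩ := hN V G nx k hM hd v u hvu
  have hmu : m ≠ u := by
    intro h
    rw [h] at hu
    exact n1 hu.symm
  -- the next corner does not send
  have key1 : k v (nx v u) = 3 → k (nx (nx v u) v) (nx v u) ≠ 5 := by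
    intro hk hk5
    have hx : G.Adj v (nx v u) := hM.adj v u hvu
    obtain ⟨a1, a2, a3, a4, -, -⟩ := h3 V G nx k hM hd v (nx v u) _ hx hk rfl
    have e : nx (nx v u) v = u := hM.inj v _ _ a2.symm hvu a4
    rw [e] at hk5 a1 a3
    have h6 : k u (nx u v) = 5 := (hM.face v u hvu).trans ku
    obtain ⟨q, -⟩ := hP V G nx k hM hU hd u (nx u v) (hM.adj u v hvu.symm) h6
    have h7 : nx v u = nx u v := q _ a1.symm hk5
    apply (hN V G nx k hM hd u v hvu.symm).2.1
    rw [← h7]
    exact a3
  -- the previous corner does not send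
  have key2 : k v m = 3 → k (nx m v) m ≠ 5 := by
    intro hk hk5
    obtain ⟨a1, a2, a3, a4, -, -⟩ := h3 V G nx k hM hd v m _ hvm hk rfl
    obtain ⟨F, f1, f2, f3, f4, f5, f6⟩ := h5 V G nx k hM hd v u _ _ _ hvu ku rfl rfl rfl
    have e : nx (nx (nx u v) u) (nx u v) = m :=
      hM.inj v _ _ F.2.2.2.2.1.symm hvm (f2.trans hu)
    rw [e] at f6
    obtain ⟨q, -⟩ := hP V G nx k hM hU hd m v hvm.symm f6
    have h6 : k m (nx m (nx m v)) = 5 := (hM.face (nx m v) m a1.symm).trans hk5
    have h7 : nx m (nx m v) = v := q _ (hM.adj m _ a1) h6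
    exact (hN V G nx k hM hd m v hvm.symm).2.1 h7
  set s : V → ℤ := fun x => snt G nx k v x with hs
  set F : V → ℤ := fun x => wt (k v x) - snt G nx k v x with hF
  have hval : ∀ y, G.Adj v y →
      (k v y = 3 ∧ F y = -10 - s y ∧ (s y = 0 ∨ (s y = 5 ∧ k (nx y v) y = 5))) ∨
      (k v y = 4 ∧ F y = 0) ∨ (k v y = 5 ∧ F y = 6) ∨ (6 ≤ k v y ∧ F y = 10) :=
    fun y hy => P5_val G nx k v y (hM.three v y hy)
  have hfc : fc G nx k v = 30 * ((deg G v : ℤ) - 4) + ∑ x ∈ nb G v, F x + rcv G nx k v u := by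
    unfold fc
    rw [Finset.sum_add_distrib, Finset.sum_eq_single u (f := fun x => rcv G nx k v x)]
    · rw [add_assoc]
    · intro x hx hxu
      refine P5_rcv G nx k v x fun h => hxu (pu x ((P5_nb G v x).mp hx) h)
    · intro h
      exact absurd ((P5_nb G v u).mpr hvu) h
  -- facts for two consecutive corners
  have two : ∀ p, G.Adj v p → ∀ q, q = nx v p → k v p = 3 → k v q = 3 → -25 ≤ F p + F q := by
    intro p hp q hq h1 h2
    have hqq : G.Adj v q := hq ▸ hM.adj v p hp
    have hns := hNS V G nx k hM hU hd v p q hp hq h1 h2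
    rcases hval p hp with ⟨-, b1, c1⟩ | ⟨b1, -⟩ | ⟨b1, -⟩ | ⟨b1, -⟩
    · rcases hval q hqq with ⟨-, b2, c2⟩ | ⟨b2, -⟩ | ⟨b2, -⟩ | ⟨b2, -⟩
      · rcases c1 with c1 | ⟨c1, d1⟩
        · rcases c2 with c2 | ⟨c2, -⟩ <;> rw [b1, b2, c1, c2] <;> norm_num
        · rcases c2 with c2 | ⟨c2, d2⟩
          · rw [b1, b2, c1, c2]; norm_num
          · exact absurd ⟨d1, d2⟩ hns
      all_goals omega
    all_goals omega
  have lo : ∀ y, G.Adj v y → -15 ≤ F y := by
    intro y hy
    rcases hval y hy with ⟨-, b, c | ⟨c, -⟩⟩ | ⟨-, b⟩ | ⟨-, b⟩ | ⟨-, b⟩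
    · rw [b, c]; norm_num
    · rw [b, c]; norm_num
    · rw [b]; norm_num
    · rw [b]; norm_num
    · rw [b]; norm_num
  have lo' : ∀ y, G.Adj v y → (k v y = 3 → k (nx y v) y ≠ 5) → -10 ≤ F y := by
    intro y hy hn
    rcases hval y hy with ⟨a, b, c | ⟨-, c⟩⟩ | ⟨-, b⟩ | ⟨-, b⟩ | ⟨-, b⟩
    · rw [b, c]; norm_num
    · exact absurd c (hn a)
    · rw [b]; norm_num
    · rw [b]; norm_num
    · rw [b]; norm_num
  have no3 : ∀ y, G.Adj v y → k v y ≠ 3 → 0 ≤ F y := by
    intro y hy hn
    rcases hval y hy with ⟨a, -⟩ | ⟨-, b⟩ | ⟨-, b⟩ | ⟨-, b⟩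
    · exact absurd a hn
    · rw [b]
    · rw [b]; norm_num
    · rw [b]; norm_num
  have big : ∀ y, G.Adj v y → k v y ≠ 3 → k v y ≠ 4 → (y = u ∧ F y = 6) ∨ F y = 10 := by
    intro y hy hn hn'
    rcases hval y hy with ⟨a, -⟩ | ⟨a, -⟩ | ⟨a, b⟩ | ⟨-, b⟩
    · exact absurd a hn
    · exact absurd a hn'
    · exact Or.inl ⟨pu y hy a, b⟩
    · exact Or.inr b
  have hx1 : G.Adj v (nx v u) := hM.adj v u hvu
  have hx2 : G.Adj v (nx v (nx v u)) := hM.adj v _ hx1
  have hx3 : G.Adj v (nx v (nx v (nx v u))) := hM.adj v _ hx2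
  have hkuv : k v (nx v u) = k u v := hM.face u v hvu.symm
  have Fx1 : -10 ≤ F (nx v u) := lo' _ hx1 key1
  have Fm : -10 ≤ F m := lo' _ hvm key2
  by_cases h6 : deg G v = 5
  · obtain ⟨s1, s2⟩ := hS5 V G nx k hM v u hvu h6
    have hx4 : nx v (nx v (nx v (nx v u))) = m := hM.inj v _ _ (hM.adj v _ hx3) hvm (s1.trans hu)
    rw [hfc, s2 F, hx4, h6]
    have Fu : F u = 6 := by
      rcases hval u hvu with ⟨a, -⟩ | ⟨a, -⟩ | ⟨-, a⟩ | ⟨a, -⟩
      · omega
      · omega
      · exact a
      · omega
    rw [Fu]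
    set x1 := nx v u with hx1e
    set x2 := nx v x1 with hx2e
    set x3 := nx v x2 with hx3e
    have t1 : ¬ (k v x1 = 3 ∧ k v x2 = 3 ∧ k v x3 = 3) := pT x1 hx1
    have t2 : ¬ (k v x2 = 3 ∧ k v x3 = 3 ∧ k v m = 3) := by
      have := pT x2 hx2
      rwa [← hx3e, hx4] at this
    have q1 : ¬ (k v x1 = 4 ∧ k v x2 = 3) := pQT x1 hx1
    have q2 : ¬ (k v x2 = 3 ∧ k v x3 = 4) := pTQ x2 hx2
    have q3 : ¬ (k v x2 = 4 ∧ k v x3 = 3) := pQT x2 hx2
    have q4 : ¬ (k v x3 = 3 ∧ k v m = 4) := by
      have := pTQ x3 hx3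
      rwa [hx4] at this
    have B1 : k v x1 ≠ 3 → k v x1 ≠ 4 → F x1 = 10 := fun a b =>
      (big x1 hx1 a b).elim (fun h => absurd h.1 n1) id
    have B2 : k v x2 ≠ 3 → k v x2 ≠ 4 → F x2 = 10 := fun a b =>
      (big x2 hx2 a b).elim (fun h => absurd h.1 n2) id
    have B3 : k v x3 ≠ 3 → k v x3 ≠ 4 → F x3 = 10 := fun a b =>
      (big x3 hx3 a b).elim (fun h => absurd h.1 n3) id
    have B4 : k v m ≠ 3 → k v m ≠ 4 → F m = 10 := fun a b =>
      (big m hvm a b).elim (fun h => absurd h.1 hmu) id
    have l2 := lo x2 hx2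
    have l3 := lo x3 hx3
    push_cast
    by_cases T2 : k v x2 = 3
    · by_cases T3 : k v x3 = 3
      · have e1 := B1 (fun h => t1 ⟨h, T2, T3⟩) (fun h => q1 ⟨h, T2⟩)
        have e4 := B4 (fun h => t2 ⟨T2, T3, h⟩) (fun h => q4 ⟨T3, h⟩)
        have e23 := two x2 hx2 x3 hx3e T2 T3
        constructor
        · linarith
        · intro _
          linarith
      · have e3 := B3 T3 (fun h => q2 ⟨T2, h⟩)
        constructor
        · linarith
        · intro h
          rcases h with h | h | h
          · have := no3 x1 hx1 (by rw [hkuv]; exact h)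
            linarith
          · have := no3 m hvm h
            linarith
          · norm_num at h
    · have z2 := no3 x2 hx2 T2
      by_cases T3 : k v x3 = 3
      · have e2 := B2 T2 (fun h => q3 ⟨h, T3⟩)
        constructor
        · linarith
        · intro h
          rcases h with h | h | h
          · have := no3 x1 hx1 (by rw [hkuv]; exact h)
            linarith
          · have := no3 m hvm h
            linarith
          · norm_num at h
      · have z3 := no3 x3 hx3 T3
        constructor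
        · linarith
        · intro h
          rcases h with h | h | h
          · have := no3 x1 hx1 (by rw [hkuv]; exact h)
            linarith
          · have := no3 m hvm h
            linarith
          · norm_num at h
  · -- degree at least 6
    have tri : ∀ p, G.Adj v p → -20 ≤ F p + F (nx v p) + F (nx v (nx v p)) := by
      intro p hp
      have hq : G.Adj v (nx v p) := hM.adj v p hp
      have hr : G.Adj v (nx v (nx v p)) := hM.adj v _ hq
      have c1 := pT p hp
      have c2 := pTQ p hp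
      have c3 := pQT p hp
      have c4 := pTQ (nx v p) hq
      have c5 := pQT (nx v p) hq
      have tw1 := two p hp (nx v p) rfl
      have tw2 := two (nx v p) hq (nx v (nx v p)) rfl
      have isx1 : ∀ a, a = u → nx v a = nx v u := fun a h => by rw [h]
      have ism : ∀ a, G.Adj v a → nx v a = u → a = m := fun a ha h =>
        hM.inj v a m ha hvm (h.trans hu)
      set q := nx v p with hqe
      set r := nx v q with hre
      have lp := lo p hp
      have lq := lo q hq
      have lr := lo r hr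
      by_cases Tp : k v p = 3
      · by_cases Tq : k v q = 3
        · have Tr : k v r ≠ 3 := fun h => c1 ⟨Tp, Tq, h⟩
          have e := tw1 Tp Tq
          rcases big r hr Tr (fun h => c4 ⟨Tq, h⟩) with ⟨h1, h2⟩ | h2
          · have h3 : q = m := ism q hq h1
            rw [h3] at *
            linarith
          · linarith
        · by_cases Tr : k v r = 3
          · rcases big q hq Tq (fun h => c2 ⟨Tp, h⟩) with ⟨h1, h2⟩ | h2
            · have h3 : p = m := ism p hp h1
              have h4 : r = nx v u := isx1 q h1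
              rw [h3, h4, h2]
              linarith
            · linarith
          · have z1 := no3 q hq Tq
            have z2 := no3 r hr Tr
            linarith
      · have z0 := no3 p hp Tp
        by_cases Tq : k v q = 3
        · by_cases Tr : k v r = 3
          · have e := tw2 Tq Tr
            rcases big p hp Tp (fun h => c3 ⟨h, Tq⟩) with ⟨h1, h2⟩ | h2
            · have h3 : q = nx v u := isx1 p h1
              rw [h3] at *
              linarith
            · linarith
          · have z2 := no3 r hr Tr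
            linarith
        · have z1 := no3 q hq Tq
          linarith
    have hsum := Finset.sum_le_sum fun p (hp : p ∈ nb G v) => tri p ((P5_nb G v p).mp hp)
    rw [Finset.sum_const, Finset.sum_add_distrib, Finset.sum_add_distrib,
      hAV V G nx k hM v (fun x => F (nx v x)), hAV V G nx k hM v F] at hsum
    have hcard : (nb G v).card = deg G v := rfl
    rw [hcard, nsmul_eq_mul] at hsum
    have hd6 : (6 : ℤ) ≤ deg G v := by
      have : 6 ≤ deg G v := by omega
      exact_mod_cast this
    rw [hfc]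
    constructor
    · linarith
    · intro _
      linarith

end Pool.Agent.TorDeg
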