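import Pool.Agent.TorDeg.Targets

set_option autoImplicit false

/-!
# TOR-PLOC
-/

namespace Pool.Agent.TorDeg

theorem tPLOC (hNX : T_NX) (hF3 : T_F3) (_hF4 : T_F4) (hF5 : T_F5) (hTTT : T_TTT) (hTQ : T_TQ)
    (hQT : T_QT) : T_PLOC := by
  intro V _ G nx k hM hU hd v u hvu hk
  obtain ⟨five, -, hmu, -, -, -, -⟩ := hF5 V G nx k hM hd v u (nx u v) (nx (nx u v) u)
    (nx (nx (nx u v) u) (nx u v)) hvu hk rfl rfl rfl
  generalize hy : nx u v = y at *
  generalize hz : nx y u = z at *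
  generalize hm : nx z y = m at *
  have hvm : G.Adj v m := five.2.2.2.2.1.symm
  have NX := hNX V G nx k hM hd
  refine ⟨?_, ?_, ?_, ?_⟩
  · intro x hx hkx
    obtain ⟨five', -, hmx, -, -, -, -⟩ := hF5 V G nx k hM hd v x (nx x v) (nx (nx x v) x)
      (nx (nx (nx x v) x) (nx x v)) hx hkx rfl rfl rfl
    rcases hU _ _ _ _ _ _ _ _ _ five five' with ⟨h1, -, -, -⟩ | ⟨h1, -, -, h4⟩
    · exact h1.symm
    · exfalso
      rw [← h1] at hmx
      have := (NX v m hvm).2.1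
      rw [hmu, hmx] at this
      exact this h4.symm
  · rintro x hx ⟨h1, h2, h3⟩
    obtain ⟨-, n2, -, p, hp, hpx⟩ := NX v x hx
    have five' := hTTT V G nx k hM hd v p x (nx v x) (nx v (nx v x)) hp hpx.symm rfl rfl h1 h2 h3
    rcases hU _ _ _ _ _ _ _ _ _ five five' with ⟨e1, e2, -, -⟩ | ⟨e1, -, -, e4⟩
    · obtain ⟨-, -, f3, f4, -, -⟩ := hF3 V G nx k hM hd v x (nx x v) hx h1 rfl
      have hap : G.Adj v (nx x v) := by
        have := (hM.adj x v hx.symm)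
        have h5 := hF3 V G nx k hM hd v x (nx x v) hx h1 rfl
        exact h5.2.1.symm
      have e5 : nx x v = p := hM.inj v _ _ hap hp (by rw [f4, hpx])
      rw [e5, ← e1, ← e2] at f3
      rw [← hy] at f3
      exact (NX u v hvu.symm).2.1 f3
    · rw [← e4, hmu, e1] at hpx
      exact n2 hpx
  · rintro x hx ⟨h1, h2⟩
    obtain ⟨n1, -, -, p, hp, hpx⟩ := NX v x hx
    have five' := hTQ V G nx k hM hd v p x (nx v x) hp hpx.symm rfl h1 h2
    rcases hU _ _ _ _ _ _ _ _ _ five five' with ⟨e1, -, -, e4⟩ | ⟨e1, -, -, e4⟩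
    · apply (NX v p hp).2.2.1
      rw [hpx, ← e4, hmu, e1]
    · rw [← e4, hmu, e1] at hpx
      exact n1 hpx
  · rintro x hx ⟨h1, h2⟩
    obtain ⟨n1, -, -, p, hp, hpx⟩ := NX v x hx
    have five' := hQT V G nx k hM hd v p x (nx v x) hp hpx.symm rfl h1 h2
    rcases hU _ _ _ _ _ _ _ _ _ five five' with ⟨e1, -, -, e4⟩ | ⟨e1, -, -, e4⟩
    · apply (NX v p hp).2.2.1
      rw [hpx, ← e4, hmu, e1]
    · rw [← e4, hmu, e1] at hpx
      exact n1 hpx

end Pool.Agent.TorDeg
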