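import Pool.Agent.TorDeg.Targets

set_option autoImplicit false

/-!
# PNM: the triangle on a side of a 5-face has no two adjacent triangles
-/

namespace Pool.Agent.TorDeg

theorem tPNM (hN : T_NX) (h3 : T_F3) (h5 : T_F5) (hT : T_TTT) : T_PNM := by
  intro V _ G nx k M hU hd v u w hvu k5 k3 hw ⟨g1, g2⟩
  obtain ⟨a1, a2, a3, a4, a5, a6⟩ := h3 V G nx k M hd u v w hvu.symm k3 hw
  obtain ⟨f1, -, f3, -, -, -, -⟩ := h5 V G nx k M hd v u _ _ _ hvu k5 rfl rfl rfl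
  -- three consecutive triangles at `w`
  have c1 : k w v = 3 := by rw [← M.face w v a1.symm]; exact g1
  have c2 : k w (nx w u) = 3 := by rw [M.face u w a2.symm]; exact g2
  obtain ⟨-, -, -, p, hp, hpv⟩ := hN V G nx k M hd w v a1.symm
  have hf := hT V G nx k M hd w p v u (nx w u) hp hpv.symm a3.symm rfl c1 a6 c2
  obtain ⟨e1, e2, e3, e4, e5, n1, n2, n3, n4, n5⟩ := hf
  have hf' : Five G v u (nx w u) w p := ⟨e3, e4, e5, e1, e2, n5, n1.symm, n2.symm, n3.symm, n4.symm⟩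
  -- the triangle of `(w, v)`
  obtain ⟨b1, b2, b3, b4, b5, b6⟩ := h3 V G nx k M hd w v _ a1.symm c1 rfl
  have hvp : nx v w = p := M.inj w _ _ b2.symm hp (b4.trans hpv.symm)
  rcases hU _ _ _ _ _ _ _ _ _ hf' f1 with ⟨-, -, -, h⟩ | ⟨h, -, -, -⟩
  · rw [← h, ← hvp, hw] at f3
    exact (hN V G nx k M hd v u hvu).2.2.1 f3
  · rw [← h] at f3
    exact (hN V G nx k M hd v u hvu).1 f3

end Pool.Agent.TorDeg
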