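import Pool.Agent.TorDeg.Targets

set_option autoImplicit false

/-!
# QCALM: a triangle next to a 4-face, three of the vertices are calm
-/

namespace Pool.Agent.TorDeg

namespace QcalmAux

variable {V : Type}

theorem five_rot {G : SimpleGraph V} {a b c d e : V} (h : Five G a b c d e) :
    Five G b c d e a := by
  obtain ⟨h1, h2, h3, h4, h5, n1, n2, n3, n4, n5⟩ := h
  exact ⟨h2, h3, h4, h5, h1, n3, n4, n5, n1.symm, n2.symm⟩

theorem nbs {G : SimpleGraph V} (hU : U5 G) {v x q r y : V} (h : Five G v x q r y) :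
    ∀ p q' r' s, Five G v p q' r' s → (p = x ∧ s = y) ∨ (p = y ∧ s = x) := by
  intro p q' r' s h'
  rcases hU _ _ _ _ _ _ _ _ _ h h' with ⟨h1, _, _, h4⟩ | ⟨h1, _, _, h4⟩
  · exact Or.inl ⟨h1.symm, h4.symm⟩
  · exact Or.inr ⟨h4.symm, h1.symm⟩

variable [Fintype V]

/-- the vertices of the 4-face -/
theorem calmC (hN : T_NX) (h5 : T_F5) (hT : T_TTT) (hTQ : T_TQ) (hQT : T_QT)
    {G : SimpleGraph V} {nx : V → V → V} {k : V → V → ℕ} (M : TMap G nx k)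
    (hd : ∀ v, 4 ≤ deg G v) {v x y : V} (hx : G.Adj v x) (hxy : nx v x = y)
    (kx : k v x = 4 ∨ 6 ≤ k v x) (ky : k v y = 4) (kz : k v (nx v y) = 4 ∨ 6 ≤ k v (nx v y))
    (hF : ∀ p q r s, Five G v p q r s → (p = x ∧ s = y) ∨ (p = y ∧ s = x)) :
    Calm G nx k v := by
  have hvy : G.Adj v y := by rw [← hxy]; exact M.adj v x hx
  refine ⟨fun m hm hk => ?_, fun m hm ⟨k1, k2, k3⟩ => ?_, fun m hm ⟨k1, k2⟩ => ?_,
    fun m hm ⟨k1, k2⟩ => ?_⟩
  · obtain ⟨hf, _, h2, _⟩ := h5 V G nx k M hd v m _ _ _ hm hk rfl rfl rfl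
    rcases hF _ _ _ _ hf with ⟨e1, e2⟩ | ⟨e1, e2⟩
    · rw [e1] at hk; omega
    · rw [e1] at hk; omega
  · obtain ⟨_, _, _, p, hp, hpm⟩ := hN V G nx k M hd v m hm
    have hf := hT V G nx k M hd v p m (nx v m) (nx v (nx v m)) hp hpm.symm rfl rfl k1 k2 k3
    rcases hF _ _ _ _ hf with ⟨e1, e2⟩ | ⟨e1, e2⟩
    · rw [e1, hxy] at hpm
      rw [← hpm] at k1
      omega
    · rw [e1] at hpm
      rw [← hpm] at k1
      omega
  · obtain ⟨_, _, _, p, hp, hpm⟩ := hN V G nx k M hd v m hm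
    have hf := hTQ V G nx k M hd v p m (nx v m) hp hpm.symm rfl k1 k2
    rcases hF _ _ _ _ hf with ⟨e1, e2⟩ | ⟨e1, e2⟩
    · rw [e1, hxy] at hpm
      rw [← hpm] at k1
      omega
    · rw [e1] at hpm
      rw [← hpm] at k1
      omega
  · obtain ⟨n1, _, _, p, hp, hpm⟩ := hN V G nx k M hd v m hm
    have hf := hQT V G nx k M hd v p m (nx v m) hp hpm.symm rfl k1 k2
    rcases hF _ _ _ _ hf with ⟨e1, e2⟩ | ⟨e1, e2⟩
    · rw [e1, hxy] at hpm
      rw [← hpm] at e2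
      exact (hN V G nx k M hd v y hvy).1 e2
    · rw [e2] at k2
      omega

/-- the third vertex of the triangle -/
theorem calmD (hN : T_NX) (h5 : T_F5) (hT : T_TTT) (hTQ : T_TQ) (hQT : T_QT)
    {G : SimpleGraph V} {nx : V → V → V} {k : V → V → ℕ} (M : TMap G nx k)
    (hd : ∀ v, 4 ≤ deg G v) {v x y : V} (hx : G.Adj v x) (hxy : nx v x = y)
    (kx : k v x = 3 ∨ 6 ≤ k v x) (ky : k v y = 3) (kz : k v (nx v y) = 3 ∨ 6 ≤ k v (nx v y))
    (hF : ∀ p q r s, Five G v p q r s → (p = x ∧ s = y) ∨ (p = y ∧ s = x)) :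
    Calm G nx k v := by
  have hvy : G.Adj v y := by rw [← hxy]; exact M.adj v x hx
  refine ⟨fun m hm hk => ?_, fun m hm ⟨k1, k2, k3⟩ => ?_, fun m hm ⟨k1, k2⟩ => ?_,
    fun m hm ⟨k1, k2⟩ => ?_⟩
  · obtain ⟨hf, _, h2, _⟩ := h5 V G nx k M hd v m _ _ _ hm hk rfl rfl rfl
    rcases hF _ _ _ _ hf with ⟨e1, e2⟩ | ⟨e1, e2⟩
    · rw [e1] at hk; omega
    · rw [e1] at hk; omega
  · obtain ⟨_, _, _, p, hp, hpm⟩ := hN V G nx k M hd v m hm
    have hf := hT V G nx k M hd v p m (nx v m) (nx v (nx v m)) hp hpm.symm rfl rfl k1 k2 k3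
    rcases hF _ _ _ _ hf with ⟨e1, e2⟩ | ⟨e1, e2⟩
    · rw [e1, hxy] at hpm
      rw [← hpm] at e2
      exact (hN V G nx k M hd v y hvy).2.1 e2
    · have hm' : G.Adj v (nx v m) := M.adj v m hm
      have k4 : k v (nx v (nx v (nx v m))) = 3 := by rw [e2, hxy]; exact ky
      have hf2 := hT V G nx k M hd v m (nx v m) (nx v (nx v m)) (nx v (nx v (nx v m))) hm rfl rfl
        rfl k2 k3 k4
      rw [e2, hxy] at hf2
      rcases hF _ _ _ _ hf2 with ⟨e3, _⟩ | ⟨e3, e4⟩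
      · rw [e3] at e2
        exact (hN V G nx k M hd v x hx).2.1 e2
      · rw [e3] at hpm
        rw [e1] at hpm
        exact (hN V G nx k M hd v y hvy).1 hpm
  · obtain ⟨_, _, _, p, hp, hpm⟩ := hN V G nx k M hd v m hm
    have hf := hTQ V G nx k M hd v p m (nx v m) hp hpm.symm rfl k1 k2
    rcases hF _ _ _ _ hf with ⟨e1, e2⟩ | ⟨e1, e2⟩
    · rw [e2] at k2; omega
    · rw [e2] at k2; omega
  · obtain ⟨_, _, _, p, hp, hpm⟩ := hN V G nx k M hd v m hm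
    have hf := hQT V G nx k M hd v p m (nx v m) hp hpm.symm rfl k1 k2
    rcases hF _ _ _ _ hf with ⟨e1, e2⟩ | ⟨e1, e2⟩
    · rw [e1, hxy] at hpm
      rw [← hpm] at k1
      omega
    · rw [e1] at hpm
      rw [← hpm] at k1
      omega

end QcalmAux

open QcalmAux in
theorem tQCALM (hQO : T_QOUT) (hN : T_NX) (h3 : T_F3) (h4 : T_F4) (h5 : T_F5) (hT : T_TTT)
    (hTQ : T_TQ) (hQT : T_QT) : T_QCALM := by
  intro V _ G nx k M hU hd p t q s r hpt hq hs hr k3 k4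
  obtain ⟨hf, _, o1, o2, o3, o4, o5⟩ := hQO V G nx k M hU hd p t q s r hpt hq hs hr k3 k4
  have hpq : G.Adj p q := by rw [hq]; exact M.adj _ _ hpt
  have hps : G.Adj p s := by rw [hs]; exact M.adj _ _ hpq
  -- the triangle
  obtain ⟨a1, a2, a3, a4, a5, a6⟩ := h3 V G nx k M hd p q (nx q p) hpq k3 rfl
  have et : nx q p = t := by
    apply M.inj p _ _ a2.symm hpt
    rw [a4, hq]
  rw [et] at a1 a2 a3 a4 a5 a6
  -- the 4-face
  obtain ⟨b1, b2, b3, b4, b5, b6, b7, b8, b9, b10⟩ := h4 V G nx k M hd p s r (nx r s) hps k4 hr rfl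
  have eq : nx r s = q := by
    apply M.inj p _ _ b3.symm hpq
    rw [b7, hs]
  rw [eq] at b2 b3 b5 b6 b7 b9 b10
  have f1 := five_rot hf
  have f2 := five_rot f1
  have f3 := five_rot f2
  have f4 := five_rot f3
  refine ⟨?_, ?_, ?_⟩
  · -- at `t`
    refine calmD hN h5 hT hTQ hQT M hd (v := t) (x := q) (y := p) f1.1 a3 o2 a6 ?_ (nbs hU f1)
    rw [M.face p t hpt]
    exact o1
  · -- at `r`
    refine calmC hN h5 hT hTQ hQT M hd (v := r) (x := s) (y := q) f3.1 eq o4 b9 ?_ (nbs hU f3)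
    rw [M.face q r f2.1]
    exact o3
  · -- at `s`
    refine calmC hN h5 hT hTQ hQT M hd (v := s) (x := p) (y := r) f4.1 hr.symm o5 b8 ?_
      (nbs hU f4)
    rw [M.face r s f3.1]
    exact o4

end Pool.Agent.TorDeg
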