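import Pool.Agent.TorDeg.Targets

set_option autoImplicit false

/-!
# QQ: the second common vertex of a triangle and an adjacent 4-face
-/

namespace Pool.Agent.TorDeg

namespace QQAux

theorem five_rot {V : Type} {G : SimpleGraph V} {a b c d e : V} (h : Five G a b c d e) :
    Five G b c d e a := by
  obtain ⟨h1, h2, h3, h4, h5, n1, n2, n3, n4, n5⟩ := h
  exact ⟨h2, h3, h4, h5, h1, n3, n4, n5, n1.symm, n2.symm⟩

theorem wt3 {n : ℕ} (h : n = 3) : wt n = -10 := by subst h; rfl
theorem wt4 {n : ℕ} (h : n = 4) : wt n = 0 := by subst h; rfl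
theorem wt6 {n : ℕ} (h : 6 ≤ n) : wt n = 10 := by
  unfold wt
  rw [if_neg (by omega), if_neg (by omega), if_neg (by omega)]

variable {V : Type} [Fintype V] {G : SimpleGraph V} {nx : V → V → V} {k : V → V → ℕ}

theorem snt_nonneg (v m : V) : 0 ≤ snt G nx k v m := by
  unfold snt; split_ifs <;> norm_num

theorem snt_le (v m : V) : snt G nx k v m ≤ 5 := by
  unfold snt; split_ifs <;> norm_num

theorem snt_zero {v m : V} (h : k v m ≠ 3) : snt G nx k v m = 0 := by
  unfold snt; rw [if_neg]; tauto

theorem snt_zero' {v m : V} (h : deg G v < 5) : snt G nx k v m = 0 := by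
  unfold snt; rw [if_neg]; omega

theorem snt_two (hS : T_NS2) (M : TMap G nx k) (hU : U5 G) (hd : ∀ v, 4 ≤ deg G v) {v m : V}
    (hm : G.Adj v m) (h1 : k v m = 3) (h2 : k v (nx v m) = 3) :
    snt G nx k v m + snt G nx k v (nx v m) ≤ 5 := by
  have h := hS V G nx k M hU hd v m (nx v m) hm rfl h1 h2
  unfold snt
  split_ifs with h3 h4
  · exact absurd ⟨h3.2.2, h4.2.2⟩ h
  · norm_num
  · norm_num
  · norm_num

theorem rcv_zero {v m : V} (h : k v m ≠ 5) : rcv G nx k v m = 0 := by
  unfold rcv; rw [if_neg]; tauto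

/-- the value of a corner -/
noncomputable def vl (G : SimpleGraph V) (nx : V → V → V) (k : V → V → ℕ) (v x : V) : ℤ :=
  wt (k v x) - snt G nx k v x

theorem card_nb (v : V) : ((nb G v).card : ℤ) = (deg G v : ℤ) := rfl

theorem mem_nb {v x : V} : x ∈ nb G v ↔ G.Adj v x := by
  simp [nb]

/-- The count: `r`, `p`, `t` consecutive at `q`, the corners of `p` and `t` are a 4-face and a
triangle. -/
theorem count (h4 : T_S4) (h5 : T_S5) (hA : T_AV) (hS : T_NS2) (M : TMap G nx k) (hU : U5 G)
    (hd : ∀ v, 4 ≤ deg G v) {q r p t : V} (hr : G.Adj q r) (hrp : nx q r = p) (hpt : nx q p = t)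
    (kp : k q p = 4) (kt : k q t = 3) (kr : k q r = 4 ∨ 6 ≤ k q r)
    (km : k q (nx q t) = 3 ∨ 6 ≤ k q (nx q t)) (n5 : ∀ x, G.Adj q x → k q x ≠ 5)
    (nTTT : ∀ x, G.Adj q x → ¬ (k q x = 3 ∧ k q (nx q x) = 3 ∧ k q (nx q (nx q x)) = 3))
    (nTQ : ∀ x, G.Adj q x → ¬ (k q x = 3 ∧ k q (nx q x) = 4))
    (nQT : ∀ x, G.Adj q x → k q x = 4 → k q (nx q x) = 3 → x = p) :
    (deg G q = 4 → -10 ≤ fc G nx k q ∧ (k q (nx q t) ≠ 3 → 0 ≤ fc G nx k q) ∧
      (k q (nx q t) = 3 → 6 ≤ k q r)) ∧ (5 ≤ deg G q → 10 ≤ fc G nx k q) := by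
  classical
  have hp : G.Adj q p := by rw [← hrp]; exact M.adj q r hr
  have ht : G.Adj q t := by rw [← hpt]; exact M.adj q p hp
  have hm : G.Adj q (nx q t) := M.adj q t ht
  have hx : G.Adj q (nx q (nx q t)) := M.adj q _ hm
  have hfc : fc G nx k q = 30 * ((deg G q : ℤ) - 4) + ∑ x ∈ nb G q, vl G nx k q x := by
    unfold fc vl
    congr 1
    refine Finset.sum_congr rfl fun x hx => ?_
    rw [rcv_zero (n5 x (mem_nb.1 hx)), add_zero]
  have tri : ∀ x, G.Adj q x → k q x = 3 ∨ k q x = 4 ∨ 6 ≤ k q x := by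
    intro x hx
    have h1 := M.three q x hx
    have h2 := n5 x hx
    omega
  have v3 : ∀ x, k q x = 3 → vl G nx k q x = -10 - snt G nx k q x := fun x h => by
    unfold vl; rw [wt3 h]
  have v4 : ∀ x, k q x = 4 → vl G nx k q x = 0 := fun x h => by
    unfold vl; rw [wt4 h, snt_zero (by omega)]; rfl
  have v6 : ∀ x, 6 ≤ k q x → vl G nx k q x = 10 := fun x h => by
    unfold vl; rw [wt6 h, snt_zero (by omega)]; rfl
  have s0 : ∀ x, 0 ≤ snt G nx k q x := fun x => snt_nonneg q x
  have s5 : ∀ x, snt G nx k q x ≤ 5 := fun x => snt_le q x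
  refine ⟨fun hdeg => ?_, fun hdeg => ?_⟩
  · obtain ⟨hc, hsum⟩ := h4 V G nx k M q r hr hdeg
    have hs := hsum (vl G nx k q)
    rw [hrp, hpt] at hc hs
    rw [hs] at hfc
    have hdeg' : (deg G q : ℤ) = 4 := by exact_mod_cast hdeg
    rw [hdeg'] at hfc
    have z : ∀ x, snt G nx k q x = 0 := fun x => snt_zero' (by omega)
    have e1 := v4 p kp
    have e2 := v3 t kt
    have z2 := z t
    have key : k q (nx q t) = 3 → 6 ≤ k q r := by
      intro h
      rcases kr with h' | h'
      · exact absurd ⟨h, by rw [hc]; exact h'⟩ (nTQ _ hm)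
      · exact h'
    refine ⟨?_, ?_, key⟩
    · rcases km with h | h
      · have e3 := v3 _ h
        have z3 := z (nx q t)
        have e4 := v6 r (key h)
        linarith
      · have e3 := v6 _ h
        rcases kr with h' | h'
        · have e4 := v4 r h'
          linarith
        · have e4 := v6 r h'
          linarith
    · intro h
      rcases km with h1 | h1
      · exact absurd h1 h
      · have e3 := v6 _ h1
        rcases kr with h' | h'
        · have e4 := v4 r h'
          linarith
        · have e4 := v6 r h'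
          linarith
  · rcases Nat.lt_or_ge 5 (deg G q) with hdeg6 | hdeg5
    · -- degree at least 6
      have a1 := hA V G nx k M q (vl G nx k q)
      have a2 := hA V G nx k M q (fun x => vl G nx k q (nx q x))
      have hT : ∀ x ∈ nb G q, (-20 : ℤ) - (if x = p then 5 else 0) ≤
          vl G nx k q x + vl G nx k q (nx q x) + vl G nx k q (nx q (nx q x)) := by
        intro x hx
        rw [mem_nb] at hx
        have hx1 := M.adj q x hx
        have hx2 := M.adj q _ hx1
        have t1 := s0 x
        have t2 := s0 (nx q x)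
        have t3 := s0 (nx q (nx q x))
        have u1 := s5 x
        have u2 := s5 (nx q x)
        have u3 := s5 (nx q (nx q x))
        by_cases hxp : x = p
        · rw [if_pos hxp]
          subst hxp
          rw [v4 x kp, hpt, v3 t kt]
          rw [hpt] at t2 u2 t3 u3
          rcases km with h | h
          · rw [v3 _ h]
            have := snt_two hS M hU hd ht kt h
            linarith
          · rw [v6 _ h]
            linarith
        · rw [if_neg hxp]
          rcases tri x hx with c1 | c1 | c1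
          · rcases tri _ hx1 with c2 | c2 | c2
            · rcases tri _ hx2 with c3 | c3 | c3
              · exact absurd ⟨c1, c2, c3⟩ (nTTT x hx)
              · exact absurd ⟨c2, c3⟩ (nTQ _ hx1)
              · rw [v3 _ c1, v3 _ c2, v6 _ c3]
                have := snt_two hS M hU hd hx c1 c2
                linarith
            · exact absurd ⟨c1, c2⟩ (nTQ x hx)
            · rw [v3 _ c1, v6 _ c2]
              rcases tri _ hx2 with c3 | c3 | c3
              · rw [v3 _ c3]; linarith
              · rw [v4 _ c3]; linarith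
              · rw [v6 _ c3]; linarith
          · rcases tri _ hx1 with c2 | c2 | c2
            · exact absurd (nQT x hx c1 c2) hxp
            · rw [v4 _ c1, v4 _ c2]
              rcases tri _ hx2 with c3 | c3 | c3
              · rw [v3 _ c3]; linarith
              · rw [v4 _ c3]; linarith
              · rw [v6 _ c3]; linarith
            · rw [v4 _ c1, v6 _ c2]
              rcases tri _ hx2 with c3 | c3 | c3
              · rw [v3 _ c3]; linarith
              · rw [v4 _ c3]; linarith
              · rw [v6 _ c3]; linarith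
          · rw [v6 _ c1]
            rcases tri _ hx1 with c2 | c2 | c2
            · rcases tri _ hx2 with c3 | c3 | c3
              · rw [v3 _ c2, v3 _ c3]; linarith
              · rw [v3 _ c2, v4 _ c3]; linarith
              · rw [v3 _ c2, v6 _ c3]; linarith
            · rcases tri _ hx2 with c3 | c3 | c3
              · rw [v4 _ c2, v3 _ c3]; linarith
              · rw [v4 _ c2, v4 _ c3]; linarith
              · rw [v4 _ c2, v6 _ c3]; linarith
            · rcases tri _ hx2 with c3 | c3 | c3
              · rw [v6 _ c2, v3 _ c3]; linarith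
              · rw [v6 _ c2, v4 _ c3]; linarith
              · rw [v6 _ c2, v6 _ c3]; linarith
      have hsum := Finset.sum_le_sum hT
      rw [Finset.sum_sub_distrib, Finset.sum_add_distrib, Finset.sum_add_distrib,
        Finset.sum_const, Finset.sum_ite_eq', nsmul_eq_mul] at hsum
      have e5 : (if p ∈ nb G q then (5 : ℤ) else 0) ≤ 5 := by split_ifs <;> norm_num
      have hcard : ((nb G q).card : ℤ) = (deg G q : ℤ) := card_nb q
      have hd6 : (6 : ℤ) ≤ (deg G q : ℤ) := by exact_mod_cast hdeg6
      rw [hcard] at hsum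
      have a2' : ∑ x ∈ nb G q, vl G nx k q (nx q (nx q x)) = ∑ x ∈ nb G q, vl G nx k q (nx q x) :=
        a2
      rw [a2', a1] at hsum
      linarith
    · -- degree 5
      have hdeg' : deg G q = 5 := by omega
      obtain ⟨hc, hsum⟩ := h5 V G nx k M q r hr hdeg'
      have hs := hsum (vl G nx k q)
      rw [hrp, hpt] at hc hs
      rw [hs] at hfc
      have hdeg'' : (deg G q : ℤ) = 5 := by exact_mod_cast hdeg'
      rw [hdeg''] at hfc
      have t1 := s0 t
      have t2 := s0 (nx q t)
      have t3 := s0 (nx q (nx q t))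
      have u1 := s5 t
      have u2 := s5 (nx q t)
      have u3 := s5 (nx q (nx q t))
      have e1 := v4 p kp
      have e2 := v3 t kt
      rcases tri _ hx with c | c | c
      · have e3 := v3 _ c
        have hr6 : 6 ≤ k q r := by
          rcases kr with h' | h'
          · exact absurd ⟨c, by rw [hc]; exact h'⟩ (nTQ _ hx)
          · exact h'
        have e4 := v6 r hr6
        rcases km with h | h
        · exact absurd ⟨kt, h, c⟩ (nTTT t ht)
        · have e5 := v6 _ h
          linarith
      · have e3 := v4 _ c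
        rcases km with h | h
        · exact absurd ⟨h, c⟩ (nTQ _ hm)
        · have e5 := v6 _ h
          rcases kr with h' | h'
          · have e4 := v4 r h'
            linarith
          · have e4 := v6 r h'
            linarith
      · have e3 := v6 _ c
        rcases km with h | h
        · have e5 := v3 _ h
          have := snt_two hS M hU hd ht kt h
          rcases kr with h' | h'
          · have e4 := v4 r h'
            linarith
          · have e4 := v6 r h'
            linarith
        · have e5 := v6 _ h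
          rcases kr with h' | h'
          · have e4 := v4 r h'
            linarith
          · have e4 := v6 r h'
            linarith

end QQAux

open QQAux in
theorem tQQ (hQ : T_QOUT) (hN : T_NX) (h4 : T_S4) (h5 : T_S5) (hA : T_AV) (hS : T_NS2)
    (hF3 : T_F3) (hF4 : T_F4) (hF5 : T_F5) (hTT : T_TTT) (hTQ : T_TQ) (hQT : T_QT) : T_QQ := by
  intro V _ G nx k M hU hd p t q s r hpt hq hs hr kq ks
  obtain ⟨hf, _, _, ktq, kqr, _, _⟩ := hQ V G nx k M hU hd p t q s r hpt hq hs hr kq ks
  have hpq : G.Adj p q := by rw [hq]; exact M.adj p t hpt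
  have hps : G.Adj p s := by rw [hs]; exact M.adj p q hpq
  obtain ⟨a1, a2, a3, a4, a5, a6⟩ := hF3 V G nx k M hd p q _ hpq kq rfl
  have et : nx q p = t := M.inj p _ _ a2.symm hpt (a4.trans hq)
  rw [et] at a1 a2 a3 a4 a5 a6
  obtain ⟨b1, b2, b3, b4, b5, b6, b7, b8, b9, b10⟩ :=
    hF4 V G nx k M hd p s r _ hps ks hr rfl
  have eq : nx r s = q := M.inj p _ _ b3.symm hpq (b7.trans hs)
  rw [eq] at b2 b3 b5 b6 b7 b9 b10
  -- at `q`: `r → p → t`
  have hcyc : Five G q r s p t := five_rot (five_rot hf)
  have hnb : ∀ x y z w, Five G q x y z w →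
      (x = r ∧ y = s ∧ z = p ∧ w = t) ∨ (x = t ∧ y = p ∧ z = s ∧ w = r) := by
    intro x y z w h
    rcases hU _ _ _ _ _ _ _ _ _ hcyc h with ⟨h1, h2, h3, h4⟩ | ⟨h1, h2, h3, h4⟩
    · exact Or.inl ⟨h1.symm, h2.symm, h3.symm, h4.symm⟩
    · exact Or.inr ⟨h4.symm, h3.symm, h2.symm, h1.symm⟩
  have km : k q (nx q t) = k t q := M.face t q a1.symm
  have hqt : nx q (nx q p) ≠ p := (hN V G nx k M hd q p b3).2.1
  rw [et] at hqt
  have hmain := count h4 h5 hA hS M hU hd (q := q) (r := r) (p := p) (t := t) b2.symm b6 et b10 a5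
    kqr (by rw [km]; exact ktq) ?_ ?_ ?_ ?_
  · rw [km] at hmain
    exact hmain
  · -- no 5-corner
    intro x hx hk
    obtain ⟨hf', _, _, _⟩ := hF5 V G nx k M hd q x _ _ _ hx hk rfl rfl rfl
    rcases hnb _ _ _ _ hf' with ⟨e1, _, _, _⟩ | ⟨e1, _, _, _⟩
    · rw [e1] at hk; omega
    · rw [e1] at hk; omega
  · intro x hx ⟨k1, k2, k3⟩
    obtain ⟨_, _, _, y, hy, hyx⟩ := hN V G nx k M hd q x hx
    have hf' := hTT V G nx k M hd q y x (nx q x) (nx q (nx q x)) hy hyx.symm rfl rfl k1 k2 k3
    rcases hnb _ _ _ _ hf' with ⟨e1, _, _, _⟩ | ⟨_, _, _, e2⟩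
    · rw [e1, b6] at hyx
      rw [← hyx] at k1
      omega
    · rw [e2] at k3; omega
  · intro x hx ⟨k1, k2⟩
    obtain ⟨_, _, _, y, hy, hyx⟩ := hN V G nx k M hd q x hx
    have hf' := hTQ V G nx k M hd q y x (nx q x) hy hyx.symm rfl k1 k2
    rcases hnb _ _ _ _ hf' with ⟨e1, _, _, _⟩ | ⟨e1, e2, _, _⟩
    · rw [e1, b6] at hyx
      rw [← hyx] at k1
      omega
    · rw [e1] at hyx
      exact hqt (hyx.trans e2)
  · intro x hx k1 k2
    obtain ⟨_, _, _, y, hy, hyx⟩ := hN V G nx k M hd q x hx
    have hf' := hQT V G nx k M hd q y x (nx q x) hy hyx.symm rfl k1 k2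
    rcases hnb _ _ _ _ hf' with ⟨e1, _, _, _⟩ | ⟨_, _, _, e2⟩
    · rw [e1, b6] at hyx
      exact hyx.symm
    · rw [e2] at k2; omega

end Pool.Agent.TorDeg
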