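import Pool.Agent.TorDeg.Targets
import Pool.Agent.TorDeg.QQ

set_option autoImplicit false

/-!
# QP: the first common vertex of a triangle and an adjacent 4-face
-/

namespace Pool.Agent.TorDeg

namespace QPAux

open QQAux

variable {V : Type} [Fintype V] {G : SimpleGraph V} {nx : V → V → V} {k : V → V → ℕ}

/-- The count: `t`, `q`, `s` consecutive at `p`, the corners of `q` and `s` are a triangle and a
4-face. -/
theorem countP (h4 : T_S4) (h5 : T_S5) (hA : T_AV) (hS : T_NS2) (M : TMap G nx k) (hU : U5 G)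
    (hd : ∀ v, 4 ≤ deg G v) {p t q s : V} (ht : G.Adj p t) (htq : nx p t = q) (hqs : nx p q = s)
    (kq : k p q = 3) (ks : k p s = 4) (kt : k p t = 3 ∨ 6 ≤ k p t)
    (km : k p (nx p s) = 4 ∨ 6 ≤ k p (nx p s)) (n5 : ∀ x, G.Adj p x → k p x ≠ 5)
    (nTTT : ∀ x, G.Adj p x → ¬ (k p x = 3 ∧ k p (nx p x) = 3 ∧ k p (nx p (nx p x)) = 3))
    (nQT : ∀ x, G.Adj p x → ¬ (k p x = 4 ∧ k p (nx p x) = 3))
    (nTQ : ∀ x, G.Adj p x → k p x = 3 → k p (nx p x) = 4 → x = q) :
    (deg G p = 4 → -10 ≤ fc G nx k p ∧ (k p t ≠ 3 → 0 ≤ fc G nx k p) ∧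
      (k p t = 3 → 6 ≤ k p (nx p s))) ∧ (5 ≤ deg G p → 10 ≤ fc G nx k p) := by
  classical
  have hq : G.Adj p q := by rw [← htq]; exact M.adj p t ht
  have hs : G.Adj p s := by rw [← hqs]; exact M.adj p q hq
  have hm : G.Adj p (nx p s) := M.adj p s hs
  have hx : G.Adj p (nx p (nx p s)) := M.adj p _ hm
  have hfc : fc G nx k p = 30 * ((deg G p : ℤ) - 4) + ∑ x ∈ nb G p, vl G nx k p x := by
    unfold fc vl
    congr 1
    refine Finset.sum_congr rfl fun x hx => ?_
    rw [rcv_zero (n5 x (mem_nb.1 hx)), add_zero]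
  have tri : ∀ x, G.Adj p x → k p x = 3 ∨ k p x = 4 ∨ 6 ≤ k p x := by
    intro x hx
    have h1 := M.three p x hx
    have h2 := n5 x hx
    omega
  have v3 : ∀ x, k p x = 3 → vl G nx k p x = -10 - snt G nx k p x := fun x h => by
    unfold vl; rw [wt3 h]
  have v4 : ∀ x, k p x = 4 → vl G nx k p x = 0 := fun x h => by
    unfold vl; rw [wt4 h, snt_zero (by omega)]; rfl
  have v6 : ∀ x, 6 ≤ k p x → vl G nx k p x = 10 := fun x h => by
    unfold vl; rw [wt6 h, snt_zero (by omega)]; rfl
  have s0 : ∀ x, 0 ≤ snt G nx k p x := fun x => snt_nonneg p x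
  have s5 : ∀ x, snt G nx k p x ≤ 5 := fun x => snt_le p x
  refine ⟨fun hdeg => ?_, fun hdeg => ?_⟩
  · obtain ⟨hc, hsum⟩ := h4 V G nx k M p t ht hdeg
    have hs' := hsum (vl G nx k p)
    rw [htq, hqs] at hc hs'
    rw [hs'] at hfc
    have hdeg' : (deg G p : ℤ) = 4 := by exact_mod_cast hdeg
    rw [hdeg'] at hfc
    have z : ∀ x, snt G nx k p x = 0 := fun x => snt_zero' (by omega)
    have e1 := v4 s ks
    have e2 := v3 q kq
    have z2 := z q
    have key : k p t = 3 → 6 ≤ k p (nx p s) := by
      intro h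
      rcases km with h' | h'
      · exact absurd ⟨h', by rw [hc]; exact h⟩ (nQT _ hm)
      · exact h'
    refine ⟨?_, ?_, key⟩
    · rcases kt with h | h
      · have e3 := v3 _ h
        have z3 := z t
        have e4 := v6 _ (key h)
        linarith
      · have e3 := v6 _ h
        rcases km with h' | h'
        · have e4 := v4 _ h'
          linarith
        · have e4 := v6 _ h'
          linarith
    · intro h
      rcases kt with h1 | h1
      · exact absurd h1 h
      · have e3 := v6 _ h1
        rcases km with h' | h'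
        · have e4 := v4 _ h'
          linarith
        · have e4 := v6 _ h'
          linarith
  · rcases Nat.lt_or_ge 5 (deg G p) with hdeg6 | hdeg5
    · -- degree at least 6
      have a1 := hA V G nx k M p (vl G nx k p)
      have a2 := hA V G nx k M p (fun x => vl G nx k p (nx p x))
      have hT : ∀ x ∈ nb G p, (-20 : ℤ) - (if x = t then 5 else 0) ≤
          vl G nx k p x + vl G nx k p (nx p x) + vl G nx k p (nx p (nx p x)) := by
        intro x hx
        rw [mem_nb] at hx
        have hx1 := M.adj p x hx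
        have hx2 := M.adj p _ hx1
        have t1 := s0 x
        have t2 := s0 (nx p x)
        have t3 := s0 (nx p (nx p x))
        have u1 := s5 x
        have u2 := s5 (nx p x)
        have u3 := s5 (nx p (nx p x))
        by_cases hxp : x = t
        · rw [if_pos hxp]
          subst hxp
          rw [htq, hqs, v4 s ks, v3 q kq]
          rw [htq] at t2 u2
          rcases kt with h | h
          · rw [v3 _ h]
            have := snt_two hS M hU hd ht h (by rw [htq]; exact kq)
            rw [htq] at this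
            linarith
          · rw [v6 _ h]
            linarith
        · rw [if_neg hxp]
          rcases tri x hx with c1 | c1 | c1
          · rcases tri _ hx1 with c2 | c2 | c2
            · rcases tri _ hx2 with c3 | c3 | c3
              · exact absurd ⟨c1, c2, c3⟩ (nTTT x hx)
              · exact absurd (M.inj p _ _ hx ht (by rw [nTQ _ hx1 c2 c3, htq])) hxp
              · rw [v3 _ c1, v3 _ c2, v6 _ c3]
                have := snt_two hS M hU hd hx c1 c2
                linarith
            · rcases tri _ hx2 with c3 | c3 | c3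
              · exact absurd ⟨c2, c3⟩ (nQT _ hx1)
              · rw [v3 _ c1, v4 _ c2, v4 _ c3]; linarith
              · rw [v3 _ c1, v4 _ c2, v6 _ c3]; linarith
            · rw [v3 _ c1, v6 _ c2]
              rcases tri _ hx2 with c3 | c3 | c3
              · rw [v3 _ c3]; linarith
              · rw [v4 _ c3]; linarith
              · rw [v6 _ c3]; linarith
          · rcases tri _ hx1 with c2 | c2 | c2
            · exact absurd ⟨c1, c2⟩ (nQT x hx)
            · rw [v4 _ c1, v4 _ c2]
              rcases tri _ hx2 with c3 | c3 | c3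
              · rw [v3 _ c3]; linarith
              · rw [v4 _ c3]; linarith
              · rw [v6 _ c3]; linarith
            · rw [v4 _ c1, v6 _ c2]
              rcases tri _ hx2 with c3 | c3 | c3
              · rw [v3 _ c3]; linarith
              · rw [v4 _ c3]; linarith
              · rw [v6 _ c3]; linarith
          · rw [v6 _ c1]
            rcases tri _ hx1 with c2 | c2 | c2
            · rcases tri _ hx2 with c3 | c3 | c3
              · rw [v3 _ c2, v3 _ c3]; linarith
              · rw [v3 _ c2, v4 _ c3]; linarith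
              · rw [v3 _ c2, v6 _ c3]; linarith
            · rcases tri _ hx2 with c3 | c3 | c3
              · rw [v4 _ c2, v3 _ c3]; linarith
              · rw [v4 _ c2, v4 _ c3]; linarith
              · rw [v4 _ c2, v6 _ c3]; linarith
            · rcases tri _ hx2 with c3 | c3 | c3
              · rw [v6 _ c2, v3 _ c3]; linarith
              · rw [v6 _ c2, v4 _ c3]; linarith
              · rw [v6 _ c2, v6 _ c3]; linarith
      have hsum := Finset.sum_le_sum hT
      rw [Finset.sum_sub_distrib, Finset.sum_add_distrib, Finset.sum_add_distrib,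
        Finset.sum_const, Finset.sum_ite_eq', nsmul_eq_mul] at hsum
      have e5 : (if t ∈ nb G p then (5 : ℤ) else 0) ≤ 5 := by split_ifs <;> norm_num
      have hcard : ((nb G p).card : ℤ) = (deg G p : ℤ) := card_nb p
      have hd6 : (6 : ℤ) ≤ (deg G p : ℤ) := by exact_mod_cast hdeg6
      rw [hcard] at hsum
      have a2' : ∑ x ∈ nb G p, vl G nx k p (nx p (nx p x)) = ∑ x ∈ nb G p, vl G nx k p (nx p x) :=
        a2
      rw [a2', a1] at hsum
      linarith
    · -- degree 5
      have hdeg' : deg G p = 5 := by omega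
      obtain ⟨hc, hsum⟩ := h5 V G nx k M p t ht hdeg'
      have hs' := hsum (vl G nx k p)
      rw [htq, hqs] at hc hs'
      rw [hs'] at hfc
      have hdeg'' : (deg G p : ℤ) = 5 := by exact_mod_cast hdeg'
      rw [hdeg''] at hfc
      have t1 := s0 t
      have t2 := s0 q
      have t3 := s0 (nx p (nx p s))
      have u1 := s5 t
      have u2 := s5 q
      have u3 := s5 (nx p (nx p s))
      have e1 := v4 s ks
      have e2 := v3 q kq
      have em : 0 ≤ vl G nx k p (nx p s) := by
        rcases km with h | h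
        · rw [v4 _ h]
        · rw [v6 _ h]; norm_num
      rcases kt with h | h
      · have e3 := v3 _ h
        have e4 := snt_two hS M hU hd ht h (by rw [htq]; exact kq)
        rw [htq] at e4
        rcases tri _ hx with c | c | c
        · exact absurd ⟨c, by rw [hc]; exact h, by rw [hc, htq]; exact kq⟩ (nTTT _ hx)
        · exact absurd ⟨c, by rw [hc]; exact h⟩ (nQT _ hx)
        · have e5 := v6 _ c
          linarith
      · have e3 := v6 _ h
        rcases tri _ hx with c | c | c
        · have e5 := v3 _ c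
          linarith
        · have e5 := v4 _ c
          linarith
        · have e5 := v6 _ c
          linarith

end QPAux

open QQAux QPAux in
theorem tQP (hQ : T_QOUT) (hN : T_NX) (h4 : T_S4) (h5 : T_S5) (hA : T_AV) (hS : T_NS2)
    (_hF3 : T_F3) (_hF4 : T_F4) (hF5 : T_F5) (hTT : T_TTT) (hTQ : T_TQ) (hQT : T_QT) : T_QP := by
  intro V _ G nx k M hU hd p t q s r hpt hq hs hr kq ks
  obtain ⟨hf, _, kpt, _, _, _, ksp⟩ := hQ V G nx k M hU hd p t q s r hpt hq hs hr kq ks
  have hpq : G.Adj p q := by rw [hq]; exact M.adj p t hpt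
  have hps : G.Adj p s := by rw [hs]; exact M.adj p q hpq
  have hnb : ∀ x y z w, Five G p x y z w →
      (x = t ∧ y = q ∧ z = r ∧ w = s) ∨ (x = s ∧ y = r ∧ z = q ∧ w = t) := by
    intro x y z w h
    rcases hU _ _ _ _ _ _ _ _ _ hf h with ⟨h1, h2, h3, h4⟩ | ⟨h1, h2, h3, h4⟩
    · exact Or.inl ⟨h1.symm, h2.symm, h3.symm, h4.symm⟩
    · exact Or.inr ⟨h4.symm, h3.symm, h2.symm, h1.symm⟩
  have km : k p (nx p s) = k s p := M.face s p hps.symm
  have hmain := countP h4 h5 hA hS M hU hd (p := p) (t := t) (q := q) (s := s) hpt hq.symm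
    hs.symm kq ks kpt (by rw [km]; exact ksp) ?_ ?_ ?_ ?_
  · rw [km] at hmain
    exact hmain
  · -- no 5-corner
    intro x hx hk
    obtain ⟨hf', _, _, _⟩ := hF5 V G nx k M hd p x _ _ _ hx hk rfl rfl rfl
    rcases hnb _ _ _ _ hf' with ⟨e1, _, _, _⟩ | ⟨e1, _, _, _⟩
    · rw [e1] at hk; omega
    · rw [e1] at hk; omega
  · intro x hx ⟨k1, k2, k3⟩
    obtain ⟨_, _, _, y, hy, hyx⟩ := hN V G nx k M hd p x hx
    have hf' := hTT V G nx k M hd p y x (nx p x) (nx p (nx p x)) hy hyx.symm rfl rfl k1 k2 k3
    rcases hnb _ _ _ _ hf' with ⟨_, _, _, e2⟩ | ⟨_, _, e2, _⟩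
    · rw [e2] at k3; omega
    · rw [e2, ← hs] at k3; omega
  · intro x hx ⟨k1, k2⟩
    obtain ⟨_, _, _, y, hy, hyx⟩ := hN V G nx k M hd p x hx
    have hf' := hQT V G nx k M hd p y x (nx p x) hy hyx.symm rfl k1 k2
    rcases hnb _ _ _ _ hf' with ⟨e1, _, _, _⟩ | ⟨_, _, e2, _⟩
    · rw [e1, ← hq] at hyx
      rw [← hyx] at k1; omega
    · rw [e2] at k1; omega
  · intro x hx k1 k2
    obtain ⟨_, _, _, y, hy, hyx⟩ := hN V G nx k M hd p x hx
    have hf' := hTQ V G nx k M hd p y x (nx p x) hy hyx.symm rfl k1 k2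
    rcases hnb _ _ _ _ hf' with ⟨e1, e2, _, _⟩ | ⟨_, _, _, e2⟩
    · exact e2
    · rw [e2] at k2; omega

end Pool.Agent.TorDeg
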