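import Pool.Agent.TorDeg.Targets

set_option autoImplicit false

/-!
# TOR-R3
-/

namespace Pool.Agent.TorDeg

open Classical in
lemma dg_three {V : Type} {G : SimpleGraph V} {K : Finset V} {v x y z : V} (hx : x ∈ K)
    (hy : y ∈ K) (hz : z ∈ K) (xy : x ≠ y) (xz : x ≠ z) (yz : y ≠ z)
    (h : ∀ u ∈ K, G.Adj v u ↔ u = x ∨ u = y ∨ u = z) : dg G K v = 3 := by
  have e : K.filter (fun u => G.Adj v u) = {x, y, z} := by
    ext u
    simp only [Finset.mem_filter, Finset.mem_insert, Finset.mem_singleton]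
    constructor
    · rintro ⟨h1, h2⟩
      exact (h u h1).mp h2
    · intro h1
      have hu : u ∈ K := by rcases h1 with rfl | rfl | rfl <;> assumption
      exact ⟨hu, (h u hu).mpr h1⟩
  unfold dg
  rw [e, Finset.card_eq_three]
  exact ⟨x, y, z, xy, xz, yz, rfl⟩

theorem tR3 : T_R3 := by
  intro V _ _ G hU hG v₁ v₂ v₃ v₄ v₅ w h hw1 hw2 hw3 hw5 d1 d2 d3 d4 d5 dw
  have h0 := h
  obtain ⟨h12, h23, h34, h45, h51, n13, n14, n24, n25, n35⟩ := h
  have n12 := h12.ne
  have n23 := h23.ne
  have n34 := h34.ne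
  have n45 := h45.ne
  have n51 := h51.ne
  have m1 := hw1.ne
  have m2 := hw2.ne
  by_cases hw4 : w = v₄
  · subst hw4
    have a13 : ¬ G.Adj v₁ v₃ := by
      intro hh
      rcases hU v₁ v₂ v₃ w v₅ v₃ v₂ w v₅ h0
        ⟨hh, h23.symm, hw2.symm, h45, h51, n12, n14, n34, n35, n25⟩ with ⟨h, -⟩ | ⟨h, -⟩
      · exact n23 h
      · exact n25 h
    have a25 : ¬ G.Adj v₂ v₅ := by
      intro hh
      rcases hU v₁ v₂ v₃ w v₅ w v₃ v₂ v₅ h0
        ⟨hw1.symm, h34.symm, h23.symm, hh, h51, n13, n12, n24.symm, n45, n35⟩ with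
        ⟨h, -⟩ | ⟨h, -⟩
      · exact n24 h
      · exact n25 h
    refine hG {v₁, v₂, v₃, w, v₅} v₁ v₂ v₅ ⟨?_, by simp, by simp, by simp, h12, h51.symm, n25,
      a25, ?_, ?_, ?_⟩
    · intro v hv
      simp only [Finset.mem_insert, Finset.mem_singleton] at hv
      rcases hv with rfl | rfl | rfl | rfl | rfl <;> assumption
    · refine dg_three (x := v₂) (y := w) (z := v₅) (by simp) (by simp) (by simp) n24 n25 n45 ?_
      intro u hu
      simp only [Finset.mem_insert, Finset.mem_singleton] at hu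
      rcases hu with rfl | rfl | rfl | rfl | rfl <;> simp_all [SimpleGraph.adj_comm, eq_comm]
    · have e : ({v₁, v₂, v₃, w, v₅} : Finset V).erase v₁ = {v₅, w, v₃, v₂} := by
        ext x
        simp only [Finset.mem_erase, Finset.mem_insert, Finset.mem_singleton]
        grind
      rw [e]
      exact Cn.insert _ w _ (Cn.insert _ v₃ _ (Cn.insert _ v₂ _ (Cn.single _) (by simp)
        h23.symm) (by simp) h34.symm) (by simp) h45.symm
    · have e : (({v₁, v₂, v₃, w, v₅} : Finset V).erase v₂).erase v₅ = {v₃, w, v₁} := by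
        ext x
        simp only [Finset.mem_erase, Finset.mem_insert, Finset.mem_singleton]
        grind
      rw [e]
      exact Cn.insert _ w _ (Cn.insert _ v₁ _ (Cn.single _) (by simp) hw1) (by simp) h34
  · have a14 : ¬ G.Adj v₁ v₄ := by
      intro hh
      rcases hU v₁ v₂ v₃ v₄ v₅ v₄ v₃ v₂ w h0
        ⟨hh, h34.symm, h23.symm, hw2.symm, hw1, n13, n12, n24.symm, Ne.symm hw4,
          Ne.symm hw3⟩ with ⟨h, -⟩ | ⟨h, -⟩
      · exact n24 h
      · exact m2 h.symm
    have aw5 : ¬ G.Adj w v₅ := by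
      intro hh
      rcases hU v₂ v₃ v₄ v₅ v₁ w v₅ v₄ v₃ ⟨h23, h34, h45, h51, h12, n24, n25, n35, n13.symm,
        n14.symm⟩ ⟨hw2.symm, hh, h45.symm, h34.symm, h23.symm, n25, n24, hw4, hw3, n35.symm⟩ with
        ⟨h, -⟩ | ⟨-, -, -, h⟩
      · exact hw3 h.symm
      · exact m1 h.symm
    by_cases a13 : G.Adj v₁ v₃
    · have a25 : ¬ G.Adj v₂ v₅ := by
        intro hh
        rcases hU v₁ v₂ v₃ v₄ v₅ v₃ v₄ v₅ v₂ h0
          ⟨a13, h34, h45, hh.symm, h12.symm, n14, n51.symm, n35, n23.symm, n24.symm⟩ with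
          ⟨h, -⟩ | ⟨-, h, -⟩
        · exact n23 h
        · exact n35 h
      have a24 : ¬ G.Adj v₂ v₄ := by
        intro hh
        rcases hU v₁ v₂ v₃ v₄ v₅ v₅ v₄ v₂ w h0
          ⟨h51.symm, h45.symm, hh.symm, hw2.symm, hw1, n14, n12, n25.symm, Ne.symm hw5,
            Ne.symm hw4⟩ with ⟨h, -⟩ | ⟨h, -⟩
        · exact n25 h
        · exact m2 h.symm
      have aw3 : ¬ G.Adj w v₃ := by
        intro hh
        rcases hU v₁ v₂ v₃ v₄ v₅ w v₃ v₄ v₅ h0
          ⟨hw1.symm, hh, h34, h45, h51, n13, n14, hw4, hw5, n35⟩ with ⟨h, -⟩ | ⟨h, -⟩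
        · exact m2 h.symm
        · exact n25 h
      refine hG {v₁, v₂, v₃, v₄, v₅, w} v₂ w v₃ ⟨?_, by simp, by simp, by simp, hw2.symm, h23,
        hw3, aw3, ?_, ?_, ?_⟩
      · intro v hv
        simp only [Finset.mem_insert, Finset.mem_singleton] at hv
        rcases hv with rfl | rfl | rfl | rfl | rfl | rfl <;> assumption
      · refine dg_three (x := v₁) (y := v₃) (z := w) (by simp) (by simp) (by simp) n13
          (Ne.symm m1) (Ne.symm hw3) ?_
        intro u hu
        simp only [Finset.mem_insert, Finset.mem_singleton] at hu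
        rcases hu with rfl | rfl | rfl | rfl | rfl | rfl <;>
          simp_all [SimpleGraph.adj_comm, eq_comm]
      · have e : ({v₁, v₂, v₃, v₄, v₅, w} : Finset V).erase v₂ = {w, v₁, v₅, v₄, v₃} := by
          ext x
          simp only [Finset.mem_erase, Finset.mem_insert, Finset.mem_singleton]
          grind
        rw [e]
        exact Cn.insert _ v₁ _ (Cn.insert _ v₅ _ (Cn.insert _ v₄ _ (Cn.insert _ v₃ _
          (Cn.single _) (by simp) h34.symm) (by simp) h45.symm) (by simp) h51.symm) (by simp) hw1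
      · have e : (({v₁, v₂, v₃, v₄, v₅, w} : Finset V).erase w).erase v₃
            = {v₄, v₅, v₁, v₂} := by
          ext x
          simp only [Finset.mem_erase, Finset.mem_insert, Finset.mem_singleton]
          grind
        rw [e]
        exact Cn.insert _ v₅ _ (Cn.insert _ v₁ _ (Cn.insert _ v₂ _ (Cn.single _) (by simp)
          h12) (by simp) h51) (by simp) h45
    · refine hG {v₁, v₂, v₃, v₄, v₅, w} v₁ w v₅ ⟨?_, by simp, by simp, by simp, hw1.symm,
        h51.symm, hw5, aw5, ?_, ?_, ?_⟩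
      · intro v hv
        simp only [Finset.mem_insert, Finset.mem_singleton] at hv
        rcases hv with rfl | rfl | rfl | rfl | rfl | rfl <;> assumption
      · refine dg_three (x := v₂) (y := v₅) (z := w) (by simp) (by simp) (by simp) n25
          (Ne.symm m2) (Ne.symm hw5) ?_
        intro u hu
        simp only [Finset.mem_insert, Finset.mem_singleton] at hu
        rcases hu with rfl | rfl | rfl | rfl | rfl | rfl <;>
          simp_all [SimpleGraph.adj_comm, eq_comm]
      · have e : ({v₁, v₂, v₃, v₄, v₅, w} : Finset V).erase v₁ = {w, v₅, v₄, v₃, v₂} := by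
          ext x
          simp only [Finset.mem_erase, Finset.mem_insert, Finset.mem_singleton]
          grind
        rw [e]
        exact Cn.insert _ v₂ _ (Cn.insert _ v₄ _ (Cn.insert _ v₃ _ (Cn.insert _ v₂ _
          (Cn.single _) (by simp) h23.symm) (by simp) h34.symm) (by simp) h45.symm) (by simp) hw2
      · have e : (({v₁, v₂, v₃, v₄, v₅, w} : Finset V).erase w).erase v₅
            = {v₄, v₃, v₂, v₁} := by
          ext x
          simp only [Finset.mem_erase, Finset.mem_insert, Finset.mem_singleton]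
          grind
        rw [e]
        exact Cn.insert _ v₃ _ (Cn.insert _ v₂ _ (Cn.insert _ v₁ _ (Cn.single _) (by simp)
          h12.symm) (by simp) h23.symm) (by simp) h34.symm

end Pool.Agent.TorDeg
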