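import Pool.Agent.TorDeg.Targets

set_option autoImplicit false

/-!
# TOR-R6 and TOR-F0
-/

namespace Pool.Agent.TorDeg

namespace HR6

open Classical in
lemma dg_three' {V : Type} {G : SimpleGraph V} {K : Finset V} {v x y z : V} (hx : x ∈ K)
    (hy : y ∈ K) (hz : z ∈ K) (xy : x ≠ y) (xz : x ≠ z) (yz : y ≠ z)
    (ax : G.Adj v x) (ay : G.Adj v y) (az : G.Adj v z)
    (h : ∀ u ∈ K, G.Adj v u → u = x ∨ u = y ∨ u = z) : dg G K v = 3 := by
  have e : K.filter (fun u => G.Adj v u) = {x, y, z} := by
    ext u
    simp only [Finset.mem_filter, Finset.mem_insert, Finset.mem_singleton]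
    constructor
    · rintro ⟨h1, h2⟩
      exact h u h1 h2
    · rintro (rfl | rfl | rfl)
      · exact ⟨hx, ax⟩
      · exact ⟨hy, ay⟩
      · exact ⟨hz, az⟩
  unfold dg
  rw [e, Finset.card_eq_three]
  exact ⟨x, y, z, xy, xz, yz, rfl⟩

lemma cn_of_eq {V : Type} [DecidableEq V] {G : SimpleGraph V} {A B : Finset V} (h : Cn G B)
    (e : ∀ x, x ∈ A ↔ x ∈ B) : Cn G A := by
  have : A = B := Finset.ext e
  rw [this]
  exact h

end HR6

open HR6

theorem tR6 : T_R6 := by
  intro V _ _ G hU hG p t q r s h hpq dp dt dq dr ds
  have h0 := h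
  obtain ⟨hpt, htq, hqr, hrs, hsp, npq, npr, ntr, nts, nqs⟩ := h
  have npt := hpt.ne
  have ntq := htq.ne
  have nqr := hqr.ne
  have nrs := hrs.ne
  have nsp := hsp.ne
  have atr : ¬ G.Adj t r := by
    intro hh
    rcases hU p t q r s q t r s h0
      ⟨hpq, htq.symm, hh, hrs, hsp, npt, npr, nqr, nqs, nts⟩ with ⟨h, -⟩ | ⟨h, -⟩
    · exact ntq h
    · exact nts h
  have ats : ¬ G.Adj t s := by
    intro hh
    rcases hU p t q r s q r s t h0
      ⟨hpq, hqr, hrs, hh.symm, hpt.symm, npr, nsp.symm, nqs, ntq.symm, ntr.symm⟩ with
      ⟨h, -⟩ | ⟨-, h, -⟩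
    · exact ntq h
    · exact nqs h
  have hdeg : ∀ v ∈ ({p, t, q, r, s} : Finset V), deg G v = 4 := by
    intro v hv
    simp only [Finset.mem_insert, Finset.mem_singleton] at hv
    rcases hv with rfl | rfl | rfl | rfl | rfl <;> assumption
  by_cases aqs : G.Adj q s
  · have apr : ¬ G.Adj p r := by
      intro hh
      rcases hU p t q r s t q s r h0
        ⟨hpt, htq, aqs, hrs.symm, hh.symm, npq, nsp.symm, nts, ntr, nqr⟩ with
        ⟨-, -, h, -⟩ | ⟨h, -⟩
      · exact nrs h
      · exact ntr h
    refine hG {p, t, q, r, s} p t s ⟨hdeg, by simp, by simp, by simp, hpt, hsp.symm, nts,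
      ats, ?_, ?_, ?_⟩
    · refine dg_three' (x := t) (y := q) (z := s) (by simp) (by simp) (by simp) ntq nts nqs
        hpt hpq hsp.symm ?_
      intro u hu hpu
      simp only [Finset.mem_insert, Finset.mem_singleton] at hu
      rcases hu with rfl | rfl | rfl | rfl | rfl
      · exact absurd hpu (G.loopless.irrefl _)
      · exact Or.inl rfl
      · exact Or.inr (Or.inl rfl)
      · exact absurd hpu apr
      · exact Or.inr (Or.inr rfl)
    · refine cn_of_eq (B := {s, r, q, t}) ?_ ?_
      · exact Cn.insert _ r _ (Cn.insert _ q _ (Cn.insert _ t _ (Cn.single _) (by simp)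
          htq.symm) (by simp) hqr.symm) (by simp) hrs.symm
      · intro x
        simp only [Finset.mem_erase, Finset.mem_insert, Finset.mem_singleton]
        constructor
        · rintro ⟨h1, h | h | h | h | h⟩
          · exact absurd h h1
          · exact Or.inr (Or.inr (Or.inr h))
          · exact Or.inr (Or.inr (Or.inl h))
          · exact Or.inr (Or.inl h)
          · exact Or.inl h
        · rintro (h | h | h | h)
          · subst h; exact ⟨nsp, by simp⟩
          · subst h; exact ⟨npr.symm, by simp⟩
          · subst h; exact ⟨npq.symm, by simp⟩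
          · subst h; exact ⟨npt.symm, by simp⟩
    · refine cn_of_eq (B := {r, q, p}) ?_ ?_
      · exact Cn.insert _ q _ (Cn.insert _ p _ (Cn.single _) (by simp) hpq.symm) (by simp)
          hqr.symm
      · intro x
        simp only [Finset.mem_erase, Finset.mem_insert, Finset.mem_singleton]
        constructor
        · rintro ⟨h1, h2, h | h | h | h | h⟩
          · exact Or.inr (Or.inr h)
          · exact absurd h h2
          · exact Or.inr (Or.inl h)
          · exact Or.inl h
          · exact absurd h h1
        · rintro (h | h | h)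
          · subst h; exact ⟨nrs, ntr.symm, by simp⟩
          · subst h; exact ⟨nqs, ntq.symm, by simp⟩
          · subst h; exact ⟨nsp.symm, npt, by simp⟩
  · refine hG {p, t, q, r, s} q t r ⟨hdeg, by simp, by simp, by simp, htq.symm, hqr, ntr,
      atr, ?_, ?_, ?_⟩
    · refine dg_three' (x := p) (y := t) (z := r) (by simp) (by simp) (by simp) npt npr ntr
        hpq.symm htq.symm hqr ?_
      intro u hu hqu
      simp only [Finset.mem_insert, Finset.mem_singleton] at hu
      rcases hu with rfl | rfl | rfl | rfl | rfl
      · exact Or.inl rfl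
      · exact Or.inr (Or.inl rfl)
      · exact absurd hqu (G.loopless.irrefl _)
      · exact Or.inr (Or.inr rfl)
      · exact absurd hqu aqs
    · refine cn_of_eq (B := {r, s, p, t}) ?_ ?_
      · exact Cn.insert _ s _ (Cn.insert _ p _ (Cn.insert _ t _ (Cn.single _) (by simp)
          hpt) (by simp) hsp) (by simp) hrs
      · intro x
        simp only [Finset.mem_erase, Finset.mem_insert, Finset.mem_singleton]
        constructor
        · rintro ⟨h1, h | h | h | h | h⟩
          · exact Or.inr (Or.inr (Or.inl h))
          · exact Or.inr (Or.inr (Or.inr h))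
          · exact absurd h h1
          · exact Or.inl h
          · exact Or.inr (Or.inl h)
        · rintro (h | h | h | h)
          · subst h; exact ⟨nqr.symm, by simp⟩
          · subst h; exact ⟨nqs.symm, by simp⟩
          · subst h; exact ⟨npq, by simp⟩
          · subst h; exact ⟨ntq, by simp⟩
    · refine cn_of_eq (B := {s, p, q}) ?_ ?_
      · exact Cn.insert _ p _ (Cn.insert _ q _ (Cn.single _) (by simp) hpq) (by simp)
          hsp
      · intro x
        simp only [Finset.mem_erase, Finset.mem_insert, Finset.mem_singleton]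
        constructor
        · rintro ⟨h1, h2, h | h | h | h | h⟩
          · exact Or.inr (Or.inl h)
          · exact absurd h h2
          · exact Or.inr (Or.inr h)
          · exact absurd h h1
          · exact Or.inl h
        · rintro (h | h | h)
          · subst h; exact ⟨nrs.symm, nts.symm, by simp⟩
          · subst h; exact ⟨npr, npt, by simp⟩
          · subst h; exact ⟨nqr, ntq.symm, by simp⟩

theorem tF0 : T_F0 := by
  intro V _ _ G hG a c d e hac had hae hcd hde hce nce da dc dd de
  have hdeg : ∀ v ∈ ({a, c, d, e} : Finset V), deg G v = 4 := by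
    intro v hv
    simp only [Finset.mem_insert, Finset.mem_singleton] at hv
    rcases hv with rfl | rfl | rfl | rfl <;> assumption
  refine hG {a, c, d, e} a c e ⟨hdeg, by simp, by simp, by simp, hac, hae, nce, hce, ?_, ?_, ?_⟩
  · refine dg_three' (x := c) (y := d) (z := e) (by simp) (by simp) (by simp) hcd.ne nce hde.ne
      hac had hae ?_
    intro u hu hau
    simp only [Finset.mem_insert, Finset.mem_singleton] at hu
    rcases hu with rfl | rfl | rfl | rfl
    · exact absurd hau (G.loopless.irrefl _)
    · exact Or.inl rfl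
    · exact Or.inr (Or.inl rfl)
    · exact Or.inr (Or.inr rfl)
  · refine cn_of_eq (B := {e, d, c}) ?_ ?_
    · exact Cn.insert _ d _ (Cn.insert _ c _ (Cn.single _) (by simp) hcd.symm) (by simp)
        hde.symm
    · intro x
      simp only [Finset.mem_erase, Finset.mem_insert, Finset.mem_singleton]
      constructor
      · rintro ⟨h1, h | h | h | h⟩
        · exact absurd h h1
        · exact Or.inr (Or.inr h)
        · exact Or.inr (Or.inl h)
        · exact Or.inl h
      · rintro (h | h | h)
        · subst h; exact ⟨hae.ne.symm, by simp⟩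
        · subst h; exact ⟨had.ne.symm, by simp⟩
        · subst h; exact ⟨hac.ne.symm, by simp⟩
  · refine cn_of_eq (B := {a, d}) ?_ ?_
    · exact Cn.insert _ d _ (Cn.single _) (by simp) had
    · intro x
      simp only [Finset.mem_erase, Finset.mem_insert, Finset.mem_singleton]
      constructor
      · rintro ⟨h1, h2, h | h | h | h⟩
        · exact Or.inl h
        · exact absurd h h2
        · exact Or.inr h
        · exact absurd h h1
      · rintro (h | h)
        · subst h; exact ⟨hae.ne, hac.ne, by simp⟩
        · subst h; exact ⟨hde.ne, hcd.ne.symm, by simp⟩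

end Pool.Agent.TorDeg
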