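import Pool.Agent.TorDeg.Targets

set_option autoImplicit false

/-!
# REG: 4-regular graphs contain a reducible configuration
-/

namespace Pool.Agent.TorDeg

namespace RegAux

variable {V : Type} [DecidableEq V] {G : SimpleGraph V}

lemma cn_nonempty {A : Finset V} (h : Cn G A) : A.Nonempty := by
  cases h with
  | single v => exact ⟨v, by simp⟩
  | insert A u v h hu hv => exact ⟨v, by simp⟩

lemma cn_closed {A : Finset V} (h : Cn G A) : ∀ D : Finset V, (∃ x ∈ A, x ∈ D) →
    (∀ u ∈ A, u ∈ D → ∀ v ∈ A, G.Adj u v → v ∈ D) → A ⊆ D := by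
  induction h with
  | single v =>
    rintro D ⟨x, hx, hxD⟩ _
    rw [Finset.mem_singleton] at hx
    subst hx
    simpa using hxD
  | insert A u v h hu hv ih =>
    rintro D ⟨x, hx, hxD⟩ hcl
    have hcl' : ∀ u ∈ A, u ∈ D → ∀ v ∈ A, G.Adj u v → v ∈ D := fun a ha haD b hb hab =>
      hcl a (Finset.mem_insert_of_mem ha) haD b (Finset.mem_insert_of_mem hb) hab
    have key : ∃ x ∈ A, x ∈ D := by
      rw [Finset.mem_insert] at hx
      rcases hx with rfl | hx
      · exact ⟨u, hu, hcl x (Finset.mem_insert_self _ _) hxD u (Finset.mem_insert_of_mem hu) hv⟩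
      · exact ⟨x, hx, hxD⟩
    have hAD := ih D key hcl'
    have hvD : v ∈ D := hcl u (Finset.mem_insert_of_mem hu) (hAD hu) v
      (Finset.mem_insert_self _ _) hv.symm
    intro w hw
    rw [Finset.mem_insert] at hw
    rcases hw with rfl | hw
    · exact hvD
    · exact hAD hw

/-- components -/
lemma exists_comp (S : Finset V) (x : V) (hx : x ∈ S) :
    ∃ D ⊆ S, x ∈ D ∧ Cn G D ∧ ∀ u ∈ D, ∀ v ∈ S, G.Adj u v → v ∈ D := by
  classical
  have hne : (S.powerset.filter (fun D => x ∈ D ∧ Cn G D)).Nonempty :=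
    ⟨{x}, by
      rw [Finset.mem_filter, Finset.mem_powerset, Finset.singleton_subset_iff]
      exact ⟨hx, Finset.mem_singleton_self x, Cn.single x⟩⟩
  obtain ⟨D, hD, hmax⟩ := Finset.exists_max_image _ (fun D => D.card) hne
  rw [Finset.mem_filter, Finset.mem_powerset] at hD
  refine ⟨D, hD.1, hD.2.1, hD.2.2, ?_⟩
  intro u hu v hv huv
  by_contra hvD
  have h1 : insert v D ∈ S.powerset.filter (fun D => x ∈ D ∧ Cn G D) := by
    rw [Finset.mem_filter, Finset.mem_powerset]
    exact ⟨Finset.insert_subset hv hD.1, Finset.mem_insert_of_mem hD.2.1,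
      Cn.insert D u v hD.2.2 hu huv.symm⟩
  have h2 := hmax _ h1
  rw [Finset.card_insert_of_notMem hvD] at h2
  omega

lemma cn_of_closed {S : Finset V} (hne : S.Nonempty)
    (h : ∀ D ⊆ S, D.Nonempty → (∀ u ∈ D, ∀ v ∈ S, G.Adj u v → v ∈ D) → S ⊆ D) : Cn G S := by
  obtain ⟨x, hx⟩ := hne
  obtain ⟨D, hDS, hxD, hD, hcl⟩ := exists_comp (G := G) S x hx
  have := h D hDS ⟨x, hxD⟩ hcl
  rwa [Finset.Subset.antisymm hDS this] at hD

lemma cn_union {A B : Finset V} (hA : Cn G A) (hB : Cn G B) {u v : V} (hu : u ∈ A) (hv : v ∈ B)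
    (huv : G.Adj u v) : Cn G (A ∪ B) := by
  apply cn_of_closed ⟨u, Finset.mem_union_left _ hu⟩
  intro D hD hne hcl
  have clA : ∀ a ∈ A, a ∈ D → ∀ b ∈ A, G.Adj a b → b ∈ D := fun a _ haD b hb hab =>
    hcl a haD b (Finset.mem_union_left _ hb) hab
  have clB : ∀ a ∈ B, a ∈ D → ∀ b ∈ B, G.Adj a b → b ∈ D := fun a _ haD b hb hab =>
    hcl a haD b (Finset.mem_union_right _ hb) hab
  obtain ⟨x, hxD⟩ := hne
  rcases Finset.mem_union.mp (hD hxD) with hx | hx
  · have h1 := cn_closed hA D ⟨x, hx, hxD⟩ clA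
    have h2 : v ∈ D := hcl u (h1 hu) v (Finset.mem_union_right _ hv) huv
    exact Finset.union_subset h1 (cn_closed hB D ⟨v, hv, h2⟩ clB)
  · have h1 := cn_closed hB D ⟨x, hx, hxD⟩ clB
    have h2 : u ∈ D := hcl v (h1 hv) u (Finset.mem_union_left _ hu) huv.symm
    exact Finset.union_subset (cn_closed hA D ⟨u, hu, h2⟩ clA) h1

lemma noncut {A : Finset V} (h : Cn G A) : ∀ x ∈ A, 2 ≤ A.card →
    ∃ y ∈ A, y ≠ x ∧ Cn G (A.erase y) := by
  induction h with
  | single v =>
    intro x _ h2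
    simp at h2
  | insert A u v h hu hv ih =>
    intro x hx h2
    by_cases hvA : v ∈ A
    · rw [Finset.insert_eq_of_mem hvA] at hx h2 ⊢
      exact ih x hx h2
    · by_cases hxv : x = v
      · subst hxv
        by_cases hc : 2 ≤ A.card
        · obtain ⟨y, hy, hyu, hyc⟩ := ih u hu hc
          have hyx : y ≠ x := fun h => hvA (h ▸ hy)
          refine ⟨y, Finset.mem_insert_of_mem hy, hyx, ?_⟩
          rw [Finset.erase_insert_of_ne hyx.symm]
          exact Cn.insert _ u x hyc (Finset.mem_erase.mpr ⟨hyu.symm, hu⟩) hv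
        · have hA1 : A = {u} := by
            apply (Finset.eq_singleton_iff_unique_mem.mpr ⟨hu, ?_⟩)
            intro w hw
            by_contra hne
            exact hc (Finset.one_lt_card.mpr ⟨w, hw, u, hu, hne⟩)
          refine ⟨u, Finset.mem_insert_of_mem hu, hv.ne', ?_⟩
          have : (insert x A).erase u = {x} := by
            rw [hA1]
            ext w
            simp only [Finset.mem_erase, Finset.mem_insert, Finset.mem_singleton]
            constructor
            · rintro ⟨h1, h2 | h2⟩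
              · exact h2
              · exact absurd h2 h1
            · intro h1
              exact ⟨by rw [h1]; exact hv.ne, Or.inl h1⟩
          rw [this]
          exact Cn.single x
      · refine ⟨v, Finset.mem_insert_self _ _, fun h => hxv h.symm, ?_⟩
        rw [Finset.erase_insert hvA]
        exact h

/-- ears -/
structure Ear (G : SimpleGraph V) (Q P : Finset V) (q₁ q₂ z y : V) : Prop where
  disj : ∀ v ∈ P, v ∉ Q
  hq₁ : q₁ ∈ P
  hq₂ : q₂ ∈ P
  ne : q₁ ≠ q₂
  conn : Cn G P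
  conn₁ : Cn G (P.erase q₁)
  hz : z ∈ Q
  hy : y ∈ Q
  zy : z ≠ y
  az : G.Adj q₁ z
  ay : G.Adj q₂ y
  only₁ : ∀ c ∈ Q, G.Adj q₁ c → c = z
  only : ∀ p ∈ P, G.Adj p z → p = q₁

lemma ear_aux (Q : Finset V) : ∀ n : ℕ, ∀ P : Finset V, P.card = n → Cn G P →
    (∀ v ∈ P, v ∉ Q) →
    (∃ c₁ ∈ Q, ∃ c₂ ∈ Q, c₁ ≠ c₂ ∧ (∃ d ∈ P, G.Adj d c₁) ∧ ∃ d ∈ P, G.Adj d c₂) →
    (∃ P' ⊆ P, ∃ p, P' = {p} ∧ ∃ z ∈ Q, ∃ y ∈ Q, z ≠ y ∧ G.Adj p z ∧ G.Adj p y) ∨
      ∃ P' ⊆ P, ∃ q₁ q₂ z y, Ear G Q P' q₁ q₂ z y := by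
  intro n
  induction n using Nat.strong_induction_on with
  | _ n ih =>
    intro P hn hP hdis hatt
    by_cases hsing : ∃ p ∈ P, ∃ z ∈ Q, ∃ y ∈ Q, z ≠ y ∧ G.Adj p z ∧ G.Adj p y
    · left
      obtain ⟨p, hp, h⟩ := hsing
      exact ⟨{p}, by simpa using hp, p, rfl, h⟩
    · push Not at hsing
      -- P has at least two elements
      obtain ⟨c₁, hc₁, c₂, hc₂, hc, ⟨d₁, hd₁, a₁⟩, d₂, hd₂, a₂⟩ := hatt
      have hdd : d₁ ≠ d₂ := by
        rintro rfl
        exact hsing d₁ hd₁ c₁ hc₁ c₂ hc₂ hc a₁ a₂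
      have hcard : 2 ≤ P.card := Finset.one_lt_card.mpr ⟨d₁, hd₁, d₂, hd₂, hdd⟩
      obtain ⟨q₁, hq₁, -, hcq₁⟩ := noncut hP d₁ hd₁ hcard
      obtain ⟨q₂, hq₂, hq21, hcq₂⟩ := noncut hP q₁ hq₁ hcard
      by_cases hb₁ : ∃ c₁ ∈ Q, ∃ c₂ ∈ Q, c₁ ≠ c₂ ∧ (∃ d ∈ P.erase q₁, G.Adj d c₁) ∧
          ∃ d ∈ P.erase q₁, G.Adj d c₂
      · have := ih (P.erase q₁).card (by rw [← hn]; exact Finset.card_erase_lt_of_mem hq₁)
          (P.erase q₁) rfl hcq₁ (fun v hv => hdis v (Finset.mem_of_mem_erase hv)) hb₁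
        rcases this with ⟨P', hP', h⟩ | ⟨P', hP', h⟩
        · exact Or.inl ⟨P', hP'.trans (Finset.erase_subset _ _), h⟩
        · exact Or.inr ⟨P', hP'.trans (Finset.erase_subset _ _), h⟩
      by_cases hb₂ : ∃ c₁ ∈ Q, ∃ c₂ ∈ Q, c₁ ≠ c₂ ∧ (∃ d ∈ P.erase q₂, G.Adj d c₁) ∧
          ∃ d ∈ P.erase q₂, G.Adj d c₂
      · have := ih (P.erase q₂).card (by rw [← hn]; exact Finset.card_erase_lt_of_mem hq₂)
          (P.erase q₂) rfl hcq₂ (fun v hv => hdis v (Finset.mem_of_mem_erase hv)) hb₂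
        rcases this with ⟨P', hP', h⟩ | ⟨P', hP', h⟩
        · exact Or.inl ⟨P', hP'.trans (Finset.erase_subset _ _), h⟩
        · exact Or.inr ⟨P', hP'.trans (Finset.erase_subset _ _), h⟩
      push Not at hb₁ hb₂
      -- among d₁, d₂ exactly one is q₁, exactly one is q₂
      have hA : d₁ = q₁ ∨ d₂ = q₁ := by
        by_contra hcon
        push Not at hcon
        exact hb₁ c₁ hc₁ c₂ hc₂ hc ⟨d₁, Finset.mem_erase.mpr ⟨hcon.1, hd₁⟩, a₁⟩ d₂
          (Finset.mem_erase.mpr ⟨hcon.2, hd₂⟩) a₂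
      have hB : d₁ = q₂ ∨ d₂ = q₂ := by
        by_contra hcon
        push Not at hcon
        exact hb₂ c₁ hc₁ c₂ hc₂ hc ⟨d₁, Finset.mem_erase.mpr ⟨hcon.1, hd₁⟩, a₁⟩ d₂
          (Finset.mem_erase.mpr ⟨hcon.2, hd₂⟩) a₂
      have main : ∀ c₁ c₂, c₁ ∈ Q → c₂ ∈ Q → c₁ ≠ c₂ → G.Adj q₁ c₁ → G.Adj q₂ c₂ →
          ∃ P' ⊆ P, ∃ q₁ q₂ z y, Ear G Q P' q₁ q₂ z y := by
        intro c₁ c₂ hc₁ hc₂ hc a₁ a₂
        refine ⟨P, subset_rfl, q₁, q₂, c₁, c₂, ?_⟩
        refine ⟨hdis, hq₁, hq₂, hq21.symm, hP, hcq₁, hc₁, hc₂, hc, a₁, a₂, ?_, ?_⟩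
        · intro c hcQ hqc
          by_contra hne
          exact hsing q₁ hq₁ c hcQ c₁ hc₁ hne hqc a₁
        · intro p hp hpz
          by_contra hne
          exact hb₁ c₁ hc₁ c₂ hc₂ hc ⟨p, Finset.mem_erase.mpr ⟨hne, hp⟩, hpz⟩ q₂
            (Finset.mem_erase.mpr ⟨hq21, hq₂⟩) a₂
      right
      rcases hA with h1 | h1
      · rcases hB with h2 | h2
        · exact absurd (h1.symm.trans h2) hq21.symm
        · exact main c₁ c₂ hc₁ hc₂ hc (h1 ▸ a₁) (h2 ▸ a₂)
      · rcases hB with h2 | h2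
        · exact main c₂ c₁ hc₂ hc₁ hc.symm (h1 ▸ a₂) (h2 ▸ a₁)
        · exact absurd (h1.symm.trans h2) hq21.symm

lemma ear (S Q : Finset V) (hS : ∀ t ∈ S, Cn G (S.erase t)) (hQS : Q ⊆ S) (hQ : 2 ≤ Q.card)
    (hne : Q.card < S.card) :
    (∃ p ∈ S, p ∉ Q ∧ ∃ z ∈ Q, ∃ y ∈ Q, z ≠ y ∧ G.Adj p z ∧ G.Adj p y) ∨
      ∃ P q₁ q₂ z y, Ear G Q P q₁ q₂ z y := by
  classical
  obtain ⟨x, hxS, hxQ⟩ : ∃ x ∈ S, x ∉ Q := by
    by_contra hcon
    push Not at hcon
    have := Finset.card_le_card (show S ⊆ Q from hcon)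
    omega
  obtain ⟨D, hDS, hxD, hDc, hcl⟩ := exists_comp (G := G) (S \ Q) x
    (Finset.mem_sdiff.mpr ⟨hxS, hxQ⟩)
  have hdis : ∀ v ∈ D, v ∉ Q := fun v hv => (Finset.mem_sdiff.mp (hDS hv)).2
  have hatt : ∃ c₁ ∈ Q, ∃ c₂ ∈ Q, c₁ ≠ c₂ ∧ (∃ d ∈ D, G.Adj d c₁) ∧ ∃ d ∈ D, G.Adj d c₂ := by
    by_contra hcon
    push Not at hcon
    -- all attachments are equal to some t
    obtain ⟨t, htQ, ht⟩ : ∃ t ∈ Q, ∀ c ∈ Q, (∃ d ∈ D, G.Adj d c) → c = t := by
      by_cases h : ∃ t ∈ Q, ∃ d ∈ D, G.Adj d t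
      · obtain ⟨t, htQ, hd⟩ := h
        refine ⟨t, htQ, fun c hc ⟨d, hd', hdc⟩ => ?_⟩
        by_contra hne
        obtain ⟨e, he, het⟩ := hd
        exact hcon c hc t htQ hne ⟨d, hd', hdc⟩ e he het
      · push Not at h
        obtain ⟨t, ht⟩ := Finset.card_pos.mp (by omega : 0 < Q.card)
        exact ⟨t, ht, fun c hc ⟨d, hd', hdc⟩ => absurd hdc (h c hc d hd')⟩
    have h1 := cn_closed (hS t (hQS htQ)) D ⟨x, Finset.mem_erase.mpr
      ⟨fun h => hxQ (h ▸ htQ), hxS⟩, hxD⟩ (by
        intro u _ huD v hv huv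
        rw [Finset.mem_erase] at hv
        apply hcl u huD v _ huv
        rw [Finset.mem_sdiff]
        refine ⟨hv.2, fun hvQ => hv.1 (ht v hvQ ⟨u, huD, huv⟩)⟩)
    obtain ⟨t', ht', htt'⟩ := Finset.exists_mem_ne (by omega : 1 < Q.card) t
    exact hdis t' (h1 (Finset.mem_erase.mpr ⟨htt', hQS ht'⟩)) ht'
  rcases ear_aux Q D.card D rfl hDc hdis hatt with ⟨P', hP', p, hp, h⟩ | ⟨P', _, h⟩
  · left
    have hpD : p ∈ D := hP' (by rw [hp]; simp)
    exact ⟨p, (Finset.mem_sdiff.mp (hDS hpD)).1, hdis p hpD, h⟩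
  · right
    exact ⟨P', h⟩

/-- triangles and induced 4-cycles -/
structure Nice (G : SimpleGraph V) (C : Finset V) : Prop where
  conn : Cn G C
  conn' : ∀ c ∈ C, Cn G (C.erase c)
  two : ∀ c ∈ C, dg G C c = 2

lemma dg_two_nb {C : Finset V} {c : V} (h : dg G C c = 2) (y : V) :
    ∃ b ∈ C, G.Adj c b ∧ b ≠ y := by
  classical
  unfold dg at h
  obtain ⟨b, hb, hby⟩ := Finset.exists_mem_ne (by rw [h]; norm_num :
    1 < (C.filter fun u => G.Adj c u).card) y
  rw [Finset.mem_filter] at hb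
  exact ⟨b, hb.1, hb.2, hby⟩

lemma goodD [Fintype V] (h4 : ∀ v, deg G v = 4) {C P : Finset V} {q₁ q₂ z y b : V}
    (hE : Ear G C P q₁ q₂ z y) (hN : Nice G C) (hb : b ∈ C) (hzb : G.Adj z b) (hby : b ≠ y) :
    Good G (C ∪ P) z q₁ b := by
  classical
  have hz1 : z ∉ P := fun h => hE.disj z h hE.hz
  have hb1 : b ∉ P := fun h => hE.disj b h hb
  have hq1 : q₁ ∉ C := hE.disj q₁ hE.hq₁
  refine ⟨fun v _ => h4 v, Finset.mem_union_left _ hE.hz, Finset.mem_union_right _ hE.hq₁,
    Finset.mem_union_left _ hb, hE.az.symm, hzb, ?_, ?_, ?_, ?_, ?_⟩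
  · rintro rfl
    exact hq1 hb
  · intro h
    have := hE.only₁ b hb h
    exact hzb.ne this.symm
  · -- degree
    have h2 := hN.two z hE.hz
    unfold dg at h2 ⊢
    have : (C ∪ P).filter (fun u => G.Adj z u) =
        insert q₁ (C.filter fun u => G.Adj z u) := by
      ext u
      simp only [Finset.mem_filter, Finset.mem_union, Finset.mem_insert]
      constructor
      · rintro ⟨h1 | h1, h3⟩
        · exact Or.inr ⟨h1, h3⟩
        · exact Or.inl (hE.only u h1 h3.symm)
      · rintro (h1 | ⟨h1, h3⟩)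
        · subst h1
          exact ⟨Or.inr hE.hq₁, hE.az.symm⟩
        · exact ⟨Or.inl h1, h3⟩
    rw [this, Finset.card_insert_of_notMem, h2]
    intro h
    exact hq1 (Finset.mem_filter.mp h).1
  · have e : (C ∪ P).erase z = C.erase z ∪ P := by
      ext u
      simp only [Finset.mem_erase, Finset.mem_union]
      constructor
      · rintro ⟨h1, h2 | h2⟩
        · exact Or.inl ⟨h1, h2⟩
        · exact Or.inr h2
      · rintro (⟨h1, h2⟩ | h2)
        · exact ⟨h1, Or.inl h2⟩
        · exact ⟨fun h => hz1 (h ▸ h2), Or.inr h2⟩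
    rw [e]
    exact cn_union (hN.conn' z hE.hz) hE.conn
      (Finset.mem_erase.mpr ⟨hE.zy.symm, hE.hy⟩) hE.hq₂ hE.ay.symm
  · have e : ((C ∪ P).erase q₁).erase b = C.erase b ∪ P.erase q₁ := by
      ext u
      simp only [Finset.mem_erase, Finset.mem_union]
      constructor
      · rintro ⟨h0, h1, h2 | h2⟩
        · exact Or.inl ⟨h0, h2⟩
        · exact Or.inr ⟨h1, h2⟩
      · rintro (⟨h1, h2⟩ | ⟨h1, h2⟩)
        · exact ⟨h1, fun h => hq1 (h ▸ h2), Or.inl h2⟩
        · exact ⟨fun h => hb1 (h ▸ h2), h1, Or.inr h2⟩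
    rw [e]
    exact cn_union (hN.conn' b hb) hE.conn₁ (Finset.mem_erase.mpr ⟨hby.symm, hE.hy⟩)
      (Finset.mem_erase.mpr ⟨hE.ne.symm, hE.hq₂⟩) hE.ay.symm

lemma goodE [Fintype V] (h4 : ∀ v, deg G v = 4) {C : Finset V} {p z y b : V}
    (hN : Nice G C) (hp : p ∉ C) (hz : z ∈ C) (hy : y ∈ C) (hb : b ∈ C) (hzy : z ≠ y)
    (hpz : G.Adj p z) (hpy : G.Adj p y) (hpb : ¬ G.Adj p b) (hzb : G.Adj z b) :
    Good G (insert p C) z p b := by
  classical
  refine ⟨fun v _ => h4 v, Finset.mem_insert_of_mem hz, Finset.mem_insert_self _ _,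
    Finset.mem_insert_of_mem hb, hpz.symm, hzb, ?_, hpb, ?_, ?_, ?_⟩
  · rintro rfl
    exact hp hb
  · have h2 := hN.two z hz
    unfold dg at h2 ⊢
    rw [Finset.filter_insert, if_pos hpz.symm, Finset.card_insert_of_notMem, h2]
    intro h
    exact hp (Finset.mem_filter.mp h).1
  · rw [Finset.erase_insert_of_ne hpz.ne]
    exact Cn.insert _ y p (hN.conn' z hz) (Finset.mem_erase.mpr ⟨hzy.symm, hy⟩) hpy
  · rw [Finset.erase_insert hp]
    exact hN.conn' b hb

lemma leave {C : Finset V} (h : Cn G C) (p : V) (h1 : ∃ z ∈ C, G.Adj p z)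
    (h2 : ∃ b ∈ C, ¬ G.Adj p b) : ∃ z ∈ C, ∃ b ∈ C, G.Adj p z ∧ ¬ G.Adj p b ∧ G.Adj z b := by
  classical
  by_contra hcon
  push Not at hcon
  obtain ⟨z, hz, hpz⟩ := h1
  obtain ⟨b, hb, hpb⟩ := h2
  have := cn_closed h (C.filter fun u => G.Adj p u) ⟨z, hz, Finset.mem_filter.mpr ⟨hz, hpz⟩⟩ (by
    intro u hu huD v hv huv
    rw [Finset.mem_filter] at huD ⊢
    refine ⟨hv, ?_⟩
    by_contra hpv
    exact hcon u hu v hv huD.2 hpv huv)
  exact hpb (Finset.mem_filter.mp (this hb)).2

lemma nice3 {a b c : V} (hab : G.Adj a b) (hac : G.Adj a c) (hbc : G.Adj b c) :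
    Nice G {a, b, c} := by
  classical
  have nab := hab.ne
  have nac := hac.ne
  have nbc := hbc.ne
  have ea : ({a, b, c} : Finset V).erase a = {b, c} := by
    rw [Finset.erase_insert]
    simp [nab, nac]
  have eb : ({a, b, c} : Finset V).erase b = {a, c} := by
    ext u
    simp only [Finset.mem_erase, Finset.mem_insert, Finset.mem_singleton]
    constructor
    · rintro ⟨h1, h2 | h2 | h2⟩
      · exact Or.inl h2
      · exact absurd h2 h1
      · exact Or.inr h2
    · rintro (h | h)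
      · exact ⟨by rw [h]; exact nab, Or.inl h⟩
      · exact ⟨by rw [h]; exact nbc.symm, Or.inr (Or.inr h)⟩
  have ec : ({a, b, c} : Finset V).erase c = {a, b} := by
    ext u
    simp only [Finset.mem_erase, Finset.mem_insert, Finset.mem_singleton]
    constructor
    · rintro ⟨h1, h2 | h2 | h2⟩
      · exact Or.inl h2
      · exact Or.inr h2
      · exact absurd h2 h1
    · rintro (h | h)
      · exact ⟨by rw [h]; exact nac, Or.inl h⟩
      · exact ⟨by rw [h]; exact nbc, Or.inr (Or.inl h)⟩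
  have cbc : Cn G ({b, c} : Finset V) := Cn.insert {c} c b (Cn.single c) (by simp) hbc
  refine ⟨Cn.insert {b, c} b a cbc (by simp) hab, ?_, ?_⟩
  · intro x hx
    simp only [Finset.mem_insert, Finset.mem_singleton] at hx
    rcases hx with rfl | rfl | rfl
    · rw [ea]; exact cbc
    · rw [eb]; exact Cn.insert {c} c a (Cn.single c) (by simp) hac
    · rw [ec]; exact Cn.insert {b} b a (Cn.single b) (by simp) hab
  · intro x hx
    unfold dg
    simp only [Finset.mem_insert, Finset.mem_singleton] at hx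
    rcases hx with rfl | rfl | rfl
    · rw [Finset.filter_insert, if_neg (G.loopless.irrefl _), Finset.filter_insert, if_pos hab,
        Finset.filter_singleton, if_pos hac, Finset.card_pair nbc]
    · rw [Finset.filter_insert, if_pos hab.symm, Finset.filter_insert,
        if_neg (G.loopless.irrefl _), Finset.filter_singleton, if_pos hbc, Finset.card_pair nac]
    · rw [Finset.filter_insert, if_pos hac.symm, Finset.filter_insert, if_pos hbc.symm,
        Finset.filter_singleton, if_neg (G.loopless.irrefl _)]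
      simp [nab]

/-- rotation of the 4-cycle -/
lemma rot4 (a b c d : V) : ({a, b, c, d} : Finset V) = {b, c, d, a} := by
  ext u
  simp only [Finset.mem_insert, Finset.mem_singleton]
  tauto

lemma nice4_aux {a b c d : V} (hab : G.Adj a b) (hbc : G.Adj b c) (hcd : G.Adj c d)
    (hda : G.Adj d a) (hac : ¬ G.Adj a c) (nac : a ≠ c) (nbd : b ≠ d) :
    Cn G (({a, b, c, d} : Finset V).erase a) ∧ dg G {a, b, c, d} a = 2 := by
  classical
  have ea : ({a, b, c, d} : Finset V).erase a = {b, c, d} := by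
    rw [Finset.erase_insert]
    simp [hab.ne, nac, hda.ne']
  constructor
  · rw [ea]
    have ccd : Cn G ({c, d} : Finset V) := Cn.insert {d} d c (Cn.single d) (by simp) hcd
    exact Cn.insert {c, d} c b ccd (by simp) hbc
  · unfold dg
    rw [Finset.filter_insert, if_neg (G.loopless.irrefl _), Finset.filter_insert, if_pos hab,
      Finset.filter_insert, if_neg hac, Finset.filter_singleton, if_pos hda.symm,
      Finset.card_pair nbd]

lemma nice4 {a b c d : V} (hab : G.Adj a b) (hbc : G.Adj b c) (hcd : G.Adj c d)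
    (hda : G.Adj d a) (hac : ¬ G.Adj a c) (hbd : ¬ G.Adj b d) (nac : a ≠ c) (nbd : b ≠ d) :
    Nice G {a, b, c, d} := by
  classical
  have h1 := nice4_aux hab hbc hcd hda hac nac nbd
  have h2 := nice4_aux hbc hcd hda hab hbd nbd nac.symm
  have h3 := nice4_aux hcd hda hab hbc (fun h => hac h.symm) nac.symm nbd.symm
  have h4 := nice4_aux hda hab hbc hcd (fun h => hbd h.symm) nbd.symm nac
  have e2 : ({a, b, c, d} : Finset V) = {b, c, d, a} := rot4 a b c d
  have e3 : ({a, b, c, d} : Finset V) = {c, d, a, b} := e2.trans (rot4 b c d a)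
  have e4 : ({a, b, c, d} : Finset V) = {d, a, b, c} := e3.trans (rot4 c d a b)
  refine ⟨?_, ?_, ?_⟩
  · have ccd : Cn G ({c, d} : Finset V) := Cn.insert {d} d c (Cn.single d) (by simp) hcd
    exact Cn.insert {b, c, d} b a (Cn.insert {c, d} c b ccd (by simp) hbc) (by simp) hab
  · intro x hx
    simp only [Finset.mem_insert, Finset.mem_singleton] at hx
    rcases hx with rfl | rfl | rfl | rfl
    · exact h1.1
    · rw [e2]; exact h2.1
    · rw [e3]; exact h3.1
    · rw [e4]; exact h4.1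
  · intro x hx
    simp only [Finset.mem_insert, Finset.mem_singleton] at hx
    rcases hx with rfl | rfl | rfl | rfl
    · exact h1.2
    · rw [e2]; exact h2.2
    · rw [e3]; exact h3.2
    · rw [e4]; exact h4.2

/-- the case of an ear with at least two vertices, or a vertex which is not adjacent to
everything -/
lemma stepC [Fintype V] (h4 : ∀ v, deg G v = 4) {S C : Finset V} (hS : ∀ t ∈ S, Cn G (S.erase t))
    (hN : Nice G C) (hCS : C ⊆ S) (hC : 2 ≤ C.card) (hlt : C.card < S.card) :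
    (∃ K z a b, Good G K z a b) ∨ ∃ p ∈ S, p ∉ C ∧ ∀ c ∈ C, G.Adj p c := by
  classical
  rcases ear S C hS hCS hC hlt with ⟨p, hpS, hpC, z, hz, y, hy, hzy, hpz, hpy⟩ |
    ⟨P, q₁, q₂, z, y, hE⟩
  · by_cases hall : ∀ c ∈ C, G.Adj p c
    · exact Or.inr ⟨p, hpS, hpC, hall⟩
    · left
      push Not at hall
      obtain ⟨z', hz', b', hb', h1, h2, h3⟩ := leave hN.conn p ⟨z, hz, hpz⟩ hall
      -- another neighbour of p
      obtain ⟨y', hy', hy'z, hpy'⟩ : ∃ y' ∈ C, z' ≠ y' ∧ G.Adj p y' := by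
        by_cases h : z' = z
        · exact ⟨y, hy, by rw [h]; exact hzy, hpy⟩
        · exact ⟨z, hz, h, hpz⟩
      exact ⟨_, _, _, _, goodE h4 hN hpC hz' hy' hb' hy'z h1 hpy' h2 h3⟩
  · left
    obtain ⟨b, hb, hzb, hby⟩ := dg_two_nb (hN.two z hE.hz) y
    exact ⟨_, _, _, _, goodD h4 hE hN hb hzb hby⟩

end RegAux

open RegAux in
theorem tREG : T_REG := by
  classical
  intro V _ _ G hU hG h4 hcyc
  -- minimal set
  have hdegS : ∀ (S : Finset V) (v : V), v ∈ S → (∀ u, G.Adj v u → u ∈ S) → 5 ≤ S.card := by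
    intro S v hv hcl
    have h := h4 v
    unfold deg dg at h
    have hsub : insert v (Finset.univ.filter fun u => G.Adj v u) ⊆ S := by
      intro u hu
      rw [Finset.mem_insert, Finset.mem_filter] at hu
      rcases hu with rfl | hu
      · exact hv
      · exact hcl u hu.2
    have hc := Finset.card_le_card hsub
    rw [Finset.card_insert_of_notMem (by simp), h] at hc
    exact hc
  let Pr : ℕ → Prop := fun n => ∃ (S : Finset V) (s : V), S.card = n ∧ 2 ≤ S.card ∧ s ∈ S ∧
    ∀ v ∈ S, v ≠ s → ∀ u, G.Adj v u → u ∈ S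
  have hex : ∃ n, Pr n := by
    obtain ⟨v⟩ := hG.nonempty
    have := hdegS Finset.univ v (Finset.mem_univ _) (fun u _ => Finset.mem_univ _)
    exact ⟨_, Finset.univ, v, rfl, by omega, Finset.mem_univ _, fun _ _ _ u _ =>
      Finset.mem_univ _⟩
  obtain ⟨S, s, hcard, hS2, hsS, hScl⟩ := Nat.find_spec hex
  have hmin : ∀ (S' : Finset V) (s' : V), 2 ≤ S'.card → s' ∈ S' →
      (∀ v ∈ S', v ≠ s' → ∀ u, G.Adj v u → u ∈ S') → S.card ≤ S'.card := by
    intro S' s' h1 h2 h3
    rw [hcard]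
    exact Nat.find_min' hex ⟨S', s', rfl, h1, h2, h3⟩
  -- (a)
  have hSc : ∀ t ∈ S, Cn G (S.erase t) := by
    intro t ht
    have hne : (S.erase t).Nonempty := by
      rw [← Finset.card_pos, Finset.card_erase_of_mem ht]
      omega
    -- a closed proper part not containing s
    have noD : ∀ D ⊆ S.erase t, D.Nonempty → s ∉ D →
        (∀ u ∈ D, ∀ v ∈ S.erase t, G.Adj u v → v ∈ D) → S.erase t ⊆ D := by
      intro D hD hDne hsD hcl
      have htD : t ∉ D := fun h => (Finset.mem_erase.mp (hD h)).1 rfl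
      have h1 := hmin (insert t D) t (by
        rw [Finset.card_insert_of_notMem htD]
        have := Finset.card_pos.mpr hDne
        omega) (Finset.mem_insert_self _ _) (by
        intro v hv hvt u hvu
        rw [Finset.mem_insert] at hv
        rcases hv with rfl | hv
        · exact absurd rfl hvt
        · have hvS := (Finset.mem_erase.mp (hD hv)).2
          have hvs : v ≠ s := fun h => hsD (h ▸ hv)
          have huS := hScl v hvS hvs u hvu
          by_cases hut : u = t
          · rw [hut]; exact Finset.mem_insert_self _ _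
          · exact Finset.mem_insert_of_mem (hcl v hv u (Finset.mem_erase.mpr ⟨hut, huS⟩) hvu))
      rw [Finset.card_insert_of_notMem htD] at h1
      have h2 : D.card ≤ (S.erase t).card := Finset.card_le_card hD
      rw [Finset.card_erase_of_mem ht] at h2
      have h3 : D = S.erase t := Finset.eq_of_subset_of_card_le hD (by
        rw [Finset.card_erase_of_mem ht]; omega)
      rw [h3]
    apply cn_of_closed hne
    intro D hD hDne hcl
    by_cases hsD : s ∈ D
    · by_contra hnot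
      -- the complement
      have h5 := noD (S.erase t \ D) Finset.sdiff_subset (by
        rw [Finset.sdiff_nonempty]
        exact hnot) (fun h => (Finset.mem_sdiff.mp h).2 hsD) (by
        intro u hu v hv huv
        rw [Finset.mem_sdiff] at hu ⊢
        exact ⟨hv, fun hvD => hu.2 (hcl v hvD u hu.1 huv.symm)⟩)
      obtain ⟨x, hx⟩ := hDne
      exact (Finset.mem_sdiff.mp (h5 (hD hx))).2 hx
    · exact noD D hD hDne hsD hcl
  -- a vertex different from s
  obtain ⟨v, hvS, hvs⟩ := Finset.exists_mem_ne (by omega : 1 < S.card) s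
  have hS5 : 5 ≤ S.card := hdegS S v hvS (hScl v hvS hvs)
  -- triangles
  have tri : ∀ a b c, a ∈ S → b ∈ S → c ∈ S → G.Adj a b → G.Adj a c → G.Adj b c →
      ∃ K z a b, Good G K z a b := by
    intro a b c ha hb hc hab hac hbc
    have hsub : ({a, b, c} : Finset V) ⊆ S := by
      intro u hu
      simp only [Finset.mem_insert, Finset.mem_singleton] at hu
      rcases hu with rfl | rfl | rfl <;> assumption
    have hc3 : ({a, b, c} : Finset V).card = 3 :=
      Finset.card_eq_three.mpr ⟨a, b, c, hab.ne, hac.ne, hbc.ne, rfl⟩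
    rcases stepC h4 hSc (nice3 hab hac hbc) hsub (by omega) (by omega) with h | ⟨p, hpS, hpC, hp⟩
    · exact h
    -- K4
    have hpa := hp a (by simp)
    have hpb := hp b (by simp)
    have hpc := hp c (by simp)
    set Q : Finset V := insert p {a, b, c} with hQ
    have hQS : Q ⊆ S := Finset.insert_subset hpS hsub
    have hQc : Q.card = 4 := by rw [hQ, Finset.card_insert_of_notMem hpC, hc3]
    have hQadj : ∀ x ∈ Q, ∀ y ∈ Q, x ≠ y → G.Adj x y := by
      intro x hx y hy hxy
      rw [hQ] at hx hy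
      simp only [Finset.mem_insert, Finset.mem_singleton] at hx hy
      rcases hx with rfl | rfl | rfl | rfl <;> rcases hy with rfl | rfl | rfl | rfl <;>
        first
          | exact absurd rfl hxy
          | assumption
          | (apply SimpleGraph.Adj.symm; assumption)
    rcases ear S Q hSc hQS (by omega) (by omega) with
      ⟨p', hp'S, hp'Q, z, hz, y, hy, hzy, hpz, hpy⟩ | ⟨P, q₁, q₂, z, y, hE⟩
    · -- some vertex of Q is not adjacent to p'
      obtain ⟨q, hq, hpq⟩ : ∃ q ∈ Q, ¬ G.Adj p' q := by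
        by_contra hcon
        push Not at hcon
        have ka := hcon a (by rw [hQ]; simp)
        have kb := hcon b (by rw [hQ]; simp)
        have kc := hcon c (by rw [hQ]; simp)
        have kp := hcon p (by rw [hQ]; simp)
        have na : p' ≠ a := ka.ne
        have nb : p' ≠ b := kb.ne
        have nc : p' ≠ c := kc.ne
        have F1 : Five G a b c p p' := ⟨hab, hbc, hpc.symm, kp.symm, ka, hac.ne, hpa.ne', hpb.ne',
          nb.symm, nc.symm⟩
        have F2 : Five G a c b p p' := ⟨hac, hbc.symm, hpb.symm, kp.symm, ka, hab.ne, hpa.ne',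
          hpc.ne', nc.symm, nb.symm⟩
        rcases hU _ _ _ _ _ _ _ _ _ F1 F2 with h | h
        · exact hbc.ne h.1
        · exact nb h.1.symm
      have hqz : q ≠ z := fun h => hpq (h ▸ hpz)
      have hqy : q ≠ y := fun h => hpq (h ▸ hpy)
      have n3 := nice3 (hQadj z hz y hy hzy) (hQadj z hz q hq hqz.symm) (hQadj y hy q hq hqy.symm)
      refine ⟨_, _, _, _, goodE h4 n3 (p := p') (z := z) (y := y) (b := q) ?_ (by simp) (by simp)
        (by simp) hzy hpz hpy hpq (hQadj z hz q hq hqz.symm)⟩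
      intro h
      simp only [Finset.mem_insert, Finset.mem_singleton] at h
      rcases h with rfl | rfl | rfl
      · exact hp'Q hz
      · exact hp'Q hy
      · exact hp'Q hq
    · -- a third vertex
      obtain ⟨x, hx, hxz, hxy⟩ : ∃ x ∈ Q, x ≠ z ∧ x ≠ y := by
        by_contra hcon
        push Not at hcon
        have : Q ⊆ {z, y} := by
          intro x hx
          simp only [Finset.mem_insert, Finset.mem_singleton]
          by_cases h : x = z
          · exact Or.inl h
          · exact Or.inr (hcon x hx h)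
        have h6 := Finset.card_le_card this
        have h7 : ({z, y} : Finset V).card ≤ 2 := Finset.card_le_two
        omega
      have azy := hQadj z hE.hz y hE.hy hE.zy
      have azx := hQadj z hE.hz x hx hxz.symm
      have ayx := hQadj y hE.hy x hx hxy.symm
      have hsub3 : ({z, y, x} : Finset V) ⊆ Q := by
        intro u hu
        simp only [Finset.mem_insert, Finset.mem_singleton] at hu
        rcases hu with rfl | rfl | rfl
        · exact hE.hz
        · exact hE.hy
        · exact hx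
      have hE3 : Ear G {z, y, x} P q₁ q₂ z y :=
        ⟨fun u hu h => hE.disj u hu (hsub3 h), hE.hq₁, hE.hq₂, hE.ne, hE.conn, hE.conn₁,
          by simp, by simp, hE.zy, hE.az, hE.ay, fun c hc => hE.only₁ c (hsub3 hc), hE.only⟩
      exact ⟨_, _, _, _, goodD h4 hE3 (nice3 azy azx ayx) (by simp) azx hxy⟩
  rcases hcyc v with ⟨x, y, hvx, hvy, hxy⟩ | ⟨x, y, z, hvx, hxy, hyz, hzv, nvy, nxz⟩
  · exact tri v x y hvS (hScl v hvS hvs x hvx) (hScl v hvS hvs y hvy) hvx hvy hxy
  · have hxS := hScl v hvS hvs x hvx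
    have hzS := hScl v hvS hvs z hzv.symm
    have hyS : y ∈ S := by
      by_cases hxs : x = s
      · exact hScl z hzS (fun h => nxz (hxs.trans h.symm)) y hyz.symm
      · exact hScl x hxS hxs y hxy
    by_cases hvy : G.Adj v y
    · exact tri v x y hvS hxS hyS hvx hvy hxy
    by_cases hxz : G.Adj x z
    · exact tri v x z hvS hxS hzS hvx hzv.symm hxz
    have hsub : ({v, x, y, z} : Finset V) ⊆ S := by
      intro u hu
      simp only [Finset.mem_insert, Finset.mem_singleton] at hu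
      rcases hu with rfl | rfl | rfl | rfl <;> assumption
    have hc4 : ({v, x, y, z} : Finset V).card ≤ 4 := Finset.card_le_four
    have hc2 : 2 ≤ ({v, x, y, z} : Finset V).card :=
      Finset.one_lt_card.mpr ⟨v, by simp, x, by simp, hvx.ne⟩
    have hN := nice4 hvx hxy hyz hzv hvy hxz nvy nxz
    rcases stepC h4 hSc hN hsub hc2 (by omega) with h | ⟨p, hpS, hpC, hp⟩
    · exact h
    · -- p is adjacent to all of the 4-cycle
      have hpv := hp v (by simp)
      have hpx := hp x (by simp)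
      have hpy := hp y (by simp)
      have hpz := hp z (by simp)
      refine ⟨insert p {v, x, y, z}, v, x, z, ?_⟩
      refine ⟨fun u _ => h4 u, by simp, by simp, by simp, hvx, hzv.symm, nxz, hxz, ?_, ?_, ?_⟩
      · have h2 := hN.two v (by simp)
        unfold dg at h2 ⊢
        rw [Finset.filter_insert, if_pos hpv.symm, Finset.card_insert_of_notMem, h2]
        intro h
        exact hpC (Finset.mem_filter.mp h).1
      · rw [Finset.erase_insert_of_ne hpv.ne]
        exact Cn.insert _ x p (hN.conn' v (by simp)) (Finset.mem_erase.mpr ⟨hvx.ne', by simp⟩) hpx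
      · have e : ((insert p ({v, x, y, z} : Finset V)).erase x).erase z = {v, y, p} := by
          ext u
          simp only [Finset.mem_erase, Finset.mem_insert, Finset.mem_singleton]
          constructor
          · rintro ⟨h1, h2, h3 | h3 | h3 | h3 | h3⟩
            · exact Or.inr (Or.inr h3)
            · exact Or.inl h3
            · exact absurd h3 h2
            · exact Or.inr (Or.inl h3)
            · exact absurd h3 h1
          · rintro (h | h | h)
            · subst h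
              exact ⟨hzv.ne', hvx.ne, Or.inr (Or.inl rfl)⟩
            · subst h
              exact ⟨hyz.ne, hxy.ne', Or.inr (Or.inr (Or.inr (Or.inl rfl)))⟩
            · subst h
              exact ⟨hpz.ne, hpx.ne, Or.inl rfl⟩
        rw [e]
        have c1 : Cn G ({y, p} : Finset V) := Cn.insert {p} p y (Cn.single p) (by simp) hpy.symm
        exact Cn.insert {y, p} p v c1 (by simp) hpv.symm

end Pool.Agent.TorDeg
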