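import Pool.Agent.TorDeg.Targets

set_option autoImplicit false

/-!
# TOR-RES: play on `B` first
-/

namespace Pool.Agent.TorDeg

namespace RES

variable {V C : Type}

theorem res_le (H : SimpleGraph (V × C)) (g : V × C → ℕ) (x y : V × C) : res H g x y ≤ g y := by
  classical
  unfold res
  split_ifs
  · exact Nat.sub_le _ _
  · exact le_rfl

theorem res_of_not (H : SimpleGraph (V × C)) (g : V × C → ℕ) (x y : V × C) (h : ¬ H.Adj x y) :
    res H g x y = g y := by
  classical
  unfold res
  rw [if_neg h]

theorem res_ge (H : SimpleGraph (V × C)) (g : V × C → ℕ) (x y : V × C) :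
    g y ≤ res H g x y + 1 := by
  classical
  unfold res
  split_ifs <;> omega

theorem sm_not_adj [Fintype C] (G : SimpleGraph V) (H : SimpleGraph (V × C)) (hc : Cov G H)
    (g : V × C → ℕ) (v w : V) (i : C) (h : ¬ G.Adj v w) :
    sm (res H g (v, i)) w = sm g w := by
  unfold sm
  refine Finset.sum_congr rfl (fun j _ => ?_)
  exact res_of_not H g _ _ (fun hj => h (hc.adj _ _ _ _ hj))

theorem sm_adj [Fintype C] (G : SimpleGraph V) (H : SimpleGraph (V × C)) (hc : Cov G H)
    (g : V × C → ℕ) (v w : V) (i : C) : sm g w ≤ sm (res H g (v, i)) w + 1 := by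
  classical
  by_cases h : ∃ j, H.Adj (v, i) (w, j)
  · obtain ⟨j, hj⟩ := h
    unfold sm
    rw [← Finset.add_sum_erase Finset.univ _ (Finset.mem_univ j),
      ← Finset.add_sum_erase Finset.univ (fun i_1 => res H g (v, i) (w, i_1)) (Finset.mem_univ j)]
    have h1 : ∑ x ∈ Finset.univ.erase j, g (w, x)
        = ∑ x ∈ Finset.univ.erase j, res H g (v, i) (w, x) := by
      refine Finset.sum_congr rfl (fun x hx => ?_)
      refine (res_of_not H g _ _ (fun hx' => ?_)).symm
      exact (Finset.mem_erase.mp hx).1 (hc.mat _ _ _ _ _ hx' hj)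
    have h2 := res_ge H g (v, i) (w, j)
    rw [h1]
    omega
  · have h1 : sm (res H g (v, i)) w = sm g w := by
      unfold sm
      refine Finset.sum_congr rfl (fun j _ => ?_)
      exact res_of_not H g _ _ (fun hj => h ⟨j, hj⟩)
    omega

theorem dg_erase [DecidableEq V] (G : SimpleGraph V) (A : Finset V) (v w : V) (hv : v ∈ A)
    (h : G.Adj w v) : dg G A w = dg G (A.erase v) w + 1 := by
  classical
  unfold dg
  have h1 : (A.filter fun u => G.Adj w u) = insert v ((A.erase v).filter fun u => G.Adj w u) := by
    ext u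
    simp only [Finset.mem_filter, Finset.mem_insert, Finset.mem_erase]
    constructor
    · rintro ⟨h1, h2⟩
      by_cases huv : u = v
      · exact Or.inl huv
      · exact Or.inr ⟨⟨huv, h1⟩, h2⟩
    · rintro (rfl | ⟨⟨_, h1⟩, h2⟩)
      · exact ⟨hv, h⟩
      · exact ⟨h1, h2⟩
  rw [h1, Finset.card_insert_of_notMem]
  simp

theorem dg_erase' [DecidableEq V] (G : SimpleGraph V) (A : Finset V) (v w : V) :
    dg G (A.erase v) w ≤ dg G A w := by
  classical
  unfold dg
  exact Finset.card_le_card (Finset.filter_subset_filter _ (Finset.erase_subset _ _))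

end RES

open RES

theorem tRES : T_RES := by
  intro V C _ _ G H hc B K g hd hw
  induction hw with
  | nil g =>
    refine ⟨g, fun _ => le_rfl, fun v _ => Nat.le_add_right _ _, fun h => ?_⟩
    rwa [Finset.empty_union]
  | step A g v i hv hg h ih =>
    obtain ⟨g', h1, h2, h3⟩ := ih (hd.mono_left (Finset.erase_subset _ _))
    refine ⟨g', fun x => (h1 x).trans (res_le H g _ x), fun w hw => ?_, fun hK => ?_⟩
    · have h4 := h2 w hw
      by_cases ha : G.Adj w v
      · have h5 := dg_erase G A v w hv ha
        have h6 := sm_adj G H hc g v w i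
        omega
      · have h5 := dg_erase' G A v w
        have h6 := sm_not_adj G H hc g v w i (fun hh => ha hh.symm)
        omega
    · refine Win.step _ g v i (Finset.mem_union_left _ hv) hg ?_
      have hvK : v ∉ K := Finset.disjoint_left.mp hd hv
      have e : (A ∪ K).erase v = A.erase v ∪ K := by
        rw [Finset.erase_union_distrib, Finset.erase_eq_of_notMem hvK]
      rw [e]
      exact h3 hK

end Pool.Agent.TorDeg
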