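import Pool.Agent.TorDeg.Targets

set_option autoImplicit false

/-!
# TOR-RET: first return permutations
-/

namespace Pool.Agent.TorDeg

theorem tRET : T_RET := by
  classical
  intro D D' _ ι hι σ'
  haveI : Finite D := Finite.of_injective ι hι
  have hex : ∀ d : D, ∃ n : ℕ, 0 < n ∧ (σ' ^ n) (ι d) ∈ Set.range ι := by
    intro d
    refine ⟨orderOf σ', orderOf_pos σ', d, ?_⟩
    rw [pow_orderOf_eq_one]
    rfl
  let N : D → ℕ := fun d => Nat.find (hex d)
  have hN1 : ∀ d, 0 < N d := fun d => (Nat.find_spec (hex d)).1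
  have hN2 : ∀ d, (σ' ^ N d) (ι d) ∈ Set.range ι := fun d => (Nat.find_spec (hex d)).2
  have hN3 : ∀ d j, 0 < j → j < N d → (σ' ^ j) (ι d) ∉ Set.range ι := by
    intro d j hj hjN hr
    exact Nat.find_min (hex d) hjN ⟨hj, hr⟩
  choose s hs using hN2
  have aux : ∀ d e, N d ≤ N e → s d = s e → d = e := by
    intro d e hle hse
    have h1 : (σ' ^ N d) (ι d) = (σ' ^ N e) (ι e) := by
      rw [← hs d, ← hs e, hse]
    have h2 : (σ' ^ N e) (ι e) = (σ' ^ N d) ((σ' ^ (N e - N d)) (ι e)) := by
      rw [← Equiv.Perm.mul_apply, ← pow_add, Nat.add_sub_cancel' hle]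
    rw [h2] at h1
    have h3 := (σ' ^ N d).injective h1
    rcases Nat.eq_zero_or_pos (N e - N d) with h0 | h0
    · rw [h0] at h3
      exact hι h3
    · have h4 := hN1 d
      have h5 := hN1 e
      exact absurd ⟨d, h3⟩ (hN3 e (N e - N d) h0 (by omega))
  have hinj : Function.Injective s := by
    intro d e hse
    rcases le_total (N d) (N e) with h | h
    · exact aux d e h hse
    · exact (aux e d h hse.symm).symm
  refine ⟨Equiv.ofBijective s (Finite.injective_iff_bijective.mp hinj), fun d =>
    ⟨N d, hN1 d, hs d, hN3 d⟩⟩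

theorem tSUBR (h : T_RET) : T_SUBR := by
  intro V V' _ G G' φ σ' hφ hrot
  have hinj : Function.Injective φ.mapDart := by
    intro d e hde
    have h1 : φ d.fst = φ e.fst := congrArg (fun x : G'.Dart => x.fst) hde
    have h2 : φ d.snd = φ e.snd := congrArg (fun x : G'.Dart => x.snd) hde
    apply SimpleGraph.Dart.ext
    exact Prod.ext (hφ h1) (hφ h2)
  haveI : Finite G'.Dart := Finite.of_injective (fun d : G'.Dart => d.toProd)
    (fun d e hde => SimpleGraph.Dart.ext _ _ hde)
  obtain ⟨σ, hσ⟩ := h G.Dart G'.Dart φ.mapDart hinj σ'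
  refine ⟨σ, hσ, ?_, ?_⟩
  · intro d
    obtain ⟨n, _, hn, _⟩ := hσ d
    apply hφ
    have h1 : ∀ m : ℕ, ∀ e : G'.Dart, ((σ' ^ m) e).fst = e.fst := by
      intro m
      induction m with
      | zero => intro e; rfl
      | succ m ih =>
        intro e
        rw [pow_succ, Equiv.Perm.mul_apply, ih, hrot.fst]
    have h2 : (φ.mapDart (σ d)).fst = (φ.mapDart d).fst := by
      rw [hn, h1]
    exact h2
  · intro d e hde
    have h1 : (φ.mapDart d).fst = (φ.mapDart e).fst := congrArg φ hde
    obtain ⟨k, hk⟩ := (hrot.cyc _ _ h1).exists_nat_pow_eq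
    have key : ∀ k : ℕ, ∀ d : G.Dart, (σ' ^ k) (φ.mapDart d) = φ.mapDart e →
        σ.SameCycle d e := by
      intro k
      induction k using Nat.strong_induction_on with
      | _ k ih =>
        intro d hd
        rcases Nat.eq_zero_or_pos k with h0 | h0
        · subst h0
          have h2 : d = e := hinj hd
          rw [h2]
        · obtain ⟨n, hn0, hn, hmin⟩ := hσ d
          have hnk : n ≤ k := by
            by_contra hlt
            push Not at hlt
            exact hmin k h0 hlt ⟨e, hd.symm⟩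
          have h3 : (σ' ^ (k - n)) (φ.mapDart (σ d)) = φ.mapDart e := by
            rw [hn, ← Equiv.Perm.mul_apply, ← pow_add, Nat.sub_add_cancel hnk, hd]
          exact Equiv.Perm.sameCycle_apply_left.mp (ih (k - n) (by omega) (σ d) h3)
    exact key k d hk

end Pool.Agent.TorDeg
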