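import Pool.Agent.TorDeg.Targets

set_option autoImplicit false

/-!
# T34: if all degrees are 4 then every vertex is on a triangle or on a 4-face
-/

namespace Pool.Agent.TorDeg

namespace T34Aux

theorem wt_cases {j : ℕ} (h : 3 ≤ j) : (j = 3 ∧ wt j = -10) ∨ (j = 4 ∧ wt j = 0) ∨
    (j = 5 ∧ wt j = 6) ∨ (6 ≤ j ∧ wt j = 10) := by
  unfold wt
  rcases Nat.lt_or_ge j 6 with h6 | h6
  · interval_cases j <;> simp
  · refine Or.inr (Or.inr (Or.inr ⟨h6, ?_⟩))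
    rw [if_neg (by omega), if_neg (by omega), if_neg (by omega)]

theorem four_sum {a b c d : ℕ} (ha : 3 ≤ a) (hb : 3 ≤ b) (hc : 3 ≤ c) (hd : 3 ≤ d)
    (t1 : ¬ (a = 3 ∧ b = 3 ∧ c = 3)) (t2 : ¬ (b = 3 ∧ c = 3 ∧ d = 3))
    (t3 : ¬ (c = 3 ∧ d = 3 ∧ a = 3)) (t4 : ¬ (d = 3 ∧ a = 3 ∧ b = 3))
    (p1 : a = 3 → b = 3 ∨ 6 ≤ b) (p2 : b = 3 → c = 3 ∨ 6 ≤ c) (p3 : c = 3 → d = 3 ∨ 6 ≤ d)
    (p4 : d = 3 → a = 3 ∨ 6 ≤ a)
    (q1 : b = 3 → a = 3 ∨ 6 ≤ a) (q2 : c = 3 → b = 3 ∨ 6 ≤ b) (q3 : d = 3 → c = 3 ∨ 6 ≤ c)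
    (q4 : a = 3 → d = 3 ∨ 6 ≤ d) :
    0 ≤ wt a + wt b + wt c + wt d ∧
      (5 ≤ a → 5 ≤ b → 5 ≤ c → 5 ≤ d → 0 < wt a + wt b + wt c + wt d) := by
  rcases wt_cases ha with ⟨a1, a2⟩ | ⟨a1, a2⟩ | ⟨a1, a2⟩ | ⟨a1, a2⟩ <;>
  rcases wt_cases hb with ⟨b1, b2⟩ | ⟨b1, b2⟩ | ⟨b1, b2⟩ | ⟨b1, b2⟩ <;>
  rw [a2, b2] <;> try (exfalso; omega)
  all_goals
    rcases wt_cases hc with ⟨c1, c2⟩ | ⟨c1, c2⟩ | ⟨c1, c2⟩ | ⟨c1, c2⟩ <;>
    rcases wt_cases hd with ⟨d1, d2⟩ | ⟨d1, d2⟩ | ⟨d1, d2⟩ | ⟨d1, d2⟩ <;>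
    rw [c2, d2] <;> first | (exfalso; omega) | (constructor <;> intros <;> omega)

end T34Aux

open T34Aux in
theorem tT34 (hS : T_S4) (hN : T_NX) (h3 : T_F3) (_h4 : T_F4) (h5 : T_F5) (hT : T_TTT)
    (hTQ : T_TQ) (hQT : T_QT) (hFX : T_FANX) (h0 : T_F0) (h6 : T_R6) (hR : T_R3) : T_T34 := by
  intro V _ _ G nx k hC hdeg v
  obtain ⟨M, hU, hI⟩ := hC
  have hd : ∀ v, 4 ≤ deg G v := fun v => (hdeg v).ge
  -- three triangles
  have rA : ∀ v m, G.Adj v m → ¬ (k v m = 3 ∧ k v (nx v m) = 3 ∧ k v (nx v (nx v m)) = 3) := by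
    rintro v m hm ⟨k1, k2, k3⟩
    obtain ⟨-, -, -, p, hp, hpm⟩ := hN V G nx k M hd v m hm
    have hf := hT V G nx k M hd v p m _ _ hp hpm.symm rfl rfl k1 k2 k3
    obtain ⟨-, e2, e3, e4, -, e6, e7, -, -, e10, -, -, e13⟩ :=
      hFX V G hU v p m _ _ hf hm (M.adj v m hm)
    exact h0 V G hI.good v m _ _ e2 e3 e4 e6 e7 e10 e13 (hdeg _) (hdeg _) (hdeg _) (hdeg _)
  -- a triangle followed by another face
  have rB : ∀ v m, G.Adj v m → k v m = 3 → k v (nx v m) = 3 ∨ 6 ≤ k v (nx v m) := by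
    intro v m hm k1
    obtain ⟨-, -, -, p, hp, hpm⟩ := hN V G nx k M hd v m hm
    have hma : G.Adj v (nx v m) := M.adj v m hm
    have ha3 := M.three v _ hma
    by_contra hcon
    push Not at hcon
    have hcase : k v (nx v m) = 4 ∨ k v (nx v m) = 5 := by omega
    rcases hcase with k2 | k2
    · have hf := hTQ V G nx k M hd v p m _ hp hpm.symm rfl k1 k2
      exact h6 V G hU hI.good _ _ _ _ _ hf hm (hdeg _) (hdeg _) (hdeg _) (hdeg _) (hdeg _)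
    · obtain ⟨f1, f2, f3, -, -, -, -⟩ := h5 V G nx k M hd v (nx v m) _ _ _ hma k2 rfl rfl rfl
      obtain ⟨a1, a2, a3, a4, -, -⟩ := h3 V G nx k M hd v m _ hm k1 rfl
      have hmp : nx m v = p := M.inj v _ _ a2.symm hp (a4.trans hpm.symm)
      have hmm := M.inj v _ _ f1.2.2.2.2.1.symm hm f3
      rw [hmm] at f1 f2
      obtain ⟨g1, g2, g3, g4, g5, n1, n2, n3, n4, n5⟩ := f1
      rw [hmp] at a1 a2
      refine hR V G hU hI.good m v _ _ _ p ⟨g5, g1, g2, g3, g4, n4.symm, n5.symm, n1, n2, n3⟩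
        a1.symm a2 ?_ ?_ (hdeg _) (hdeg _) (hdeg _) (hdeg _) (hdeg _) (hdeg _)
      · intro e
        have := (hN V G nx k M hd v p hp).2.1
        rw [hpm] at this
        exact this e.symm
      · intro e
        rw [← e] at f2
        have := (hN V G nx k M hd m v hm.symm).2.1
        rw [hmp] at this
        exact this f2
  -- a triangle preceded by another face
  have rC : ∀ v m, G.Adj v m → k v (nx v m) = 3 → k v m = 3 ∨ 6 ≤ k v m := by
    intro v m hm k1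
    obtain ⟨-, n2, -, p, hp, hpm⟩ := hN V G nx k M hd v m hm
    have hma : G.Adj v (nx v m) := M.adj v m hm
    have ha3 := M.three v _ hm
    by_contra hcon
    push Not at hcon
    have hcase : k v m = 4 ∨ k v m = 5 := by omega
    rcases hcase with k2 | k2
    · obtain ⟨g1, g2, g3, g4, g5, n1, n2, n3, n4, n5⟩ :=
        hQT V G nx k M hd v p m _ hp hpm.symm rfl k2 k1
      exact h6 V G hU hI.good v (nx v m) m _ p
        ⟨g5.symm, g4.symm, g3.symm, g2.symm, g1.symm, n2, n1, n5.symm, n4.symm, n3.symm⟩ hm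
        (hdeg _) (hdeg _) (hdeg _) (hdeg _) (hdeg _)
    · obtain ⟨f1, f2, f3, -, -, -, -⟩ := h5 V G nx k M hd v m _ _ _ hm k2 rfl rfl rfl
      obtain ⟨a1, a2, a3, a4, -, -⟩ := h3 V G nx k M hd v (nx v m) _ hma k1 rfl
      have hmp : nx (nx v m) v = m := M.inj v _ _ a2.symm hm a4
      rw [hmp] at a1 a2 a3
      have hpp := M.inj v _ _ f1.2.2.2.2.1.symm hp (f3.trans hpm.symm)
      refine hR V G hU hI.good v m _ _ _ (nx v m) f1
        hma.symm a1 ?_ ?_ (hdeg _) (hdeg _) (hdeg _) (hdeg _) (hdeg _) (hdeg _)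
      · intro e
        have := (hN V G nx k M hd m v hm.symm).2.1
        rw [← e] at this
        exact this a3
      · rw [hpp]
        intro e
        have := (hN V G nx k M hd v p hp).2.1
        rw [hpm] at this
        exact this e
  -- the sums at the vertices
  have key : ∀ v, 0 ≤ ∑ u ∈ nb G v, wt (k v u) ∧
      ((∀ m, G.Adj v m → 5 ≤ k v m) → 0 < ∑ u ∈ nb G v, wt (k v u)) := by
    intro v
    have hne : ∃ m, G.Adj v m := by
      by_contra hc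
      push Not at hc
      have h4 : deg G v = 0 := by
        classical
        unfold deg dg
        exact Finset.card_eq_zero.mpr (Finset.filter_eq_empty_iff.mpr fun u _ => hc u)
      have := hdeg v
      omega
    obtain ⟨m, hm⟩ := hne
    obtain ⟨s1, s2⟩ := hS V G nx k M v m hm (hdeg v)
    have hm1 := M.adj v m hm
    have hm2 := M.adj v _ hm1
    have hm3 := M.adj v _ hm2
    rw [s2 fun u => wt (k v u)]
    have A0 := rA v _ hm
    have A1 := rA v _ hm1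
    have A2 := rA v _ hm2
    have A3 := rA v _ hm3
    have B0 := rB v _ hm
    have B1 := rB v _ hm1
    have B2 := rB v _ hm2
    have B3 := rB v _ hm3
    have C0 := rC v _ hm
    have C1 := rC v _ hm1
    have C2 := rC v _ hm2
    have C3 := rC v _ hm3
    rw [s1] at A2 A3 B3 C3
    obtain ⟨r1, r2⟩ := four_sum (M.three v _ hm) (M.three v _ hm1) (M.three v _ hm2)
      (M.three v _ hm3) A0 A1 A2 A3 B0 B1 B2 B3 C0 C1 C2 C3
    exact ⟨r1, fun hh => r2 (hh _ hm) (hh _ hm1) (hh _ hm2) (hh _ hm3)⟩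
  by_contra hcon
  push Not at hcon
  have hv := (key v).2 fun m hm => hcon m hm
  have htot := M.total
  have h1 : ∑ v, (30 * ((deg G v : ℤ) - 4) + ∑ u ∈ nb G v, wt (k v u)) =
      ∑ v, ∑ u ∈ nb G v, wt (k v u) := by
    refine Finset.sum_congr rfl fun v _ => ?_
    rw [hdeg v]
    norm_num
  rw [h1] at htot
  have h2 : 0 < ∑ v, ∑ u ∈ nb G v, wt (k v u) :=
    Finset.sum_pos' (fun v _ => (key v).1) ⟨v, Finset.mem_univ v, hv⟩
  omega

end Pool.Agent.TorDeg
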