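import Pool.Agent.TorDeg.GameLem

set_option autoImplicit false

/-!
# TOR-TH10 (helper43)
-/

namespace Pool.Agent.TorDeg

open Gm

/-- four vertices: triangle `a d e` and the pendant vertex `b` at `a`, with a surplus -/
theorem Gm.g4 {V C : Type} [DecidableEq V] [Fintype C] (hG : T_GREEDY) {G : SimpleGraph V}
    {H : SimpleGraph (V × C)} (hc : Cov G H) (g : V × C → ℕ) {a b d e : V}
    (hab : G.Adj a b) (had : G.Adj a d) (hae : G.Adj a e) (hbd : ¬ G.Adj b d)
    (hbe : ¬ G.Adj b e) (h1 : 3 ≤ sm g a) (h2 : 1 ≤ sm g b) (h3 : 2 ≤ sm g d)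
    (h4 : 2 ≤ sm g e) (h5 : 9 ≤ sm g a + sm g b + sm g d + sm g e) : Win H {a, b, d, e} g := by
  have hcn : Cn G ({a, b, d, e} : Finset V) := by
    rw [s4_2, s3_2]
    exact Cn.insert _ a b (Cn.insert _ a d (Cn.insert {e} e a (Cn.single e) (by simp) hae)
      (by simp) had.symm) (by simp) hab.symm
  have da : dg G {a, b, d, e} a ≤ 3 := by
    refine (dg_le_card {b, d, e} ?_).trans Finset.card_le_three
    intro u hu ha
    simp only [Finset.mem_insert, Finset.mem_singleton] at hu ⊢
    rcases hu with rfl | rfl | rfl | rfl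
    · exact absurd ha (G.irrefl)
    all_goals simp
  have db : dg G {a, b, d, e} b ≤ 1 := by
    refine (dg_le_card {a} ?_).trans (Finset.card_singleton a).le
    intro u hu ha
    simp only [Finset.mem_insert, Finset.mem_singleton] at hu ⊢
    rcases hu with rfl | rfl | rfl | rfl
    · rfl
    · exact absurd ha (G.irrefl)
    · exact absurd ha hbd
    · exact absurd ha hbe
  have dd : dg G {a, b, d, e} d ≤ 2 := by
    refine (dg_le_card {a, e} ?_).trans Finset.card_le_two
    intro u hu ha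
    simp only [Finset.mem_insert, Finset.mem_singleton] at hu ⊢
    rcases hu with rfl | rfl | rfl | rfl
    · simp
    · exact absurd ha.symm hbd
    · exact absurd ha (G.irrefl)
    · simp
  have de : dg G {a, b, d, e} e ≤ 2 := by
    refine (dg_le_card {a, d} ?_).trans Finset.card_le_two
    intro u hu ha
    simp only [Finset.mem_insert, Finset.mem_singleton] at hu ⊢
    rcases hu with rfl | rfl | rfl | rfl
    · simp
    · exact absurd ha.symm hbe
    · simp
    · exact absurd ha (G.irrefl)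
  refine hG V C G H hc {a, b, d, e} g hcn ?_ ?_
  · intro v hv
    simp only [Finset.mem_insert, Finset.mem_singleton] at hv
    rcases hv with rfl | rfl | rfl | rfl
    all_goals omega
  · by_contra hcon
    push Not at hcon
    have e1 := hcon a (by simp)
    have e2 := hcon b (by simp)
    have e3 := hcon d (by simp)
    have e4 := hcon e (by simp)
    omega

theorem tTH10 (hG : T_GREEDY) (_hM : T_MONO) : T_TH10 := by
  intro V C _ _ G H hc g a b c d e hg2 hF ha hb hcc hd he
  obtain ⟨hab, hac, had, hae, hbc, hcd, hde, hbd, hbe, hce, nbd, nbe, nce⟩ := hF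
  by_contra hl
  -- distinctness
  have nab := hab.ne
  have nac := hac.ne
  have nad := had.ne
  have nae := hae.ne
  have nbc := hbc.ne
  have ncd := hcd.ne
  have nde := hde.ne
  -- after a move at `c`
  have Lc : ∀ q, 0 < g (c, q) → ¬ Win H {a, b, d, e} (res H g (c, q)) := by
    intro q hq hw
    exact hl (play c q {a, b, d, e} (s5_3 a b c d e) (not4 nac.symm nbc.symm ncd nce) hq hw)
  have Sc : ∀ q, 0 < g (c, q) → sm (res H g (c, q)) a = 3 ∧ sm (res H g (c, q)) b = 1 ∧
      sm (res H g (c, q)) d = 2 ∧ sm g e = 2 ∧ sm g a = 4 ∧ sm g b = 2 ∧ sm g d = 3 := by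
    intro q hq
    have s1 := sm_res_ge hc g c a q
    have s2 := sm_res_ge hc g c b q
    have s3 := sm_res_ge hc g c d q
    have s4 := sm_res_nadj hc g q hce
    have key : sm (res H g (c, q)) a + sm (res H g (c, q)) b + sm (res H g (c, q)) d
        + sm (res H g (c, q)) e < 9 := by
      by_contra hcon
      push Not at hcon
      exact Lc q hq (g4 hG hc _ hab had hae hbd hbe (by omega) (by omega) (by omega) (by omega)
        hcon)
    refine ⟨by omega, by omega, by omega, by omega, by omega, by omega, by omega⟩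
  obtain ⟨q, hq⟩ := exists_pos (g := g) (v := c) (by omega)
  obtain ⟨sa', sb', sd', se, sa, sb, sd⟩ := Sc q hq
  -- after moves at `c` and `b`
  have T : ∀ q, 0 < g (c, q) → ∃ b', 0 < res H g (c, q) (b, b') ∧
      ¬ Win H {a, d, e} (res H (res H g (c, q)) (b, b')) ∧
      2 ≤ sm (res H (res H g (c, q)) (b, b')) a := by
    intro q hq
    obtain ⟨ra, rb, rd, -, -, -, -⟩ := Sc q hq
    obtain ⟨b', hb'⟩ := exists_pos (g := res H g (c, q)) (v := b) (by omega)
    refine ⟨b', hb', fun hw => ?_, ?_⟩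
    · exact Lc q hq (play b b' {a, d, e} (s4_2 a b d e) (not3 nab.symm nbd nbe) hb' hw)
    · have := sm_res_ge hc (res H g (c, q)) b a b'
      omega
  -- `d` and `e` are matched after a move at `c`
  have De : ∀ q, 0 < g (c, q) → ∀ s, 0 < res H g (c, q) (d, s) →
      ∃ t, H.Adj (d, s) (e, t) ∧ 0 < g (e, t) := by
    intro q hq s hs
    obtain ⟨b', hb', hw, h2⟩ := T q hq
    obtain ⟨ra, rb, rd, re, -, -, -⟩ := Sc q hq
    have v1 : ∀ j, res H (res H g (c, q)) (b, b') (d, j) = res H g (c, q) (d, j) :=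
      fun j => res_not (nadj hc b' j hbd)
    have v2 : ∀ j, res H (res H g (c, q)) (b, b') (e, j) = g (e, j) := fun j => by
      rw [res_not (nadj hc b' j hbe), res_not (nadj hc q j hce)]
    have w1 : sm (res H (res H g (c, q)) (b, b')) d = 2 := by rw [sm_congr v1, rd]
    have w2 : sm (res H (res H g (c, q)) (b, b')) e = 2 := by rw [sm_congr v2, re]
    have hw' : ¬ Win H {d, a, e} (res H (res H g (c, q)) (b, b')) := by
      rwa [Finset.insert_comm] at hw
    obtain ⟨-, t, ht, ht'⟩ := tri hG hc had.symm hde hae (by omega) (by omega) hw'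
      (i := s) (by rw [v1]; exact hs)
    exact ⟨t, ht, by rwa [v2] at ht'⟩
  have Ed : ∀ q, 0 < g (c, q) → ∀ t, 0 < g (e, t) →
      ∃ s, H.Adj (e, t) (d, s) ∧ 0 < res H g (c, q) (d, s) := by
    intro q hq t ht
    obtain ⟨b', hb', hw, h2⟩ := T q hq
    obtain ⟨ra, rb, rd, re, -, -, -⟩ := Sc q hq
    have v1 : ∀ j, res H (res H g (c, q)) (b, b') (d, j) = res H g (c, q) (d, j) :=
      fun j => res_not (nadj hc b' j hbd)
    have v2 : ∀ j, res H (res H g (c, q)) (b, b') (e, j) = g (e, j) := fun j => by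
      rw [res_not (nadj hc b' j hbe), res_not (nadj hc q j hce)]
    have w1 : sm (res H (res H g (c, q)) (b, b')) d = 2 := by rw [sm_congr v1, rd]
    have w2 : sm (res H (res H g (c, q)) (b, b')) e = 2 := by rw [sm_congr v2, re]
    have hw' : ¬ Win H {e, d, a} (res H (res H g (c, q)) (b, b')) := by
      rwa [rev3]
    obtain ⟨⟨s, hs, hs'⟩, -⟩ := tri hG hc hde.symm hae.symm had.symm (by omega) (by omega) hw'
      (i := t) (by rw [v2]; exact ht)
    exact ⟨s, hs, by rwa [v1] at hs'⟩
  -- mates of the colours of `c`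
  have Mc : ∀ q, 0 < g (c, q) → (∃ n, H.Adj (c, q) (a, n) ∧ 0 < g (a, n)) ∧
      (∃ n, H.Adj (c, q) (b, n) ∧ 0 < g (b, n)) ∧ (∃ n, H.Adj (c, q) (d, n) ∧ 0 < g (d, n)) := by
    intro q hq
    obtain ⟨ra, rb, rd, -, -, -, -⟩ := Sc q hq
    exact ⟨mate_of_lt (by omega), mate_of_lt (by omega), mate_of_lt (by omega)⟩
  obtain ⟨⟨n1, hn1, gn1⟩, ⟨b1, hb1, gb1⟩, ⟨d1, hd1, gd1⟩⟩ := Mc q hq
  -- case 1: two colours at `c`
  have one : ∀ p, 0 < g (c, p) → p = q := by
    intro p hp
    by_contra hpq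
    obtain ⟨-, -, ⟨x, hx, gx⟩⟩ := Mc p hp
    have hne : d1 ≠ x := by
      rintro rfl
      exact hpq (hc.mat _ _ _ _ _ hx.symm hd1.symm)
    have two : ∀ q1 q2 x1 x2, 0 < g (c, q1) → 0 < g (c, q2) → H.Adj (c, q1) (d, x1) →
        H.Adj (c, q2) (d, x2) → x1 ≠ x2 → 0 < g (d, x1) → 2 ≤ g (d, x1) := by
      intro q1 q2 x1 x2 p1 p2 a1 a2 hx12 gx1
      have v1 : res H g (c, q2) (d, x1) = g (d, x1) := res_not (nmat hc a2 hx12)
      obtain ⟨t, ht, ht'⟩ := De q2 p2 x1 (by rw [v1]; exact gx1)
      obtain ⟨s, hs, hs'⟩ := Ed q1 p1 t ht'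
      have : s = x1 := hc.mat _ _ _ _ _ hs ht.symm
      rw [this, res_adj a1] at hs'
      omega
    have t1 := two q p d1 x hq hp hd1 hx hne gd1
    have t2 := two p q x d1 hp hq hx hd1 hne.symm gx
    have := two_le_sm (g := g) (v := d) hne
    omega
  have gcq : g (c, q) = 2 := by
    have h1 := hg2 (c, q)
    rcases Nat.lt_or_ge (g (c, q)) (sm g c) with h | h
    · obtain ⟨p, hp, hp'⟩ := exists_pos_ne h
      exact absurd (one p hp') hp
    · omega
  -- step A: `d1` has a mate at `e`
  obtain ⟨e1, he1, ge1⟩ : ∃ t, H.Adj (d, d1) (e, t) ∧ 0 < g (e, t) := by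
    by_contra hcon
    push Not at hcon
    have r1 : sm (res H g (d, d1)) e = sm g e :=
      sm_res_nomate H g fun j hj => by have := hcon j hj; omega
    have r2 := sm_res_ge hc g d a d1
    have r3 : sm (res H g (d, d1)) b = sm g b := sm_res_nadj hc g d1 fun h => hbd h.symm
    have r4 : res H g (d, d1) (c, q) = 1 := by rw [res_adj hd1.symm, gcq]
    set g1 := res H g (d, d1) with hg1
    have r5 := sm_res_ge hc g1 c a q
    have r6 := sm_res_ge hc g1 c b q
    have r7 : sm (res H g1 (c, q)) e = sm g1 e := sm_res_nadj hc g1 q hce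
    have w : Win H {a, b, e} (res H g1 (c, q)) :=
      g3' hG hc _ hab hae hbe (by omega) (by omega) (by omega) (by omega)
    exact hl (play d d1 {a, b, c, e} (s5_4 a b c d e) (not4 nad.symm nbd.symm ncd.symm nde) gd1
      (play c q {a, b, e} (s4_3 a b c e) (not3 nac.symm nbc.symm nce)
      (show 0 < g1 (c, q) by omega) w))
  -- step B
  have gd1' : g (d, d1) = 2 := by
    obtain ⟨s, hs, hs'⟩ := Ed q hq e1 ge1
    have : s = d1 := hc.mat _ _ _ _ _ hs he1.symm
    rw [this, res_adj hd1] at hs'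
    have := hg2 (d, d1)
    omega
  obtain ⟨d2, nd2, gd2⟩ := exists_pos_ne (g := g) (v := d) (x := d1) (by omega)
  have gd2' : g (d, d2) = 1 := by
    have := two_le_sm (g := g) (v := d) nd2
    omega
  have rd2 : res H g (c, q) (d, d2) = 1 := by rw [res_not (nmat hc hd1 nd2), gd2']
  have rd1 : res H g (c, q) (d, d1) = 1 := by rw [res_adj hd1, gd1']
  obtain ⟨e2, he2, ge2⟩ := De q hq d2 (by omega)
  have ne12 : e1 ≠ e2 := by
    rintro rfl
    exact nd2 (hc.mat _ _ _ _ _ he2.symm he1.symm)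
  have ge1' : g (e, e1) = 1 := by
    have := two_le_sm (g := g) (v := e) ne12
    omega
  have ge2' : g (e, e2) = 1 := by
    have := two_le_sm (g := g) (v := e) ne12
    omega
  -- the triangle `a d e` after `(c, q)` and `(b, b')`
  obtain ⟨b', hb', hw, h2⟩ := T q hq
  set G2 := res H (res H g (c, q)) (b, b') with hG2
  have v1 : ∀ j, G2 (d, j) = res H g (c, q) (d, j) :=
    fun j => res_not (nadj hc b' j hbd)
  have v2 : ∀ j, G2 (e, j) = g (e, j) := fun j => by
    rw [hG2, res_not (nadj hc b' j hbe), res_not (nadj hc q j hce)]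
  have w1 : sm G2 d = 2 := by rw [sm_congr v1, sd']
  have w2 : sm G2 e = 2 := by rw [sm_congr v2, se]
  have w3 : sm G2 a = 2 := by
    by_contra hcon
    exact hw (g3 hG hc _ had hae (by omega) (by omega) (by omega) (by omega))
  have hwd : ¬ Win H {d, a, e} G2 := by rwa [Finset.insert_comm] at hw
  have hwe : ¬ Win H {e, a, d} G2 := by
    rwa [rot3]
  obtain ⟨⟨a1, ha1, ga1⟩, -⟩ := tri hG hc had.symm hde hae (by omega) (by omega) hwd
    (i := d1) (by rw [v1]; omega)
  obtain ⟨⟨a2, ha2, ga2⟩, -⟩ := tri hG hc had.symm hde hae (by omega) (by omega) hwd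
    (i := d2) (by rw [v1]; omega)
  have na12 : a1 ≠ a2 := by
    rintro rfl
    exact nd2 (hc.mat _ _ _ _ _ ha2.symm ha1.symm)
  have only : ∀ x, 0 < G2 (a, x) → x = a1 ∨ x = a2 := by
    intro x hx
    by_contra hcon
    push Not at hcon
    have := three_le_sm (g := G2) (v := a) na12 (Ne.symm hcon.1) (Ne.symm hcon.2)
    omega
  have ga1' : G2 (a, a1) = 1 := by
    have := two_le_sm (g := G2) (v := a) na12
    omega
  have ga2' : G2 (a, a2) = 1 := by
    have := two_le_sm (g := G2) (v := a) na12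
    omega
  obtain ⟨⟨α, hα, gα⟩, -⟩ := tri hG hc hae.symm hde.symm had (by omega) (by omega) hwe
    (i := e1) (by rw [v2]; omega)
  obtain ⟨⟨β, hβ, gβ⟩, -⟩ := tri hG hc hae.symm hde.symm had (by omega) (by omega) hwe
    (i := e2) (by rw [v2]; omega)
  have nαβ : α ≠ β := by
    rintro rfl
    exact ne12 (hc.mat _ _ _ _ _ hα.symm hβ.symm)
  have hαa : α = a1 := by
    rcases only α gα with h | h
    · exact h
    · exfalso
      have hβa : β = a1 := by
        rcases only β gβ with h' | h'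
        · exact h'
        · exact absurd (h.trans h'.symm) nαβ
      subst h hβa
      -- play (a, β), (d, d2), (e, e1)
      refine hw (play a β {d, e} rfl (not2 nad nae) (by omega) (play d d2 {e} rfl (not1 nde) ?_
        (play e e1 ∅ rfl ?_ ?_ (Win.nil _))))
      · rw [res_not (nmat' hc ha2.symm nαβ.symm), v1]; omega
      · simp
      · rw [res_not (nmat' hc he1 nd2), res_not (nmat hc hβ.symm ne12), v2]; omega
  subst hαa
  have hβa : β = a2 := by
    rcases only β gβ with h' | h'
    · exact absurd h'.symm nαβ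
    · exact h'
  subst hβa
  -- step C: play (d, d2), (e, e1): lost triangle a b c
  have hne1 : res H g (d, d2) (e, e1) = 1 := by rw [res_not (nmat hc he2 ne12), ge1']
  set G3 := res H (res H g (d, d2)) (e, e1) with hG3
  have l3 : ¬ Win H {a, b, c} G3 := by
    intro w
    exact hl (play d d2 {a, b, c, e} (s5_4 a b c d e) (not4 nad.symm nbd.symm ncd.symm nde) gd2
      (play e e1 {a, b, c} (s4_4 a b c e) (not3 nae.symm nbe.symm nce.symm)
        (by rw [hne1]; exact one_pos) w))
  have x1 : ∀ j, G3 (b, j) = g (b, j) := fun j => by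
    rw [hG3, res_not (nadj hc e1 j fun h => hbe h.symm), res_not (nadj hc d2 j fun h => hbd h.symm)]
  have x2 : ∀ j, G3 (c, j) = res H g (d, d2) (c, j) := fun j => by
    rw [hG3, res_not (nadj hc e1 j fun h => hce h.symm)]
  have x3 : ∀ j, 0 < G3 (c, j) → j = q := fun j hj => by
    rw [x2] at hj
    exact one j (lt_of_lt_of_le hj (res_le H g _ _))
  have x4 : G3 (c, q) = 2 := by
    rw [x2, res_not (nmat' hc hd1.symm nd2), gcq]
  have y1 : sm G3 b = 2 := by rw [sm_congr x1, sb]
  have y2 : 2 ≤ sm G3 c := by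
    have := le_sm G3 c q
    omega
  have y3 : 2 ≤ sm G3 a := by
    have z1 := sm_res_ge hc g d a d2
    have z2 : sm (res H g (d, d2)) a ≤ sm G3 a + 1 := sm_res_ge hc _ e a e1
    omega
  have onlya : ∀ x, 0 < G3 (a, x) → x = n1 := by
    intro x hx
    have l3' : ¬ Win H {a, c, b} G3 := by rwa [Finset.pair_comm] at l3
    obtain ⟨⟨j, hj, hj'⟩, -⟩ := tri hG hc hac hab hbc.symm (by omega) (by omega) l3' hx
    rw [x3 j hj'] at hj
    exact hc.mat _ _ _ _ _ hj.symm hn1
  have gn : G3 (a, n1) = 2 ∧ g (a, n1) = 2 := by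
    have z1 : sm G3 a ≤ G3 (a, n1) := by
      by_contra hcon
      push Not at hcon
      obtain ⟨y, hy, hy'⟩ := exists_pos_ne hcon
      exact hy (onlya y hy')
    have z2 : G3 (a, n1) ≤ g (a, n1) := (res_le H _ _ _).trans (res_le H _ _ _)
    have z3 := hg2 (a, n1)
    omega
  have nna1 : n1 ≠ α := by
    rintro rfl
    have : G3 (a, n1) = res H g (d, d2) (a, n1) - 1 := res_adj hα
    have z := res_le H g (d, d2) (a, n1)
    omega
  have nna2 : n1 ≠ β := by
    rintro rfl
    have z1 : G3 (a, n1) ≤ res H g (d, d2) (a, n1) := res_le H _ _ _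
    have z2 : res H g (d, d2) (a, n1) = g (a, n1) - 1 := res_adj ha2
    omega
  have onlyb : ∀ x, 0 < g (b, x) → x = b1 := by
    intro x hx
    have l3' : ¬ Win H {b, c, a} G3 := by
      rwa [← rot3]
    obtain ⟨⟨j, hj, hj'⟩, -⟩ := tri hG hc hbc hab.symm hac.symm (by omega) (by omega) l3'
      (i := x) (by rw [x1]; exact hx)
    rw [x3 j hj'] at hj
    exact hc.mat _ _ _ _ _ hj.symm hb1
  have gb1' : g (b, b1) = 2 := by
    have z1 : sm g b ≤ g (b, b1) := by
      by_contra hcon
      push Not at hcon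
      obtain ⟨y, hy, hy'⟩ := exists_pos_ne hcon
      exact hy (onlyb y hy')
    have z3 := hg2 (b, b1)
    omega
  have hnb : H.Adj (a, n1) (b, b1) := by
    obtain ⟨⟨j, hj, hj'⟩, -⟩ := tri hG hc hab hac hbc (by omega) (by omega) l3
      (i := n1) (by omega)
    rw [x1] at hj'
    rwa [onlyb j hj'] at hj
  -- the winning play (a, α), (d, d1), (c, q), (b, b1), (e, e2)
  have gα0 : 0 < g (a, α) := by
    have z1 : G2 (a, α) ≤ g (a, α) := (res_le H _ _ _).trans (res_le H _ _ _)
    omega
  refine hl (play a α {b, c, d, e} rfl (not4 nab nac nad nae) gα0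
    (play d d1 {b, c, e} (s4_3 b c d e) (not3 nbd.symm ncd.symm nde) ?_
    (play c q {b, e} (s3_2 b c e) (not2 nbc.symm nce) ?_ (play b b1 {e} rfl (not1 nbe) ?_
    (play e e2 ∅ rfl (Finset.notMem_empty e) ?_ (Win.nil _))))))
  · rw [res_adj ha1.symm]; omega
  · rw [res_adj hd1.symm, res_not (nmat' hc hn1.symm nna1.symm)]; omega
  · rw [res_adj hb1, res_not (nadj hc d1 b1 fun h => hbd h.symm),
      res_not (nmat' hc hnb nna1.symm)]
    omega
  · rw [res_not (nadj hc b1 e2 hbe), res_not (nadj hc q e2 hce), res_not (nmat hc he1 ne12.symm),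
      res_not (nmat hc hα.symm ne12.symm)]
    omega

end Pool.Agent.TorDeg
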