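import Pool.Agent.TorDeg.Kit2

set_option autoImplicit false
set_option linter.unusedSectionVars false

/-!
# TOR-TH11
-/

namespace Pool.Agent.TorDeg

section box

variable {V C : Type} [DecidableEq V] [Fintype C] {G : SimpleGraph V} {H : SimpleGraph (V × C)}
  {g : V × C → ℕ} {c d t y b e : V}

/-- after a colour of `c` -/
lemma box_stepA (hG : T_GREEDY) (hc : Cov G H) (hb : Box G c d t y b e)
    (sd : sm g d = 3) (st : sm g t = 3) (sy : sm g y = 3)
    (sb : sm g b = 2) (se : sm g e = 2) (hw : ¬ Win H {c, d, t, y, b, e} g) {q : C}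
    (hq : 0 < g (c, q)) :
    (∃ d₁, H.Adj (c, q) (d, d₁) ∧ 0 < g (d, d₁)) ∧
    (∃ b₁, H.Adj (c, q) (b, b₁) ∧ 0 < g (b, b₁)) ∧
    (∃ n₁, H.Adj (c, q) (y, n₁) ∧ 0 < g (y, n₁)) ∧
    ∃ y', 0 < g (y, y') ∧ (∃ g₂ : V × C → ℕ, (∀ x, g₂ x ≤ g x) ∧ 0 < g₂ (y, y')) ∧
      sm (res H g (y, y')) t = 2 ∧
      (∀ i, 0 < res H g (c, q) (d, i) → ∃ j l, g (e, j) = res H g (c, q) (d, i) ∧
        res H g (y, y') (t, l) = res H g (c, q) (d, i) ∧ H.Adj (d, i) (e, j) ∧
        H.Adj (d, i) (t, l) ∧ H.Adj (e, j) (t, l)) ∧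
      (∀ j, 0 < g (e, j) → ∃ i l, res H g (c, q) (d, i) = g (e, j) ∧
        res H g (y, y') (t, l) = g (e, j) ∧ H.Adj (e, j) (d, i) ∧
        H.Adj (e, j) (t, l) ∧ H.Adj (d, i) (t, l)) := by
  obtain ⟨cd, dt, ty, yc, bc, by', ed, et, nct, ndy, nbd, nbt, nec, ney, nbe, hct, hdy, hbd, hbt,
    hec, hey, hbe⟩ := hb
  have hcd := cd.ne
  have hdt := dt.ne
  have hty := ty.ne
  have hyc := yc.ne
  have hbc := bc.ne
  have hby := by'.ne
  have hed := ed.ne
  have het := et.ne
  set g₁ := res H g (c, q) with hg₁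
  have hwA : ¬ Win H {d, t, y, b, e} g₁ := by
    intro hh
    refine hw (win_step (v := c) (i := q) (by simp) hq ?_ hh)
    ext v
    simp only [Finset.mem_erase, Finset.mem_insert, Finset.mem_singleton]
    constructor
    · rintro ⟨h1, h2⟩
      tauto
    · rintro (rfl | rfl | rfl | rfl | rfl)
      · exact ⟨hcd.symm, by tauto⟩
      · exact ⟨hct.symm, by tauto⟩
      · exact ⟨hyc, by tauto⟩
      · exact ⟨hbc, by tauto⟩
      · exact ⟨hec, by tauto⟩
  have s1d : sm g d ≤ sm g₁ d + 1 := sm_res_le hc c d q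
  have s1y : sm g y ≤ sm g₁ y + 1 := sm_res_le hc c y q
  have s1b : sm g b ≤ sm g₁ b + 1 := sm_res_le hc c b q
  have s1t : sm g₁ t = sm g t := sm_nonadj hc nct q
  have s1e : sm g₁ e = sm g e := sm_nonadj hc (fun h => nec h.symm) q
  have dd : dg G {d, t, y, b, e} d ≤ 2 := by
    refine dg_le_two (a := t) (b := e) fun u hu h => ?_
    simp only [Finset.mem_insert, Finset.mem_singleton] at hu
    rcases hu with rfl | rfl | rfl | rfl | rfl
    · exact absurd rfl h.ne
    · exact Or.inl rfl
    · exact absurd h ndy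
    · exact absurd h.symm nbd
    · exact Or.inr rfl
  have dt' : dg G {d, t, y, b, e} t ≤ 3 := by
    refine dg_le_three (a := d) (b := y) (c := e) fun u hu h => ?_
    simp only [Finset.mem_insert, Finset.mem_singleton] at hu
    rcases hu with rfl | rfl | rfl | rfl | rfl
    · exact Or.inl rfl
    · exact absurd rfl h.ne
    · exact Or.inr (Or.inl rfl)
    · exact absurd h.symm nbt
    · exact Or.inr (Or.inr rfl)
  have dy : dg G {d, t, y, b, e} y ≤ 2 := by
    refine dg_le_two (a := t) (b := b) fun u hu h => ?_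
    simp only [Finset.mem_insert, Finset.mem_singleton] at hu
    rcases hu with rfl | rfl | rfl | rfl | rfl
    · exact absurd h.symm ndy
    · exact Or.inl rfl
    · exact absurd rfl h.ne
    · exact Or.inr rfl
    · exact absurd h.symm ney
  have db : dg G {d, t, y, b, e} b ≤ 1 := by
    refine dg_le_one (a := y) fun u hu h => ?_
    simp only [Finset.mem_insert, Finset.mem_singleton] at hu
    rcases hu with rfl | rfl | rfl | rfl | rfl
    · exact absurd h nbd
    · exact absurd h nbt
    · rfl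
    · exact absurd rfl h.ne
    · exact absurd h nbe
  have de : dg G {d, t, y, b, e} e ≤ 2 := by
    refine dg_le_two (a := d) (b := t) fun u hu h => ?_
    simp only [Finset.mem_insert, Finset.mem_singleton] at hu
    rcases hu with rfl | rfl | rfl | rfl | rfl
    · exact Or.inl rfl
    · exact Or.inr rfl
    · exact absurd h ney
    · exact absurd h.symm nbe
    · exact absurd rfl h.ne
  have hcn : Cn G {d, t, y, b, e} := by
    have h1 : Cn G {e} := Cn.single e
    have h2 : Cn G {t, e} := cn_insert h1 (Finset.mem_singleton_self e) et.symm rfl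
    have h3 : Cn G {y, t, e} := cn_insert h2 (Finset.mem_insert_self t _) ty.symm rfl
    have h4 : Cn G {b, y, t, e} := cn_insert h3 (Finset.mem_insert_self y _) by' rfl
    refine cn_insert (A := {b, y, t, e}) (v := d) (u := t) h4 (by simp) dt ?_
    ext v
    simp only [Finset.mem_insert, Finset.mem_singleton]
    tauto
  have hsurp : ∀ v ∈ ({d, t, y, b, e} : Finset V), ¬ dg G {d, t, y, b, e} v < sm g₁ v := by
    intro v hv hlt
    refine hwA (hG V C G H hc _ g₁ hcn ?_ ⟨v, hv, hlt⟩)
    intro u hu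
    simp only [Finset.mem_insert, Finset.mem_singleton] at hu
    rcases hu with rfl | rfl | rfl | rfl | rfl
    · omega
    · omega
    · omega
    · omega
    · omega
  have hitd : ∃ d₁, H.Adj (c, q) (d, d₁) ∧ 0 < g (d, d₁) := by
    by_contra hno
    have : sm g₁ d = sm g d := sm_res_eq fun j hj => by
      by_contra h0
      exact hno ⟨j, hj, Nat.pos_of_ne_zero h0⟩
    exact hsurp d (by simp) (by omega)
  have hitb : ∃ b₁, H.Adj (c, q) (b, b₁) ∧ 0 < g (b, b₁) := by
    by_contra hno
    have : sm g₁ b = sm g b := sm_res_eq fun j hj => by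
      by_contra h0
      exact hno ⟨j, hj, Nat.pos_of_ne_zero h0⟩
    exact hsurp b (by simp) (by omega)
  have hity : ∃ n₁, H.Adj (c, q) (y, n₁) ∧ 0 < g (y, n₁) := by
    by_contra hno
    have : sm g₁ y = sm g y := sm_res_eq fun j hj => by
      by_contra h0
      exact hno ⟨j, hj, Nat.pos_of_ne_zero h0⟩
    exact hsurp y (by simp) (by omega)
  refine ⟨hitd, hitb, hity, ?_⟩
  -- play b, then y
  obtain ⟨b', hb'⟩ := exists_pos (g := g₁) (v := b) (by omega)
  set g₂ := res H g₁ (b, b') with hg₂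
  have s2y : sm g₁ y ≤ sm g₂ y + 1 := sm_res_le hc b y b'
  obtain ⟨y', hy'⟩ := exists_pos (g := g₂) (v := y) (by omega)
  set g₃ := res H g₂ (y, y') with hg₃
  have hg₂le : ∀ x, g₂ x ≤ g x := fun x => (res_le _ _).trans (res_le _ _)
  have hwC : ¬ Win H {d, t, e} g₃ := by
    intro hh
    refine hwA (win_step (v := b) (i := b') (B := {d, t, y, e}) (by simp) hb' ?_ ?_)
    · ext v
      simp only [Finset.mem_erase, Finset.mem_insert, Finset.mem_singleton]
      constructor
      · rintro ⟨h1, h2⟩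
        tauto
      · rintro (rfl | rfl | rfl | rfl)
        · exact ⟨hbd.symm, by tauto⟩
        · exact ⟨hbt.symm, by tauto⟩
        · exact ⟨hby.symm, by tauto⟩
        · exact ⟨hbe.symm, by tauto⟩
    · refine win_step (v := y) (i := y') (B := {d, t, e}) (by simp) hy' ?_ hh
      ext v
      simp only [Finset.mem_erase, Finset.mem_insert, Finset.mem_singleton]
      constructor
      · rintro ⟨h1, h2⟩
        tauto
      · rintro (rfl | rfl | rfl)
        · exact ⟨hdy, by tauto⟩
        · exact ⟨hty, by tauto⟩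
        · exact ⟨hey, by tauto⟩
  have v3d : ∀ i, g₃ (d, i) = g₁ (d, i) := by
    intro i
    rw [hg₃, res_nonadj hc (fun h => ndy h.symm), hg₂, res_nonadj hc nbd]
  have v3e : ∀ i, g₃ (e, i) = g (e, i) := by
    intro i
    rw [hg₃, res_nonadj hc (fun h => ney h.symm), hg₂, res_nonadj hc nbe, hg₁,
      res_nonadj hc (fun h => nec h.symm)]
  have v3t : ∀ i, g₃ (t, i) = res H g (y, y') (t, i) := by
    intro i
    have h1 : g₂ (t, i) = g (t, i) := by
      rw [hg₂, res_nonadj hc nbt, hg₁, res_nonadj hc nct]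
    by_cases h2 : H.Adj (y, y') (t, i)
    · rw [hg₃, res_of_adj h2, res_of_adj h2, h1]
    · rw [hg₃, res_of_not h2, res_of_not h2, h1]
  have s3d : sm g₃ d = sm g₁ d := Finset.sum_congr rfl fun i _ => v3d i
  have s3e : sm g₃ e = sm g e := Finset.sum_congr rfl fun i _ => v3e i
  have s3t : sm g₃ t = sm (res H g (y, y')) t := Finset.sum_congr rfl fun i _ => v3t i
  have s3t' := sm_res_le (g := g) hc y t y'
  have e1 : ({e, d, t} : Finset V) = {d, t, e} := by
    ext v; simp only [Finset.mem_insert, Finset.mem_singleton]; tauto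
  have e2 : ({d, e, t} : Finset V) = {d, t, e} := by
    ext v; simp only [Finset.mem_insert, Finset.mem_singleton]; tauto
  have hwE : ¬ Win H {e, d, t} g₃ := by rw [e1]; exact hwC
  have hwD : ¬ Win H {d, e, t} g₃ := by rw [e2]; exact hwC
  refine ⟨y', lt_of_lt_of_le hy' (hg₂le _), ⟨g₂, hg₂le, hy'⟩, ?_, ?_, ?_⟩
  · obtain ⟨i, hi⟩ := exists_pos (g := g₃) (v := e) (by omega)
    have := (tri hc hed het hdt (by omega) (by omega) (by omega) hwE hi).2.2.1
    omega
  · intro i hi
    obtain ⟨-, -, -, j, l, h1, h2, h3, h4, h5⟩ := tri hc hed.symm hdt het (by omega) (by omega)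
      (by omega) hwD (i := i) (by rw [v3d]; exact hi)
    rw [v3e, v3d] at h1
    rw [v3t, v3d] at h2
    exact ⟨j, l, h1, h2, h3, h4, h5⟩
  · intro j hj
    obtain ⟨-, -, -, i, l, h1, h2, h3, h4, h5⟩ := tri hc hed het hdt (by omega) (by omega)
      (by omega) hwE (i := j) (by rw [v3e]; exact hj)
    rw [v3d, v3e] at h1
    rw [v3t, v3e] at h2
    exact ⟨i, l, h1, h2, h3, h4, h5⟩

/-- exact sums: the game is won -/
lemma box_exact (hG : T_GREEDY) (hc : Cov G H) (hb : Box G c d t y b e)
    (hg2 : ∀ x, g x ≤ 2) (sc : sm g c = 2)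
    (sd : sm g d = 3) (st : sm g t = 3) (sy : sm g y = 3)
    (sb : sm g b = 2) (se : sm g e = 2) (hw : ¬ Win H {c, d, t, y, b, e} g) : False := by
  have hA := fun q (hq : 0 < g (c, q)) => box_stepA hG hc hb sd st sy sb se hw hq
  obtain ⟨cd, dt, ty, yc, bc, by', ed, et, nct, ndy, nbd, nbt, nec, ney, nbe, hct, hdy, hbd, hbt,
    hec, hey, hbe⟩ := hb
  have hcd := cd.ne
  have hdt := dt.ne
  have hty := ty.ne
  have hyc := yc.ne
  have hbc := bc.ne
  have hby := by'.ne
  have hed := ed.ne
  have het := et.ne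
  obtain ⟨q, hq⟩ := exists_pos (g := g) (v := c) (by omega)
  obtain ⟨⟨d₁, hd₁, gd₁⟩, ⟨b₁, hb₁, gb₁⟩, ⟨n₁, hn₁, gn₁⟩, y', gy', ⟨g₂, hg₂, gy₂⟩, st', hD, hE⟩ :=
    hA q hq
  -- the colour of `c` is unique
  have huniq : ¬ ∃ q₂, q₂ ≠ q ∧ 0 < g (c, q₂) := by
    rintro ⟨q₂, hne, hq₂⟩
    obtain ⟨⟨d₂, hd₂, gd₂⟩, -, -, y₂, -, -, -, hD₂, hE₂⟩ := hA q₂ hq₂
    have h1 : ¬ H.Adj (c, q) (d, d₂) := fun h => hne (hc.mat _ _ _ _ _ h.symm hd₂.symm).symm
    have h2 : res H g (c, q) (d, d₂) = g (d, d₂) := res_of_not h1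
    obtain ⟨j, l, h3, -, h4, -⟩ := hD d₂ (by rw [h2]; exact gd₂)
    rw [h2] at h3
    obtain ⟨i, l', h5, -, h6, -⟩ := hE₂ j (by rw [h3]; exact gd₂)
    have h7 : i = d₂ := hc.mat _ _ _ _ _ h6 h4.symm
    rw [h7, res_of_adj hd₂] at h5
    omega
  have gcq : g (c, q) = 2 := by
    have h1 := le_sm (g := g) c q
    by_contra h2
    exact huniq (exists_other (by omega))
  -- play `d₁`, `q`
  have hite : ∃ e₁, H.Adj (d, d₁) (e, e₁) ∧ 0 < g (e, e₁) := by
    by_contra hno
    have e1 : sm (res H g (d, d₁)) e = sm g e := sm_res_eq fun j hj => by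
      by_contra h0
      exact hno ⟨j, hj, Nat.pos_of_ne_zero h0⟩
    set h₁ := res H g (d, d₁) with hh₁
    have c1 : h₁ (c, q) = 1 := by rw [hh₁, res_of_adj hd₁.symm, gcq]
    set h₂ := res H h₁ (c, q) with hh₂
    have hwB : ¬ Win H {t, y, b, e} h₂ := by
      intro hh
      refine hw (win_step (v := d) (i := d₁) (B := {c, t, y, b, e}) (by simp) gd₁ ?_ ?_)
      · ext v
        simp only [Finset.mem_erase, Finset.mem_insert, Finset.mem_singleton]
        constructor
        · rintro ⟨h1, h2⟩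
          tauto
        · rintro (rfl | rfl | rfl | rfl | rfl)
          · exact ⟨hcd, by tauto⟩
          · exact ⟨hdt.symm, by tauto⟩
          · exact ⟨hdy.symm, by tauto⟩
          · exact ⟨hbd, by tauto⟩
          · exact ⟨hed, by tauto⟩
      · refine win_step (g := h₁) (v := c) (i := q) (B := {t, y, b, e}) (by simp)
          (by rw [c1]; exact one_pos) ?_ hh
        ext v
        simp only [Finset.mem_erase, Finset.mem_insert, Finset.mem_singleton]
        constructor
        · rintro ⟨h1, h2⟩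
          tauto
        · rintro (rfl | rfl | rfl | rfl)
          · exact ⟨hct.symm, by tauto⟩
          · exact ⟨hyc, by tauto⟩
          · exact ⟨hbc, by tauto⟩
          · exact ⟨hec, by tauto⟩
    have s1t : sm g t ≤ sm h₁ t + 1 := sm_res_le hc d t d₁
    have s2t : sm h₂ t = sm h₁ t := sm_nonadj hc nct q
    have s1y : sm h₁ y = sm g y := sm_nonadj hc ndy d₁
    have s2y : sm h₁ y ≤ sm h₂ y + 1 := sm_res_le hc c y q
    have s1b : sm h₁ b = sm g b := sm_nonadj hc (fun h => nbd h.symm) d₁
    have s2b : sm h₁ b ≤ sm h₂ b + 1 := sm_res_le hc c b q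
    have s2e : sm h₂ e = sm h₁ e := sm_nonadj hc (fun h => nec h.symm) q
    have dt' : dg G {t, y, b, e} t ≤ 2 := by
      refine dg_le_two (a := y) (b := e) fun u hu h => ?_
      simp only [Finset.mem_insert, Finset.mem_singleton] at hu
      rcases hu with rfl | rfl | rfl | rfl
      · exact absurd rfl h.ne
      · exact Or.inl rfl
      · exact absurd h.symm nbt
      · exact Or.inr rfl
    have dy : dg G {t, y, b, e} y ≤ 2 := by
      refine dg_le_two (a := t) (b := b) fun u hu h => ?_
      simp only [Finset.mem_insert, Finset.mem_singleton] at hu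
      rcases hu with rfl | rfl | rfl | rfl
      · exact Or.inl rfl
      · exact absurd rfl h.ne
      · exact Or.inr rfl
      · exact absurd h.symm ney
    have db : dg G {t, y, b, e} b ≤ 1 := by
      refine dg_le_one (a := y) fun u hu h => ?_
      simp only [Finset.mem_insert, Finset.mem_singleton] at hu
      rcases hu with rfl | rfl | rfl | rfl
      · exact absurd h nbt
      · rfl
      · exact absurd rfl h.ne
      · exact absurd h nbe
    have de : dg G {t, y, b, e} e ≤ 1 := by
      refine dg_le_one (a := t) fun u hu h => ?_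
      simp only [Finset.mem_insert, Finset.mem_singleton] at hu
      rcases hu with rfl | rfl | rfl | rfl
      · rfl
      · exact absurd h ney
      · exact absurd h.symm nbe
      · exact absurd rfl h.ne
    have hcn : Cn G {t, y, b, e} := by
      have h1 : Cn G {e} := Cn.single e
      have h2 : Cn G {t, e} := cn_insert h1 (Finset.mem_singleton_self e) et.symm rfl
      have h3 : Cn G {y, t, e} := cn_insert h2 (Finset.mem_insert_self t _) ty.symm rfl
      refine cn_insert (A := {y, t, e}) (v := b) (u := y) h3 (by simp) by' ?_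
      ext v
      simp only [Finset.mem_insert, Finset.mem_singleton]
      tauto
    refine hwB (hG V C G H hc _ h₂ hcn ?_ ⟨e, by simp, by omega⟩)
    intro u hu
    simp only [Finset.mem_insert, Finset.mem_singleton] at hu
    rcases hu with rfl | rfl | rfl | rfl
    · omega
    · omega
    · omega
    · omega
  obtain ⟨e₁, he₁, ge₁⟩ := hite
  -- the values at `d`, `e`, `t`
  obtain ⟨i, t₁, f1, f2, f3, f4, f5⟩ := hE e₁ ge₁
  have hi : i = d₁ := hc.mat _ _ _ _ _ f3 he₁.symm
  rw [hi] at f1 f3 f5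
  rw [res_of_adj hd₁] at f1
  have gdd := hg2 (d, d₁)
  have vd₁ : g (d, d₁) = 2 := by omega
  have ve₁ : g (e, e₁) = 1 := by omega
  rw [ve₁] at f2
  obtain ⟨d₂, hd₂ne, gd₂⟩ := exists_other (g := g) (v := d) (i := d₁) (by omega)
  have hsd := add_le_sm (g := g) d (i := d₁) (j := d₂) hd₂ne.symm
  have vd₂ : g (d, d₂) = 1 := by omega
  have nqd₂ : ¬ H.Adj (c, q) (d, d₂) := fun h => hd₂ne (hc.mat _ _ _ _ _ h hd₁)
  have r2 : res H g (c, q) (d, d₂) = 1 := by rw [res_of_not nqd₂, vd₂]
  obtain ⟨e₂, t₂, k1, k2, k3, k4, k5⟩ := hD d₂ (by omega)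
  rw [r2] at k1 k2
  have nee : e₁ ≠ e₂ := by
    intro h
    rw [← h] at k3
    exact hd₂ne (hc.mat _ _ _ _ _ k3.symm he₁.symm)
  have ntt : t₁ ≠ t₂ := by
    intro h
    rw [← h] at k4
    exact hd₂ne (hc.mat _ _ _ _ _ k4.symm f5.symm)
  have hitt : ∃ t', H.Adj (y, y') (t, t') ∧ 0 < g (t, t') := by
    by_contra hno
    have : sm (res H g (y, y')) t = sm g t := sm_res_eq fun j hj => by
      by_contra h0
      exact hno ⟨j, hj, Nat.pos_of_ne_zero h0⟩
    omega
  obtain ⟨t', ht', gt'⟩ := hitt
  -- play `d₂`, `e₁`, `t'`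
  have nd₂e₁ : ¬ H.Adj (d, d₂) (e, e₁) := fun h => nee (hc.mat _ _ _ _ _ h k3)
  have hstepC : ∃ h₃ : V × C → ℕ, h₃ (c, q) = 2 ∧ (∀ i, h₃ (b, i) = g (b, i)) ∧
      (∀ i, h₃ (y, i) = res H g (t, t') (y, i)) ∧ ¬ Win H {c, y, b} h₃ := by
    set h₁ := res H g (d, d₂) with hh₁
    have w1 : h₁ (e, e₁) = 1 := by rw [hh₁, res_of_not nd₂e₁, ve₁]
    set h₂ := res H h₁ (e, e₁) with hh₂
    have w2 : 0 < h₂ (t, t') := by
      by_cases hc1 : t' = t₁
      · have a1 : g (t, t') = 2 := by
          have : res H g (y, y') (t, t') = g (t, t') - 1 := res_of_adj ht'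
          rw [hc1] at this
          rw [hc1] at gt'
          rw [hc1]
          omega
        have a2 : ¬ H.Adj (d, d₂) (t, t') := by
          rw [hc1]
          exact fun h => ntt (hc.mat _ _ _ _ _ h k4)
        have a3 : h₁ (t, t') = 2 := by rw [hh₁, res_of_not a2, a1]
        have a4 : H.Adj (e, e₁) (t, t') := by rw [hc1]; exact f4
        rw [hh₂, res_of_adj a4]
        omega
      · have a4 : ¬ H.Adj (e, e₁) (t, t') := fun h => hc1 (hc.mat _ _ _ _ _ h f4)
        rw [hh₂, res_of_not a4]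
        by_cases hc2 : t' = t₂
        · have a1 : g (t, t') = 2 := by
            have : res H g (y, y') (t, t') = g (t, t') - 1 := res_of_adj ht'
            rw [hc2] at this
            rw [hc2] at gt'
            rw [hc2]
            omega
          have a2 : H.Adj (d, d₂) (t, t') := by rw [hc2]; exact k4
          rw [hh₁, res_of_adj a2]
          omega
        · have a2 : ¬ H.Adj (d, d₂) (t, t') := fun h => hc2 (hc.mat _ _ _ _ _ h k4)
          rw [hh₁, res_of_not a2]
          exact gt'
    refine ⟨res H h₂ (t, t'), ?_, ?_, ?_, ?_⟩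
    · rw [res_nonadj hc (fun h => nct h.symm), hh₂, res_nonadj hc nec, hh₁, res_of_not, gcq]
      exact fun h => nqd₂ h.symm
    · intro i
      rw [res_nonadj hc (fun h => nbt h.symm), hh₂, res_nonadj hc (fun h => nbe h.symm), hh₁,
        res_nonadj hc (fun h => nbd h.symm)]
    · intro i
      have a1 : h₂ (y, i) = g (y, i) := by
        rw [hh₂, res_nonadj hc ney, hh₁, res_nonadj hc ndy]
      by_cases a2 : H.Adj (t, t') (y, i)
      · rw [res_of_adj a2, res_of_adj a2, a1]
      · rw [res_of_not a2, res_of_not a2, a1]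
    · intro hh
      refine hw (win_step (v := d) (i := d₂) (B := {c, t, y, b, e}) (by simp) gd₂ ?_ ?_)
      · ext v
        simp only [Finset.mem_erase, Finset.mem_insert, Finset.mem_singleton]
        constructor
        · rintro ⟨h1, h2⟩
          tauto
        · rintro (rfl | rfl | rfl | rfl | rfl)
          · exact ⟨hcd, by tauto⟩
          · exact ⟨hdt.symm, by tauto⟩
          · exact ⟨hdy.symm, by tauto⟩
          · exact ⟨hbd, by tauto⟩
          · exact ⟨hed, by tauto⟩
      · refine win_step (g := h₁) (v := e) (i := e₁) (B := {c, t, y, b}) (by simp)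
          (by rw [w1]; exact one_pos) ?_ ?_
        · ext v
          simp only [Finset.mem_erase, Finset.mem_insert, Finset.mem_singleton]
          constructor
          · rintro ⟨h1, h2⟩
            tauto
          · rintro (rfl | rfl | rfl | rfl)
            · exact ⟨hec.symm, by tauto⟩
            · exact ⟨het.symm, by tauto⟩
            · exact ⟨hey.symm, by tauto⟩
            · exact ⟨hbe, by tauto⟩
        · refine win_step (v := t) (i := t') (B := {c, y, b}) (by simp) w2 ?_ hh
          ext v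
          simp only [Finset.mem_erase, Finset.mem_insert, Finset.mem_singleton]
          constructor
          · rintro ⟨h1, h2⟩
            tauto
          · rintro (rfl | rfl | rfl)
            · exact ⟨hct, by tauto⟩
            · exact ⟨hty.symm, by tauto⟩
            · exact ⟨hbt, by tauto⟩
  obtain ⟨h₃, m1, m2, m3, hw3⟩ := hstepC
  have s3c : 2 ≤ sm h₃ c := by
    have := le_sm (g := h₃) c q
    omega
  have s3b : sm h₃ b = sm g b := Finset.sum_congr rfl fun i _ => m2 i
  have s3y : sm h₃ y = sm (res H g (t, t')) y := Finset.sum_congr rfl fun i _ => m3 i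
  have s3y' := sm_res_le (g := g) hc t y t'
  obtain ⟨-, -, -, η, β, p1, p2, p3, p4, p5⟩ := tri hc hyc.symm hbc.symm hby.symm s3c (by omega)
    (by omega) hw3 (i := q) (by omega)
  have hη : η = n₁ := hc.mat _ _ _ _ _ p3 hn₁
  have hβ : β = b₁ := hc.mat _ _ _ _ _ p4 hb₁
  rw [hη] at p1 p3 p5
  rw [hβ] at p2 p4 p5
  rw [m3, m1] at p1
  rw [m2, m1] at p2
  have hy'n : y' ≠ n₁ := by
    intro h
    have : res H g (t, t') (y, n₁) = g (y, n₁) - 1 := res_of_adj (by rw [← h]; exact ht'.symm)
    have := hg2 (y, n₁)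
    omega
  -- non-adjacent pairs
  have z1 : ¬ H.Adj (c, q) (y, y') := fun h => hy'n (hc.mat _ _ _ _ _ h hn₁)
  have z2 : ¬ H.Adj (b, b₁) (y, y') := fun h => hy'n (hc.mat _ _ _ _ _ h p5.symm)
  have z3 : ¬ H.Adj (d, d₁) (e, e₂) := fun h => nee (hc.mat _ _ _ _ _ he₁ h)
  have z4 : ¬ H.Adj (t, t₁) (e, e₂) := fun h => nee (hc.mat _ _ _ _ _ f4.symm h)
  have na : ∀ {u v : V} (_ : ¬ G.Adj u v) (i j : C), ¬ H.Adj (u, i) (v, j) :=
    fun h i j hh => h (hc.adj _ _ _ _ hh)
  have hle1 : ∀ (p : Prop) [Decidable p], (if p then 1 else 0) ≤ 1 := fun p _ => by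
    split_ifs <;> omega
  classical
  by_cases htt : t' = t₁
  · -- `t₁` has value 2
    have vt : g (t, t₁) = 2 := by
      have : res H g (y, y') (t, t') = g (t, t') - 1 := res_of_adj ht'
      rw [htt] at this
      rw [htt] at gt'
      omega
    refine hw (play_win [(y, y'), (t, t₁), (d, d₁), (c, q), (b, b₁), (e, e₂)] [] g g _ ?_
      (fun x => Nat.le_add_right _ _) ?_ ?_)
    · refine ⟨?_, ?_, ?_, ?_, ?_, ?_, trivial⟩
      · rw [cnt_nil]; exact gy'
      · rw [cnt_cons, cnt_nil]
        have := hle1 (H.Adj (y, y') (t, t₁))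
        omega
      · rw [cnt_cons, cnt_cons, cnt_nil, if_neg (na (fun h => ndy h.symm) y' d₁)]
        have := hle1 (H.Adj (t, t₁) (d, d₁))
        omega
      · rw [cnt_cons, cnt_cons, cnt_cons, cnt_nil, if_neg (fun h => z1 h.symm),
          if_neg (na (fun h => nct h.symm) t₁ q)]
        have := hle1 (H.Adj (d, d₁) (c, q))
        omega
      · rw [cnt_cons, cnt_cons, cnt_cons, cnt_cons, cnt_nil, if_neg (fun h => z2 h.symm),
          if_neg (na (fun h => nbt h.symm) t₁ b₁), if_neg (na (fun h => nbd h.symm) d₁ b₁)]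
        have := hle1 (H.Adj (c, q) (b, b₁))
        omega
      · rw [cnt_cons, cnt_cons, cnt_cons, cnt_cons, cnt_cons, cnt_nil,
          if_neg (na (fun h => ney h.symm) y' e₂), if_neg z4, if_neg z3,
          if_neg (na (fun h => nec h.symm) q e₂), if_neg (na nbe b₁ e₂)]
        omega
    · simp only [List.map_cons, List.map_nil, List.nodup_cons, List.mem_cons, List.not_mem_nil,
        or_false, not_or, List.nodup_nil, and_true, not_false_eq_true]
      exact ⟨⟨hty.symm, hdy.symm, hyc, hby.symm, hey.symm⟩, ⟨hdt.symm, hct.symm, hbt.symm, het.symm⟩,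
        ⟨hcd.symm, hbd.symm, hed.symm⟩, ⟨hbc.symm, hec.symm⟩, hbe⟩
    · ext v
      simp only [List.map_cons, List.map_nil, List.mem_toFinset, List.mem_cons, List.not_mem_nil,
        or_false, Finset.mem_insert, Finset.mem_singleton]
      tauto
  · have z5 : ¬ H.Adj (t, t₁) (y, y') := fun h => htt (hc.mat _ _ _ _ _ ht' h.symm)
    have vt : 0 < g (t, t₁) := by
      have := res_le (g := g) (H := H) (y, y') (t, t₁)
      omega
    refine hw (play_win [(t, t₁), (d, d₁), (c, q), (b, b₁), (e, e₂), (y, y')] [] g g _ ?_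
      (fun x => Nat.le_add_right _ _) ?_ ?_)
    · refine ⟨?_, ?_, ?_, ?_, ?_, ?_, trivial⟩
      · rw [cnt_nil]; exact vt
      · rw [cnt_cons, cnt_nil]
        have := hle1 (H.Adj (t, t₁) (d, d₁))
        omega
      · rw [cnt_cons, cnt_cons, cnt_nil, if_neg (na (fun h => nct h.symm) t₁ q)]
        have := hle1 (H.Adj (d, d₁) (c, q))
        omega
      · rw [cnt_cons, cnt_cons, cnt_cons, cnt_nil,
          if_neg (na (fun h => nbt h.symm) t₁ b₁), if_neg (na (fun h => nbd h.symm) d₁ b₁)]
        have := hle1 (H.Adj (c, q) (b, b₁))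
        omega
      · rw [cnt_cons, cnt_cons, cnt_cons, cnt_cons, cnt_nil, if_neg z4, if_neg z3,
          if_neg (na (fun h => nec h.symm) q e₂), if_neg (na nbe b₁ e₂)]
        omega
      · rw [cnt_cons, cnt_cons, cnt_cons, cnt_cons, cnt_cons, cnt_nil, if_neg z5,
          if_neg (na ndy d₁ y'), if_neg z1, if_neg z2, if_neg (na ney e₂ y')]
        exact gy'
    · simp only [List.map_cons, List.map_nil, List.nodup_cons, List.mem_cons, List.not_mem_nil,
        or_false, not_or, List.nodup_nil, and_true, not_false_eq_true]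
      exact ⟨⟨hdt.symm, hct.symm, hbt.symm, het.symm, hty⟩, ⟨hcd.symm, hbd.symm, hed.symm, hdy⟩,
        ⟨hbc.symm, hec.symm, hyc.symm⟩, ⟨hbe, hby⟩, hey⟩
    · ext v
      simp only [List.map_cons, List.map_nil, List.mem_toFinset, List.mem_cons, List.not_mem_nil,
        or_false, Finset.mem_insert, Finset.mem_singleton]
      tauto

end box

theorem tTH11 (hG : T_GREEDY) (hM : T_MONO) : T_TH11 := by
  classical
  intro V C _ _ G H hc g c d t y b e hg2 hb sc sd st sy sb se
  obtain ⟨g', h1, h2⟩ := exists_exact g (fun v => if v = c ∨ v = b ∨ v = e then 2 else 3)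
  refine hM V C H _ g' g (fun v _ i => h1 _) ?_
  by_contra hw
  have hb' := hb
  obtain ⟨cd, dt, ty, yc, bc, by', ed, et, nct, ndy, nbd, nbt, nec, ney, nbe, hct, hdy, hbd, hbt,
    hec, hey, hbe⟩ := hb'
  have ec : sm g' c = 2 := by
    have := h2 c
    simp only [true_or, if_true] at this
    exact this sc
  have eb : sm g' b = 2 := by
    have := h2 b
    simp only [true_or, or_true, if_true] at this
    exact this sb
  have ee : sm g' e = 2 := by
    have := h2 e
    simp only [or_true, if_true] at this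
    exact this se
  have ed' : sm g' d = 3 := by
    have := h2 d
    rw [if_neg (by rintro (h | h | h); exacts [cd.ne h.symm, hbd h.symm, ed.ne h.symm])] at this
    exact this sd
  have et' : sm g' t = 3 := by
    have := h2 t
    rw [if_neg (by rintro (h | h | h); exacts [hct h.symm, hbt h.symm, et.ne h.symm])] at this
    exact this st
  have ey' : sm g' y = 3 := by
    have := h2 y
    rw [if_neg (by rintro (h | h | h); exacts [yc.ne h, by'.ne h.symm, hey h.symm])] at this
    exact this sy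
  exact box_exact hG hc hb (fun x => (h1 x).trans (hg2 x)) ec ed' et' ey' eb ee hw

end Pool.Agent.TorDeg
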