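import Pool.Agent.TorDeg.Targets

set_option autoImplicit false

/-!
# TH12 and TH21: contraction of one vertex of the 5-cycle, then TH11
-/

namespace Pool.Agent.TorDeg

theorem tTH12 (h11 : T_TH11) (hC : T_CON) : T_TH12 := by
  intro V C _ _ G H hcov g v₁ v₂ v₃ v₄ v₅ w₁ w₄ hg hR s1 s2 s3 s4 s5 sw1 sw4
  obtain ⟨⟨⟨a12, a23, a34, a45, a51, n13, n14, n24, n25, n35⟩, c13, c14, c24, c25, c35⟩,
    ⟨b1, b2, b3, b4, b5, m3, m4, m5⟩, ⟨d4, d5, d1, d2, d3, k1, k2, k3⟩, nw, cw⟩ := hR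
  have x12 := a12.ne
  have x23 := a23.ne
  have x34 := a34.ne
  have x45 := a45.ne
  have x51 := a51.ne
  have y1 := b1.ne
  have y2 := b2.ne
  have z4 := d4.ne
  have z5 := d5.ne
  obtain ⟨G', H', hcov', hadj, hwin⟩ := hC V C G H hcov {v₁, v₂, v₃, v₄, v₅, w₁, w₄} g v₃ v₂ v₄
    (by simp) (by simp) (by simp) n24 a23.symm a34 c24 (by
      intro v hv hav
      simp only [Finset.mem_insert, Finset.mem_singleton] at hv
      rcases hv with rfl | rfl | rfl | rfl | rfl | rfl | rfl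
      · exact absurd hav.symm c13
      · exact Or.inl rfl
      · exact absurd hav (G.irrefl)
      · exact Or.inr rfl
      · exact absurd hav c35
      · exact absurd hav.symm b3
      · exact absurd hav.symm d3) s3 hg
  apply hwin
  have hset : ({v₁, v₂, v₃, v₄, v₅, w₁, w₄} : Finset V).erase v₃ = {v₁, v₅, v₄, v₂, w₁, w₄} := by
    ext x
    simp only [Finset.mem_erase, Finset.mem_insert, Finset.mem_singleton]
    constructor
    · rintro ⟨h1, (h | h | h | h | h | h | h)⟩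
      · exact Or.inl h
      · exact Or.inr (Or.inr (Or.inr (Or.inl h)))
      · exact absurd h h1
      · exact Or.inr (Or.inr (Or.inl h))
      · exact Or.inr (Or.inl h)
      · exact Or.inr (Or.inr (Or.inr (Or.inr (Or.inl h))))
      · exact Or.inr (Or.inr (Or.inr (Or.inr (Or.inr h))))
    · rintro (rfl | rfl | rfl | rfl | rfl | rfl)
      · exact ⟨n13, by simp⟩
      · exact ⟨n35.symm, by simp⟩
      · exact ⟨x34.symm, by simp⟩
      · exact ⟨x23, by simp⟩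
      · exact ⟨m3, by simp⟩
      · exact ⟨k3, by simp⟩
  rw [hset]
  refine h11 V C G' H' hcov' g v₁ v₅ v₄ v₂ w₁ w₄ hg ?_ s1 s5 s4 s2 sw1 sw4
  have P : ∀ v w, v ≠ v₃ → w ≠ v₃ → G.Adj v w → G'.Adj v w := fun v w a b c =>
    (hadj v w).mpr (Or.inl ⟨a, b, c⟩)
  have Q : ∀ v w, ¬ G.Adj v w → (v ≠ v₂ ∨ w ≠ v₄) → (v ≠ v₄ ∨ w ≠ v₂) → ¬ G'.Adj v w := by
    intro v w h1 h2 h3 h
    rcases (hadj v w).mp h with ⟨-, -, h⟩ | ⟨h, h'⟩ | ⟨h, h'⟩
    · exact h1 h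
    · exact h2.elim (fun k => k h) (fun k => k h')
    · exact h3.elim (fun k => k h) (fun k => k h')
  exact ⟨P _ _ n13 n35.symm a51.symm, P _ _ n35.symm x34.symm a45.symm,
    (hadj _ _).mpr (Or.inr (Or.inr ⟨rfl, rfl⟩)), P _ _ x23 n13 a12.symm, P _ _ m3 n13 b1,
    P _ _ m3 x23 b2, P _ _ k3 n35.symm d5, P _ _ k3 x34.symm d4,
    Q _ _ c14 (Or.inl x12) (Or.inl n14), Q _ _ (fun h => c25 h.symm) (Or.inl n25.symm)
      (Or.inl x45.symm), Q _ _ b5 (Or.inl y2) (Or.inl m4), Q _ _ b4 (Or.inl y2) (Or.inl m4),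
    Q _ _ d1 (Or.inl k2) (Or.inl z4), Q _ _ d2 (Or.inl k2) (Or.inl z4),
    Q _ _ cw (Or.inl y2) (Or.inl m4), n14, n25.symm, m5, m4, k1, k2, nw⟩

theorem tTH21 (h11 : T_TH11) (hC : T_CON) : T_TH21 := by
  intro V C _ _ G H hcov g v₁ v₂ v₃ v₄ v₅ w₁ w₃ hg hR s1 s2 s3 s4 s5 sw1 sw3
  obtain ⟨⟨⟨a12, a23, a34, a45, a51, n13, n14, n24, n25, n35⟩, c13, c14, c24, c25, c35⟩,
    ⟨b1, b2, b3, b4, b5, m3, m4, m5⟩, ⟨d3, d4, d5, d1, d2, k5, k1, k2⟩, nw, cw⟩ := hR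
  have x12 := a12.ne
  have x23 := a23.ne
  have x34 := a34.ne
  have x45 := a45.ne
  have x51 := a51.ne
  have y1 := b1.ne
  have y2 := b2.ne
  have z3 := d3.ne
  have z4 := d4.ne
  obtain ⟨G', H', hcov', hadj, hwin⟩ := hC V C G H hcov {v₁, v₂, v₃, v₄, v₅, w₁, w₃} g v₅ v₁ v₄
    (by simp) (by simp) (by simp) n14 a51 a45.symm c14 (by
      intro v hv hav
      simp only [Finset.mem_insert, Finset.mem_singleton] at hv
      rcases hv with rfl | rfl | rfl | rfl | rfl | rfl | rfl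
      · exact Or.inl rfl
      · exact absurd hav.symm c25
      · exact absurd hav.symm c35
      · exact Or.inr rfl
      · exact absurd hav (G.irrefl)
      · exact absurd hav.symm b5
      · exact absurd hav.symm d5) s5 hg
  apply hwin
  have hset : ({v₁, v₂, v₃, v₄, v₅, w₁, w₃} : Finset V).erase v₅ = {v₁, v₄, v₃, v₂, w₁, w₃} := by
    ext x
    simp only [Finset.mem_erase, Finset.mem_insert, Finset.mem_singleton]
    constructor
    · rintro ⟨h1, (h | h | h | h | h | h | h)⟩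
      · exact Or.inl h
      · exact Or.inr (Or.inr (Or.inr (Or.inl h)))
      · exact Or.inr (Or.inr (Or.inl h))
      · exact Or.inr (Or.inl h)
      · exact absurd h h1
      · exact Or.inr (Or.inr (Or.inr (Or.inr (Or.inl h))))
      · exact Or.inr (Or.inr (Or.inr (Or.inr (Or.inr h))))
    · rintro (rfl | rfl | rfl | rfl | rfl | rfl)
      · exact ⟨x51.symm, by simp⟩
      · exact ⟨x45, by simp⟩
      · exact ⟨n35, by simp⟩
      · exact ⟨n25, by simp⟩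
      · exact ⟨m5, by simp⟩
      · exact ⟨k5, by simp⟩
  rw [hset]
  refine h11 V C G' H' hcov' g v₁ v₄ v₃ v₂ w₁ w₃ hg ?_ s1 s4 s3 s2 sw1 sw3
  have P : ∀ v w, v ≠ v₅ → w ≠ v₅ → G.Adj v w → G'.Adj v w := fun v w a b c =>
    (hadj v w).mpr (Or.inl ⟨a, b, c⟩)
  have Q : ∀ v w, ¬ G.Adj v w → (v ≠ v₁ ∨ w ≠ v₄) → (v ≠ v₄ ∨ w ≠ v₁) → ¬ G'.Adj v w := by
    intro v w h1 h2 h3 h
    rcases (hadj v w).mp h with ⟨-, -, h⟩ | ⟨h, h'⟩ | ⟨h, h'⟩
    · exact h1 h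
    · exact h2.elim (fun k => k h) (fun k => k h')
    · exact h3.elim (fun k => k h) (fun k => k h')
  exact ⟨(hadj _ _).mpr (Or.inr (Or.inl ⟨rfl, rfl⟩)), P _ _ x45 n35 a34.symm,
    P _ _ n35 n25 a23.symm, P _ _ n25 x51.symm a12.symm, P _ _ m5 x51.symm b1, P _ _ m5 n25 b2,
    P _ _ k5 x45 d4, P _ _ k5 n35 d3, Q _ _ c13 (Or.inr x34) (Or.inl n14),
    Q _ _ (fun h => c24 h.symm) (Or.inl n14.symm) (Or.inr x12.symm),
    Q _ _ b4 (Or.inl y1) (Or.inl m4), Q _ _ b3 (Or.inl y1) (Or.inl m4),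
    Q _ _ d1 (Or.inl k1) (Or.inl z4), Q _ _ d2 (Or.inl k1) (Or.inl z4),
    Q _ _ cw (Or.inl y1) (Or.inl m4), n13, n24.symm, m4, m3, k1, k2, nw⟩

end Pool.Agent.TorDeg
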