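import Pool.Agent.TorDeg.Targets

set_option autoImplicit false

/-!
# TOR-TMAP
-/

namespace Pool.Agent.TorDeg

open SimpleGraph Function

namespace HTMAP

section

variable {V : Type} {G : SimpleGraph V} (σ : Equiv.Perm G.Dart)

open Classical in
/-- the next neighbour -/
noncomputable def nx (v u : V) : V := if h : G.Adj v u then (σ ⟨(v, u), h⟩).snd else u

open Classical in
/-- the face lengths -/
noncomputable def kk (v u : V) : ℕ :=
  if h : G.Adj v u then minimalPeriod (facePerm G σ) ⟨(v, u), h⟩ else 0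

variable {σ}

lemma nx_adj (hσ : IsRotation G σ) {v u : V} (h : G.Adj v u) : G.Adj v (nx σ v u) := by
  have h1 := (σ ⟨(v, u), h⟩).adj
  rw [hσ.fst] at h1
  unfold nx
  rw [dif_pos h]
  exact h1

lemma sig_eq (hσ : IsRotation G σ) {v u : V} (h : G.Adj v u) :
    σ ⟨(v, u), h⟩ = ⟨(v, nx σ v u), nx_adj hσ h⟩ := by
  apply SimpleGraph.Dart.ext
  apply Prod.ext
  · exact hσ.fst _
  · change (σ ⟨(v, u), h⟩).snd = nx σ v u
    unfold nx
    rw [dif_pos h]

lemma face_eq (hσ : IsRotation G σ) {v u : V} (h : G.Adj v u) :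
    facePerm G σ ⟨(v, u), h⟩ = ⟨(u, nx σ u v), nx_adj hσ h.symm⟩ := by
  change σ ⟨(u, v), h.symm⟩ = _
  exact sig_eq hσ h.symm

lemma iter_adj (hσ : IsRotation G σ) {v u : V} (h : G.Adj v u) (n : ℕ) :
    G.Adj v ((nx σ v)^[n] u) := by
  induction n with
  | zero => exact h
  | succ n ih =>
    rw [Function.iterate_succ_apply']
    exact nx_adj hσ ih

lemma sig_iter (hσ : IsRotation G σ) {v u : V} (h : G.Adj v u) (n : ℕ) :
    (σ ^ n) ⟨(v, u), h⟩ = ⟨(v, (nx σ v)^[n] u), iter_adj hσ h n⟩ := by
  induction n with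
  | zero => rfl
  | succ n ih =>
    rw [pow_succ', Equiv.Perm.mul_apply, ih, sig_eq hσ]
    apply SimpleGraph.Dart.ext
    simp only [Function.iterate_succ_apply']

lemma dart_inj {v u v' u' : V} {h : G.Adj v u} {h' : G.Adj v' u'}
    (e : (⟨(v, u), h⟩ : G.Dart) = ⟨(v', u'), h'⟩) : v = v' ∧ u = u' := by
  have := congrArg (fun d : G.Dart => d.toProd) e
  exact Prod.ext_iff.mp this

lemma trans_lt [Fintype V] (hσ : IsRotation G σ) {v u u' : V} (h : G.Adj v u)
    (h' : G.Adj v u') : ∃ i, i < deg G v ∧ (nx σ v)^[i] u = u' := by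
  classical
  have : Finite G.Dart := Fintype.finite inferInstance
  obtain ⟨n, hn⟩ := (hσ.cyc ⟨(v, u), h⟩ ⟨(v, u'), h'⟩ rfl).exists_nat_pow_eq
  rw [sig_iter hσ h n] at hn
  have hn' := (dart_inj hn).2
  -- a period
  have hper : u ∈ periodicPts (nx σ v) := by
    refine ⟨orderOf σ, orderOf_pos σ, ?_⟩
    have h1 := sig_iter hσ h (orderOf σ)
    rw [pow_orderOf_eq_one] at h1
    exact (dart_inj h1).2.symm
  have hpos := minimalPeriod_pos_of_mem_periodicPts hper
  refine ⟨n % minimalPeriod (nx σ v) u, ?_, ?_⟩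
  · refine lt_of_lt_of_le (Nat.mod_lt _ hpos) ?_
    unfold deg dg
    have := Finset.card_le_card_of_injOn (s := Finset.range (minimalPeriod (nx σ v) u))
      (t := (Finset.univ : Finset V).filter (fun x => G.Adj v x))
      (fun i => (nx σ v)^[i] u) (fun i _ => by
        simp only [Finset.coe_filter, Finset.mem_univ, true_and, Set.mem_ofPred_eq]
        exact iter_adj hσ h i)
      (fun i hi j hj hij => by
        have hi' : i < minimalPeriod (nx σ v) u := by simpa using hi
        have hj' : j < minimalPeriod (nx σ v) u := by simpa using hj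
        exact (iterate_eq_iterate_iff_of_lt_minimalPeriod hi' hj').mp hij)
    simpa using this
  · rw [iterate_mod_minimalPeriod_eq]
    exact hn'

lemma kk_eq {v u : V} (h : G.Adj v u) :
    kk σ v u = minimalPeriod (facePerm G σ) ⟨(v, u), h⟩ := by
  unfold kk
  rw [dif_pos h]

lemma per_face [Fintype V] (d : G.Dart) : d ∈ periodicPts (facePerm G σ) := by
  classical
  have : Finite G.Dart := Fintype.finite inferInstance
  refine ⟨orderOf (facePerm G σ), orderOf_pos _, ?_⟩
  change (facePerm G σ)^[orderOf (facePerm G σ)] d = d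
  rw [Equiv.Perm.iterate_eq_pow, pow_orderOf_eq_one]
  rfl

lemma kk_iter {v u : V} (h : G.Adj v u) :
    (facePerm G σ)^[kk σ v u] ⟨(v, u), h⟩ = ⟨(v, u), h⟩ := by
  rw [kk_eq h]
  exact iterate_minimalPeriod

lemma three_le [Fintype V] (hσ : IsRotation G σ) (hd : ∀ v, 4 ≤ deg G v) {v u : V}
    (h : G.Adj v u) : 3 ≤ kk σ v u := by
  classical
  have hpos : 0 < kk σ v u := by
    rw [kk_eq h]
    exact minimalPeriod_pos_of_mem_periodicPts (per_face _)
  have hit := kk_iter (σ := σ) h
  by_contra hlt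
  have h12 : kk σ v u = 1 ∨ kk σ v u = 2 := by omega
  rcases h12 with h1 | h2
  · rw [h1, Function.iterate_one, face_eq hσ h] at hit
    exact h.ne (dart_inj hit).1.symm
  · rw [h2, Function.iterate_succ_apply', Function.iterate_one, face_eq hσ h,
      face_eq hσ] at hit
    obtain ⟨e1, e2⟩ := dart_inj hit
    -- `nx u v = v`
    have hfix : ∀ i, (nx σ u)^[i] v = v := by
      intro i
      induction i with
      | zero => rfl
      | succ i ih => rw [Function.iterate_succ_apply', ih, e1]
    have hall : ∀ x, G.Adj u x → x = v := by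
      intro x hx
      obtain ⟨i, -, hi⟩ := trans_lt hσ h.symm hx
      rw [← hi, hfix]
    have h4 := hd u
    have h1 : deg G u ≤ 1 := by
      unfold deg dg
      rw [Finset.card_le_one]
      intro a ha b hb
      simp only [Finset.mem_filter, Finset.mem_univ, true_and] at ha hb
      rw [hall a ha, hall b hb]
    omega

lemma wt_le {k : ℕ} (hk : 3 ≤ k) : ((wt k : ℤ) : ℚ) ≤ 30 - 120 * (1 / (k : ℚ)) := by
  unfold wt
  rcases Nat.lt_or_ge k 6 with h6 | h6
  · interval_cases k <;> norm_num
  · have h1 : ¬ k ≤ 3 := by omega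
    have h2 : ¬ k = 4 := by omega
    have h3 : ¬ k = 5 := by omega
    rw [if_neg h1, if_neg h2, if_neg h3]
    have h4 : (6 : ℚ) ≤ k := by exact_mod_cast h6
    have h5 : 1 / (k : ℚ) ≤ 1 / 6 := one_div_le_one_div_of_le (by norm_num) h4
    push_cast
    linarith

end

section sums

variable {V : Type} [Fintype V] (G : SimpleGraph V)

open Classical in
lemma sum_darts {R : Type} [AddCommMonoid R] (f : V → V → R) :
    ∑ v, ∑ u ∈ nb G v, f v u = ∑ d : G.Dart, f d.fst d.snd := by
  rw [← Finset.sum_fiberwise (s := (Finset.univ : Finset G.Dart)) (g := fun d => d.fst)]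
  refine Finset.sum_congr rfl (fun v _ => ?_)
  refine Finset.sum_bij' (fun u hu => (⟨(v, u), by simpa [nb] using hu⟩ : G.Dart))
    (fun d _ => d.snd) ?_ ?_ ?_ ?_ ?_
  · intro u hu
    simp
  · intro d hd
    simp only [Finset.mem_filter, Finset.mem_univ, true_and] at hd
    simp only [nb, Finset.mem_filter, Finset.mem_univ, true_and]
    rw [← hd]
    exact d.adj
  · intro u hu
    rfl
  · intro d hd
    simp only [Finset.mem_filter, Finset.mem_univ, true_and] at hd
    apply SimpleGraph.Dart.ext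
    exact Prod.ext hd.symm rfl
  · intro u hu
    rfl

end sums

end HTMAP

open HTMAP in
theorem tTMAP (hC : T_CNT) : T_TMAP := by
  classical
  intro V _ G σ hd hσ hE
  refine ⟨nx σ, kk σ, ⟨fun v u h => nx_adj hσ h, ?_, fun v u u' h h' => trans_lt hσ h h', ?_,
    fun v u h => three_le hσ hd h, ?_, ?_, ?_, ?_⟩⟩
  · intro v u u' h h' e
    have h1 := sig_eq hσ h
    have h2 := sig_eq hσ h'
    have h3 : σ ⟨(v, u), h⟩ = σ ⟨(v, u'), h'⟩ := by
      rw [h1, h2]
      apply SimpleGraph.Dart.ext
      simp only [e]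
    exact (dart_inj (σ.injective h3)).2
  · intro v u h
    rw [kk_eq h, kk_eq (nx_adj hσ h.symm), ← face_eq hσ h]
    exact minimalPeriod_apply (per_face _)
  · intro v u h hk
    have hit := kk_iter (σ := σ) h
    rw [hk] at hit
    simp only [Function.iterate_succ_apply', Function.iterate_zero_apply, face_eq hσ] at hit
    obtain ⟨e1, e2⟩ := dart_inj hit
    refine ⟨e1, ?_⟩
    rwa [e1] at e2
  · intro v u h hk
    have hit := kk_iter (σ := σ) h
    rw [hk] at hit
    simp only [Function.iterate_succ_apply', Function.iterate_zero_apply, face_eq hσ] at hit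
    obtain ⟨e1, e2⟩ := dart_inj hit
    refine ⟨e1, ?_⟩
    rwa [e1] at e2
  · intro v u h hk
    have hit := kk_iter (σ := σ) h
    rw [hk] at hit
    simp only [Function.iterate_succ_apply', Function.iterate_zero_apply, face_eq hσ] at hit
    obtain ⟨e1, e2⟩ := dart_inj hit
    refine ⟨e1, ?_⟩
    rwa [e1] at e2
  · have hcnt := hC G.Dart (facePerm G σ)
    have hdeg : ∀ v, (deg G v : ℤ) = ∑ u ∈ nb G v, (1 : ℤ) := by
      intro v
      unfold deg dg nb
      simp
    have h1 : ∑ v, (30 * ((deg G v : ℤ) - 4) + ∑ u ∈ nb G v, wt (kk σ v u)) =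
        ∑ d : G.Dart, (30 + wt (kk σ d.fst d.snd)) - 120 * (Fintype.card V : ℤ) := by
      rw [← sum_darts G (fun v u => 30 + wt (kk σ v u))]
      have : ∀ v, (30 * ((deg G v : ℤ) - 4) + ∑ u ∈ nb G v, wt (kk σ v u)) =
          ∑ u ∈ nb G v, (30 + wt (kk σ v u)) - 120 := by
        intro v
        rw [Finset.sum_add_distrib, hdeg v, Finset.sum_const, Finset.sum_const]
        simp
        ring
      rw [Finset.sum_congr rfl (fun v _ => this v), Finset.sum_sub_distrib]
      simp
      ring
    rw [h1]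
    have h2 : ∀ d : G.Dart, ((30 + wt (kk σ d.fst d.snd) : ℤ) : ℚ) ≤
        60 - 120 * (1 / (minimalPeriod (facePerm G σ) d : ℚ)) := by
      intro d
      have h3 := wt_le (three_le hσ hd d.adj)
      rw [kk_eq d.adj] at h3
      rw [kk_eq d.adj]
      push_cast
      have h4 : (⟨(d.fst, d.snd), d.adj⟩ : G.Dart) = d := SimpleGraph.Dart.ext _ _ rfl
      rw [h4] at h3 ⊢
      linarith
    have h5 : ((∑ d : G.Dart, (30 + wt (kk σ d.fst d.snd)) : ℤ) : ℚ) ≤
        60 * (Fintype.card G.Dart : ℚ) - 120 * (faceCount G σ : ℚ) := by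
      push_cast
      refine (Finset.sum_le_sum (fun d _ => by
        have := h2 d
        push_cast at this
        exact this)).trans ?_
      rw [Finset.sum_sub_distrib, ← Finset.mul_sum, hcnt]
      simp [faceCount]
      ring_nf
      exact le_rfl
    have h6 : Fintype.card G.Dart = 2 * Nat.card G.edgeSet := by
      rw [SimpleGraph.dart_card_eq_twice_card_edges, Nat.card_eq_fintype_card,
        ← SimpleGraph.edgeFinset_card]
    have h7 : (Nat.card G.edgeSet : ℚ) ≤ (Fintype.card V : ℚ) + (faceCount G σ : ℚ) := by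
      rw [Nat.card_eq_fintype_card (α := V)] at hE
      exact_mod_cast hE
    have h8 : (Fintype.card G.Dart : ℚ) = 2 * (Nat.card G.edgeSet : ℚ) := by
      exact_mod_cast h6
    have h9 : ((∑ d : G.Dart, (30 + wt (kk σ d.fst d.snd)) - 120 * (Fintype.card V : ℤ) : ℤ) : ℚ)
        ≤ 0 := by
      rw [Int.cast_sub]
      rw [h8] at h5
      push_cast at h5 ⊢
      linarith
    exact_mod_cast h9

end Pool.Agent.TorDeg
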