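import Pool.Agent.TorDeg.Targets

set_option autoImplicit false

/-!
# Three consecutive triangles; a triangle next to a 4-face
-/

namespace Pool.Agent.TorDeg

theorem tTTT (hN : T_NX) (h3 : T_F3) : T_TTT := by
  intro V _ G nx k hM hd v p a b c hvp ha hb hc ka kb kc
  have hva : G.Adj v a := ha ▸ hM.adj v p hvp
  have hvb : G.Adj v b := hb ▸ hM.adj v a hva
  have hvc : G.Adj v c := hc ▸ hM.adj v b hvb
  obtain ⟨a1, a2, a3, a4, -, -⟩ := h3 V G nx k hM hd v a _ hva ka rfl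
  obtain ⟨b1, b2, b3, b4, -, -⟩ := h3 V G nx k hM hd v b _ hvb kb rfl
  obtain ⟨c1, c2, c3, c4, -, -⟩ := h3 V G nx k hM hd v c _ hvc kc rfl
  have ea : nx a v = p := hM.inj v _ _ a2.symm hvp (a4.trans ha)
  have eb : nx b v = a := hM.inj v _ _ b2.symm hva (b4.trans hb)
  have ec : nx c v = b := hM.inj v _ _ c2.symm hvb (c4.trans hc)
  rw [ea] at a1
  rw [eb] at b1
  rw [ec] at c1
  obtain ⟨p1, p2, p3, -⟩ := hN V G nx k hM hd v p hvp
  obtain ⟨q1, q2, q3, -⟩ := hN V G nx k hM hd v a hva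
  refine ⟨hvp, a1.symm, b1.symm, c1.symm, hvc.symm, hva.ne, hvb.ne, ?_, ?_, ?_⟩
  · rw [← ha, ← hb] at p2
    exact p2.symm
  · rw [← ha, ← hb, ← hc] at p3
    exact p3.symm
  · rw [← hb, ← hc] at q2
    exact q2.symm

theorem tTQ (hN : T_NX) (h3 : T_F3) (h4 : T_F4) : T_TQ := by
  intro V _ G nx k hM hd v p m a hvp hm ha km ka
  have hvm : G.Adj v m := hm ▸ hM.adj v p hvp
  have hva : G.Adj v a := ha ▸ hM.adj v m hvm
  obtain ⟨a1, a2, a3, a4, -, -⟩ := h3 V G nx k hM hd v m _ hvm km rfl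
  have em : nx m v = p := hM.inj v _ _ a2.symm hvp (a4.trans hm)
  rw [em] at a1
  obtain ⟨b1, b2, b3, b4, b5, b6, b7, -, -, -⟩ := h4 V G nx k hM hd v a _ _ hva ka rfl rfl
  have ea : nx (nx a v) a = m := hM.inj v _ _ b3.symm hvm (b7.trans ha)
  rw [ea] at b2 b6
  obtain ⟨p1, p2, p3, -⟩ := hN V G nx k hM hd v p hvp
  obtain ⟨q1, q2, q3, -⟩ := hN V G nx k hM hd v m hvm
  obtain ⟨r1, r2, r3, -⟩ := hN V G nx k hM hd m v hvm.symm
  refine ⟨hvp, a1.symm, b2.symm, b1.symm, hva.symm, hvm.ne, b4, ?_, ?_, ?_⟩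
  · intro h
    apply r2
    rw [em, h]
    exact b6
  · rw [← hm, ← ha] at p2
    exact p2.symm
  · rw [← ha] at q1
    exact q1.symm

theorem tQT (hN : T_NX) (h3 : T_F3) (h4 : T_F4) : T_QT := by
  intro V _ G nx k hM hd v p m a hvp hm ha km ka
  have hvm : G.Adj v m := hm ▸ hM.adj v p hvp
  have hva : G.Adj v a := ha ▸ hM.adj v m hvm
  obtain ⟨b1, b2, b3, b4, b5, b6, b7, -, -, -⟩ := h4 V G nx k hM hd v m _ _ hvm km rfl rfl
  have em : nx (nx m v) m = p := hM.inj v _ _ b3.symm hvp (b7.trans hm)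
  rw [em] at b2 b6
  obtain ⟨a1, a2, a3, a4, -, -⟩ := h3 V G nx k hM hd v a _ hva ka rfl
  have ea : nx a v = m := hM.inj v _ _ a2.symm hvm (a4.trans ha)
  rw [ea] at a1 a3
  obtain ⟨p1, p2, p3, -⟩ := hN V G nx k hM hd v p hvp
  obtain ⟨q1, q2, q3, -⟩ := hN V G nx k hM hd m a a1.symm
  refine ⟨hvp, b2.symm, b1.symm, a1.symm, hva.symm, b4, hvm.ne, ?_, ?_, ?_⟩
  · rw [← hm] at p1
    exact p1.symm
  · rw [← hm, ← ha] at p2
    exact p2.symm
  · rw [a3] at q2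
    exact q2

end Pool.Agent.TorDeg
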