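import Pool.Agent.TorDeg.Targets

set_option autoImplicit false

/-!
# TOR-U5 and TOR-FANX
-/

namespace Pool.Agent.TorDeg

open SimpleGraph

/-- the closed walk of a 5-cycle -/
def fiveWalk {V : Type} {G : SimpleGraph V} {a b c d e : V} (h : Five G a b c d e) :
    G.Walk a a :=
  Walk.cons h.1 (Walk.cons h.2.1 (Walk.cons h.2.2.1 (Walk.cons h.2.2.2.1
    (Walk.cons h.2.2.2.2.1 Walk.nil))))

lemma fiveWalk_cycle {V : Type} {G : SimpleGraph V} {a b c d e : V} (h : Five G a b c d e) :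
    (fiveWalk h).IsCycle := by
  have h0 := h
  obtain ⟨h1, h2, h3, h4, h5, h6, h7, h8, h9, h10⟩ := h0
  have n1 := h1.ne
  have n2 := h2.ne
  have n3 := h3.ne
  have n4 := h4.ne
  have n5 := h5.ne
  unfold fiveWalk
  rw [Walk.cons_isCycle_iff]
  constructor
  · simp only [Walk.cons_isPath_iff, Walk.support_cons, Walk.support_nil, List.mem_cons,
      List.not_mem_nil, or_false]
    refine ⟨⟨⟨⟨by simp, ?_⟩, ?_⟩, ?_⟩, ?_⟩
    all_goals simp_all [eq_comm]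
  · simp only [Walk.edges_cons, Walk.edges_nil, List.mem_cons, List.not_mem_nil, or_false,
      Sym2.eq_iff]
    push Not
    simp_all [eq_comm]

lemma fiveWalk_edges {V : Type} {G : SimpleGraph V} {a b c d e : V} (h : Five G a b c d e) :
    (fiveWalk h).edges = [s(a, b), s(b, c), s(c, d), s(d, e), s(e, a)] := rfl

theorem tU5 : T_U5 := by
  intro V G hG a b c d e b' c' d' e' h h'
  have hsub := hG a a (fiveWalk h) (fiveWalk h') (fiveWalk_cycle h) (fiveWalk_cycle h') rfl rfl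
    ⟨a, by simp, by simp⟩
  have hed : ∀ x : Sym2 V, x ∈ [s(a, b), s(b, c), s(c, d), s(d, e), s(e, a)] →
      x ∈ [s(a, b'), s(b', c'), s(c', d'), s(d', e'), s(e', a)] := by
    intro x hx
    rw [← fiveWalk_edges h, ← Walk.mem_edges_toSubgraph, hsub, Walk.mem_edges_toSubgraph,
      fiveWalk_edges h'] at hx
    exact hx
  have e1 := hed s(a, b) (by simp)
  have e2 := hed s(b, c) (by simp)
  have e4 := hed s(d, e) (by simp)
  have e5 := hed s(e, a) (by simp)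
  obtain ⟨h1, h2, h3, h4, h5, h6, h7, h8, h9, h10⟩ := h
  obtain ⟨g1, g2, g3, g4, g5, g6, g7, g8, g9, g10⟩ := h'
  have n1 := h1.ne
  have n2 := h2.ne
  have n3 := h3.ne
  have n4 := h4.ne
  have n5 := h5.ne
  have m1 := g1.ne
  have m2 := g2.ne
  have m3 := g3.ne
  have m4 := g4.ne
  have m5 := g5.ne
  simp only [List.mem_cons, List.not_mem_nil, or_false, Sym2.eq_iff] at e1 e2 e4 e5
  have f1 : b = b' ∨ b = e' := by
    rcases e1 with (⟨-, h⟩ | ⟨h, -⟩) | (⟨h, -⟩ | ⟨h, -⟩) | (⟨h, -⟩ | ⟨h, -⟩) | (⟨h, -⟩ | ⟨h, -⟩) |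
      (⟨h, -⟩ | ⟨-, h⟩) <;> first | exact Or.inl h | exact Or.inr h | exact absurd h ‹_› |
        exact absurd h.symm ‹_›
  have f5 : e = b' ∨ e = e' := by
    rcases e5 with (⟨-, h⟩ | ⟨h, -⟩) | (⟨-, h⟩ | ⟨-, h⟩) | (⟨-, h⟩ | ⟨-, h⟩) | (⟨-, h⟩ | ⟨-, h⟩) |
      (⟨h, -⟩ | ⟨-, h⟩) <;> first | exact Or.inl h | exact Or.inr h | exact absurd h ‹_› |
        exact absurd h.symm ‹_›
  rcases f1 with rfl | rfl
  · left
    have f5' : e = e' := f5.resolve_left (fun h => h9 h.symm)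
    subst f5'
    refine ⟨rfl, ?_, ?_, rfl⟩
    · rcases e2 with (⟨h, -⟩ | ⟨-, h⟩) | (⟨-, h⟩ | ⟨h, -⟩) | (⟨h, -⟩ | ⟨h, -⟩) |
        (⟨h, -⟩ | ⟨h, -⟩) | (⟨h, -⟩ | ⟨h, -⟩) <;> first | exact h | exact absurd h ‹_› |
        exact absurd h.symm ‹_›
    · rcases e4 with (⟨h, -⟩ | ⟨-, h⟩) | (⟨-, h⟩ | ⟨-, h⟩) | (⟨-, h⟩ | ⟨-, h⟩) |
        (⟨h, -⟩ | ⟨-, h⟩) | (⟨-, h⟩ | ⟨h, -⟩) <;> first | exact h | exact absurd h ‹_› |
        exact absurd h.symm ‹_›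
  · right
    have f5' : e = b' := f5.resolve_right (fun h => h9 h.symm)
    subst f5'
    refine ⟨rfl, ?_, ?_, rfl⟩
    · rcases e2 with (⟨h, -⟩ | ⟨h, -⟩) | (⟨h, -⟩ | ⟨h, -⟩) | (⟨h, -⟩ | ⟨h, -⟩) |
        (⟨h, -⟩ | ⟨-, h⟩) | (⟨-, h⟩ | ⟨h, -⟩) <;> first | exact h | exact absurd h ‹_› |
        exact absurd h.symm ‹_›
    · rcases e4 with (⟨h, -⟩ | ⟨h, -⟩) | (⟨-, h⟩ | ⟨h, -⟩) | (⟨-, h⟩ | ⟨-, h⟩) |
        (⟨-, h⟩ | ⟨-, h⟩) | (⟨-, h⟩ | ⟨-, h⟩) <;> first | exact h | exact absurd h ‹_› |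
        exact absurd h.symm ‹_›

theorem tFANX : T_FANX := by
  intro V G hU a b c d e h hac had
  have h0 := h
  obtain ⟨h1, h2, h3, h4, h5, h6, h7, h8, h9, h10⟩ := h
  refine ⟨h1, hac, had, h5.symm, h2, h3, h4, ?_, ?_, ?_, h8, h9, h10⟩
  · intro hbd
    rcases hU a b c d e c b d e h0
      ⟨hac, h2.symm, hbd, h4, h5, h1.ne, h7, h3.ne, h10, h9⟩ with ⟨h, -⟩ | ⟨h, -⟩
    · exact h2.ne h
    · exact h9 h
  · intro hbe
    rcases hU a b c d e b e d c h0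
      ⟨h1, hbe, h4.symm, h3.symm, hac.symm, h5.ne.symm, h7, h8, h2.ne, h10.symm⟩ with
      ⟨-, h, -⟩ | ⟨h, -⟩
    · exact h10 h
    · exact h2.ne h
  · intro hce
    rcases hU a b c d e b c e d h0
      ⟨h1, h2, hce, h4.symm, had.symm, h6, h5.ne.symm, h9, h8, h3.ne⟩ with
      ⟨-, -, h, -⟩ | ⟨h, -⟩
    · exact h4.ne h
    · exact h8 h

end Pool.Agent.TorDeg
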