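import Pool.Agent.TorDeg.BR
import Pool.Agent.TorDeg.CNT
import Pool.Agent.TorDeg.CONT
import Pool.Agent.TorDeg.DEG
import Pool.Agent.TorDeg.DIS
import Pool.Agent.TorDeg.EUL
import Pool.Agent.TorDeg.EXT
import Pool.Agent.TorDeg.F345
import Pool.Agent.TorDeg.FCALM
import Pool.Agent.TorDeg.FCS
import Pool.Agent.TorDeg.FHUB
import Pool.Agent.TorDeg.FOUT
import Pool.Agent.TorDeg.FRIM
import Pool.Agent.TorDeg.GREEDY
import Pool.Agent.TorDeg.HOM1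
import Pool.Agent.TorDeg.HOM2
import Pool.Agent.TorDeg.IRR
import Pool.Agent.TorDeg.LF
import Pool.Agent.TorDeg.LP
import Pool.Agent.TorDeg.LP0
import Pool.Agent.TorDeg.LP1
import Pool.Agent.TorDeg.LQ
import Pool.Agent.TorDeg.MAIN
import Pool.Agent.TorDeg.MONO
import Pool.Agent.TorDeg.NX
import Pool.Agent.TorDeg.P4
import Pool.Agent.TorDeg.P5
import Pool.Agent.TorDeg.PLOC
import Pool.Agent.TorDeg.PNM
import Pool.Agent.TorDeg.QCALM
import Pool.Agent.TorDeg.QOUT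
import Pool.Agent.TorDeg.QP
import Pool.Agent.TorDeg.QQ
import Pool.Agent.TorDeg.R3
import Pool.Agent.TorDeg.R6
import Pool.Agent.TorDeg.REG
import Pool.Agent.TorDeg.RES
import Pool.Agent.TorDeg.RET
import Pool.Agent.TorDeg.T34
import Pool.Agent.TorDeg.TH10
import Pool.Agent.TorDeg.TH11
import Pool.Agent.TorDeg.TH12
import Pool.Agent.TorDeg.TMAP
import Pool.Agent.TorDeg.TTT
import Pool.Agent.TorDeg.U5

set_option autoImplicit false

/-!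
# Assembly: the main statement from the last target
-/

namespace Pool.Agent.TorDeg

theorem main_of_calm (hCALM : T_CALM) : MainStatement := by
  have hNX := tNX
  have hF3 := tF3 hNX
  have hF4 := tF4 hNX
  have hF5 := tF5 hNX
  have hTTT := tTTT hNX hF3
  have hTQ := tTQ hNX hF3 hF4
  have hQT := tQT hNX hF3 hF4
  have hFCS := tFCS hF3
  have hNS2 := tNS2 hNX hF3 hF5
  have hFOUT := tFOUT hNX hF3 hF4 hF5 hTTT hTQ hQT tFANX
  have hFCALM := tFCALM hFOUT hNX hF3 hF4 hF5 hTTT hTQ hQT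
  have hFHUB := tFHUB hFOUT hNX tS4 tS5 tAV hNS2 hF3 hF4 hF5 hTTT hTQ hQT
  have hFRIM := tFRIM hFOUT hFCALM hNX tS5 tAV hNS2 hF3
  have hLF := tLF hCALM hFOUT hFCALM hFHUB hFRIM tF0 hNX hF3
  have hQOUT := tQOUT hNX hF3 hF4 hF5 hTTT hTQ hQT
  have hQCALM := tQCALM hQOUT hNX hF3 hF4 hF5 hTTT hTQ hQT
  have hQP := tQP hQOUT hNX tS4 tS5 tAV hNS2 hF3 hF4 hF5 hTTT hTQ hQT
  have hQQ := tQQ hQOUT hNX tS4 tS5 tAV hNS2 hF3 hF4 hF5 hTTT hTQ hQT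
  have hLQ := tLQ hCALM hQOUT hQCALM hQP hQQ hNX hF3 hF4 tS5 tAV
  have hPLOC := tPLOC hNX hF3 hF4 hF5 hTTT hTQ hQT
  have hP4 := tP4 hPLOC tS4 hNX
  have hP5 := tP5 hPLOC tS5 tAV hNS2 hNX hF3 hF5
  have hPNM := tPNM hNX hF3 hF5 hTTT
  have hLP0 := tLP0 hP4 hPNM tR3 hNX hF3
  have hLP1 := tLP1 hP4 hP5 hPNM tEXT12 tEXT21 hNX hF3
  have hLP := tLP hLP0 hLP1 hP4 hP5
  have hDIS := tDIS hFCS hCALM hLF hLQ hLP hNX hF3 hF4 hF5
  have hT34 := tT34 tS4 hNX hF3 hF4 hF5 hTTT hTQ hQT tFANX tF0 tR6 tR3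
  have hBR := tBR tGREEDY
  have hTH10 := tTH10 tGREEDY tMONO
  have hTH11 := tTH11 tGREEDY tMONO
  have hCON := tCON tMONO
  have hTH12 := tTH12 hTH11 hCON
  have hTH21 := tTH21 hTH11 hCON
  have hIRR := tIRR tMONO tRES hBR hTH10 hTH12 hTH21
  have hSUBR := tSUBR tRET
  have hHOM2 := tHOM2 tHOM0
  have hEUL := tEUL hSUBR tHOM1 hHOM2
  have hTMAP := tTMAP tCNT
  exact main_of_targets hIRR tDEG tU5 hEUL hTMAP hDIS hT34 tREG hF3 hF4

end Pool.Agent.TorDeg
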