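import Pool.Agent.TorDeg.Defs

set_option autoImplicit false

/-!
# The colouring game, configurations, toroidal maps and charges
-/

namespace Pool.Agent.TorDeg

section game

variable {V C : Type}

/-- covers with an arbitrary type of colours -/
structure Cov (G : SimpleGraph V) (H : SimpleGraph (V × C)) : Prop where
  adj : ∀ u v i j, H.Adj (u, i) (v, j) → G.Adj u v
  mat : ∀ u v i j j', H.Adj (u, i) (v, j) → H.Adj (u, i) (v, j') → j = j'

open Classical in
/-- the values of `g` after the choice of `x` -/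
noncomputable def res (H : SimpleGraph (V × C)) (g : V × C → ℕ) (x : V × C) : V × C → ℕ :=
  fun y => if H.Adj x y then g y - 1 else g y

/-- colours for the vertices of `A` can be chosen one after the other such that each of them has
a positive value at that time -/
inductive Win [DecidableEq V] (H : SimpleGraph (V × C)) : Finset V → (V × C → ℕ) → Prop
  | nil (g : V × C → ℕ) : Win H ∅ g
  | step (A : Finset V) (g : V × C → ℕ) (v : V) (i : C) (hv : v ∈ A) (hg : 0 < g (v, i))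
      (h : Win H (A.erase v) (res H g (v, i))) : Win H A g

open Classical in
/-- number of neighbours in `A` -/
noncomputable def dg (G : SimpleGraph V) (A : Finset V) (v : V) : ℕ :=
  (A.filter fun u => G.Adj v u).card

/-- sum of the values of the colours of `v` -/
def sm [Fintype C] (g : V × C → ℕ) (v : V) : ℕ := ∑ i, g (v, i)

/-- connected finite sets of vertices -/
inductive Cn [DecidableEq V] (G : SimpleGraph V) : Finset V → Prop
  | single (v : V) : Cn G {v}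
  | insert (A : Finset V) (u v : V) (h : Cn G A) (hu : u ∈ A) (hv : G.Adj v u) :
      Cn G (insert v A)

end game

section configurations

variable {V : Type}

/-- 5-cycles -/
def Five (G : SimpleGraph V) (a b c d e : V) : Prop :=
  G.Adj a b ∧ G.Adj b c ∧ G.Adj c d ∧ G.Adj d e ∧ G.Adj e a ∧
    a ≠ c ∧ a ≠ d ∧ b ≠ d ∧ b ≠ e ∧ c ≠ e

/-- at most one 5-cycle through every vertex -/
def U5 (G : SimpleGraph V) : Prop :=
  ∀ a b c d e b' c' d' e', Five G a b c d e → Five G a b' c' d' e' →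
    (b = b' ∧ c = c' ∧ d = d' ∧ e = e') ∨ (b = e' ∧ c = d' ∧ d = c' ∧ e = b')

/-- fans (induced) -/
def Fan (G : SimpleGraph V) (a b c d e : V) : Prop :=
  G.Adj a b ∧ G.Adj a c ∧ G.Adj a d ∧ G.Adj a e ∧ G.Adj b c ∧ G.Adj c d ∧ G.Adj d e ∧
    ¬ G.Adj b d ∧ ¬ G.Adj b e ∧ ¬ G.Adj c e ∧ b ≠ d ∧ b ≠ e ∧ c ≠ e

/-- chordless 5-cycles -/
def Ring (G : SimpleGraph V) (v₁ v₂ v₃ v₄ v₅ : V) : Prop :=
  Five G v₁ v₂ v₃ v₄ v₅ ∧ ¬ G.Adj v₁ v₃ ∧ ¬ G.Adj v₁ v₄ ∧ ¬ G.Adj v₂ v₄ ∧ ¬ G.Adj v₂ v₅ ∧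
    ¬ G.Adj v₃ v₅

/-- `w` is adjacent to `x` and `y`, but not equal or adjacent to `a`, `b`, `c` -/
def Apex (G : SimpleGraph V) (w x y a b c : V) : Prop :=
  G.Adj w x ∧ G.Adj w y ∧ ¬ G.Adj w a ∧ ¬ G.Adj w b ∧ ¬ G.Adj w c ∧ w ≠ a ∧ w ≠ b ∧ w ≠ c

/-- an induced chordless 5-cycle with two triangles, on `v₁ v₂` and on `v₄ v₅` -/
def Ring12 (G : SimpleGraph V) (v₁ v₂ v₃ v₄ v₅ w₁ w₄ : V) : Prop :=
  Ring G v₁ v₂ v₃ v₄ v₅ ∧ Apex G w₁ v₁ v₂ v₃ v₄ v₅ ∧ Apex G w₄ v₄ v₅ v₁ v₂ v₃ ∧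
    w₁ ≠ w₄ ∧ ¬ G.Adj w₁ w₄

/-- an induced chordless 5-cycle with two triangles, on `v₁ v₂` and on `v₃ v₄` -/
def Ring21 (G : SimpleGraph V) (v₁ v₂ v₃ v₄ v₅ w₁ w₃ : V) : Prop :=
  Ring G v₁ v₂ v₃ v₄ v₅ ∧ Apex G w₁ v₁ v₂ v₃ v₄ v₅ ∧ Apex G w₃ v₃ v₄ v₅ v₁ v₂ ∧
    w₁ ≠ w₃ ∧ ¬ G.Adj w₁ w₃

/-- the degree -/
noncomputable def deg [Fintype V] (G : SimpleGraph V) (v : V) : ℕ := dg G Finset.univ v

/-- reducible configurations of vertices of degree 4 -/
structure Good [Fintype V] [DecidableEq V] (G : SimpleGraph V) (K : Finset V) (z a b : V) :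
    Prop where
  deg4 : ∀ v ∈ K, deg G v = 4
  hz : z ∈ K
  ha : a ∈ K
  hb : b ∈ K
  za : G.Adj z a
  zb : G.Adj z b
  ne : a ≠ b
  ab : ¬ G.Adj a b
  three : dg G K z = 3
  conz : Cn G (K.erase z)
  conab : Cn G ((K.erase a).erase b)

/-- properties of a minimal counterexample -/
structure Irred [Fintype V] [DecidableEq V] (G : SimpleGraph V) : Prop where
  deg4 : ∀ v, 4 ≤ deg G v
  good : ∀ K z a b, ¬ Good G K z a b
  th10 : ∀ a b c d e, Fan G a b c d e → deg G a = 4 → deg G b = 4 → deg G c = 5 →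
    deg G d = 4 → deg G e = 4 → False
  th12 : ∀ v₁ v₂ v₃ v₄ v₅ w₁ w₄, Ring12 G v₁ v₂ v₃ v₄ v₅ w₁ w₄ → deg G v₁ = 5 →
    deg G v₂ = 4 → deg G v₃ = 4 → deg G v₄ = 4 → deg G v₅ = 4 → deg G w₁ = 4 →
    deg G w₄ = 4 → False
  th21 : ∀ v₁ v₂ v₃ v₄ v₅ w₁ w₃, Ring21 G v₁ v₂ v₃ v₄ v₅ w₁ w₃ → deg G v₁ = 5 →
    deg G v₂ = 4 → deg G v₃ = 4 → deg G v₄ = 4 → deg G v₅ = 4 → deg G w₁ = 4 →
    deg G w₃ = 4 → False

end configurations

section maps

variable {V : Type} [Fintype V]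

open Classical in
/-- the neighbours -/
noncomputable def nb (G : SimpleGraph V) (v : V) : Finset V := Finset.univ.filter fun u => G.Adj v u

/-- the charge of a corner of a face of length `k` (times 10) -/
def wt (k : ℕ) : ℤ := if k ≤ 3 then -10 else if k = 4 then 0 else if k = 5 then 6 else 10

/-- An embedding: `nx v u` is the neighbour of `v` after the neighbour `u`, and `k v u` is the
length of the face on the side of the oriented edge `(v, u)`; the next oriented edge of this face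
is `(u, nx u v)`. The face of `(v, u)` has its corner at `v` between `u` and the neighbour
before `u`. -/
structure TMap (G : SimpleGraph V) (nx : V → V → V) (k : V → V → ℕ) : Prop where
  adj : ∀ v u, G.Adj v u → G.Adj v (nx v u)
  inj : ∀ v u u', G.Adj v u → G.Adj v u' → nx v u = nx v u' → u = u'
  trans : ∀ v u u', G.Adj v u → G.Adj v u' → ∃ i, i < deg G v ∧ (nx v)^[i] u = u'
  face : ∀ v u, G.Adj v u → k u (nx u v) = k v u
  three : ∀ v u, G.Adj v u → 3 ≤ k v u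
  f3 : ∀ v u, G.Adj v u → k v u = 3 → nx (nx u v) u = v ∧ nx v (nx u v) = u
  f4 : ∀ v u, G.Adj v u → k v u = 4 → nx (nx (nx u v) u) (nx u v) = v ∧
    nx v (nx (nx u v) u) = u
  f5 : ∀ v u, G.Adj v u → k v u = 5 →
    nx (nx (nx (nx u v) u) (nx u v)) (nx (nx u v) u) = v ∧
    nx v (nx (nx (nx u v) u) (nx u v)) = u
  total : ∑ v, (30 * ((deg G v : ℤ) - 4) + ∑ u ∈ nb G v, wt (k v u)) ≤ 0

open Classical in
/-- what a vertex `v` of degree at least 5 sends across the triangle of `(v, m)` to a 5-face -/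
noncomputable def snt (G : SimpleGraph V) (nx : V → V → V) (k : V → V → ℕ) (v m : V) : ℤ :=
  if 5 ≤ deg G v ∧ k v m = 3 ∧ k (nx m v) m = 5 then 5 else 0

open Classical in
/-- what the vertex `v` of the 5-face of `(v, m)` receives across `(v, m)` -/
noncomputable def rcv (G : SimpleGraph V) (nx : V → V → V) (k : V → V → ℕ) (v m : V) : ℤ :=
  if k v m = 5 ∧ k m v = 3 ∧ 5 ≤ deg G (nx v m) then 5 else 0

/-- the final charge (times 10) -/
noncomputable def fc (G : SimpleGraph V) (nx : V → V → V) (k : V → V → ℕ) (v : V) : ℤ :=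
  30 * ((deg G v : ℤ) - 4) + ∑ m ∈ nb G v, (wt (k v m) - snt G nx k v m + rcv G nx k v m)

/-- calm vertices: no 5-face, no three consecutive triangles, no triangle next to a 4-face -/
structure Calm (G : SimpleGraph V) (nx : V → V → V) (k : V → V → ℕ) (v : V) : Prop where
  five : ∀ m, G.Adj v m → k v m ≠ 5
  ttt : ∀ m, G.Adj v m → ¬ (k v m = 3 ∧ k v (nx v m) = 3 ∧ k v (nx v (nx v m)) = 3)
  tq : ∀ m, G.Adj v m → ¬ (k v m = 3 ∧ k v (nx v m) = 4)
  qt : ∀ m, G.Adj v m → ¬ (k v m = 4 ∧ k v (nx v m) = 3)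

/-- the embedded minimal counterexample -/
structure Ctx [DecidableEq V] (G : SimpleGraph V) (nx : V → V → V) (k : V → V → ℕ) : Prop where
  map : TMap G nx k
  u5 : U5 G
  irr : Irred G

end maps

end Pool.Agent.TorDeg
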