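import Pool.Agent.TorDeg.Targets

set_option autoImplicit false

/-!
# Helper lemmas for the game on small configurations (helper43)
-/

namespace Pool.Agent.TorDeg

namespace Gm

variable {V C : Type}

theorem res_adj {H : SimpleGraph (V × C)} {g : V × C → ℕ} {x y : V × C} (h : H.Adj x y) :
    res H g x y = g y - 1 := by
  unfold res
  rw [if_pos h]

theorem res_not {H : SimpleGraph (V × C)} {g : V × C → ℕ} {x y : V × C} (h : ¬ H.Adj x y) :
    res H g x y = g y := by
  unfold res
  rw [if_neg h]

theorem res_le (H : SimpleGraph (V × C)) (g : V × C → ℕ) (x y : V × C) : res H g x y ≤ g y := by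
  unfold res
  split_ifs
  · exact Nat.sub_le _ _
  · exact le_rfl

/-- no edge over a pair of vertices which are not adjacent -/
theorem nadj {G : SimpleGraph V} {H : SimpleGraph (V × C)} (hc : Cov G H) {u v : V} (i j : C)
    (h : ¬ G.Adj u v) : ¬ H.Adj (u, i) (v, j) := fun h' => h (hc.adj _ _ _ _ h')

/-- the mate is unique -/
theorem nmat {G : SimpleGraph V} {H : SimpleGraph (V × C)} (hc : Cov G H) {u v : V} {i j j' : C}
    (h : H.Adj (u, i) (v, j)) (hj : j' ≠ j) : ¬ H.Adj (u, i) (v, j') :=
  fun h' => hj (hc.mat _ _ _ _ _ h' h)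

/-- the mate is unique, other side -/
theorem nmat' {G : SimpleGraph V} {H : SimpleGraph (V × C)} (hc : Cov G H) {u v : V} {i i' j : C}
    (h : H.Adj (u, i) (v, j)) (hi : i' ≠ i) : ¬ H.Adj (u, i') (v, j) :=
  fun h' => hi (hc.mat _ _ _ _ _ h'.symm h.symm)

section sets

variable [DecidableEq V]

theorem s3_2 (x y z : V) : ({x, y, z} : Finset V) = insert y {x, z} := by
  ext u; simp only [Finset.mem_insert, Finset.mem_singleton]; tauto

theorem s3_3 (x y z : V) : ({x, y, z} : Finset V) = insert z {x, y} := by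
  ext u; simp only [Finset.mem_insert, Finset.mem_singleton]; tauto

theorem s4_2 (x y z w : V) : ({x, y, z, w} : Finset V) = insert y {x, z, w} := by
  ext u; simp only [Finset.mem_insert, Finset.mem_singleton]; tauto

theorem s4_3 (x y z w : V) : ({x, y, z, w} : Finset V) = insert z {x, y, w} := by
  ext u; simp only [Finset.mem_insert, Finset.mem_singleton]; tauto

theorem s4_4 (x y z w : V) : ({x, y, z, w} : Finset V) = insert w {x, y, z} := by
  ext u; simp only [Finset.mem_insert, Finset.mem_singleton]; tauto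

theorem s5_2 (x y z w t : V) : ({x, y, z, w, t} : Finset V) = insert y {x, z, w, t} := by
  ext u; simp only [Finset.mem_insert, Finset.mem_singleton]; tauto

theorem s5_3 (x y z w t : V) : ({x, y, z, w, t} : Finset V) = insert z {x, y, w, t} := by
  ext u; simp only [Finset.mem_insert, Finset.mem_singleton]; tauto

theorem s5_4 (x y z w t : V) : ({x, y, z, w, t} : Finset V) = insert w {x, y, z, t} := by
  ext u; simp only [Finset.mem_insert, Finset.mem_singleton]; tauto

theorem s5_5 (x y z w t : V) : ({x, y, z, w, t} : Finset V) = insert t {x, y, z, w} := by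
  ext u; simp only [Finset.mem_insert, Finset.mem_singleton]; tauto

theorem s6_2 (x y z w t s : V) : ({x, y, z, w, t, s} : Finset V) = insert y {x, z, w, t, s} := by
  ext u; simp only [Finset.mem_insert, Finset.mem_singleton]; tauto

theorem s6_3 (x y z w t s : V) : ({x, y, z, w, t, s} : Finset V) = insert z {x, y, w, t, s} := by
  ext u; simp only [Finset.mem_insert, Finset.mem_singleton]; tauto

theorem s6_4 (x y z w t s : V) : ({x, y, z, w, t, s} : Finset V) = insert w {x, y, z, t, s} := by
  ext u; simp only [Finset.mem_insert, Finset.mem_singleton]; tauto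

theorem s6_5 (x y z w t s : V) : ({x, y, z, w, t, s} : Finset V) = insert t {x, y, z, w, s} := by
  ext u; simp only [Finset.mem_insert, Finset.mem_singleton]; tauto

theorem s6_6 (x y z w t s : V) : ({x, y, z, w, t, s} : Finset V) = insert s {x, y, z, w, t} := by
  ext u; simp only [Finset.mem_insert, Finset.mem_singleton]; tauto

theorem rev3 (x y z : V) : ({x, y, z} : Finset V) = {z, y, x} := by
  ext u; simp only [Finset.mem_insert, Finset.mem_singleton]; tauto

theorem rot3 (x y z : V) : ({x, y, z} : Finset V) = {y, z, x} := by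
  ext u; simp only [Finset.mem_insert, Finset.mem_singleton]; tauto

theorem not3 {v x y z : V} (h1 : v ≠ x) (h2 : v ≠ y) (h3 : v ≠ z) :
    v ∉ ({x, y, z} : Finset V) := by
  simp only [Finset.mem_insert, Finset.mem_singleton, not_or]
  exact ⟨h1, h2, h3⟩

theorem not2 {v x y : V} (h1 : v ≠ x) (h2 : v ≠ y) : v ∉ ({x, y} : Finset V) := by
  simp only [Finset.mem_insert, Finset.mem_singleton, not_or]
  exact ⟨h1, h2⟩

theorem not1 {v x : V} (h1 : v ≠ x) : v ∉ ({x} : Finset V) := by
  simpa only [Finset.mem_singleton]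

theorem not4 {v x y z w : V} (h1 : v ≠ x) (h2 : v ≠ y) (h3 : v ≠ z) (h4 : v ≠ w) :
    v ∉ ({x, y, z, w} : Finset V) := by
  simp only [Finset.mem_insert, Finset.mem_singleton, not_or]
  exact ⟨h1, h2, h3, h4⟩

theorem not5 {v x y z w t : V} (h1 : v ≠ x) (h2 : v ≠ y) (h3 : v ≠ z) (h4 : v ≠ w) (h5 : v ≠ t) :
    v ∉ ({x, y, z, w, t} : Finset V) := by
  simp only [Finset.mem_insert, Finset.mem_singleton, not_or]
  exact ⟨h1, h2, h3, h4, h5⟩

end sets

section sums

variable [Fintype C]

theorem sm_congr {g g' : V × C → ℕ} {v : V} (h : ∀ j, g (v, j) = g' (v, j)) : sm g v = sm g' v :=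
  Finset.sum_congr rfl fun j _ => h j

theorem sm_res_nadj {G : SimpleGraph V} {H : SimpleGraph (V × C)} (hc : Cov G H) (g : V × C → ℕ)
    {v w : V} (i : C) (h : ¬ G.Adj v w) : sm (res H g (v, i)) w = sm g w :=
  sm_congr fun j => res_not (nadj hc i j h)

theorem sm_res_ge {G : SimpleGraph V} {H : SimpleGraph (V × C)} (hc : Cov G H) (g : V × C → ℕ)
    (v w : V) (i : C) : sm g w ≤ sm (res H g (v, i)) w + 1 := by
  classical
  by_cases h : ∃ j, H.Adj (v, i) (w, j)
  · obtain ⟨j, hj⟩ := h
    unfold sm
    rw [← Finset.add_sum_erase Finset.univ (fun k => g (w, k)) (Finset.mem_univ j),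
      ← Finset.add_sum_erase Finset.univ (fun k => res H g (v, i) (w, k)) (Finset.mem_univ j)]
    have h1 : ∑ k ∈ Finset.univ.erase j, g (w, k)
        = ∑ k ∈ Finset.univ.erase j, res H g (v, i) (w, k) := by
      refine Finset.sum_congr rfl fun k hk => ?_
      rw [res_not (nmat hc hj (Finset.ne_of_mem_erase hk))]
    have h2 : g (w, j) ≤ res H g (v, i) (w, j) + 1 := by
      rw [res_adj hj]; omega
    omega
  · push Not at h
    have : sm (res H g (v, i)) w = sm g w := sm_congr fun j => res_not (h j)
    omega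

theorem sm_res_nomate (H : SimpleGraph (V × C)) (g : V × C → ℕ) {v w : V} {i : C}
    (h : ∀ j, H.Adj (v, i) (w, j) → g (w, j) = 0) : sm (res H g (v, i)) w = sm g w := by
  refine sm_congr fun j => ?_
  by_cases hj : H.Adj (v, i) (w, j)
  · rw [res_adj hj, h j hj]
  · exact res_not hj

/-- a mate of positive value exists as soon as the sum goes down -/
theorem mate_of_lt {H : SimpleGraph (V × C)} {g : V × C → ℕ} {v w : V} {i : C}
    (h : sm (res H g (v, i)) w < sm g w) : ∃ j, H.Adj (v, i) (w, j) ∧ 0 < g (w, j) := by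
  by_contra hcon
  push Not at hcon
  have := sm_res_nomate H g (v := v) (w := w) (i := i) (fun j hj => by have := hcon j hj; omega)
  omega

theorem exists_pos {g : V × C → ℕ} {v : V} (h : 0 < sm g v) : ∃ j, 0 < g (v, j) := by
  by_contra hcon
  push Not at hcon
  have : sm g v = 0 := Finset.sum_eq_zero fun j _ => by have := hcon j; omega
  omega

theorem le_sm (g : V × C → ℕ) (v : V) (j : C) : g (v, j) ≤ sm g v :=
  Finset.single_le_sum (f := fun k => g (v, k)) (fun _ _ => Nat.zero_le _) (Finset.mem_univ j)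

theorem exists_pos_ne {g : V × C → ℕ} {v : V} {x : C} (h : g (v, x) < sm g v) :
    ∃ y, y ≠ x ∧ 0 < g (v, y) := by
  classical
  by_contra hcon
  push Not at hcon
  have h1 : sm g v = g (v, x) := by
    unfold sm
    rw [← Finset.add_sum_erase Finset.univ (fun k => g (v, k)) (Finset.mem_univ x)]
    have : ∑ k ∈ Finset.univ.erase x, g (v, k) = 0 :=
      Finset.sum_eq_zero fun k hk => by
        have := hcon k (Finset.ne_of_mem_erase hk); omega
    omega
  omega

theorem two_le_sm {g : V × C → ℕ} {v : V} {x y : C} (h : x ≠ y) :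
    g (v, x) + g (v, y) ≤ sm g v := by
  classical
  unfold sm
  rw [← Finset.add_sum_erase Finset.univ (fun k => g (v, k)) (Finset.mem_univ x)]
  have : g (v, y) ≤ ∑ k ∈ Finset.univ.erase x, g (v, k) :=
    Finset.single_le_sum (f := fun k => g (v, k)) (fun _ _ => Nat.zero_le _)
      (Finset.mem_erase.2 ⟨h.symm, Finset.mem_univ y⟩)
  omega

theorem three_le_sm {g : V × C → ℕ} {v : V} {x y z : C} (h : x ≠ y) (h' : x ≠ z) (h'' : y ≠ z) :
    g (v, x) + g (v, y) + g (v, z) ≤ sm g v := by
  classical
  unfold sm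
  rw [← Finset.add_sum_erase Finset.univ (fun k => g (v, k)) (Finset.mem_univ x),
    ← Finset.add_sum_erase (Finset.univ.erase x) (fun k => g (v, k))
      (Finset.mem_erase.2 ⟨h.symm, Finset.mem_univ y⟩)]
  have : g (v, z) ≤ ∑ k ∈ (Finset.univ.erase x).erase y, g (v, k) :=
    Finset.single_le_sum (f := fun k => g (v, k)) (fun _ _ => Nat.zero_le _)
      (Finset.mem_erase.2 ⟨h''.symm, Finset.mem_erase.2 ⟨h'.symm, Finset.mem_univ z⟩⟩)
  omega

end sums

section win

variable [DecidableEq V]

/-- one move -/
theorem play {H : SimpleGraph (V × C)} {A : Finset V} {g : V × C → ℕ} (v : V) (i : C)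
    (B : Finset V) (hA : A = insert v B) (hv : v ∉ B) (hg : 0 < g (v, i))
    (h : Win H B (res H g (v, i))) : Win H A g := by
  subst hA
  refine Win.step _ g v i (Finset.mem_insert_self v B) hg ?_
  rwa [Finset.erase_insert hv]

theorem dg_le_card {G : SimpleGraph V} {A : Finset V} {v : V} (S : Finset V)
    (h : ∀ u ∈ A, G.Adj v u → u ∈ S) : dg G A v ≤ S.card := by
  classical
  unfold dg
  apply Finset.card_le_card
  intro u hu
  rw [Finset.mem_filter] at hu
  exact h u hu.1 hu.2

variable [Fintype C]

/-- an edge with a surplus -/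
theorem g2 (hG : T_GREEDY) {G : SimpleGraph V} {H : SimpleGraph (V × C)} (hc : Cov G H)
    (g : V × C → ℕ) {y z : V} (hyz : G.Adj y z) (h1 : 1 ≤ sm g y) (h2 : 1 ≤ sm g z)
    (h3 : 3 ≤ sm g y + sm g z) : Win H {y, z} g := by
  have hcn : Cn G ({y, z} : Finset V) :=
    Cn.insert {z} z y (Cn.single z) (Finset.mem_singleton_self z) hyz
  have dy : dg G {y, z} y ≤ 1 := by
    refine (dg_le_card {z} ?_).trans (Finset.card_singleton z).le
    intro u hu ha
    simp only [Finset.mem_insert, Finset.mem_singleton] at hu ⊢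
    rcases hu with rfl | rfl
    · exact absurd ha (G.irrefl)
    · rfl
  have dz : dg G {y, z} z ≤ 1 := by
    refine (dg_le_card {y} ?_).trans (Finset.card_singleton y).le
    intro u hu ha
    simp only [Finset.mem_insert, Finset.mem_singleton] at hu ⊢
    rcases hu with rfl | rfl
    · rfl
    · exact absurd ha (G.irrefl)
  refine hG V C G H hc {y, z} g hcn ?_ ?_
  · intro v hv
    simp only [Finset.mem_insert, Finset.mem_singleton] at hv
    rcases hv with rfl | rfl
    · omega
    · omega
  · rcases Nat.lt_or_ge 1 (sm g y) with h | h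
    · exact ⟨y, by simp, by omega⟩
    · exact ⟨z, by simp, by omega⟩

/-- three vertices, `x` adjacent to both others -/
theorem g3' (hG : T_GREEDY) {G : SimpleGraph V} {H : SimpleGraph (V × C)} (hc : Cov G H)
    (g : V × C → ℕ) {x y z : V} (hxy : G.Adj x y) (hxz : G.Adj x z) (hyz : ¬ G.Adj y z)
    (h1 : 2 ≤ sm g x) (h2 : 1 ≤ sm g y) (h3 : 1 ≤ sm g z)
    (h4 : 5 ≤ sm g x + sm g y + sm g z) : Win H {x, y, z} g := by
  have hcn : Cn G ({x, y, z} : Finset V) := by
    have e : ({x, y, z} : Finset V) = insert y (insert x {z}) := by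
      rw [Finset.insert_comm]
    rw [e]
    exact Cn.insert _ x y (Cn.insert {z} z x (Cn.single z) (by simp) hxz) (by simp) hxy.symm
  have dx : dg G {x, y, z} x ≤ 2 := by
    refine (dg_le_card {y, z} ?_).trans Finset.card_le_two
    intro u hu ha
    simp only [Finset.mem_insert, Finset.mem_singleton] at hu ⊢
    rcases hu with rfl | rfl | rfl
    · exact absurd ha (G.irrefl)
    · simp
    · simp
  have dy : dg G {x, y, z} y ≤ 1 := by
    refine (dg_le_card {x} ?_).trans (Finset.card_singleton x).le
    intro u hu ha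
    simp only [Finset.mem_insert, Finset.mem_singleton] at hu ⊢
    rcases hu with rfl | rfl | rfl
    · rfl
    · exact absurd ha (G.irrefl)
    · exact absurd ha hyz
  have dz : dg G {x, y, z} z ≤ 1 := by
    refine (dg_le_card {x} ?_).trans (Finset.card_singleton x).le
    intro u hu ha
    simp only [Finset.mem_insert, Finset.mem_singleton] at hu ⊢
    rcases hu with rfl | rfl | rfl
    · rfl
    · exact absurd ha.symm hyz
    · exact absurd ha (G.irrefl)
  refine hG V C G H hc {x, y, z} g hcn ?_ ?_
  · intro v hv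
    simp only [Finset.mem_insert, Finset.mem_singleton] at hv
    rcases hv with rfl | rfl | rfl
    · omega
    · omega
    · omega
  · by_contra hcon
    push Not at hcon
    have e1 := hcon x (by simp)
    have e2 := hcon y (by simp)
    have e3 := hcon z (by simp)
    omega

/-- a triangle with a surplus -/
theorem g3 (hG : T_GREEDY) {G : SimpleGraph V} {H : SimpleGraph (V × C)} (hc : Cov G H)
    (g : V × C → ℕ) {x y z : V} (hxy : G.Adj x y) (hxz : G.Adj x z)
    (h1 : 2 ≤ sm g x) (h2 : 2 ≤ sm g y) (h3 : 2 ≤ sm g z)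
    (h4 : 7 ≤ sm g x + sm g y + sm g z) : Win H {x, y, z} g := by
  have hcn : Cn G ({x, y, z} : Finset V) := by
    have e : ({x, y, z} : Finset V) = insert y (insert x {z}) := by
      rw [Finset.insert_comm]
    rw [e]
    exact Cn.insert _ x y (Cn.insert {z} z x (Cn.single z) (by simp) hxz) (by simp) hxy.symm
  have dx : dg G {x, y, z} x ≤ 2 := by
    refine (dg_le_card {y, z} ?_).trans Finset.card_le_two
    intro u hu ha
    simp only [Finset.mem_insert, Finset.mem_singleton] at hu ⊢
    rcases hu with rfl | rfl | rfl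
    · exact absurd ha (G.irrefl)
    · simp
    · simp
  have dy : dg G {x, y, z} y ≤ 2 := by
    refine (dg_le_card {x, z} ?_).trans Finset.card_le_two
    intro u hu ha
    simp only [Finset.mem_insert, Finset.mem_singleton] at hu ⊢
    rcases hu with rfl | rfl | rfl
    · simp
    · exact absurd ha (G.irrefl)
    · simp
  have dz : dg G {x, y, z} z ≤ 2 := by
    refine (dg_le_card {x, y} ?_).trans Finset.card_le_two
    intro u hu ha
    simp only [Finset.mem_insert, Finset.mem_singleton] at hu ⊢
    rcases hu with rfl | rfl | rfl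
    · simp
    · simp
    · exact absurd ha (G.irrefl)
  refine hG V C G H hc {x, y, z} g hcn ?_ ?_
  · intro v hv
    simp only [Finset.mem_insert, Finset.mem_singleton] at hv
    rcases hv with rfl | rfl | rfl
    · omega
    · omega
    · omega
  · by_contra hcon
    push Not at hcon
    have e1 := hcon x (by simp)
    have e2 := hcon y (by simp)
    have e3 := hcon z (by simp)
    omega

/-- a lost triangle: mates of positive value -/
theorem tri (hG : T_GREEDY) {G : SimpleGraph V} {H : SimpleGraph (V × C)} (hc : Cov G H)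
    {g : V × C → ℕ} {x y z : V} (hxy : G.Adj x y) (hxz : G.Adj x z) (hyz : G.Adj y z)
    (h2 : 2 ≤ sm g y) (h3 : 2 ≤ sm g z)
    (hl : ¬ Win H {x, y, z} g) {i : C} (hi : 0 < g (x, i)) :
    (∃ j, H.Adj (x, i) (y, j) ∧ 0 < g (y, j)) ∧ (∃ j, H.Adj (x, i) (z, j) ∧ 0 < g (z, j)) := by
  have hx : x ∉ ({y, z} : Finset V) := by
    simp only [Finset.mem_insert, Finset.mem_singleton, not_or]
    exact ⟨hxy.ne, hxz.ne⟩
  have hly := sm_res_ge hc g x y i
  have hlz := sm_res_ge hc g x z i
  have key : sm (res H g (x, i)) y + sm (res H g (x, i)) z < 3 := by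
    by_contra hcon
    push Not at hcon
    exact hl (play x i {y, z} rfl hx hi (g2 hG hc _ hyz (by omega) (by omega) hcon))
  exact ⟨mate_of_lt (by omega), mate_of_lt (by omega)⟩

end win

end Gm

end Pool.Agent.TorDeg
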