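import Pool.Agent.TorDeg.Targets

set_option autoImplicit false

/-!
# HOM0 and HOM1: the cycle space and the boundary space of a rotation system
-/

namespace Pool.Agent.TorDeg

open Finset Module
open Pool.Agent.CubicFree (bdry toDart faceB faceP symmPerm exists_edge_fun toDart_injective
  finrank_ker_bdry zmod2_add_self perm_apply_inv_self)

section kit

variable {V : Type} [Fintype V] [DecidableEq V] (G : SimpleGraph V) [DecidableRel G.Adj]
  (σ : Equiv.Perm G.Dart)

/-- functions invariant under the face permutation descend to the quotient -/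
theorem hom_desc (g : G.Dart → ZMod 2) (hg : ∀ d, g (σ d.symm) = g d) :
    ∀ d e : G.Dart, (faceP G σ).SameCycle d e → g d = g e := by
  intro d e hde
  have hz : ∀ (k : ℤ) (d : G.Dart), g ((faceP G σ ^ k) d) = g d := by
    intro k
    induction k using Int.induction_on with
    | zero => intro d; simp
    | succ k ih =>
      intro d
      rw [zpow_add_one, Equiv.Perm.mul_apply, ih]
      exact hg d
    | pred k ih =>
      intro d
      have h3 : (faceP G σ ^ (-(k : ℤ) - 1)) d = (faceP G σ ^ (-(k : ℤ))) ((faceP G σ)⁻¹ d) := by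
        rw [zpow_sub_one, Equiv.Perm.mul_apply]
      rw [h3, ih]
      have h4 : g (faceP G σ ((faceP G σ)⁻¹ d)) = g ((faceP G σ)⁻¹ d) := hg _
      rw [perm_apply_inv_self] at h4
      exact h4.symm
  obtain ⟨k, hk⟩ := hde
  rw [← hk, hz]

theorem hom_mk (d : G.Dart) :
    (Quotient.mk (Equiv.Perm.SameCycle.setoid (faceP G σ)) (σ d.symm)) = Quotient.mk _ d := by
  apply Quotient.sound
  show (faceP G σ).SameCycle (σ d.symm) d
  exact (Equiv.Perm.sameCycle_apply_left (f := faceP G σ) (x := d) (y := d)).mpr
    (Equiv.Perm.SameCycle.refl _ _)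

theorem hom_cyc (z : G.Dart → ZMod 2) :
    z ∈ cycSp G ↔ (∀ d, z d.symm = z d) ∧ ∀ v, ∑ d : G.Dart with d.fst = v, z d = 0 := by
  constructor
  · rintro ⟨y, hy, rfl⟩
    have hy' : bdry G y = 0 := hy
    refine ⟨fun d => ?_, fun v => congrFun hy' v⟩
    show y _ = y _
    congr 1
    exact Subtype.ext d.edge_symm
  · rintro ⟨h1, h2⟩
    obtain ⟨y, hy⟩ := exists_edge_fun G z h1
    refine ⟨y, ?_, hy⟩
    show bdry G y = 0
    ext v
    show ∑ d : G.Dart with d.fst = v, toDart G y d = 0
    rw [hy]
    exact h2 v

theorem hom_bd (z : G.Dart → ZMod 2) :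
    z ∈ bdSp G σ ↔ ∃ g : G.Dart → ZMod 2, (∀ d, g (σ d.symm) = g d) ∧
      ∀ d, g d + g d.symm = z d := by
  constructor
  · rintro ⟨h, rfl⟩
    exact ⟨fun d => h (Quotient.mk _ d), fun d => congrArg h (hom_mk G σ d), fun d => rfl⟩
  · rintro ⟨g, hg1, hg2⟩
    refine ⟨Quotient.lift g (fun d e hde => hom_desc G σ g hg1 d e hde), ?_⟩
    ext d
    exact hg2 d

/-- the kernel of the boundary map on faces has dimension one -/
theorem hom_ker (hconn : G.Connected) (hne : Nonempty G.Dart)
    (h2 : ∀ d e : G.Dart, d.fst = e.fst → σ.SameCycle d e) :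
    finrank (ZMod 2) (LinearMap.ker (faceB G σ)) = 1 := by
  have hmk := hom_mk G σ
  have hk : LinearMap.ker (faceB G σ) = Submodule.span (ZMod 2) {fun _ => (1 : ZMod 2)} := by
    apply le_antisymm
    · intro h hh
      have hh' : ∀ d : G.Dart, h (Quotient.mk _ d) + h (Quotient.mk _ d.symm) = 0 :=
        fun d => congrFun hh d
      have hsym : ∀ d : G.Dart, h (Quotient.mk _ d.symm) = h (Quotient.mk _ d) := by
        intro d
        have h3 := hh' d
        have h4 := zmod2_add_self (h (Quotient.mk _ d))
        linear_combination h3 - h4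
      have hsig : ∀ d : G.Dart, h (Quotient.mk _ (σ d)) = h (Quotient.mk _ d) := by
        intro d
        have h3 := hmk d.symm
        rw [SimpleGraph.Dart.symm_symm] at h3
        rw [h3, hsym]
      have hsc : ∀ d e : G.Dart, σ.SameCycle d e →
          h (Quotient.mk _ d) = h (Quotient.mk _ e) := by
        intro d e hde
        have hz : ∀ (k : ℤ) (d : G.Dart), h (Quotient.mk _ ((σ ^ k) d)) = h (Quotient.mk _ d) := by
          intro k
          induction k using Int.induction_on with
          | zero => intro d; simp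
          | succ k ih =>
            intro d
            rw [zpow_add_one, Equiv.Perm.mul_apply, ih]
            exact hsig d
          | pred k ih =>
            intro d
            have h3 : (σ ^ (-(k : ℤ) - 1)) d = (σ ^ (-(k : ℤ))) (σ⁻¹ d) := by
              rw [zpow_sub_one, Equiv.Perm.mul_apply]
            rw [h3, ih]
            have h4 := hsig (σ⁻¹ d)
            rw [perm_apply_inv_self] at h4
            exact h4.symm
        obtain ⟨k, hk⟩ := hde
        rw [← hk, hz]
      have hwalk : ∀ u v (_ : G.Walk u v), ∀ d e : G.Dart, d.fst = u → e.fst = v →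
          h (Quotient.mk _ d) = h (Quotient.mk _ e) := by
        intro u v p
        induction p with
        | nil =>
          intro d e hd he
          exact hsc d e (h2 d e (hd.trans he.symm))
        | @cons u w v hadj p ih =>
          intro d e hd he
          have e1 : h (Quotient.mk _ d) = h (Quotient.mk _ (⟨(u, w), hadj⟩ : G.Dart)) :=
            hsc _ _ (h2 _ _ hd)
          have e2 := hsym (⟨(u, w), hadj⟩ : G.Dart)
          rw [e1, ← e2]
          exact ih _ e rfl he
      obtain ⟨d0⟩ := hne
      rw [Submodule.mem_span_singleton]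
      refine ⟨h (Quotient.mk _ d0), ?_⟩
      ext q
      induction q using Quotient.inductionOn with
      | _ d =>
        simp only [Pi.smul_apply, smul_eq_mul, mul_one]
        obtain ⟨p⟩ := hconn.preconnected d0.fst d.fst
        exact hwalk _ _ p d0 d rfl rfl
    · rw [Submodule.span_singleton_le_iff_mem]
      ext d
      exact zmod2_add_self 1
  rw [hk]
  apply finrank_span_singleton
  intro h0
  obtain ⟨d0⟩ := hne
  have := congrFun h0 (Quotient.mk _ d0)
  simp at this

/-- boundaries are even -/
theorem hom_le (h1 : ∀ d, (σ d).fst = d.fst) : bdSp G σ ≤ cycSp G := by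
  intro z hz
  rw [hom_bd] at hz
  obtain ⟨g, hg1, hg2⟩ := hz
  rw [hom_cyc]
  refine ⟨fun d => ?_, fun v => ?_⟩
  · rw [← hg2, ← hg2, SimpleGraph.Dart.symm_symm, add_comm]
  · have e : ∑ d : G.Dart with d.fst = v, z d =
        ∑ d : G.Dart with d.fst = v, (g d + g d.symm) :=
      Finset.sum_congr rfl fun d _ => (hg2 d).symm
    rw [e, Finset.sum_add_distrib]
    have h3 : ∑ d : G.Dart with d.fst = v, g d.symm = ∑ d : G.Dart with d.fst = v, g d := by
      have h4 : ∀ d : G.Dart, g d.symm = g (σ d) := by
        intro d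
        have h5 := hg1 d.symm
        rw [SimpleGraph.Dart.symm_symm] at h5
        rw [h5]
      rw [Finset.sum_congr rfl (fun d _ => h4 d)]
      refine Finset.sum_bij (fun d _ => σ d) ?_ ?_ ?_ ?_
      · intro d hd
        rw [Finset.mem_filter] at hd ⊢
        exact ⟨mem_univ _, (h1 d).trans hd.2⟩
      · intro d _ e _ h; exact σ.injective h
      · intro d hd
        rw [Finset.mem_filter] at hd
        refine ⟨σ⁻¹ d, ?_, ?_⟩
        · rw [Finset.mem_filter]
          refine ⟨mem_univ _, ?_⟩
          have := h1 (σ⁻¹ d)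
          rw [perm_apply_inv_self] at this
          rw [← this]; exact hd.2
        · exact perm_apply_inv_self σ d
      · intro d _; rfl
    rw [h3]
    exact zmod2_add_self _

end kit

theorem tHOM0 : T_HOM0 := by
  intro V _ _ G _ σ z
  exact ⟨hom_cyc G z, hom_bd G σ z⟩

theorem tHOM1 : T_HOM1 := by
  intro V _ _ G _ σ hconn hne hrot
  refine ⟨hom_le G σ hrot.fst, ?_, ?_⟩
  · classical
    have hker := hom_ker G σ hconn hne hrot.cyc
    have hrn := LinearMap.finrank_range_add_finrank_ker (faceB G σ)
    have hF : faceCount G σ =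
        Fintype.card (Quotient (Equiv.Perm.SameCycle.setoid (faceP G σ))) := by
      rw [← Nat.card_eq_fintype_card]
      rfl
    rw [hF]
    rw [hker, Module.finrank_fintype_fun_eq_card] at hrn
    exact hrn
  · have hmapr : finrank (ZMod 2) (cycSp G) = finrank (ZMod 2) (LinearMap.ker (bdry G)) :=
      (LinearEquiv.finrank_eq
        (Submodule.equivMapOfInjective (toDart G) (toDart_injective G)
          (LinearMap.ker (bdry G)))).symm
    rw [hmapr, finrank_ker_bdry G hconn, Nat.card_eq_fintype_card]

end Pool.Agent.TorDeg
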