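import Pool.Agent.TorDeg.TriKit

set_option autoImplicit false
set_option linter.unusedSectionVars false

/-!
# More tools for small games
-/

namespace Pool.Agent.TorDeg

section kit

variable {V C : Type} {G : SimpleGraph V} {H : SimpleGraph (V × C)} {g : V × C → ℕ}

lemma exists_exact_fun [Fintype C] (s : ℕ) : ∀ (n : ℕ) (h : C → ℕ), ∑ i, h i = s + n →
    ∃ h' : C → ℕ, (∀ i, h' i ≤ h i) ∧ ∑ i, h' i = s
  | 0, h, hs => ⟨h, fun _ => le_rfl, hs⟩
  | n + 1, h, hs => by
    classical
    have hpos : ∃ i, 0 < h i := by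
      by_contra hh
      push Not at hh
      have : ∑ i, h i = 0 := Finset.sum_eq_zero fun i _ => by have := hh i; omega
      omega
    obtain ⟨i, hi⟩ := hpos
    have h1 : ∑ j, Function.update h i (h i - 1) j = s + n := by
      rw [Finset.sum_update_of_mem (Finset.mem_univ i)]
      rw [← Finset.add_sum_erase _ _ (Finset.mem_univ i)] at hs
      rw [Finset.sdiff_singleton_eq_erase]
      omega
    obtain ⟨h', h2, h3⟩ := exists_exact_fun s n _ h1
    refine ⟨h', fun j => ?_, h3⟩
    have h4 := h2 j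
    by_cases hj : j = i
    · subst hj
      rw [Function.update_self] at h4
      omega
    · rw [Function.update_of_ne hj] at h4
      exact h4

/-- lower the values such that the sums are exact -/
lemma exists_exact [Fintype C] (g : V × C → ℕ) (T : V → ℕ) : ∃ g' : V × C → ℕ,
    (∀ x, g' x ≤ g x) ∧ ∀ v, T v ≤ sm g v → sm g' v = T v := by
  have h : ∀ v, ∃ h' : C → ℕ, (∀ i, h' i ≤ g (v, i)) ∧ (T v ≤ sm g v → ∑ i, h' i = T v) := by
    intro v
    by_cases hv : T v ≤ sm g v
    · obtain ⟨h', h1, h2⟩ := exists_exact_fun (T v) (sm g v - T v) (fun i => g (v, i)) (by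
        show sm g v = _
        omega)
      exact ⟨h', h1, fun _ => h2⟩
    · exact ⟨fun i => g (v, i), fun _ => le_rfl, fun h => absurd h hv⟩
  choose h' h1 h2 using h
  exact ⟨fun x => h' x.1 x.2, fun x => h1 x.1 x.2, fun v hv => h2 v hv⟩

lemma dg_le {A : Finset V} {v : V} (S : Finset V) (h : ∀ u ∈ A, G.Adj v u → u ∈ S) :
    dg G A v ≤ S.card := by
  classical
  unfold dg
  refine Finset.card_le_card fun u hu => ?_
  rw [Finset.mem_filter] at hu
  exact h u hu.1 hu.2

lemma dg_le_one {A : Finset V} {v a : V} (h : ∀ u ∈ A, G.Adj v u → u = a) :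
    dg G A v ≤ 1 := by
  classical
  refine (dg_le {a} fun u hu hv => ?_).trans (Finset.card_singleton a).le
  rw [Finset.mem_singleton]
  exact h u hu hv

lemma dg_le_two {A : Finset V} {v a b : V} (h : ∀ u ∈ A, G.Adj v u → u = a ∨ u = b) :
    dg G A v ≤ 2 := by
  classical
  refine (dg_le {a, b} fun u hu hv => ?_).trans Finset.card_le_two
  rw [Finset.mem_insert, Finset.mem_singleton]
  exact h u hu hv

lemma dg_le_three {A : Finset V} {v a b c : V} (h : ∀ u ∈ A, G.Adj v u → u = a ∨ u = b ∨ u = c) :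
    dg G A v ≤ 3 := by
  classical
  refine (dg_le {a, b, c} fun u hu hv => ?_).trans Finset.card_le_three
  rw [Finset.mem_insert, Finset.mem_insert, Finset.mem_singleton]
  exact h u hu hv

variable [DecidableEq V]

lemma win_step {A B : Finset V} {v : V} {i : C} (hv : v ∈ A) (hi : 0 < g (v, i))
    (hB : A.erase v = B) (h : Win H B (res H g (v, i))) : Win H A g :=
  Win.step A g v i hv hi (hB ▸ h)

lemma cn_insert {A B : Finset V} {v u : V} (h : Cn G A) (hu : u ∈ A) (hv : G.Adj v u)
    (hB : B = insert v A) : Cn G B := by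
  rw [hB]
  exact Cn.insert A u v h hu hv

end kit

end Pool.Agent.TorDeg
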