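import Pool.Agent.TorDeg.Targets

set_option autoImplicit false

/-!
# QOUT: a triangle next to a 4-face, the outer faces
-/

namespace Pool.Agent.TorDeg

namespace HQOUT

variable {V : Type} [Fintype V] {G : SimpleGraph V} {nx : V → V → V} {k : V → V → ℕ}

omit [Fintype V] in
lemma five_rot {v₁ v₂ v₃ v₄ v₅ : V} (h : Five G v₁ v₂ v₃ v₄ v₅) : Five G v₂ v₃ v₄ v₅ v₁ := by
  obtain ⟨h1, h2, h3, h4, h5, h6, h7, h8, h9, h10⟩ := h
  exact ⟨h2, h3, h4, h5, h1, h8, h9, h10, h6.symm, h7.symm⟩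

/-- not a 5-face -/
lemma not5 (hNX : T_NX) (hF5 : T_F5) (hM : TMap G nx k) (hU : U5 G) (hd : ∀ v, 4 ≤ deg G v)
    {v u x y z : V} (h5 : Five G v u x y z) (hz : nx v z ≠ u) : k v u ≠ 5 := by
  intro hk
  obtain ⟨f1, -, g2, -, -, -, -⟩ :=
    hF5 V G nx k hM hd v u (nx u v) (nx (nx u v) u) (nx (nx (nx u v) u) (nx u v)) h5.1 hk rfl rfl rfl
  rcases hU _ _ _ _ _ _ _ _ _ h5 f1 with h | h
  · rw [← h.2.2.2] at g2
    exact hz g2
  · rw [← h.1] at g2
    exact (hNX V G nx k hM hd v u h5.1).1 g2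

/-- no triangle before a 4-face at a vertex of the 5-cycle -/
lemma not3 (hNX : T_NX) (hTQ : T_TQ) (hM : TMap G nx k) (hU : U5 G) (hd : ∀ v, 4 ≤ deg G v)
    {v u x y z a : V} (h5 : Five G v u x y z) (ha : nx v u = a) (h4 : k v a = 4) :
    k v u ≠ 3 := by
  intro hk
  obtain ⟨n1, -, -, p, hp, hpu⟩ := hNX V G nx k hM hd v u h5.1
  have f := hTQ V G nx k hM hd v p u a hp hpu.symm ha.symm hk h4
  rcases hU _ _ _ _ _ _ _ _ _ h5 f with h | h
  · rw [← h.1] at hpu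
    exact n1 hpu
  · rw [← h.1] at ha
    exact n1 ha

/-- no 4-face before a triangle at a vertex of the 5-cycle -/
lemma not4 (hNX : T_NX) (hQT : T_QT) (hM : TMap G nx k) (hU : U5 G) (hd : ∀ v, 4 ≤ deg G v)
    {v u x y z a : V} (h5 : Five G v u x y z) (ha : nx v u = a) (h3 : k v a = 3) :
    k v u ≠ 4 := by
  intro hk
  obtain ⟨n1, -, -, p, hp, hpu⟩ := hNX V G nx k hM hd v u h5.1
  have f := hQT V G nx k hM hd v p u a hp hpu.symm ha.symm hk h3
  rcases hU _ _ _ _ _ _ _ _ _ h5 f with h | h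
  · rw [← h.1] at hpu
    exact n1 hpu
  · rw [← h.1] at ha
    exact n1 ha

end HQOUT

open HQOUT

theorem tQOUT (hNX : T_NX) (hF3 : T_F3) (hF4 : T_F4) (hF5 : T_F5) (_hTTT : T_TTT) (hTQ : T_TQ)
    (hQT : T_QT) : T_QOUT := by
  intro V _ G nx k hM hU hd p t q s r hpt hq hs hr k3 k4
  have hpq : G.Adj p q := by rw [hq]; exact hM.adj _ _ hpt
  have hps : G.Adj p s := by rw [hs]; exact hM.adj _ _ hpq
  -- the triangle
  obtain ⟨a1, a2, a3, a4, a5, a6⟩ := hF3 V G nx k hM hd p q (nx q p) hpq k3 rfl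
  have et : nx q p = t := by
    apply hM.inj p _ _ a2.symm hpt
    rw [a4, hq]
  rw [et] at a1 a2 a3 a4 a5 a6
  -- the 4-face
  obtain ⟨b1, b2, b3, b4, b5, b6, b7, b8, b9, b10⟩ := hF4 V G nx k hM hd p s r (nx r s) hps k4 hr rfl
  have eq : nx r s = q := by
    apply hM.inj p _ _ b3.symm hpq
    rw [b7, hs]
  rw [eq] at b2 b3 b5 b6 b7 b9 b10
  have f0 : Five G p t q r s := by
    have := hTQ V G nx k hM hd p t q s hpt hq hs k3 k4
    rwa [← hr] at this
  have f1 := five_rot f0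
  have f2 := five_rot f1
  have f3 := five_rot f2
  have f4 := five_rot f3
  refine ⟨f0, hpq, ?_, ?_, ?_, ?_, ?_⟩
  · have h3 := hM.three _ _ f0.1
    have h4 := not4 hNX hQT hM hU hd f0 hq.symm k3
    have h5 := not5 hNX hF5 hM hU hd f0 (by
      rw [hs, hq]
      exact (hNX V G nx k hM hd p t hpt).2.2.1)
    omega
  · have h3 := hM.three _ _ f1.1
    have h4 := not4 hNX hQT hM hU hd f1 a3 a6
    have h5 := not5 hNX hF5 hM hU hd f1 (by
      rw [← a3]
      exact (hNX V G nx k hM hd t q f1.1).2.1)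
    omega
  · have h3 := hM.three _ _ f2.1
    have h4 := not3 hNX hTQ hM hU hd f2 b6 b10
    have h5 := not5 hNX hF5 hM hU hd f2 (by
      rw [← et, ← b6]
      exact (hNX V G nx k hM hd q r f2.1).2.2.1)
    omega
  · have h3 := hM.three _ _ f3.1
    have h4 := not3 hNX hTQ hM hU hd f3 eq b9
    have h5 := not5 hNX hF5 hM hU hd f3 (by
      rw [← eq]
      exact (hNX V G nx k hM hd r s f3.1).2.1)
    omega
  · have h3 := hM.three _ _ f4.1
    have h4 := not3 hNX hTQ hM hU hd f4 hr.symm b8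
    have h5 := not5 hNX hF5 hM hU hd f4 (by
      rw [hr]
      exact (hNX V G nx k hM hd s p f4.1).2.1)
    omega

end Pool.Agent.TorDeg
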