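import Pool.Agent.TorDeg.Game
import Pool.Agent.CubicFree.RotEuler

set_option autoImplicit false

/-!
# Exact targets (proofs in Blueprint.lean.txt)
-/

namespace Pool.Agent.TorDeg

/-! ## The game -/

/-- MONO -/
def T_MONO : Prop := ∀ (V C : Type) [DecidableEq V] (H : SimpleGraph (V × C)) (A : Finset V)
  (g g' : V × C → ℕ), (∀ v ∈ A, ∀ i, g (v, i) ≤ g' (v, i)) → Win H A g → Win H A g'

/-- GREEDY -/
def T_GREEDY : Prop := ∀ (V C : Type) [DecidableEq V] [Fintype C] (G : SimpleGraph V)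
  (H : SimpleGraph (V × C)), Cov G H → ∀ (A : Finset V) (g : V × C → ℕ), Cn G A →
  (∀ v ∈ A, dg G A v ≤ sm g v) → (∃ v ∈ A, dg G A v < sm g v) → Win H A g

/-- RES: play on `B` first -/
def T_RES : Prop := ∀ (V C : Type) [DecidableEq V] [Fintype C] (G : SimpleGraph V)
  (H : SimpleGraph (V × C)), Cov G H → ∀ (B K : Finset V) (g : V × C → ℕ), Disjoint B K →
  Win H B g → ∃ g' : V × C → ℕ, (∀ x, g' x ≤ g x) ∧
    (∀ v ∈ K, sm g v ≤ sm g' v + dg G B v) ∧ (Win H K g' → Win H (B ∪ K) g)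

/-- DEG: a won game gives a strictly degenerate transversal -/
def T_DEG : Prop := ∀ (V C : Type) [DecidableEq V] [Fintype V] (H : SimpleGraph (V × C))
  (f : V × C → ℕ), Win H Finset.univ f →
    ∃ R : V → C, StrictlyDegenerate H f (Set.range fun v => (v, R v))

/-- BR -/
def T_BR : Prop := ∀ (V C : Type) [DecidableEq V] [Fintype C] (G : SimpleGraph V)
  (H : SimpleGraph (V × C)), Cov G H → ∀ (K : Finset V) (g : V × C → ℕ) (z a b : V),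
  (∀ x, g x ≤ 2) → (∀ v ∈ K, dg G K v ≤ sm g v) → z ∈ K → a ∈ K → b ∈ K → G.Adj z a →
  G.Adj z b → a ≠ b → ¬ G.Adj a b → dg G K z = 3 → Cn G (K.erase z) →
  Cn G ((K.erase a).erase b) → Win H K g

/-- TH10 -/
def T_TH10 : Prop := ∀ (V C : Type) [DecidableEq V] [Fintype C] (G : SimpleGraph V)
  (H : SimpleGraph (V × C)), Cov G H → ∀ (g : V × C → ℕ) (a b c d e : V), (∀ x, g x ≤ 2) →
  Fan G a b c d e → 4 ≤ sm g a → 2 ≤ sm g b → 2 ≤ sm g c → 3 ≤ sm g d → 2 ≤ sm g e →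
  Win H {a, b, c, d, e} g

/-- the configuration of TH11: a 4-cycle `c d t y` with the triangles `c y b` and `d t e` -/
def Box {V : Type} (G : SimpleGraph V) (c d t y b e : V) : Prop :=
  G.Adj c d ∧ G.Adj d t ∧ G.Adj t y ∧ G.Adj y c ∧ G.Adj b c ∧ G.Adj b y ∧ G.Adj e d ∧
    G.Adj e t ∧ ¬ G.Adj c t ∧ ¬ G.Adj d y ∧ ¬ G.Adj b d ∧ ¬ G.Adj b t ∧ ¬ G.Adj e c ∧
    ¬ G.Adj e y ∧ ¬ G.Adj b e ∧ c ≠ t ∧ d ≠ y ∧ b ≠ d ∧ b ≠ t ∧ e ≠ c ∧ e ≠ y ∧ b ≠ e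

/-- TH11 -/
def T_TH11 : Prop := ∀ (V C : Type) [DecidableEq V] [Fintype C] (G : SimpleGraph V)
  (H : SimpleGraph (V × C)), Cov G H → ∀ (g : V × C → ℕ) (c d t y b e : V), (∀ x, g x ≤ 2) →
  Box G c d t y b e → 2 ≤ sm g c → 3 ≤ sm g d → 3 ≤ sm g t → 3 ≤ sm g y → 2 ≤ sm g b →
  2 ≤ sm g e → Win H {c, d, t, y, b, e} g

/-- CON: contraction of a vertex `u` with two neighbours `p`, `s` -/
def T_CON : Prop := ∀ (V C : Type) [DecidableEq V] [Fintype C] (G : SimpleGraph V)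
  (H : SimpleGraph (V × C)), Cov G H → ∀ (A : Finset V) (g : V × C → ℕ) (u p s : V),
  u ∈ A → p ∈ A → s ∈ A → p ≠ s → G.Adj u p → G.Adj u s → ¬ G.Adj p s →
  (∀ v ∈ A, G.Adj u v → v = p ∨ v = s) → 2 ≤ sm g u → (∀ x, g x ≤ 2) →
  ∃ (G' : SimpleGraph V) (H' : SimpleGraph (V × C)), Cov G' H' ∧
    (∀ v w, G'.Adj v w ↔ (v ≠ u ∧ w ≠ u ∧ G.Adj v w) ∨ (v = p ∧ w = s) ∨ (v = s ∧ w = p)) ∧
    (Win H' (A.erase u) g → Win H A g)

/-- TH12 -/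
def T_TH12 : Prop := ∀ (V C : Type) [DecidableEq V] [Fintype C] (G : SimpleGraph V)
  (H : SimpleGraph (V × C)), Cov G H → ∀ (g : V × C → ℕ) (v₁ v₂ v₃ v₄ v₅ w₁ w₄ : V),
  (∀ x, g x ≤ 2) → Ring12 G v₁ v₂ v₃ v₄ v₅ w₁ w₄ → 2 ≤ sm g v₁ → 3 ≤ sm g v₂ →
  2 ≤ sm g v₃ → 3 ≤ sm g v₄ → 3 ≤ sm g v₅ → 2 ≤ sm g w₁ → 2 ≤ sm g w₄ →
  Win H {v₁, v₂, v₃, v₄, v₅, w₁, w₄} g

/-- TH21 -/
def T_TH21 : Prop := ∀ (V C : Type) [DecidableEq V] [Fintype C] (G : SimpleGraph V)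
  (H : SimpleGraph (V × C)), Cov G H → ∀ (g : V × C → ℕ) (v₁ v₂ v₃ v₄ v₅ w₁ w₃ : V),
  (∀ x, g x ≤ 2) → Ring21 G v₁ v₂ v₃ v₄ v₅ w₁ w₃ → 2 ≤ sm g v₁ → 3 ≤ sm g v₂ →
  3 ≤ sm g v₃ → 3 ≤ sm g v₄ → 2 ≤ sm g v₅ → 2 ≤ sm g w₁ → 2 ≤ sm g w₃ →
  Win H {v₁, v₂, v₃, v₄, v₅, w₁, w₃} g

/-- IRR: a minimal set of vertices on which the game is lost -/
def T_IRR : Prop := ∀ (V C : Type) [DecidableEq V] [Fintype V] [Fintype C] (G : SimpleGraph V)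
  (H : SimpleGraph (V × C)), Cov G H → ∀ f : V × C → ℕ, (∀ x, f x ≤ 2) → (∀ v, 4 ≤ sm f v) →
  ¬ Win H Finset.univ f →
  ∃ A : Finset V, (G.induce (A : Set V)).Connected ∧ Irred (G.induce (A : Set V))

/-! ## Graphs -/

/-- U5 -/
def T_U5 : Prop := ∀ (V : Type) (G : SimpleGraph V), NoIntersectingFiveCycles G → U5 G

/-- FANX: the fan of three triangles is induced -/
def T_FANX : Prop := ∀ (V : Type) (G : SimpleGraph V), U5 G → ∀ a b c d e, Five G a b c d e →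
  G.Adj a c → G.Adj a d → Fan G a b c d e

/-- EXT12 -/
def T_EXT12 : Prop := ∀ (V : Type) (G : SimpleGraph V), U5 G → ∀ v₁ v₂ v₃ v₄ v₅ w₁ w₄,
  Five G v₁ v₂ v₃ v₄ v₅ → G.Adj w₁ v₁ → G.Adj w₁ v₂ → w₁ ≠ v₃ → w₁ ≠ v₄ → w₁ ≠ v₅ →
  G.Adj w₄ v₄ → G.Adj w₄ v₅ → w₄ ≠ v₁ → w₄ ≠ v₂ → w₄ ≠ v₃ →
  Ring12 G v₁ v₂ v₃ v₄ v₅ w₁ w₄

/-- EXT21 -/
def T_EXT21 : Prop := ∀ (V : Type) (G : SimpleGraph V), U5 G → ∀ v₁ v₂ v₃ v₄ v₅ w₁ w₃,
  Five G v₁ v₂ v₃ v₄ v₅ → G.Adj w₁ v₁ → G.Adj w₁ v₂ → w₁ ≠ v₃ → w₁ ≠ v₄ → w₁ ≠ v₅ →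
  G.Adj w₃ v₃ → G.Adj w₃ v₄ → w₃ ≠ v₁ → w₃ ≠ v₂ → w₃ ≠ v₅ →
  Ring21 G v₁ v₂ v₃ v₄ v₅ w₁ w₃

/-- R3: a 5-cycle and a triangle on one of its edges, all degrees 4 -/
def T_R3 : Prop := ∀ (V : Type) [Fintype V] [DecidableEq V] (G : SimpleGraph V), U5 G →
  (∀ K z a b, ¬ Good G K z a b) → ∀ v₁ v₂ v₃ v₄ v₅ w, Five G v₁ v₂ v₃ v₄ v₅ →
  G.Adj w v₁ → G.Adj w v₂ → w ≠ v₃ → w ≠ v₅ → deg G v₁ = 4 → deg G v₂ = 4 → deg G v₃ = 4 →
  deg G v₄ = 4 → deg G v₅ = 4 → deg G w = 4 → False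

/-- R6: a 5-cycle with a chord, all degrees 4 -/
def T_R6 : Prop := ∀ (V : Type) [Fintype V] [DecidableEq V] (G : SimpleGraph V), U5 G →
  (∀ K z a b, ¬ Good G K z a b) → ∀ p t q r s, Five G p t q r s → G.Adj p q →
  deg G p = 4 → deg G t = 4 → deg G q = 4 → deg G r = 4 → deg G s = 4 → False

/-- F0: a diamond of vertices of degree 4 -/
def T_F0 : Prop := ∀ (V : Type) [Fintype V] [DecidableEq V] (G : SimpleGraph V),
  (∀ K z a b, ¬ Good G K z a b) → ∀ a c d e, G.Adj a c → G.Adj a d → G.Adj a e →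
  G.Adj c d → G.Adj d e → ¬ G.Adj c e → c ≠ e → deg G a = 4 → deg G c = 4 → deg G d = 4 →
  deg G e = 4 → False

/-- REG: 4-regular graphs contain a reducible configuration -/
def T_REG : Prop := ∀ (V : Type) [Fintype V] [DecidableEq V] (G : SimpleGraph V), U5 G →
  G.Connected → (∀ v, deg G v = 4) →
  (∀ v, (∃ x y, G.Adj v x ∧ G.Adj v y ∧ G.Adj x y) ∨
    ∃ x y z, G.Adj v x ∧ G.Adj x y ∧ G.Adj y z ∧ G.Adj z v ∧ v ≠ y ∧ x ≠ z) →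
  ∃ K z a b, Good G K z a b

/-! ## Euler's formula -/

/-- RET: first return -/
def T_RET : Prop := ∀ (D D' : Type) [Finite D'] (ι : D → D'), Function.Injective ι →
  ∀ σ' : Equiv.Perm D', ∃ σ : Equiv.Perm D, ∀ d, ∃ n : ℕ, 0 < n ∧ ι (σ d) = (σ' ^ n) (ι d) ∧
    ∀ j : ℕ, 0 < j → j < n → (σ' ^ j) (ι d) ∉ Set.range ι

/-- `σ` is the first return of `σ'` to the darts of the subgraph -/
def FirstRet {V V' : Type} {G : SimpleGraph V} {G' : SimpleGraph V'} (φ : G →g G')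
    (σ : Equiv.Perm G.Dart) (σ' : Equiv.Perm G'.Dart) : Prop :=
  ∀ d, ∃ n : ℕ, 0 < n ∧ φ.mapDart (σ d) = (σ' ^ n) (φ.mapDart d) ∧
    ∀ j : ℕ, 0 < j → j < n → (σ' ^ j) (φ.mapDart d) ∉ Set.range φ.mapDart

/-- SUBR: the first return is a rotation system of the subgraph -/
def T_SUBR : Prop := ∀ (V V' : Type) [Finite V'] (G : SimpleGraph V) (G' : SimpleGraph V')
  (φ : G →g G') (σ' : Equiv.Perm G'.Dart), Function.Injective φ → IsRotation G' σ' →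
  ∃ σ : Equiv.Perm G.Dart, FirstRet φ σ σ' ∧ IsRotation G σ

section homology

open Pool.Agent.CubicFree (bdry toDart faceB)

variable {V : Type} [Fintype V] [DecidableEq V] (G : SimpleGraph V) [DecidableRel G.Adj]

/-- even subgraphs, as functions on the darts -/
def cycSp : Submodule (ZMod 2) (G.Dart → ZMod 2) :=
  Submodule.map (toDart G) (LinearMap.ker (bdry G))

/-- boundaries of sets of faces -/
def bdSp (σ : Equiv.Perm G.Dart) : Submodule (ZMod 2) (G.Dart → ZMod 2) :=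
  LinearMap.range (faceB G σ)

end homology

/-- HOM0 -/
def T_HOM0 : Prop := ∀ (V : Type) [Fintype V] [DecidableEq V] (G : SimpleGraph V)
  [DecidableRel G.Adj] (σ : Equiv.Perm G.Dart) (z : G.Dart → ZMod 2),
  (z ∈ cycSp G ↔ (∀ d, z d.symm = z d) ∧ ∀ v, ∑ d : G.Dart with d.fst = v, z d = 0) ∧
  (z ∈ bdSp G σ ↔ ∃ g : G.Dart → ZMod 2, (∀ d, g (σ d.symm) = g d) ∧
    ∀ d, g d + g d.symm = z d)

/-- HOM1 -/
def T_HOM1 : Prop := ∀ (V : Type) [Fintype V] [DecidableEq V] (G : SimpleGraph V)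
  [DecidableRel G.Adj] (σ : Equiv.Perm G.Dart), G.Connected → Nonempty G.Dart →
  IsRotation G σ → bdSp G σ ≤ cycSp G ∧
    Module.finrank (ZMod 2) (bdSp G σ) + 1 = faceCount G σ ∧
    Module.finrank (ZMod 2) (cycSp G) + Fintype.card V = Nat.card G.edgeSet + 1

/-- HOM2 -/
def T_HOM2 : Prop := ∀ (V V' : Type) [Fintype V] [DecidableEq V] [Fintype V'] [DecidableEq V']
  (G : SimpleGraph V) (G' : SimpleGraph V') [DecidableRel G.Adj] [DecidableRel G'.Adj]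
  (φ : G →g G') (σ : Equiv.Perm G.Dart) (σ' : Equiv.Perm G'.Dart), Function.Injective φ →
  IsRotation G σ → IsRotation G' σ' → FirstRet φ σ σ' →
  Module.finrank (ZMod 2) (cycSp G) + Module.finrank (ZMod 2) (bdSp G' σ') ≤
    Module.finrank (ZMod 2) (bdSp G σ) + Module.finrank (ZMod 2) (cycSp G')

/-- EUL: connected toroidal graphs -/
def T_EUL : Prop := ∀ (V : Type) [Finite V] (G : SimpleGraph V), G.Connected → IsToroidal G →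
  ∃ σ : Equiv.Perm G.Dart, IsRotation G σ ∧ Nat.card G.edgeSet ≤ Nat.card V + faceCount G σ

/-- CNT -/
def T_CNT : Prop := ∀ (D : Type) [Fintype D] (φ : Equiv.Perm D),
  ∑ d, (1 : ℚ) / (Function.minimalPeriod φ d : ℚ) =
    (Nat.card (Quotient (Equiv.Perm.SameCycle.setoid φ)) : ℚ)

/-- TMAP -/
def T_TMAP : Prop := ∀ (V : Type) [Fintype V] (G : SimpleGraph V) (σ : Equiv.Perm G.Dart),
  (∀ v, 4 ≤ deg G v) → IsRotation G σ →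
  Nat.card G.edgeSet ≤ Nat.card V + faceCount G σ →
  ∃ (nx : V → V → V) (k : V → V → ℕ), TMap G nx k

/-! ## Maps: basic facts -/

/-- NX -/
def T_NX : Prop := ∀ (V : Type) [Fintype V] (G : SimpleGraph V) (nx : V → V → V)
  (k : V → V → ℕ), TMap G nx k → (∀ v, 4 ≤ deg G v) → ∀ v m, G.Adj v m →
  nx v m ≠ m ∧ nx v (nx v m) ≠ m ∧ nx v (nx v (nx v m)) ≠ m ∧
    ∃ p, G.Adj v p ∧ nx v p = m

/-- S4: vertices of degree 4 -/
def T_S4 : Prop := ∀ (V : Type) [Fintype V] (G : SimpleGraph V) (nx : V → V → V)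
  (k : V → V → ℕ), TMap G nx k → ∀ v m, G.Adj v m → deg G v = 4 →
  nx v (nx v (nx v (nx v m))) = m ∧ ∀ F : V → ℤ, ∑ x ∈ nb G v, F x =
    F m + F (nx v m) + F (nx v (nx v m)) + F (nx v (nx v (nx v m)))

/-- S5: vertices of degree 5 -/
def T_S5 : Prop := ∀ (V : Type) [Fintype V] (G : SimpleGraph V) (nx : V → V → V)
  (k : V → V → ℕ), TMap G nx k → ∀ v m, G.Adj v m → deg G v = 5 →
  nx v (nx v (nx v (nx v (nx v m)))) = m ∧ ∀ F : V → ℤ, ∑ x ∈ nb G v, F x =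
    F m + F (nx v m) + F (nx v (nx v m)) + F (nx v (nx v (nx v m))) +
      F (nx v (nx v (nx v (nx v m))))

/-- AV: the rotation permutes the neighbours -/
def T_AV : Prop := ∀ (V : Type) [Fintype V] (G : SimpleGraph V) (nx : V → V → V)
  (k : V → V → ℕ), TMap G nx k → ∀ v, ∀ F : V → ℤ, ∑ x ∈ nb G v, F (nx v x) = ∑ x ∈ nb G v, F x

/-- F3: triangles -/
def T_F3 : Prop := ∀ (V : Type) [Fintype V] (G : SimpleGraph V) (nx : V → V → V)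
  (k : V → V → ℕ), TMap G nx k → (∀ v, 4 ≤ deg G v) → ∀ v u p, G.Adj v u → k v u = 3 →
  p = nx u v → G.Adj u p ∧ G.Adj p v ∧ nx p u = v ∧ nx v p = u ∧ k u p = 3 ∧ k p v = 3

/-- F4: 4-faces -/
def T_F4 : Prop := ∀ (V : Type) [Fintype V] (G : SimpleGraph V) (nx : V → V → V)
  (k : V → V → ℕ), TMap G nx k → (∀ v, 4 ≤ deg G v) → ∀ v u y m, G.Adj v u → k v u = 4 →
  y = nx u v → m = nx y u → G.Adj u y ∧ G.Adj y m ∧ G.Adj m v ∧ v ≠ y ∧ u ≠ m ∧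
    nx m y = v ∧ nx v m = u ∧ k u y = 4 ∧ k y m = 4 ∧ k m v = 4

/-- F5: 5-faces -/
def T_F5 : Prop := ∀ (V : Type) [Fintype V] (G : SimpleGraph V) (nx : V → V → V)
  (k : V → V → ℕ), TMap G nx k → (∀ v, 4 ≤ deg G v) → ∀ v u y z m, G.Adj v u → k v u = 5 →
  y = nx u v → z = nx y u → m = nx z y → Five G v u y z m ∧
    nx m z = v ∧ nx v m = u ∧ k u y = 5 ∧ k y z = 5 ∧ k z m = 5 ∧ k m v = 5

/-- TTT: three consecutive triangles at `v` -/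
def T_TTT : Prop := ∀ (V : Type) [Fintype V] (G : SimpleGraph V) (nx : V → V → V)
  (k : V → V → ℕ), TMap G nx k → (∀ v, 4 ≤ deg G v) → ∀ v p a b c, G.Adj v p → a = nx v p →
  b = nx v a → c = nx v b → k v a = 3 → k v b = 3 → k v c = 3 → Five G v p a b c

/-- TQ: a triangle (between `p` and `m`) followed by a 4-face (between `m` and `a`) at `v` -/
def T_TQ : Prop := ∀ (V : Type) [Fintype V] (G : SimpleGraph V) (nx : V → V → V)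
  (k : V → V → ℕ), TMap G nx k → (∀ v, 4 ≤ deg G v) → ∀ v p m a, G.Adj v p → m = nx v p →
  a = nx v m → k v m = 3 → k v a = 4 → Five G v p m (nx a v) a

/-- QT: a 4-face (between `p` and `m`) followed by a triangle (between `m` and `a`) at `v` -/
def T_QT : Prop := ∀ (V : Type) [Fintype V] (G : SimpleGraph V) (nx : V → V → V)
  (k : V → V → ℕ), TMap G nx k → (∀ v, 4 ≤ deg G v) → ∀ v p m a, G.Adj v p → m = nx v p →
  a = nx v m → k v m = 4 → k v a = 3 → Five G v p (nx m v) m a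

/-- FCS: the final charges -/
def T_FCS : Prop := ∀ (V : Type) [Fintype V] (G : SimpleGraph V) (nx : V → V → V)
  (k : V → V → ℕ), TMap G nx k → (∀ v, 4 ≤ deg G v) → ∑ v, fc G nx k v ≤ 0

/-- NS2: two consecutive triangles at `v` do not both send -/
def T_NS2 : Prop := ∀ (V : Type) [Fintype V] (G : SimpleGraph V) (nx : V → V → V)
  (k : V → V → ℕ), TMap G nx k → U5 G → (∀ v, 4 ≤ deg G v) → ∀ v m a, G.Adj v m →
  a = nx v m → k v m = 3 → k v a = 3 → ¬ (k (nx m v) m = 5 ∧ k (nx a v) a = 5)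

/-- CALM -/
def T_CALM : Prop := ∀ (V : Type) [Fintype V] (G : SimpleGraph V) (nx : V → V → V)
  (k : V → V → ℕ), TMap G nx k → U5 G → (∀ v, 4 ≤ deg G v) → ∀ v, Calm G nx k v →
  0 ≤ fc G nx k v ∧ (5 ≤ deg G v → 10 ≤ fc G nx k v) ∧
    ((∃ m, G.Adj v m ∧ k v m = 4) → (∃ m, G.Adj v m ∧ 6 ≤ k v m) → 10 ≤ fc G nx k v)

/-! ## Fans of three triangles -/

/-- FOUT -/
def T_FOUT : Prop := ∀ (V : Type) [Fintype V] (G : SimpleGraph V) (nx : V → V → V)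
  (k : V → V → ℕ), TMap G nx k → U5 G → (∀ v, 4 ≤ deg G v) → ∀ a b c d e, G.Adj a b →
  c = nx a b → d = nx a c → e = nx a d → k a c = 3 → k a d = 3 → k a e = 3 →
  Five G a b c d e ∧ Fan G a b c d e ∧ 6 ≤ k a b ∧ 6 ≤ k b c ∧ 6 ≤ k c d ∧ 6 ≤ k d e ∧
    6 ≤ k e a

/-- FCALM -/
def T_FCALM : Prop := ∀ (V : Type) [Fintype V] (G : SimpleGraph V) (nx : V → V → V)
  (k : V → V → ℕ), TMap G nx k → U5 G → (∀ v, 4 ≤ deg G v) → ∀ a b c d e, G.Adj a b →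
  c = nx a b → d = nx a c → e = nx a d → k a c = 3 → k a d = 3 → k a e = 3 →
  Calm G nx k b ∧ Calm G nx k c ∧ Calm G nx k d ∧ Calm G nx k e

/-- FHUB -/
def T_FHUB : Prop := ∀ (V : Type) [Fintype V] (G : SimpleGraph V) (nx : V → V → V)
  (k : V → V → ℕ), TMap G nx k → U5 G → (∀ v, 4 ≤ deg G v) → ∀ a b c d e, G.Adj a b →
  c = nx a b → d = nx a c → e = nx a d → k a c = 3 → k a d = 3 → k a e = 3 →
  (deg G a = 4 → -20 ≤ fc G nx k a) ∧ (5 ≤ deg G a → 0 < fc G nx k a)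

/-- FRIM -/
def T_FRIM : Prop := ∀ (V : Type) [Fintype V] (G : SimpleGraph V) (nx : V → V → V)
  (k : V → V → ℕ), TMap G nx k → U5 G → (∀ v, 4 ≤ deg G v) → ∀ a b c d e, G.Adj a b →
  c = nx a b → d = nx a c → e = nx a d → k a c = 3 → k a d = 3 → k a e = 3 →
  (5 ≤ deg G b → 15 ≤ fc G nx k b) ∧ (5 ≤ deg G c → 15 ≤ fc G nx k c) ∧
    (5 ≤ deg G d → 15 ≤ fc G nx k d) ∧ (5 ≤ deg G e → 15 ≤ fc G nx k e) ∧
    (6 ≤ deg G c → 25 ≤ fc G nx k c) ∧ (6 ≤ deg G d → 25 ≤ fc G nx k d)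

/-- LF -/
def T_LF : Prop := ∀ (V : Type) [Fintype V] [DecidableEq V] (G : SimpleGraph V)
  (nx : V → V → V) (k : V → V → ℕ), Ctx G nx k → ∀ a b c d e, G.Adj a b →
  c = nx a b → d = nx a c → e = nx a d → k a c = 3 → k a d = 3 → k a e = 3 →
  Five G a b c d e ∧
    0 < fc G nx k a + fc G nx k b + fc G nx k c + fc G nx k d + fc G nx k e

/-! ## A triangle and a 4-face -/

/-- QOUT -/
def T_QOUT : Prop := ∀ (V : Type) [Fintype V] (G : SimpleGraph V) (nx : V → V → V)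
  (k : V → V → ℕ), TMap G nx k → U5 G → (∀ v, 4 ≤ deg G v) → ∀ p t q s r, G.Adj p t →
  q = nx p t → s = nx p q → r = nx s p → k p q = 3 → k p s = 4 →
  Five G p t q r s ∧ G.Adj p q ∧ (k p t = 3 ∨ 6 ≤ k p t) ∧ (k t q = 3 ∨ 6 ≤ k t q) ∧
    (k q r = 4 ∨ 6 ≤ k q r) ∧ (k r s = 4 ∨ 6 ≤ k r s) ∧ (k s p = 4 ∨ 6 ≤ k s p)

/-- QCALM -/
def T_QCALM : Prop := ∀ (V : Type) [Fintype V] (G : SimpleGraph V) (nx : V → V → V)
  (k : V → V → ℕ), TMap G nx k → U5 G → (∀ v, 4 ≤ deg G v) → ∀ p t q s r, G.Adj p t →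
  q = nx p t → s = nx p q → r = nx s p → k p q = 3 → k p s = 4 →
  Calm G nx k t ∧ Calm G nx k r ∧ Calm G nx k s

/-- QP -/
def T_QP : Prop := ∀ (V : Type) [Fintype V] (G : SimpleGraph V) (nx : V → V → V)
  (k : V → V → ℕ), TMap G nx k → U5 G → (∀ v, 4 ≤ deg G v) → ∀ p t q s r, G.Adj p t →
  q = nx p t → s = nx p q → r = nx s p → k p q = 3 → k p s = 4 →
  (deg G p = 4 → -10 ≤ fc G nx k p ∧ (k p t ≠ 3 → 0 ≤ fc G nx k p) ∧
    (k p t = 3 → 6 ≤ k s p)) ∧ (5 ≤ deg G p → 10 ≤ fc G nx k p)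

/-- QQ -/
def T_QQ : Prop := ∀ (V : Type) [Fintype V] (G : SimpleGraph V) (nx : V → V → V)
  (k : V → V → ℕ), TMap G nx k → U5 G → (∀ v, 4 ≤ deg G v) → ∀ p t q s r, G.Adj p t →
  q = nx p t → s = nx p q → r = nx s p → k p q = 3 → k p s = 4 →
  (deg G q = 4 → -10 ≤ fc G nx k q ∧ (k t q ≠ 3 → 0 ≤ fc G nx k q) ∧
    (k t q = 3 → 6 ≤ k q r)) ∧ (5 ≤ deg G q → 10 ≤ fc G nx k q)

/-- LQ -/
def T_LQ : Prop := ∀ (V : Type) [Fintype V] (G : SimpleGraph V) (nx : V → V → V)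
  (k : V → V → ℕ), TMap G nx k → U5 G → (∀ v, 4 ≤ deg G v) → ∀ p t q s r, G.Adj p t →
  q = nx p t → s = nx p q → r = nx s p → k p q = 3 → k p s = 4 →
  Five G p t q r s ∧
    0 ≤ fc G nx k p + fc G nx k t + fc G nx k q + fc G nx k r + fc G nx k s ∧
    (5 ≤ deg G p ∨ 5 ≤ deg G t ∨ 5 ≤ deg G q ∨ 5 ≤ deg G r ∨ 5 ≤ deg G s →
      0 < fc G nx k p + fc G nx k t + fc G nx k q + fc G nx k r + fc G nx k s)

/-! ## 5-faces -/

/-- PLOC: the vertex `v` of the 5-face of `(v, u)`, `m` before `u` -/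
def T_PLOC : Prop := ∀ (V : Type) [Fintype V] (G : SimpleGraph V) (nx : V → V → V)
  (k : V → V → ℕ), TMap G nx k → U5 G → (∀ v, 4 ≤ deg G v) → ∀ v u, G.Adj v u →
  k v u = 5 → (∀ x, G.Adj v x → k v x = 5 → x = u) ∧
    (∀ x, G.Adj v x → ¬ (k v x = 3 ∧ k v (nx v x) = 3 ∧ k v (nx v (nx v x)) = 3)) ∧
    (∀ x, G.Adj v x → ¬ (k v x = 3 ∧ k v (nx v x) = 4)) ∧
    (∀ x, G.Adj v x → ¬ (k v x = 4 ∧ k v (nx v x) = 3))

/-- P4: vertices of degree 4 on a 5-face; `m`, `u`, `x`, `y` in the rotation -/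
def T_P4 : Prop := ∀ (V : Type) [Fintype V] (G : SimpleGraph V) (nx : V → V → V)
  (k : V → V → ℕ), TMap G nx k → U5 G → (∀ v, 4 ≤ deg G v) → ∀ v m u, G.Adj v m →
  u = nx v m → k v u = 5 → deg G v = 4 →
  -4 + rcv G nx k v u ≤ fc G nx k v ∧
    (fc G nx k v < 6 + rcv G nx k v u → (k u v = 3 ∧ k v m = 3) ∨
      (k u v = 3 ∧ k v m ≠ 3 ∧ k v (nx v (nx v u)) = 3) ∨
      (k u v ≠ 3 ∧ k v m = 3 ∧ k v (nx v (nx v u)) = 3))

/-- P5: vertices of degree at least 5 on a 5-face -/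
def T_P5 : Prop := ∀ (V : Type) [Fintype V] (G : SimpleGraph V) (nx : V → V → V)
  (k : V → V → ℕ), TMap G nx k → U5 G → (∀ v, 4 ≤ deg G v) → ∀ v m u, G.Adj v m →
  u = nx v m → k v u = 5 → 5 ≤ deg G v →
  11 + rcv G nx k v u ≤ fc G nx k v ∧
    (k u v ≠ 3 ∨ k v m ≠ 3 ∨ 6 ≤ deg G v → 17 + rcv G nx k v u ≤ fc G nx k v)

/-- PNM: the triangle on a side `v u` of a 5-face has no two adjacent triangles -/
def T_PNM : Prop := ∀ (V : Type) [Fintype V] (G : SimpleGraph V) (nx : V → V → V)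
  (k : V → V → ℕ), TMap G nx k → U5 G → (∀ v, 4 ≤ deg G v) → ∀ v u w, G.Adj v u →
  k v u = 5 → k u v = 3 → w = nx v u → ¬ (k v (nx v w) = 3 ∧ k u w = 3)

/-- the face of `(v₁, v₂)` is the 5-face `v₁ v₂ v₃ v₄ v₅` -/
structure PFace {V : Type} [Fintype V] (G : SimpleGraph V) (nx : V → V → V) (k : V → V → ℕ)
    (v₁ v₂ v₃ v₄ v₅ : V) : Prop where
  five : Five G v₁ v₂ v₃ v₄ v₅
  n₁ : nx v₁ v₅ = v₂
  n₂ : nx v₂ v₁ = v₃
  n₃ : nx v₃ v₂ = v₄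
  n₄ : nx v₄ v₃ = v₅
  n₅ : nx v₅ v₄ = v₁
  k₁ : k v₁ v₂ = 5
  k₂ : k v₂ v₃ = 5
  k₃ : k v₃ v₄ = 5
  k₄ : k v₄ v₅ = 5
  k₅ : k v₅ v₁ = 5

/-- LP0: all degrees are 4 -/
def T_LP0 : Prop := ∀ (V : Type) [Fintype V] [DecidableEq V] (G : SimpleGraph V)
  (nx : V → V → V) (k : V → V → ℕ), Ctx G nx k → ∀ v₁ v₂ v₃ v₄ v₅,
  PFace G nx k v₁ v₂ v₃ v₄ v₅ → deg G v₁ = 4 → deg G v₂ = 4 → deg G v₃ = 4 → deg G v₄ = 4 →
  deg G v₅ = 4 →
  0 ≤ fc G nx k v₁ + fc G nx k v₂ + fc G nx k v₃ + fc G nx k v₄ + fc G nx k v₅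

/-- LP1: one vertex of degree at least 5 -/
def T_LP1 : Prop := ∀ (V : Type) [Fintype V] [DecidableEq V] (G : SimpleGraph V)
  (nx : V → V → V) (k : V → V → ℕ), Ctx G nx k → ∀ v₁ v₂ v₃ v₄ v₅,
  PFace G nx k v₁ v₂ v₃ v₄ v₅ → 5 ≤ deg G v₁ → deg G v₂ = 4 → deg G v₃ = 4 → deg G v₄ = 4 →
  deg G v₅ = 4 →
  0 < fc G nx k v₁ + fc G nx k v₂ + fc G nx k v₃ + fc G nx k v₄ + fc G nx k v₅

/-- LP -/
def T_LP : Prop := ∀ (V : Type) [Fintype V] [DecidableEq V] (G : SimpleGraph V)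
  (nx : V → V → V) (k : V → V → ℕ), Ctx G nx k → ∀ v₁ v₂ v₃ v₄ v₅,
  PFace G nx k v₁ v₂ v₃ v₄ v₅ →
  0 ≤ fc G nx k v₁ + fc G nx k v₂ + fc G nx k v₃ + fc G nx k v₄ + fc G nx k v₅ ∧
  (5 ≤ deg G v₁ ∨ 5 ≤ deg G v₂ ∨ 5 ≤ deg G v₃ ∨ 5 ≤ deg G v₄ ∨ 5 ≤ deg G v₅ →
    0 < fc G nx k v₁ + fc G nx k v₂ + fc G nx k v₃ + fc G nx k v₄ + fc G nx k v₅)

/-! ## Conclusion -/

/-- DIS: all degrees are 4 -/
def T_DIS : Prop := ∀ (V : Type) [Fintype V] [DecidableEq V] (G : SimpleGraph V)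
  (nx : V → V → V) (k : V → V → ℕ), Ctx G nx k → ∀ v, deg G v = 4

/-- T34: every vertex is on a triangle or on a 4-face -/
def T_T34 : Prop := ∀ (V : Type) [Fintype V] [DecidableEq V] (G : SimpleGraph V)
  (nx : V → V → V) (k : V → V → ℕ), Ctx G nx k → (∀ v, deg G v = 4) →
  ∀ v, ∃ m, G.Adj v m ∧ k v m ≤ 4

end Pool.Agent.TorDeg
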