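import Pool.Agent.TorDeg.Targets

set_option autoImplicit false
set_option linter.unusedSectionVars false

/-!
# Toolkit for small games
-/

namespace Pool.Agent.TorDeg

section kit

variable {V C : Type} {G : SimpleGraph V} {H : SimpleGraph (V × C)} {g : V × C → ℕ}

lemma res_le (x y : V × C) : res H g x y ≤ g y := by
  unfold res
  split_ifs
  · omega
  · exact le_rfl

lemma res_of_adj {x y : V × C} (h : H.Adj x y) : res H g x y = g y - 1 := by
  unfold res
  rw [if_pos h]

lemma res_of_not {x y : V × C} (h : ¬ H.Adj x y) : res H g x y = g y := by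
  unfold res
  rw [if_neg h]

/-- no change on fibres of vertices which are not adjacent -/
lemma res_nonadj (hc : Cov G H) {u v : V} (h : ¬ G.Adj u v) (i j : C) :
    res H g (u, i) (v, j) = g (v, j) :=
  res_of_not fun hh => h (hc.adj _ _ _ _ hh)

lemma sm_nonadj [Fintype C] (hc : Cov G H) {u v : V} (h : ¬ G.Adj u v) (i : C) :
    sm (res H g (u, i)) v = sm g v :=
  Finset.sum_congr rfl fun j _ => res_nonadj hc h i j

/-- the choice of `x` lowers the sum at `v` by at most one -/
lemma sm_res_le [Fintype C] (hc : Cov G H) (u v : V) (i : C) :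
    sm g v ≤ sm (res H g (u, i)) v + 1 := by
  classical
  unfold sm
  by_cases h : ∃ j, H.Adj (u, i) (v, j)
  · obtain ⟨j, hj⟩ := h
    rw [← Finset.add_sum_erase _ _ (Finset.mem_univ j),
      ← Finset.add_sum_erase (f := fun j => res H g (u, i) (v, j)) _ (Finset.mem_univ j)]
    have h1 : ∑ l ∈ Finset.univ.erase j, g (v, l) =
        ∑ l ∈ Finset.univ.erase j, res H g (u, i) (v, l) := by
      refine Finset.sum_congr rfl fun l hl => ?_
      rw [res_of_not]
      intro hh
      exact (Finset.ne_of_mem_erase hl) (hc.mat _ _ _ _ _ hh hj)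
    rw [h1, res_of_adj hj]
    omega
  · have h1 : ∑ l, g (v, l) = ∑ l, res H g (u, i) (v, l) := by
      refine Finset.sum_congr rfl fun l _ => ?_
      rw [res_of_not]
      intro hh
      exact h ⟨l, hh⟩
    rw [h1]
    omega

/-- no mate of positive value: no change -/
lemma sm_res_eq [Fintype C] {u v : V} {i : C}
    (h : ∀ j, H.Adj (u, i) (v, j) → g (v, j) = 0) :
    sm (res H g (u, i)) v = sm g v := by
  refine Finset.sum_congr rfl fun j _ => ?_
  by_cases hj : H.Adj (u, i) (v, j)
  · rw [res_of_adj hj, h j hj]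
  · rw [res_of_not hj]

/-- a mate of positive value: the sum goes down by one -/
lemma sm_res_hit [Fintype C] (hc : Cov G H) {u v : V} {i j : C}
    (h : H.Adj (u, i) (v, j)) (hg : 0 < g (v, j)) :
    sm (res H g (u, i)) v + 1 = sm g v := by
  classical
  unfold sm
  rw [← Finset.add_sum_erase (f := fun j => g (v, j)) _ (Finset.mem_univ j),
    ← Finset.add_sum_erase (f := fun j => res H g (u, i) (v, j)) _ (Finset.mem_univ j)]
  have h1 : ∑ l ∈ Finset.univ.erase j, g (v, l) =
      ∑ l ∈ Finset.univ.erase j, res H g (u, i) (v, l) := by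
    refine Finset.sum_congr rfl fun l hl => ?_
    rw [res_of_not]
    intro hh
    exact (Finset.ne_of_mem_erase hl) (hc.mat _ _ _ _ _ hh h)
  rw [h1, res_of_adj h]
  omega

lemma exists_pos [Fintype C] {v : V} (h : 0 < sm g v) : ∃ i, 0 < g (v, i) := by
  by_contra hh
  push Not at hh
  have : sm g v = 0 := Finset.sum_eq_zero fun i _ => by have := hh i; omega
  omega

lemma le_sm [Fintype C] (v : V) (i : C) : g (v, i) ≤ sm g v :=
  Finset.single_le_sum (f := fun i => g (v, i)) (fun _ _ => Nat.zero_le _) (Finset.mem_univ i)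

lemma add_le_sm [Fintype C] (v : V) {i j : C} (h : i ≠ j) : g (v, i) + g (v, j) ≤ sm g v := by
  classical
  unfold sm
  rw [← Finset.add_sum_erase _ _ (Finset.mem_univ i)]
  have : g (v, j) ≤ ∑ l ∈ Finset.univ.erase i, g (v, l) :=
    Finset.single_le_sum (f := fun i => g (v, i)) (fun _ _ => Nat.zero_le _)
      (Finset.mem_erase.2 ⟨h.symm, Finset.mem_univ j⟩)
  omega

/-- if the value of one colour is less than the sum there is another one -/
lemma exists_other [Fintype C] {v : V} {i : C} (h : g (v, i) < sm g v) :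
    ∃ j, j ≠ i ∧ 0 < g (v, j) := by
  classical
  by_contra hh
  push Not at hh
  have h1 : sm g v = g (v, i) := by
    unfold sm
    rw [← Finset.add_sum_erase _ _ (Finset.mem_univ i)]
    have : ∑ l ∈ Finset.univ.erase i, g (v, l) = 0 :=
      Finset.sum_eq_zero fun l hl => by
        have := hh l (Finset.ne_of_mem_erase hl); omega
    rw [this, add_zero]
  omega

variable [DecidableEq V]

lemma win_single {v : V} {i : C} (h : 0 < g (v, i)) : Win H {v} g := by
  refine Win.step _ _ v i (Finset.mem_singleton_self v) h ?_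
  rw [Finset.erase_singleton]
  exact Win.nil _

open Classical in
/-- the number of pairs of `P` adjacent to `x` -/
noncomputable def cnt (H : SimpleGraph (V × C)) (P : List (V × C)) (x : V × C) : ℕ :=
  P.countP fun y => H.Adj y x

open Classical in
lemma cnt_cons (P : List (V × C)) (y x : V × C) :
    cnt H (y :: P) x = cnt H P x + if H.Adj y x then 1 else 0 := by
  unfold cnt
  rw [List.countP_cons]
  simp

lemma cnt_nil (x : V × C) : cnt H [] x = 0 := rfl

/-- explicit plays: `P` are the pairs played before (in reversed order), `L` the pairs to play -/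
def Play (H : SimpleGraph (V × C)) (g : V × C → ℕ) : List (V × C) → List (V × C) → Prop
  | _, [] => True
  | P, x :: L => cnt H P x < g x ∧ Play H g (x :: P) L

lemma play_win : ∀ (L P : List (V × C)) (g g' : V × C → ℕ) (A : Finset V),
    Play H g P L → (∀ x, g x ≤ g' x + cnt H P x) → (L.map Prod.fst).Nodup →
    A = (L.map Prod.fst).toFinset → Win H A g'
  | [], P, g, g', A, _, _, _, hA => by
    rw [hA]
    exact Win.nil _
  | x :: L, P, g, g', A, hp, hg, hn, hA => by
    classical
    obtain ⟨hp1, hp2⟩ := hp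
    have h1 := hg x
    rw [List.map_cons, List.nodup_cons] at hn
    refine Win.step _ _ x.1 x.2 ?_ (by show 0 < g' x; omega) ?_
    · rw [hA, List.map_cons, List.toFinset_cons]
      exact Finset.mem_insert_self _ _
    · refine play_win L (x :: P) g _ _ hp2 ?_ hn.2 ?_
      · intro y
        have h2 := hg y
        rw [cnt_cons]
        show g y ≤ res H g' x y + _
        by_cases hxy : H.Adj x y
        · rw [res_of_adj hxy, if_pos hxy]
          omega
        · rw [res_of_not hxy, if_neg hxy]
          omega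
      · rw [hA, List.map_cons, List.toFinset_cons]
        rw [Finset.erase_insert]
        intro hh
        exact hn.1 (List.mem_toFinset.1 hh)

/-- the last two vertices -/
lemma win_pair {x y : V} (hxy : x ≠ y) {i j : C} (hi : 0 < g (x, i)) (hj : 0 < g (y, j))
    (h : ¬ H.Adj (x, i) (y, j)) : Win H {x, y} g := by
  refine Win.step _ _ x i (Finset.mem_insert_self _ _) hi ?_
  rw [Finset.erase_insert (by simpa using hxy)]
  exact win_single (i := j) (by rw [res_of_not h]; exact hj)

/-- after a choice at `x` two adjacent vertices with sums at least one and a third unit -/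
lemma win_pair_two [Fintype C] (hc : Cov G H) {x y : V} (hxy : x ≠ y) (hx : 0 < sm g x)
    (hy : 1 < sm g y) : Win H {x, y} g := by
  obtain ⟨i, hi⟩ := exists_pos hx
  refine Win.step _ _ x i (Finset.mem_insert_self _ _) hi ?_
  rw [Finset.erase_insert (by simpa using hxy)]
  have := sm_res_le (g := g) hc x y i
  obtain ⟨j, hj⟩ := exists_pos (g := res H g (x, i)) (v := y) (by omega)
  exact win_single hj

/-- first half: after the choice of a colour at `x` -/
lemma tri_step [Fintype C] (hc : Cov G H) {x y z : V} (hxy : x ≠ y) (hxz : x ≠ z) (hyz : y ≠ z)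
    (hy : 2 ≤ sm g y) (hz : 2 ≤ sm g z) (hw : ¬ Win H {x, y, z} g) {i : C} (hi : 0 < g (x, i)) :
    ∃ j, H.Adj (x, i) (y, j) ∧ 0 < g (y, j) ∧ sm g y = 2 ∧
      ∀ j' l', 0 < res H g (x, i) (y, j') → 0 < res H g (x, i) (z, l') →
        H.Adj (y, j') (z, l') := by
  have h1 : ¬ Win H {y, z} (res H g (x, i)) := by
    intro hh
    apply hw
    refine Win.step _ _ x i (Finset.mem_insert_self _ _) hi ?_
    rw [Finset.erase_insert (by simp [hxy, hxz])]
    exact hh
  have hz1 : 1 ≤ sm (res H g (x, i)) z := by
    have := sm_res_le (g := g) hc x z i; omega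
  have hy1 : 1 ≤ sm (res H g (x, i)) y := by
    have := sm_res_le (g := g) hc x y i; omega
  have hy2 : ¬ 2 ≤ sm (res H g (x, i)) y := by
    intro hh
    apply h1
    rw [Finset.pair_comm]
    exact win_pair_two hc hyz.symm (by omega) (by omega)
  by_cases h2 : ∃ j, H.Adj (x, i) (y, j) ∧ 0 < g (y, j)
  · obtain ⟨j, hj, hgj⟩ := h2
    have h3 := sm_res_hit hc hj hgj
    refine ⟨j, hj, hgj, by omega, ?_⟩
    intro j' l' hj' hl'
    by_contra hh
    exact h1 (win_pair hyz hj' hl' hh)
  · exfalso
    apply hy2
    rw [sm_res_eq]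
    · exact hy
    · intro j hj
      by_contra h0
      exact h2 ⟨j, hj, Nat.pos_of_ne_zero h0⟩

/-- lost triangles -/
theorem tri [Fintype C] (hc : Cov G H) {x y z : V} (hxy : x ≠ y) (hxz : x ≠ z) (hyz : y ≠ z)
    (hx : 2 ≤ sm g x) (hy : 2 ≤ sm g y) (hz : 2 ≤ sm g z) (hw : ¬ Win H {x, y, z} g) {i : C}
    (hi : 0 < g (x, i)) :
    sm g x = 2 ∧ sm g y = 2 ∧ sm g z = 2 ∧ ∃ j l, g (y, j) = g (x, i) ∧ g (z, l) = g (x, i) ∧
      H.Adj (x, i) (y, j) ∧ H.Adj (x, i) (z, l) ∧ H.Adj (y, j) (z, l) := by
  classical
  -- permutations of the triangle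
  have e1 : ({x, z, y} : Finset V) = {x, y, z} := by
    ext v; simp only [Finset.mem_insert, Finset.mem_singleton]; tauto
  have e2 : ({y, x, z} : Finset V) = {x, y, z} := by
    ext v; simp only [Finset.mem_insert, Finset.mem_singleton]; tauto
  have e3 : ({z, x, y} : Finset V) = {x, y, z} := by
    ext v; simp only [Finset.mem_insert, Finset.mem_singleton]; tauto
  have hw1 : ¬ Win H {x, z, y} g := by rw [e1]; exact hw
  have hw2 : ¬ Win H {y, x, z} g := by rw [e2]; exact hw
  have hw3 : ¬ Win H {z, x, y} g := by rw [e3]; exact hw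
  obtain ⟨j, hj, hgj, sy, hlast⟩ := tri_step hc hxy hxz hyz hy hz hw hi
  obtain ⟨l, hl, hgl, sz, -⟩ := tri_step hc hxz hxy hyz.symm hz hy hw1 hi
  obtain ⟨-, -, -, sx, -⟩ := tri_step hc hxy.symm hyz hxz hx hz hw2 hgj
  refine ⟨sx, sy, sz, j, l, ?_⟩
  by_cases h2 : g (x, i) = 2
  · -- one colour everywhere
    have hx0 : ∀ i', i' ≠ i → g (x, i') = 0 := by
      intro i' hi'
      have := add_le_sm (g := g) x hi'
      omega
    have hy2 : g (y, j) = 2 := by
      by_contra hne
      have hle := le_sm (g := g) y j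
      obtain ⟨j', hj', hgj'⟩ := exists_other (g := g) (v := y) (i := j) (by omega)
      obtain ⟨i', hi', hgi', -, -⟩ := tri_step hc hxy.symm hyz hxz hx hz hw2 hgj'
      have : i' = i := by
        by_contra h
        have := hx0 i' h
        omega
      rw [this] at hi'
      exact hj' (hc.mat _ _ _ _ _ hi'.symm hj)
    have hz2 : g (z, l) = 2 := by
      by_contra hne
      have hle := le_sm (g := g) z l
      obtain ⟨l', hl', hgl'⟩ := exists_other (g := g) (v := z) (i := l) (by omega)
      obtain ⟨i', hi', hgi', -, -⟩ := tri_step hc hxz.symm hyz.symm hxy hx hy hw3 hgl'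
      have : i' = i := by
        by_contra h
        have := hx0 i' h
        omega
      rw [this] at hi'
      exact hl' (hc.mat _ _ _ _ _ hi'.symm hl)
    refine ⟨by omega, by omega, hj, hl, hlast j l ?_ ?_⟩
    · rw [res_of_adj hj]; omega
    · rw [res_of_adj hl]; omega
  · -- two colours everywhere
    have hle := le_sm (g := g) x i
    obtain ⟨i', hi', hgi'⟩ := exists_other (g := g) (v := x) (i := i) (by omega)
    have hsum := add_le_sm (g := g) x hi'
    obtain ⟨j', hj', hgj', -, hlast'⟩ := tri_step hc hxy hxz hyz hy hz hw hgi'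
    obtain ⟨l', hl', hgl', -, -⟩ := tri_step hc hxz hxy hyz.symm hz hy hw1 hgi'
    have hjj : j ≠ j' := by
      intro h
      rw [← h] at hj'
      exact hi' (hc.mat _ _ _ _ _ hj'.symm hj.symm)
    have hll : l ≠ l' := by
      intro h
      rw [← h] at hl'
      exact hi' (hc.mat _ _ _ _ _ hl'.symm hl.symm)
    have hs1 := add_le_sm (g := g) y hjj
    have hs2 := add_le_sm (g := g) z hll
    refine ⟨by omega, by omega, hj, hl, hlast' j l ?_ ?_⟩
    · rw [res_of_not]
      · exact hgj
      · intro h
        exact hjj (hc.mat _ _ _ _ _ h hj')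
    · rw [res_of_not]
      · exact hgl
      · intro h
        exact hll (hc.mat _ _ _ _ _ h hl')

end kit

end Pool.Agent.TorDeg
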